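import Pool.Agent.Work.MP_b0b133_an.R.Far

/-!
# Radial data: the middle region for `E ≥ 7/4 - 3/(4ν)`
-/

set_option autoImplicit false
open scoped Real
open MeasureTheory Filter Topology Complex Finset

namespace Pool.Agent.ConeG.Rad

theorem mid_end3 {x : ℝ} (h0 : 0 ≤ x) (h1 : x ≤ 2 / 5) :
    (4 - x) / (2 * (2 + x) ^ 2) * (7 / 4 - 3 / 4 * x) ^ 2
      + (1 - (4 - x) / (2 * (2 + x) ^ 2)) * (1 + 2 / ((4 + x) * (2 + x))
        + (2 + 2 * x) / (4 + x) * (3 / 4 - 3 / 4 * x) + (3 / 4 - 3 / 4 * x) ^ 2)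
      ≤ 8577 / 10000 * (1 + 3 / 16 * x) * (1 - x / 8 - x ^ 2 / 12) * (7 / 4 - 3 / 4 * x) ^ 2 := by
  have e : 8577 / 10000 * (1 + 3 / 16 * x) * (1 - x / 8 - x ^ 2 / 12) * (7 / 4 - 3 / 4 * x) ^ 2
      - ((4 - x) / (2 * (2 + x) ^ 2) * (7 / 4 - 3 / 4 * x) ^ 2
      + (1 - (4 - x) / (2 * (2 + x) ^ 2)) * (1 + 2 / ((4 + x) * (2 + x))
        + (2 + 2 * x) / (4 + x) * (3 / 4 - 3 / 4 * x) + (3 / 4 - 3 / 4 * x) ^ 2))
      = ((273/20000) + (1223081/320000) * x ^ 1 + (-17720343/2560000) * x ^ 2 + (-30147221/5120000) * x ^ 3 + (1574583/10240000) * x ^ 4 + (12687153/20480000) * x ^ 5 + (420273/10240000) * x ^ 6 + (-1260819/20480000) * x ^ 7 + (-77193/10240000) * x ^ 8)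
        / (2 + x) ^ 3 := by
    have : (2 + x) ≠ 0 := by positivity
    have : (4 + x) ≠ 0 := by positivity
    field_simp
    ring
  have h2 : 0 ≤ (273/20000) + (1223081/320000) * x ^ 1 + (-17720343/2560000) * x ^ 2 + (-30147221/5120000) * x ^ 3 + (1574583/10240000) * x ^ 4 + (12687153/20480000) * x ^ 5 + (420273/10240000) * x ^ 6 + (-1260819/20480000) * x ^ 7 + (-77193/10240000) * x ^ 8 := by
    obtain ⟨y, hy, hxy⟩ : ∃ y : ℝ, 0 ≤ y ∧ y = 2 / 5 - x := ⟨2 / 5 - x, by linarith, rfl⟩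
    have e2 : (273/20000) + (1223081/320000) * x ^ 1 + (-17720343/2560000) * x ^ 2 + (-30147221/5120000) * x ^ 3 + (1574583/10240000) * x ^ 4 + (12687153/20480000) * x ^ 5 + (420273/10240000) * x ^ 6 + (-1260819/20480000) * x ^ 7 + (-77193/10240000) * x ^ 8
      = (170625/8192) * x ^ 0 * y ^ 8 + (163805125/65536) * x ^ 1 * y ^ 7 + (3990654925/262144) * x ^ 2 * y ^ 6 + (10339322945/262144) * x ^ 3 * y ^ 5 + (14388882933/262144) * x ^ 4 * y ^ 4 + (56754903563/1310720) * x ^ 5 * y ^ 3 + (60748348231/3276800) * x ^ 6 * y ^ 2 + (28960509061/8192000) * x ^ 7 * y ^ 1 + (2140058979/20480000) * x ^ 8 * y ^ 0 := by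
      rw [hxy]; ring
    rw [e2]
    positivity
  have h3 := div_nonneg h2 (by positivity : (0 : ℝ) ≤ (2 + x) ^ 3)
  linarith

/-- the middle region -/
theorem mid_num2 {ν E A : ℝ} (hν : 5 / 2 ≤ ν) (h1 : 7 / 4 - 3 / 4 * (1 / ν) ≤ E) (h2 : E ≤ 7 / 2)
    (hA : A ≤ 1 + 2 * ν ^ 2 / ((4 * ν + 1) * (2 * ν + 1))
      + (2 * ν + 2) / (4 * ν + 1) * (E - 1) + (E - 1) ^ 2) :
    kap2 ν * E ^ 2 + (1 - kap2 ν) * A ≤ gl ν * E ^ 2 := by
  have hν0 : 0 < ν := by linarith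
  obtain ⟨x, hx0, hxν⟩ : ∃ x : ℝ, 0 < x ∧ ν = 1 / x := ⟨1 / ν, by positivity, by simp⟩
  have hxe : 1 / ν = x := by rw [hxν]; simp
  have hx1 : x ≤ 2 / 5 := by
    rw [← hxe, div_le_div_iff₀ hν0 (by norm_num)]
    linarith
  rw [hxe] at h1
  have eK := kap2_eq hx0 hxν
  have eG := gl_eq hx0 hxν
  have ec : 2 * ν ^ 2 / ((4 * ν + 1) * (2 * ν + 1)) = 2 / ((4 + x) * (2 + x)) := by
    rw [hxν]; field_simp
  have ea : (2 * ν + 2) / (4 * ν + 1) = (2 + 2 * x) / (4 + x) := by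
    rw [hxν]; field_simp
  rw [ec, ea] at hA
  rw [eK, eG]
  set K := (4 - x) / (2 * (2 + x) ^ 2) with hK
  set g := 8577 / 10000 * (1 + 3 / 16 * x) * (1 - x / 8 - x ^ 2 / 12) with hg
  have hK1 : K ≤ 1 := by
    rw [hK, div_le_one (by positivity)]
    nlinarith
  have hg1 : g ≤ 1 := by
    rw [hg]
    nlinarith [mul_nonneg hx0.le hx0.le, pow_pos hx0 3]
  have e1 := mid_end3 hx0.le hx1
  have e2 := mid_end2 hx0.le hx1
  rw [← hK, ← hg] at e1 e2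
  set c := 2 / ((4 + x) * (2 + x)) with hc
  set a3 := (2 + 2 * x) / (4 + x) with ha3
  have hA2 : (1 - K) * A ≤ (1 - K) * (1 + c + a3 * (E - 1) + (E - 1) ^ 2) :=
    mul_le_mul_of_nonneg_left hA (by linarith)
  set w := 7 / 4 - 3 / 4 * x with hw
  have hw2 : 3 / 4 - 3 / 4 * x = w - 1 := by rw [hw]; ring
  rw [hw2] at e1
  have hD : 0 < 7 / 2 - w := by rw [hw]; linarith
  -- concavity in `E`
  have key : (g * E ^ 2 - (K * E ^ 2 + (1 - K) * (1 + c + a3 * (E - 1) + (E - 1) ^ 2)))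
        * (7 / 2 - w)
      = (g * w ^ 2 - (K * w ^ 2 + (1 - K) * (1 + c + a3 * (w - 1) + (w - 1) ^ 2)))
          * (7 / 2 - E)
        + (g * (7 / 2) ^ 2 - (K * (7 / 2) ^ 2 + (1 - K) * (1 + c + a3 * (5 / 2) + (5 / 2) ^ 2)))
          * (E - w)
        + (1 - g) * ((E - w) * (7 / 2 - E)) * (7 / 2 - w) := by
    ring
  have t1 : 0 ≤ (g * w ^ 2 - (K * w ^ 2
      + (1 - K) * (1 + c + a3 * (w - 1) + (w - 1) ^ 2))) * (7 / 2 - E) :=
    mul_nonneg (by linarith) (by linarith)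
  have t2 : 0 ≤ (g * (7 / 2) ^ 2 - (K * (7 / 2) ^ 2
      + (1 - K) * (1 + c + a3 * (5 / 2) + (5 / 2) ^ 2))) * (E - w) :=
    mul_nonneg (by linarith) (by linarith)
  have t3 : 0 ≤ (1 - g) * ((E - w) * (7 / 2 - E)) * (7 / 2 - w) :=
    mul_nonneg (mul_nonneg (by linarith) (mul_nonneg (by linarith) (by linarith))) hD.le
  have t4 : 0 ≤ (g * E ^ 2 - (K * E ^ 2 + (1 - K) * (1 + c + a3 * (E - 1) + (E - 1) ^ 2)))
      * (7 / 2 - w) := by rw [key]; linarith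
  have t5 := nonneg_of_mul_nonneg_left t4 hD
  linarith

/-- the middle region -/
theorem rad_mid2 (k : ℕ) (hk : 3 ≤ k) (ν : ℝ) (hν : ν = ((k : ℝ) + 2) / 2) (N : ℕ) (hN : 1 ≤ N)
    (a : ℕ → ℂ) (h0 : a 0 = 1) (h1 : a 1 = 0) (h2 : ‖a 2‖ ≤ ν)
    (hE1 : 7 / 4 - 3 / 4 * (1 / ν) ≤ E ν N a)
    (hE2 : E ν N a ≤ 7 / 2) : V ν N a ≤ E ν N a ^ (1 + 1 / ν) := by
  have hk' : (3 : ℝ) ≤ k := by exact_mod_cast hk
  have hν52 : 5 / 2 ≤ ν := by rw [hν]; linarith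
  have hA := A0_le (by linarith : 1 / 2 ≤ ν) N hN a h0 h1 h2
  have hnum := mid_num2 hν52 hE1 hE2 hA
  have hJ1 := sin_int_pos k (2 * ν - 2) (by rw [hν]; ring)
  have hJ2 := sin_int_pos (2 * k + 2) (4 * ν - 2) (by rw [hν]; push_cast; ring)
  refine far_of_quartic k N a ν hν hk (E_nonneg (by linarith) N a)
    (M1_eq (by linarith) hJ1 N a) ?_
  exact (M2_le (by linarith) hJ2 N a).trans (mul_le_mul_of_nonneg_left hnum hJ2.le)

end Pool.Agent.ConeG.Rad
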