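import Pool.Agent.Work.MP_b0b133_an.R.NearFin
import Pool.Agent.Work.MP_b0b133_an.R.Mid2
import Pool.Agent.Work.MP_b0b133_an.R5.NearStar

/-!
# Radial data: the near region
-/

set_option autoImplicit false
open scoped Real
open MeasureTheory Filter Topology Complex Finset

namespace Pool.Agent.ConeG.Rad

open Pool.Agent.ConeRadial (kapN)

/-- second order Bernoulli inequality -/
theorem bern_two {r y : ℝ} (hr : 2 ≤ r) (hy : 0 ≤ y) :
    1 + r * y + r * (r - 1) / 2 * y ^ 2 ≤ (1 + y) ^ r := by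
  have key : 0 ≤ (1 + y) ^ r - 1 - r * y - r * (r - 1) / 2 * y ^ 2 := by
    refine pade_aux
      (f := fun y => (1 + y) ^ r - 1 - r * y - r * (r - 1) / 2 * y ^ 2)
      (f' := fun y => r * ((1 + y) ^ (r - 1) - (1 + (r - 1) * y))) ?_ ?_ ?_ hy
    · intro y hy
      have e1 : HasDerivAt (fun y : ℝ => (1 + y) ^ r) (r * (1 + y) ^ (r - 1)) y := by
        have := ((hasDerivAt_id y).const_add 1).rpow_const (p := r) (Or.inl (by
          simp only [id]
          linarith))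
        simpa [mul_comm, mul_assoc] using this
      have e2 : HasDerivAt (fun y : ℝ => r * y) (r * 1) y := (hasDerivAt_id y).const_mul r
      have e3 : HasDerivAt (fun y : ℝ => y ^ 2) (↑(2 : ℕ) * y ^ (2 - 1)) y := hasDerivAt_pow 2 y
      have e4 : HasDerivAt (fun y => (1 + y) ^ r - 1 - r * y - r * (r - 1) / 2 * y ^ 2)
          (r * (1 + y) ^ (r - 1) - r * 1 - r * (r - 1) / 2 * (↑(2 : ℕ) * y ^ (2 - 1))) y :=
        ((e1.sub_const 1).sub e2).sub (e3.const_mul (r * (r - 1) / 2))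
      refine e4.congr_deriv ?_
      push_cast
      ring
    · simp
    · intro y hy
      refine mul_nonneg (by linarith) (sub_nonneg.2 ?_)
      exact one_add_mul_self_le_rpow_one_add (by linarith) (by linarith)
  linarith

/-- the case `ν ≤ 7/2`: `m = 1` -/
theorem near_small (k : ℕ) (hk : 3 ≤ k) (ν : ℝ) (hν : ν = ((k : ℝ) + 2) / 2) {l2 l3 c : ℝ}
    (H : NumOK (1 / ν) 0 (49 / 20 * Sh (1 / ν)) (Wh (1 / ν)) l2 l3 c)
    (N : ℕ) (hN : 1 ≤ N) (a : ℕ → ℂ) (h0 : a 0 = 1) (h1 : a 1 = 0) (h2 : ‖a 2‖ ≤ ν)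
    (hE : E ν N a ≤ 7 / 4 - 3 / 4 * (1 / ν)) : V ν N a ≤ E ν N a ^ (1 + 1 / ν) := by
  have hk' : (3 : ℝ) ≤ k := by exact_mod_cast hk
  have hν0 : 5 / 2 ≤ ν := by rw [hν]; linarith
  have hm : (1 : ℝ) ≤ 1 := le_rfl
  have hA : (ν - 1) * 1 ≤ ν - 1 + 0 := by linarith
  have hK : 49 / 20 * (1 : ℝ) ^ (1 - ν / 2) ≤ 49 / 20 := by rw [Real.one_rpow]; linarith
  have hb0 : (0 : ℝ) ≤ 1 ^ (1 - ν) := by rw [Real.one_rpow]; norm_num
  refine rad_near_of k hk ν hν H (K1 := 49 / 20) (b0 := 1 ^ (1 - ν)) ?_ ?_ hb0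
    (Star.star_nonneg hν0 hm hA hK) (Star.star_sin hν0 hm hA hK) N hN a h0 h1 h2 hE
  · exact mul_le_mul_of_nonneg_left (S0_le k hk ν hν) (by norm_num)
  · rw [Real.one_rpow, one_mul]
    exact W0_le k hk ν hν

/-- the case `4 ≤ ν` -/
theorem near_large (k : ℕ) (hk : 6 ≤ k) (ν : ℝ) (hν : ν = ((k : ℝ) + 2) / 2)
    (N : ℕ) (hN : 1 ≤ N) (a : ℕ → ℂ) (h0 : a 0 = 1) (h1 : a 1 = 0) (h2 : ‖a 2‖ ≤ ν)
    (hE : E ν N a ≤ 7 / 4 - 3 / 4 * (1 / ν)) : V ν N a ≤ E ν N a ^ (1 + 1 / ν) := by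
  have hk' : (6 : ℝ) ≤ k := by exact_mod_cast hk
  have hν4 : 4 ≤ ν := by rw [hν]; linarith
  have hν1 : 0 < ν := by linarith
  obtain ⟨x, hx0, hxν⟩ : ∃ x : ℝ, 0 < x ∧ ν = 1 / x := ⟨1 / ν, by positivity, by simp⟩
  have hxe : 1 / ν = x := by rw [hxν]; simp
  have hx1 : x ≤ 1 / 4 := by
    rw [← hxe, div_le_div_iff₀ (by linarith) (by norm_num)]
    linarith
  have H := numII hx0.le hx1
  have hq0 : 0 ≤ qq x := by unfold qq; linarith
  have hp0 : 0 < pp x := by unfold pp; positivity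
  have hK0 : 0 ≤ Kh x := by unfold Kh; nlinarith
  have hS0 : 0 ≤ Sh x := by unfold Sh; positivity
  have hW0 : 0 ≤ Wh x := by unfold Wh; positivity
  have hp1 : pp x ≤ 1 := by
    have := pol_p1 hx0.le hx1
    have e : 1 - pp x = (1639/10000) + (-133/250) * x ^ 1 + (-7/50) * x ^ 2 := by
      unfold pp; ring
    linarith
  have hx2 : 0 < 1 - x := by linarith
  obtain ⟨q, hq⟩ : ∃ q : ℝ, q = qq x := ⟨_, rfl⟩
  obtain ⟨m, hm⟩ : ∃ m : ℝ, m = 1 + q / (ν - 1) := ⟨_, rfl⟩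
  have hν3 : 0 < ν - 1 := by linarith
  rw [← hq] at hq0
  have hm1 : 1 ≤ m := by
    rw [hm]
    have : 0 ≤ q / (ν - 1) := div_nonneg hq0 hν3.le
    linarith
  have hm0 : 0 < m := by linarith
  have hmA : (ν - 1) * m ≤ ν - 1 + q := by
    rw [hm]
    refine le_of_eq ?_
    field_simp
  obtain ⟨θ, hθ⟩ : ∃ θ : ℝ, θ = (1 - 2 * x) / (2 * (1 - x)) := ⟨_, rfl⟩
  have hθ0 : 0 ≤ θ := by rw [hθ]; exact div_nonneg (by linarith) (by linarith)
  have hθ1 : θ ≤ 1 := by rw [hθ, div_le_one (by linarith)]; linarith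
  have hθν : θ = (ν - 2) / (2 * (ν - 1)) := by
    rw [hθ, div_eq_div_iff (by linarith) (by linarith), hxν]
    field_simp
  -- the lower bound of `m ^ (ν - 1)`
  have hZ : 1 + q + q ^ 2 * θ ≤ m ^ (ν - 1) := by
    have h := bern_two (r := ν - 1) (y := q / (ν - 1)) (by linarith) (div_nonneg hq0 hν3.le)
    rw [hm]
    refine le_trans (le_of_eq ?_) h
    rw [hθν]
    field_simp
    ring
  have hZ0 : 0 < 1 + q + q ^ 2 * θ := by positivity
  have hpZ : 1 ≤ pp x * (1 + q + q ^ 2 * θ) := by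
    have h := pol_p hx0.le hx1
    have e : pp x * (2 * (1 - x) * (1 + q) + q ^ 2 * (1 - 2 * x)) - 2 * (1 - x)
        = (7141/25000000) + (56701/25000000) * x ^ 1 + (371077/20000000) * x ^ 2 + (-4426709/50000000) * x ^ 3 + (-317079/2500000) * x ^ 4 + (-27783/250000) * x ^ 5 := by
      rw [hq]; unfold pp qq; ring
    have e2 : pp x * (2 * (1 - x) * (1 + q) + q ^ 2 * (1 - 2 * x))
        = pp x * (1 + q + q ^ 2 * θ) * (2 * (1 - x)) := by
      rw [hθ]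
      field_simp
    have h3 : 1 * (2 * (1 - x)) ≤ pp x * (1 + q + q ^ 2 * θ) * (2 * (1 - x)) := by
      rw [← e2]
      linarith
    exact le_of_mul_le_mul_right h3 (by linarith)
  have hb : m ^ (1 - ν) ≤ pp x := by
    have e : (1 : ℝ) - ν = -(ν - 1) := by ring
    rw [e, Real.rpow_neg hm0.le, inv_le_comm₀ (Real.rpow_pos_of_pos hm0 _) hp0]
    refine le_trans ?_ hZ
    rw [inv_eq_one_div, div_le_iff₀ hp0, mul_comm]
    exact hpZ
  have hb0 : 0 < m ^ (1 - ν) := Real.rpow_pos_of_pos hm0 _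
  have hKb : 49 / 20 * m ^ (1 - ν / 2) ≤ Kh x := by
    have e : m ^ (1 - ν / 2) = (m ^ (1 - ν)) ^ θ := by
      rw [← Real.rpow_mul hm0.le]
      congr 1
      rw [hθν]
      field_simp
      ring
    have h3 : (m ^ (1 - ν)) ^ θ ≤ pp x ^ θ := Real.rpow_le_rpow hb0.le hb hθ0
    have h4 : pp x ^ θ ≤ 1 + θ * (pp x - 1) := by
      have := rpow_one_add_le_one_add_mul_self (s := pp x - 1) (p := θ) (by linarith) hθ0 hθ1
      have e5 : 1 + (pp x - 1) = pp x := by ring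
      rwa [e5] at this
    have h5 := pol_K hx0.le hx1
    have e6 : Kh x * (2 * (1 - x)) - 49 / 20 * (2 * (1 - x) - (1 - 2 * x) * (1 - pp x))
        = (431/200000) + (1689/100000) * x ^ 1 + (-2001/5000) * x ^ 2 + (813/500) * x ^ 3 := by
      unfold Kh pp; ring
    have e7 : 49 / 20 * (2 * (1 - x) - (1 - 2 * x) * (1 - pp x))
        = 49 / 20 * (1 + θ * (pp x - 1)) * (2 * (1 - x)) := by
      rw [hθ]
      field_simp
      ring
    have h8 : 49 / 20 * (1 + θ * (pp x - 1)) * (2 * (1 - x)) ≤ Kh x * (2 * (1 - x)) := by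
      rw [← e7]
      linarith
    have h9 := le_of_mul_le_mul_right h8 (by linarith)
    rw [e]
    linarith
  have hνge : 5 / 2 ≤ ν := by linarith
  have hS := S0_le k (by omega) ν hν
  have hW := W0_le k (by omega) ν hν
  rw [hxe] at hS hW
  have hSn := S0_nonneg (by linarith : 1 ≤ ν)
  have hWn := W0_nonneg (by linarith : 1 ≤ ν)
  rw [← hq] at H
  rw [← hxe] at H hKb hb hS hW hS0 hW0 hK0 hp0
  refine rad_near_of k (by omega) ν hν H (K1 := Kh (1 / ν)) (b0 := m ^ (1 - ν)) ?_ ?_ hb0.le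
    (Star.star_nonneg hνge hm1 hmA hKb) (Star.star_sin hνge hm1 hmA hKb) N hN a h0 h1 h2 hE
  · exact mul_le_mul_of_nonneg_left hS hK0
  · exact mul_le_mul hb hW hWn hp0.le

/-- **The near region.** -/
theorem rad_near (k : ℕ) (hk : 3 ≤ k) (ν : ℝ) (hν : ν = ((k : ℝ) + 2) / 2)
    (N : ℕ) (hN : 1 ≤ N) (a : ℕ → ℂ) (h0 : a 0 = 1) (h1 : a 1 = 0) (h2 : ‖a 2‖ ≤ ν)
    (hE : E ν N a ≤ 7 / 4) : V ν N a ≤ E ν N a ^ (1 + 1 / ν) := by
  rcases le_total (E ν N a) (7 / 4 - 3 / 4 * (1 / ν)) with h | h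
  · rcases (by omega : k = 3 ∨ k = 4 ∨ k = 5 ∨ 6 ≤ k) with rfl | rfl | rfl | h6
    · have e : 1 / ν = 2 / 5 := by rw [hν]; norm_num
      refine near_small 3 hk ν hν (l2 := 5 / 1000) (l3 := 218 / 1000) (c := 212 / 1000) ?_
        N hN a h0 h1 h2 h
      rw [e]
      exact numI3
    · have e : 1 / ν = 1 / 3 := by rw [hν]; norm_num
      refine near_small 4 hk ν hν (l2 := 19 / 1000) (l3 := 229 / 1000) (c := 209 / 1000) ?_
        N hN a h0 h1 h2 h
      rw [e]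
      exact numI2
    · have e : 1 / ν = 2 / 7 := by rw [hν]; norm_num
      refine near_small 5 hk ν hν (l2 := 28 / 1000) (l3 := 237 / 1000) (c := 200 / 1000) ?_
        N hN a h0 h1 h2 h
      rw [e]
      exact numI1
    · exact near_large k h6 ν hν N hN a h0 h1 h2 h
  · exact rad_mid2 k hk ν hν N hN a h0 h1 h2 h (by linarith)

end Pool.Agent.ConeG.Rad
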