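import Mathlib

/-!
# Radial data: the core inequality

`F` is a zonal wave on the cylinder `ℝ × Sᵈ`, `ν = (d - 1) / 2`, without its phase `e^{-iνT}`; `E` is
its energy, `V` the mean of `|F|^p`, `p = 2 (1 + 1/ν)`.
-/

set_option autoImplicit false
open MeasureTheory Complex
open scoped Real

namespace Pool.Agent.ConeG.Rad

/-- the normalised Gegenbauer polynomials `C_l^(ν)(t) / C_l^(ν)(1)` -/
noncomputable def Ch (ν : ℝ) : ℕ → ℝ → ℝ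
  | 0, _ => 1
  | 1, t => t
  | (l + 2), t => (2 * (l + 1 + ν) * t * Ch ν (l + 1) t - (l + 1) * Ch ν l t) / (l + 1 + 2 * ν)

/-- `(2ν)_l / l! = C_l^(ν)(1)` -/
noncomputable def cf (ν : ℝ) (l : ℕ) : ℝ := ∏ k ∈ Finset.range l, (2 * ν + k) / (k + 1)

/-- `l! / (2ν)_l` -/
noncomputable def wt (ν : ℝ) (l : ℕ) : ℝ := (cf ν l)⁻¹

/-- the zonal wave with the coefficients `a_0, …, a_{N-1}` -/
noncomputable def F (ν : ℝ) (N : ℕ) (a : ℕ → ℂ) (T g : ℝ) : ℂ :=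
  ∑ l ∈ Finset.range N, a l * (Ch ν l (Real.cos g) : ℂ) * cexp (-((l : ℂ) * (T : ℂ) * I))

/-- the constant of the probability measure `c_ν (sin g)^{2ν} dg` on `[0, π]` -/
noncomputable def cn (ν : ℝ) : ℝ := (∫ g in (0 : ℝ)..π, Real.sin g ^ (2 * ν))⁻¹

/-- the mean of `|F|^p`, `p = 2 (1 + 1/ν)` -/
noncomputable def V (ν : ℝ) (N : ℕ) (a : ℕ → ℂ) : ℝ :=
  (2 * π)⁻¹ * ∫ T in (0 : ℝ)..(2 * π),
    cn ν * ∫ g in (0 : ℝ)..π, ‖F ν N a T g‖ ^ (2 * (1 + 1 / ν)) * Real.sin g ^ (2 * ν)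

/-- the energy -/
noncomputable def E (ν : ℝ) (N : ℕ) (a : ℕ → ℂ) : ℝ := ∑ l ∈ Finset.range N, wt ν l * ‖a l‖ ^ 2

/-- the core inequality, in the frame of maximal overlap with the constants -/
def RadCore (ν : ℝ) : Prop := ∀ (N : ℕ) (a : ℕ → ℂ), 1 ≤ N → a 0 = 1 → a 1 = 0 → ‖a 2‖ ≤ ν →
  V ν N a ≤ E ν N a ^ (1 + 1 / ν)

/-- the core inequality for small energy -/
def RadCoreA (ν : ℝ) : Prop := ∀ (N : ℕ) (a : ℕ → ℂ), 1 ≤ N → a 0 = 1 → a 1 = 0 → ‖a 2‖ ≤ ν →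
  E ν N a ≤ 7 / 2 → V ν N a ≤ E ν N a ^ (1 + 1 / ν)

/-- the core inequality for large energy -/
def RadCoreB (ν : ℝ) : Prop := ∀ (N : ℕ) (a : ℕ → ℂ),
  (∀ z : ℂ, ‖z‖ < 1 → ‖∑ l ∈ Finset.range N, a l * z ^ l‖ ^ 2 * (1 - ‖z‖ ^ 2) ^ (2 * ν) ≤ 21 / 20) →
  3 ≤ E ν N a → V ν N a ≤ E ν N a ^ (1 + 1 / ν)

end Pool.Agent.ConeG.Rad
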