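import Pool.Agent.Work.MP_b0b133_an.R.Shell

/-!
# Density of the radial exponentials in the radial functions
-/

set_option autoImplicit false
open MeasureTheory Complex Filter Metric
open scoped ENNReal NNReal ComplexConjugate Topology Real

namespace Pool.Agent.ConeG.Rad

/-- injectivity of the Fourier transform, real case -/
theorem inj_real {μ : Measure ℝ} {g : ℝ → ℝ} (hg : Integrable g μ)
    (h : ∀ x : ℝ, ∫ r, (g r : ℂ) * cexp (x * r * I) ∂μ = 0) : g =ᵐ[μ] 0 := by
  set μ₁ : Measure ℝ := μ.withDensity fun r => ENNReal.ofReal (g r) with hμ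
  set ν₁ : Measure ℝ := μ.withDensity fun r => ENNReal.ofReal (-g r) with hν
  have : IsFiniteMeasure μ₁ := isFiniteMeasure_withDensity_ofReal hg.2
  have : IsFiniteMeasure ν₁ := isFiniteMeasure_withDensity_ofReal hg.neg.2
  have hgm : AEMeasurable g μ := hg.aemeasurable
  have hgn : AEMeasurable (fun r => -g r) μ := hgm.neg
  have key : μ₁ = ν₁ := by
    refine Measure.ext_of_charFun ?_
    funext x
    rw [charFun_apply_real, charFun_apply_real, hμ, hν,
      integral_withDensity_eq_integral_toReal_smul₀ hgm.ennreal_ofReal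
        (Eventually.of_forall fun _ => ENNReal.ofReal_lt_top),
      integral_withDensity_eq_integral_toReal_smul₀ hgn.ennreal_ofReal
        (Eventually.of_forall fun _ => ENNReal.ofReal_lt_top)]
    have hb : ∀ r : ℝ, ‖cexp (x * r * I)‖ ≤ 1 := fun r => by
      rw [← Complex.ofReal_mul, Complex.norm_exp_ofReal_mul_I]
    have hmc : AEStronglyMeasurable (fun r : ℝ => cexp (x * r * I)) μ := by
      have : Continuous fun r : ℝ => cexp (x * r * I) := by fun_prop
      exact this.aestronglyMeasurable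
    have i1 : Integrable (fun r : ℝ => (ENNReal.ofReal (g r)).toReal • cexp (x * r * I)) μ := by
      have i0 : Integrable (fun r => (ENNReal.ofReal (g r)).toReal) μ := by
        refine hg.pos_part.congr (Eventually.of_forall fun r => ?_)
        simp only [ENNReal.toReal_ofReal']
      have := i0.ofReal (𝕜 := ℂ) |>.mul_bdd (c := 1) hmc (Eventually.of_forall hb)
      refine this.congr (Eventually.of_forall fun r => ?_)
      simp only [Complex.real_smul]
      rfl
    have i2 : Integrable (fun r : ℝ => (ENNReal.ofReal (-g r)).toReal • cexp (x * r * I)) μ := by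
      have i0 : Integrable (fun r => (ENNReal.ofReal (-g r)).toReal) μ := by
        refine hg.neg.pos_part.congr (Eventually.of_forall fun r => ?_)
        simp only [ENNReal.toReal_ofReal', Pi.neg_apply]
      have := i0.ofReal (𝕜 := ℂ) |>.mul_bdd (c := 1) hmc (Eventually.of_forall hb)
      refine this.congr (Eventually.of_forall fun r => ?_)
      simp only [Complex.real_smul]
      rfl
    rw [← sub_eq_zero, ← integral_sub i1 i2, ← h x]
    refine integral_congr_ae (Eventually.of_forall fun r => ?_)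
    simp only
    rw [← sub_smul, Complex.real_smul]
    congr 2
    rw [ENNReal.toReal_ofReal', ENNReal.toReal_ofReal']
    rcases le_total 0 (g r) with h0 | h0
    · rw [max_eq_left h0, max_eq_right (by linarith), sub_zero]
    · rw [max_eq_right h0, max_eq_left (by linarith), zero_sub, neg_neg]
  have h1 := (withDensity_eq_iff hgm.ennreal_ofReal hgn.ennreal_ofReal
    (ne_of_lt (hg.lintegral_lt_top))).1 key
  filter_upwards [h1] with r hr
  by_contra h0
  rcases lt_or_gt_of_ne h0 with h2 | h2
  · simp only [Pi.zero_apply] at h2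
    rw [ENNReal.ofReal_of_nonpos h2.le, eq_comm, ENNReal.ofReal_eq_zero] at hr
    linarith
  · simp only [Pi.zero_apply] at h2
    rw [ENNReal.ofReal_of_nonpos (by linarith : -g r ≤ 0), ENNReal.ofReal_eq_zero] at hr
    linarith

/-- injectivity of the Fourier transform -/
theorem inj_cx {μ : Measure ℝ} {g : ℝ → ℂ} (hg : Integrable g μ)
    (h : ∀ x : ℝ, ∫ r, g r * cexp (x * r * I) ∂μ = 0) : g =ᵐ[μ] 0 := by
  have hb : ∀ x r : ℝ, ‖cexp (x * r * I)‖ ≤ 1 := fun x r => by
    rw [← Complex.ofReal_mul, Complex.norm_exp_ofReal_mul_I]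
  have hmc : ∀ x : ℝ, AEStronglyMeasurable (fun r : ℝ => cexp (x * r * I)) μ := fun x => by
    have : Continuous fun r : ℝ => cexp (x * r * I) := by fun_prop
    exact this.aestronglyMeasurable
  have hgc : Integrable (fun r => conj (g r)) μ := by
    have := (Complex.conjCLE : ℂ ≃L[ℝ] ℂ).toContinuousLinearMap.integrable_comp hg
    exact this
  have h2 : ∀ x : ℝ, ∫ r, conj (g r) * cexp (x * r * I) ∂μ = 0 := by
    intro x
    have h3 := congrArg conj (h (-x))
    rw [← integral_conj, map_zero] at h3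
    rw [← h3]
    refine integral_congr_ae (Eventually.of_forall fun r => ?_)
    simp only
    rw [map_mul, ← Complex.exp_conj, map_mul, map_mul, Complex.conj_I, Complex.conj_ofReal,
      Complex.conj_ofReal]
    congr 2
    push_cast
    ring
  have i1 : ∀ x : ℝ, Integrable (fun r => g r * cexp (x * r * I)) μ := fun x =>
    hg.mul_bdd (c := 1) (hmc x) (Eventually.of_forall (hb x))
  have i2 : ∀ x : ℝ, Integrable (fun r => conj (g r) * cexp (x * r * I)) μ := fun x =>
    hgc.mul_bdd (c := 1) (hmc x) (Eventually.of_forall (hb x))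
  have hre := inj_real (g := fun r => (g r).re) hg.re (fun x => by
    have e : ∀ r : ℝ, (((g r).re : ℝ) : ℂ) * cexp (x * r * I) =
        (1 / 2 : ℂ) * (g r * cexp (x * r * I) + conj (g r) * cexp (x * r * I)) := fun r => by
      rw [Complex.re_eq_add_conj]; ring
    simp only [e]
    rw [integral_const_mul, integral_add (i1 x) (i2 x), h, h2, add_zero, mul_zero])
  have him := inj_real (g := fun r => (g r).im) hg.im (fun x => by
    have e : ∀ r : ℝ, (((g r).im : ℝ) : ℂ) * cexp (x * r * I) =
        (1 / (2 * I) : ℂ) * (g r * cexp (x * r * I) - conj (g r) * cexp (x * r * I)) := fun r => by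
      rw [Complex.im_eq_sub_conj]; ring
    simp only [e]
    rw [integral_const_mul, integral_sub (i1 x) (i2 x), h, h2, sub_zero, mul_zero])
  filter_upwards [hre, him] with r e1 e2
  exact Complex.ext e1 e2

variable {d : ℕ}

/-- the law of the norm -/
noncomputable def rho (d : ℕ) : Measure ℝ := (sig d).map fun ξ => ‖ξ‖

theorem rho_mp : MeasurePreserving (fun ξ : Rd d => ‖ξ‖) (sig d) (rho d) :=
  ⟨measurable_norm, rfl⟩

/-- the exponential on the half-line -/
noncomputable def ex (z : ℂ) : ℝ → ℂ := fun r => cexp (-(z * (r : ℂ)))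

theorem ex_cont (z : ℂ) : Continuous (ex z) := by
  unfold ex
  fun_prop

section
variable [Fact (2 ≤ d)]

theorem rex_mem {z : ℂ} (hz : 0 < z.re) : MemLp (rex d z) 2 (sig d) := by
  rw [rex_eq]
  exact (expo_integrable _ _ (rex_fwd hz)).2

theorem ex_mem {z : ℂ} (hz : 0 < z.re) : MemLp (ex z) 2 (rho d) := by
  unfold rho
  rw [memLp_map_measure_iff (ex_cont z).aestronglyMeasurable measurable_norm.aemeasurable]
  exact rex_mem hz

/-- totality of the exponentials on the half-line -/
theorem ex_total (u : ℝ → ℂ) (hu : MemLp u 2 (rho d))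
    (h : ∀ z : ℂ, 0 < z.re → ∫ r, u r * ex z r ∂(rho d) = 0) : u =ᵐ[rho d] 0 := by
  have h1 : Integrable (fun r => u r * ex 1 r) (rho d) :=
    hu.integrable_mul (ex_mem (by simp))
  have h2 := inj_cx h1 (fun x => by
    have := h (1 - x * I) (by simp)
    rw [← this]
    refine integral_congr_ae (Eventually.of_forall fun r => ?_)
    simp only [ex]
    rw [mul_assoc, ← Complex.exp_add]
    congr 2
    ring)
  filter_upwards [h2] with r hr
  have : ex 1 r ≠ 0 := Complex.exp_ne_zero _
  exact (mul_eq_zero.1 hr).resolve_right this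

/-- the span of the exponentials on the half-line -/
noncomputable def exS (d : ℕ) [Fact (2 ≤ d)] : Submodule ℂ (Lp ℂ 2 (rho d)) :=
  Submodule.span ℂ {f | ∃ (z : ℂ) (hz : 0 < z.re), f = (ex_mem (d := d) hz).toLp (ex z)}

theorem exS_top : (exS d).topologicalClosure = ⊤ := by
  rw [Submodule.topologicalClosure_eq_top_iff, Submodule.eq_bot_iff]
  intro f hf
  have h0 : (fun r => conj (f r)) =ᵐ[rho d] 0 := by
    refine ex_total _ (Lp.memLp f).star fun z hz => ?_
    have h1 : (ex_mem hz).toLp (ex z) ∈ exS d := Submodule.subset_span ⟨z, hz, rfl⟩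
    have h2 := (Submodule.mem_orthogonal' _ _).1 hf _ h1
    rw [L2.inner_def] at h2
    rw [← h2]
    refine integral_congr_ae ?_
    filter_upwards [(ex_mem (d := d) hz).coeFn_toLp] with r hr
    rw [hr, RCLike.inner_apply, mul_comm]
  refine (Lp.eq_zero_iff_ae_eq_zero).2 ?_
  filter_upwards [h0] with r hr
  have := congrArg conj hr
  simpa using this

/-- the law of the norm is absolutely continuous on the half-line -/
theorem rho_ac : rho d ≪ (volume : Measure ℝ).restrict (Set.Ioi 0) := by
  have : Nonempty (Fin d) := ⟨⟨0, by have := two_le d; omega⟩⟩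
  have : Nontrivial (Rd d) := inferInstance
  refine Measure.AbsolutelyContinuous.mk fun s hs h0 => ?_
  unfold rho
  rw [Measure.map_apply measurable_norm hs]
  have hac : sig d ≪ (volume : Measure (Rd d)) := withDensity_absolutelyContinuous _ _
  refine hac ?_
  set f : ℝ → ℝ := s.indicator fun _ => 1 with hf
  have h1 : f =ᵐ[(volume : Measure ℝ).restrict (Set.Ioi 0)] 0 := indicator_meas_zero h0
  have h2 : (fun y : ℝ => y ^ (Module.finrank ℝ (Rd d) - 1) • f y)
      =ᵐ[(volume : Measure ℝ).restrict (Set.Ioi 0)] 0 := by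
    filter_upwards [h1] with y hy
    rw [hy]
    simp
  have h3 : Integrable (fun ξ : Rd d => f ‖ξ‖) :=
    (integrable_fun_norm_addHaar _).2 ((integrable_zero _ _ _).congr h2.symm)
  have h4 : ∫ ξ : Rd d, f ‖ξ‖ = 0 := by
    rw [integral_fun_norm_addHaar, integral_congr_ae h2]
    simp
  have h5 := (integral_eq_zero_iff_of_nonneg
    (fun ξ => Set.indicator_nonneg (fun _ _ => zero_le_one) _) h3).1 h4
  have h6 := ae_iff.1 h5
  refine measure_mono_null (fun ξ hξ => ?_) h6
  have h7 : ‖ξ‖ ∈ s := hξ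
  show f ‖ξ‖ ≠ 0
  rw [hf, Set.indicator_of_mem h7]
  exact one_ne_zero

theorem rad_meas (h : ℝ → ℂ) (hf : MemLp (fun ξ : Rd d => h ‖ξ‖) 2 (sig d)) :
    AEStronglyMeasurable h (rho d) := by
  have : Nonempty (Fin d) := ⟨⟨0, by have := two_le d; omega⟩⟩
  have : Nontrivial (Rd d) := inferInstance
  have h1 : Integrable (fun ξ : Rd d => h ‖ξ‖ * ex 1 ‖ξ‖) (sig d) :=
    hf.integrable_mul (rex_mem (z := 1) (by simp))
  have h2 := D_integrable_sig.1 h1
  have h3 := (integrable_fun_norm_addHaar (E := Rd d) volume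
    (f := fun r => r⁻¹ • (h r * ex 1 r))).1 h2
  have h4 := h3.aestronglyMeasurable
  set n := Module.finrank ℝ (Rd d) - 1 with hn
  have h5 : AEStronglyMeasurable h ((volume : Measure ℝ).restrict (Set.Ioi 0)) := by
    have hm : Measurable fun r : ℝ => ((r * (r ^ n)⁻¹ : ℝ) : ℂ) * ex (-1) r :=
      (Complex.measurable_ofReal.comp (by fun_prop)).mul (ex_cont _).measurable
    refine (hm.aestronglyMeasurable.mul h4).congr ?_
    filter_upwards [ae_restrict_mem measurableSet_Ioi] with r hr
    have hr0 : (r : ℂ) ≠ 0 := by exact_mod_cast (ne_of_gt hr)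
    have he : ex (-1) r * ex 1 r = 1 := by
      unfold ex
      rw [← Complex.exp_add]
      simp
    simp only [Pi.mul_apply, Complex.real_smul]
    push_cast
    have hrn : (r : ℂ) ^ n ≠ 0 := pow_ne_zero _ hr0
    calc _ = ((r : ℂ) * (r : ℂ)⁻¹) * ((r : ℂ) ^ n * ((r : ℂ) ^ n)⁻¹) * (ex (-1) r * ex 1 r) * h r := by
          ring
      _ = h r := by rw [mul_inv_cancel₀ hr0, mul_inv_cancel₀ hrn, he]; ring
  exact h5.mono_ac rho_ac

theorem exS_dat (v : Lp ℂ 2 (rho d)) (hv : v ∈ exS d) : ∃ D : Dat,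
    Lp.compMeasurePreserving (fun ξ : Rd d => ‖ξ‖) rho_mp v = U_S ⟨D.fn d, D.fn_mem⟩ := by
  unfold exS at hv
  induction hv using Submodule.span_induction with
  | mem f h =>
    obtain ⟨z, hz, rfl⟩ := h
    refine ⟨⟨Unit, fun _ => 1, fun _ => z, fun _ => hz⟩, ?_⟩
    rw [Lp.toLp_compMeasurePreserving]
    refine Lp.ext ((MemLp.coeFn_toLp _).trans ((U_S_coe _).trans ?_).symm)
    refine Eventually.of_forall fun ξ => ?_
    simp [Dat.fn, rex, ex]
  | zero =>
    refine ⟨⟨Empty, fun i => i.elim, fun i => i.elim, fun i => i.elim⟩, ?_⟩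
    rw [map_zero]
    refine Lp.ext ((Lp.coeFn_zero _ _ _).trans ((U_S_coe _).trans ?_).symm)
    refine Eventually.of_forall fun ξ => ?_
    simp [Dat.fn]
  | add f g _ _ h1 h2 =>
    obtain ⟨D₁, h1⟩ := h1
    obtain ⟨D₂, h2⟩ := h2
    refine ⟨⟨D₁.ι ⊕ D₂.ι, Sum.elim D₁.κ D₂.κ, Sum.elim D₁.z D₂.z, fun i => ?_⟩, ?_⟩
    · rcases i with i | i
      · exact D₁.hz i
      · exact D₂.hz i
    · rw [map_add, h1, h2, ← map_add]
      congr 1
      refine Subtype.ext ?_
      funext ξ
      simp [Dat.fn]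
  | smul c f _ h =>
    obtain ⟨D, h⟩ := h
    refine ⟨D.smul c, ?_⟩
    have e : Lp.compMeasurePreserving (fun ξ : Rd d => ‖ξ‖) rho_mp (c • f) =
        c • Lp.compMeasurePreserving (fun ξ : Rd d => ‖ξ‖) rho_mp f := by
      refine Lp.ext ?_
      have a1 := Lp.coeFn_compMeasurePreserving (c • f) (rho_mp (d := d))
      have a2 := Lp.coeFn_compMeasurePreserving f (rho_mp (d := d))
      have a3 := Lp.coeFn_smul c (Lp.compMeasurePreserving (fun ξ : Rd d => ‖ξ‖) rho_mp f)
      have a4 := (rho_mp (d := d)).quasiMeasurePreserving.ae (Lp.coeFn_smul c f)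
      filter_upwards [a1, a2, a3, a4] with ξ b1 b2 b3 b4
      rw [b1, b3, Pi.smul_apply, b2]
      exact b4
    rw [e, h, ← map_smul]
    congr 1
    refine Subtype.ext ?_
    exact (D.fn_smul c).symm

/-- radial functions are approximated by sums of radial exponentials -/
theorem rad_dens (h : ℝ → ℂ) (hf : MemLp (fun ξ : Rd d => h ‖ξ‖) 2 (sig d)) (ε : ℝ) (hε : 0 < ε) :
    ∃ D : Dat, ‖hf.toLp _ - U_S ⟨D.fn d, D.fn_mem⟩‖ < ε := by
  have hu : MemLp h 2 (rho d) :=
    (memLp_map_measure_iff (rad_meas h hf) measurable_norm.aemeasurable).2 hf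
  have h1 : hu.toLp h ∈ closure (exS d : Set (Lp ℂ 2 (rho d))) := by
    have : hu.toLp h ∈ (exS d).topologicalClosure := by rw [exS_top]; trivial
    exact this
  obtain ⟨v, hv, h2⟩ := Metric.mem_closure_iff.1 h1 ε hε
  obtain ⟨D, hD⟩ := exS_dat v hv
  refine ⟨D, ?_⟩
  have h3 : hf.toLp _ = Lp.compMeasurePreserving (fun ξ : Rd d => ‖ξ‖) rho_mp (hu.toLp h) := rfl
  rw [← hD, h3, ← map_sub, Lp.norm_compMeasurePreserving, ← dist_eq_norm]
  exact h2

end

end Pool.Agent.ConeG.Rad
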