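import Pool.Agent.Work.MP_b0b133_an.R.Lim

/-!
# Sums of radial exponentials: the energy
-/

set_option autoImplicit false
open MeasureTheory Complex Filter Metric
open scoped ENNReal NNReal ComplexConjugate Topology Real

namespace Pool.Agent.ConeG.Rad

variable {d : ℕ} [Fact (2 ≤ d)]

theorem cf_choose (l : ℕ) : cf (nu d) l = ((l + (d - 2)).choose (d - 2) : ℝ) := by
  have h2 : (2 : ℕ) ≤ d := two_le d
  obtain ⟨k, rfl⟩ : ∃ k, d = k + 2 := ⟨d - 2, by omega⟩
  have e : 2 * nu (k + 2) = (k : ℝ) + 1 := by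
    unfold nu
    push_cast
    ring
  simp only [Nat.add_sub_cancel]
  induction l with
  | zero => simp [cf]
  | succ l ih =>
    rw [cf_succ, ih, e]
    have h3 := Nat.add_one_mul_choose_eq (l + k) k
    have h4 := Nat.choose_succ_right_eq (l + k + 1) k
    have h5 : (l + 1) * (l + 1 + k).choose k = (k + 1 + l) * (l + k).choose k := by
      have h6 := Nat.add_one_mul_choose_eq (l + k) l
      rw [Nat.choose_symm_of_eq_add (show l + k + 1 = (l + 1) + k by ring)] at h6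
      rw [Nat.choose_symm_of_eq_add (show l + k = l + k from rfl)] at h6
      have e7 : l + k + 1 = l + 1 + k := by ring
      rw [e7] at h6
      have : (k + 1 + l) * (l + k).choose k = (l + 1 + k) * (l + k).choose k := by ring
      rw [this, h6]
      ring
    have h5' : ((l : ℝ) + 1) * ((l + 1 + k).choose k : ℝ) = ((k : ℝ) + 1 + l) * ((l + k).choose k : ℝ) := by
      exact_mod_cast h5
    field_simp
    linarith

/-- the binomial series -/
theorem hasSum_cf {x : ℂ} (hx : ‖x‖ < 1) :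
    HasSum (fun l => (cf (nu d) l : ℂ) * x ^ l) ((1 - x) ^ (d - 1))⁻¹ := by
  have h2 : (2 : ℕ) ≤ d := two_le d
  have h := hasSum_choose_mul_geometric_of_norm_lt_one (d - 2) hx
  have e : d - 2 + 1 = d - 1 := by omega
  rw [e, one_div] at h
  refine h.congr_fun fun l => ?_
  rw [cf_choose]
  push_cast
  rfl

theorem re_add_pos {z z' : ℂ} (hz : 0 < z.re) (hz' : 0 < z'.re) : 0 < (z + conj z').re := by
  rw [Complex.add_re, Complex.conj_re]
  linarith

theorem sq_cpow {s : ℂ} (hs : 0 < s.re) : (s ^ 2) ^ (-(nu d : ℂ)) = (s ^ (d - 1))⁻¹ := by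
  have h1 := (Complex.abs_arg_lt_pi_div_two_iff).2 (Or.inl hs)
  have h2 := abs_lt.1 h1
  have h3 := Complex.cpow_nat_mul' (x := s) (n := 2) (by push_cast; linarith) (by push_cast; linarith)
    (-(nu d : ℂ))
  rw [← h3]
  have : ((2 : ℕ) : ℂ) * (-(nu d : ℂ)) = -((d - 1 : ℕ) : ℂ) := by
    rw [← U_two_nu d]; push_cast; ring
  rw [this, Complex.cpow_neg, Complex.cpow_natCast]

theorem inner_rex {z z' : ℂ} (hz : 0 < z.re) (hz' : 0 < z'.re) :
    ∫ ξ, rex d z ξ * conj (rex d z' ξ) ∂(sig d) = (kap d : ℂ) * ((z + conj z') ^ (d - 1))⁻¹ := by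
  have h := inner_expo (d := d) (-z.im, 0) (z.re, 0) (-z'.im, 0) (z'.re, 0) (rex_fwd hz) (rex_fwd hz')
  rw [← rex_eq, ← rex_eq] at h
  rw [h]
  have e : qf (((-z'.im, 0) : Rs d) - (-z.im, 0)) (((z.re, 0) : Rs d) + (z'.re, 0)) =
      (z + conj z') ^ 2 := by
    unfold qf
    simp only [Prod.fst_sub, Prod.snd_sub, Prod.fst_add, Prod.snd_add, sub_zero, add_zero, norm_zero,
      inner_zero_right]
    apply Complex.ext
    · simp [pow_two, Complex.add_re, Complex.mul_re]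
      ring
    · simp [pow_two, Complex.add_im, Complex.mul_im]
      ring
  rw [e, sq_cpow (re_add_pos hz hz')]

theorem be_add {z w : ℂ} (hz : (1 + z) ≠ 0) (hw : (1 + w) ≠ 0) :
    (z + w) * ((1 + be z) * (1 + be w)) = 2 * (1 - be z * be w) := by
  unfold be
  field_simp
  ring

theorem be_conj (z : ℂ) : conj (be z) = be (conj z) := by
  unfold be
  simp

theorem pair_term {z z' : ℂ} (hz : 0 < z.re) (hz' : 0 < z'.re) :
    HasSum (fun l => (cf (nu d) l : ℂ) * ((1 + be z) ^ (d - 1) * be z ^ l) *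
      conj ((1 + be z') ^ (d - 1) * be z' ^ l)) ((2 : ℂ) ^ (d - 1) * ((z + conj z') ^ (d - 1))⁻¹) := by
  have hc : 0 < (conj z').re := by rwa [Complex.conj_re]
  have h1 : ‖be z * be (conj z')‖ < 1 := by
    rw [norm_mul]
    have a1 := be_norm hz
    have a2 := be_norm hc
    nlinarith [norm_nonneg (be z), norm_nonneg (be (conj z'))]
  have h2 := (hasSum_cf (d := d) h1).mul_left (((1 + be z) * (1 + be (conj z'))) ^ (d - 1))
  have h3 := be_add (one_add_ne hz) (one_add_ne hc)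
  have hs : (z + conj z') ≠ 0 := fun h => by
    have := re_add_pos hz hz'
    rw [h] at this
    simp at this
  have ht : (1 - be z * be (conj z')) ≠ 0 := by
    intro h
    rw [sub_eq_zero] at h
    rw [← h, norm_one] at h1
    exact lt_irrefl _ h1
  have h4 : ((1 + be z) * (1 + be (conj z'))) ^ (d - 1) * ((1 - be z * be (conj z')) ^ (d - 1))⁻¹ =
      (2 : ℂ) ^ (d - 1) * ((z + conj z') ^ (d - 1))⁻¹ := by
    rw [← div_eq_mul_inv, ← div_eq_mul_inv, ← div_pow, ← div_pow]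
    congr 1
    rw [div_eq_div_iff ht hs]
    linear_combination h3
  rw [h4] at h2
  refine h2.congr_fun fun l => ?_
  simp only [map_mul, map_pow, map_add, map_one, be_conj, mul_pow]
  ring

theorem Dat.norm_sq (D : Dat) : ∫ ξ, D.fn d ξ * conj (D.fn d ξ) ∂(sig d) =
    ∑ i, ∑ j, D.κ i * conj (D.κ j) * ((kap d : ℂ) * ((D.z i + conj (D.z j)) ^ (d - 1))⁻¹) := by
  have e : ∀ ξ : Rd d, D.fn d ξ * conj (D.fn d ξ) = ∑ i, ∑ j, D.κ i * conj (D.κ j) *
      (rex d (D.z i) ξ * conj (rex d (D.z j) ξ)) := by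
    intro ξ
    unfold Dat.fn
    rw [map_sum, Finset.sum_mul_sum]
    refine Finset.sum_congr rfl fun i _ => Finset.sum_congr rfl fun j _ => ?_
    rw [map_mul]
    ring
  have hi : ∀ i j, Integrable (fun ξ : Rd d => rex d (D.z i) ξ * conj (rex d (D.z j) ξ)) (sig d) := by
    intro i j
    have e2 : (fun ξ : Rd d => rex d (D.z i) ξ * conj (rex d (D.z j) ξ)) =
        rex d (D.z i + conj (D.z j)) := by
      funext ξ
      unfold rex
      rw [← Complex.exp_conj, ← Complex.exp_add]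
      congr 1
      simp only [map_neg, map_mul, Complex.conj_ofReal]
      ring
    rw [e2, rex_eq]
    exact (expo_integrable _ _ (rex_fwd (re_add_pos (D.hz i) (D.hz j)))).1
  simp only [e]
  rw [integral_finsetSum]
  · refine Finset.sum_congr rfl fun i _ => ?_
    rw [integral_finsetSum]
    · refine Finset.sum_congr rfl fun j _ => ?_
      rw [integral_const_mul, inner_rex (D.hz i) (D.hz j)]
    · intro j _
      exact (hi i j).const_mul _
  · intro i _
    exact integrable_finsetSum _ fun j _ => (hi i j).const_mul _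

theorem four_nu : (4 : ℝ) ^ nu d = 2 ^ (d - 1) := by
  have h2 : (2 : ℕ) ≤ d := two_le d
  have e : (4 : ℝ) = 2 ^ (2 : ℝ) := by norm_num
  rw [e, ← Real.rpow_mul (by norm_num), two_nu]
  have : (d : ℝ) - 1 = ((d - 1 : ℕ) : ℝ) := by
    rw [Nat.cast_sub (by omega)]
    simp
  rw [this, Real.rpow_natCast]

/-- the energy -/
theorem Dat.energy (D : Dat) : HasSum (fun l => wt (nu d) l * ‖D.aa d l‖ ^ 2)
    ((kap d)⁻¹ * 4 ^ nu d * ∫ ξ, ‖D.fn d ξ‖ ^ 2 ∂(sig d)) := by
  have hk : (kap d : ℂ) ≠ 0 := by exact_mod_cast (kap_pos d).ne'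
  have h1 : HasSum (fun l => ∑ i, ∑ j, D.κ i * conj (D.κ j) *
      ((cf (nu d) l : ℂ) * ((1 + be (D.z i)) ^ (d - 1) * be (D.z i) ^ l) *
      conj ((1 + be (D.z j)) ^ (d - 1) * be (D.z j) ^ l)))
      (∑ i, ∑ j, D.κ i * conj (D.κ j) *
        ((2 : ℂ) ^ (d - 1) * ((D.z i + conj (D.z j)) ^ (d - 1))⁻¹)) :=
    hasSum_sum fun i _ => hasSum_sum fun j _ => (pair_term (D.hz i) (D.hz j)).mul_left _
  have h2 : ∑ i, ∑ j, D.κ i * conj (D.κ j) *
        ((2 : ℂ) ^ (d - 1) * ((D.z i + conj (D.z j)) ^ (d - 1))⁻¹) =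
      (kap d : ℂ)⁻¹ * (2 : ℂ) ^ (d - 1) * ∫ ξ, D.fn d ξ * conj (D.fn d ξ) ∂(sig d) := by
    rw [D.norm_sq, Finset.mul_sum]
    refine Finset.sum_congr rfl fun i _ => ?_
    rw [Finset.mul_sum]
    refine Finset.sum_congr rfl fun j _ => ?_
    field_simp
  have h3 : ∫ ξ, D.fn d ξ * conj (D.fn d ξ) ∂(sig d) =
      ((∫ ξ, ‖D.fn d ξ‖ ^ 2 ∂(sig d) : ℝ) : ℂ) := by
    rw [← integral_complex_ofReal]
    refine integral_congr_ae (Eventually.of_forall fun ξ => ?_)
    simp only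
    rw [Complex.mul_conj']
    push_cast
    rfl
  rw [h2, h3] at h1
  have h4 : ∀ l, ∑ i, ∑ j, D.κ i * conj (D.κ j) *
      ((cf (nu d) l : ℂ) * ((1 + be (D.z i)) ^ (d - 1) * be (D.z i) ^ l) *
      conj ((1 + be (D.z j)) ^ (d - 1) * be (D.z j) ^ l)) =
      ((wt (nu d) l * ‖D.aa d l‖ ^ 2 : ℝ) : ℂ) := by
    intro l
    have hc := cf_pos (nu_pos d) l
    have hc' : (cf (nu d) l : ℂ) ≠ 0 := by exact_mod_cast hc.ne'
    have e1 : ∑ i, ∑ j, D.κ i * conj (D.κ j) *
      ((cf (nu d) l : ℂ) * ((1 + be (D.z i)) ^ (d - 1) * be (D.z i) ^ l) *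
      conj ((1 + be (D.z j)) ^ (d - 1) * be (D.z j) ^ l)) =
      (cf (nu d) l : ℂ) * (D.bb d l * conj (D.bb d l)) := by
      unfold Dat.bb
      rw [map_sum, Finset.sum_mul_sum, Finset.mul_sum]
      refine Finset.sum_congr rfl fun i _ => ?_
      rw [Finset.mul_sum]
      refine Finset.sum_congr rfl fun j _ => ?_
      simp only [map_mul]
      ring
    rw [e1, Complex.mul_conj']
    unfold Dat.aa wt
    rw [norm_mul, Complex.norm_real, Real.norm_eq_abs, abs_of_pos hc]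
    push_cast
    field_simp
  simp only [h4] at h1
  have h5 : (kap d : ℂ)⁻¹ * (2 : ℂ) ^ (d - 1) * ((∫ ξ, ‖D.fn d ξ‖ ^ 2 ∂(sig d) : ℝ) : ℂ) =
      (((kap d)⁻¹ * 4 ^ nu d * ∫ ξ, ‖D.fn d ξ‖ ^ 2 ∂(sig d) : ℝ) : ℂ) := by
    rw [four_nu]
    push_cast
    rfl
  rw [h5] at h1
  exact Complex.hasSum_ofReal.1 h1

end Pool.Agent.ConeG.Rad
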