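import Pool.Agent.Work.MP_b0b133_an.R.FarSup
import Pool.Agent.Work.MP_b0b133_an.Radial.Quartic

/-!
# Radial data: the far region

`rad_mid`: the core inequality for `7/4 ≤ E ≤ 7/2` in the frame `a_0 = 1`, `a_1 = 0`, `|a_2| ≤ ν`;
`rad_sup`: the core inequality for large energy.
-/

set_option autoImplicit false
open scoped Real
open MeasureTheory Filter Topology Complex Finset

namespace Pool.Agent.ConeG.Rad

theorem A0_eq (ν : ℝ) (N : ℕ) (a : ℕ → ℂ) : A0 ν N a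
    = ∑ m ∈ range (2 * N), wt (2 * ν) m * ‖∑ p ∈ antidiagonal m,
      Pool.Agent.ConeRadial.cut N a p.1 * Pool.Agent.ConeRadial.cut N a p.2‖ ^ 2 := rfl

theorem E_nonneg {ν : ℝ} (hν : 0 < ν) (N : ℕ) (a : ℕ → ℂ) : 0 ≤ E ν N a := by
  unfold E
  refine sum_nonneg fun l _ => ?_
  have := (cf_pos hν l).le
  unfold wt
  positivity

theorem M1_eq {ν : ℝ} (hν : 1 < ν) (hJ : 0 < ∫ g in (0 : ℝ)..π, Real.sin g ^ (2 * ν - 2))
    (N : ℕ) (a : ℕ → ℂ) :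
    M1 ν N a = (∫ g in (0 : ℝ)..π, Real.sin g ^ (2 * ν - 2)) * E ν N a := by
  have h := Pool.Agent.ConeRadial.isometry hν.le N a
  rw [intervalIntegral.integral_const_mul] at h
  rw [← h]
  unfold M1
  generalize (∫ g in (0 : ℝ)..π, Real.sin g ^ (2 * ν - 2)) = J at *
  generalize (∫ T in (0 : ℝ)..(2 * π), ∫ g in (0 : ℝ)..π,
    ‖F ν N a T g‖ ^ 2 * Real.sin g ^ (2 * ν - 2)) = X
  field_simp

theorem M2_le {ν : ℝ} (hν : 1 < ν) (hJ : 0 < ∫ g in (0 : ℝ)..π, Real.sin g ^ (4 * ν - 2))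
    (N : ℕ) (a : ℕ → ℂ) :
    M2 ν N a ≤ (∫ g in (0 : ℝ)..π, Real.sin g ^ (4 * ν - 2))
      * (kap2 ν * E ν N a ^ 2 + (1 - kap2 ν) * A0 ν N a) := by
  have h := Pool.Agent.ConeRadial.quartic_bound (by linarith : 1 / 2 ≤ ν) N a
  rw [intervalIntegral.integral_const_mul, ← A0_eq] at h
  have h2 := mul_le_mul_of_nonneg_left h hJ.le
  refine le_trans (le_of_eq ?_) h2
  unfold M2
  generalize (∫ g in (0 : ℝ)..π, Real.sin g ^ (4 * ν - 2)) = J at *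
  generalize (∫ T in (0 : ℝ)..(2 * π), ∫ g in (0 : ℝ)..π,
    ‖F ν N a T g‖ ^ 4 * Real.sin g ^ (4 * ν - 2)) = X
  field_simp

theorem sin_int_pos (n : ℕ) (b : ℝ) (hb : b = n) : 0 < ∫ g in (0 : ℝ)..π, Real.sin g ^ b := by
  subst hb
  simp only [Real.rpow_natCast]
  exact Wa_pos n

/-- the middle region -/
theorem rad_mid (k : ℕ) (hk : 3 ≤ k) (ν : ℝ) (hν : ν = ((k : ℝ) + 2) / 2) (N : ℕ) (hN : 1 ≤ N)
    (a : ℕ → ℂ) (h0 : a 0 = 1) (h1 : a 1 = 0) (h2 : ‖a 2‖ ≤ ν) (hE1 : 7 / 4 ≤ E ν N a)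
    (hE2 : E ν N a ≤ 7 / 2) : V ν N a ≤ E ν N a ^ (1 + 1 / ν) := by
  have hk' : (3 : ℝ) ≤ k := by exact_mod_cast hk
  have hν52 : 5 / 2 ≤ ν := by rw [hν]; linarith
  have hA := A0_le (by linarith : 1 / 2 ≤ ν) N hN a h0 h1 h2
  have hnum := mid_num hν52 hE1 hE2 hA
  have hJ1 := sin_int_pos k (2 * ν - 2) (by rw [hν]; ring)
  have hJ2 := sin_int_pos (2 * k + 2) (4 * ν - 2) (by rw [hν]; push_cast; ring)
  refine far_of_quartic k N a ν hν hk (E_nonneg (by linarith) N a)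
    (M1_eq (by linarith) hJ1 N a) ?_
  exact (M2_le (by linarith) hJ2 N a).trans (mul_le_mul_of_nonneg_left hnum hJ2.le)

/-- the region of large energy -/
theorem rad_sup (k : ℕ) (hk : 3 ≤ k) : RadCoreB (((k : ℝ) + 2) / 2) := by
  intro N a hC hE
  have hk' : (3 : ℝ) ≤ k := by exact_mod_cast hk
  generalize hν : ((k : ℝ) + 2) / 2 = ν at *
  have hν' := hν.symm
  have hν52 : 5 / 2 ≤ ν := by rw [hν']; linarith
  have hA := A0_sup k N (by omega) a ν hν' (21 / 20) hC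
  have hnum := sup_num hν52 hE hA
  have hJ1 := sin_int_pos k (2 * ν - 2) (by rw [hν']; ring)
  have hJ2 := sin_int_pos (2 * k + 2) (4 * ν - 2) (by rw [hν']; push_cast; ring)
  refine far_of_quartic k N a ν hν' hk (E_nonneg (by linarith) N a)
    (M1_eq (by linarith) hJ1 N a) ?_
  exact (M2_le (by linarith) hJ2 N a).trans (mul_le_mul_of_nonneg_left hnum hJ2.le)

end Pool.Agent.ConeG.Rad
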