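import Pool.Agent.Work.MP_b0b133_an.R.Defs

/-!
# Radial data, far region: the algebraic part

`A0` is the square norm of `f ^ 2` in the Bergman space of weight `4 ν`, `f = ∑ a_l z^l`.
-/

set_option autoImplicit false
open Finset
open scoped Real

namespace Pool.Agent.ConeG.Rad

/-- the square norm of the square of `f = ∑_{l < N} a_l z^l` in the space of weight `4 ν` -/
noncomputable def A0 (ν : ℝ) (N : ℕ) (a : ℕ → ℂ) : ℝ :=
  ∑ m ∈ range (2 * N), (cf (2 * ν) m)⁻¹ *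
    ‖∑ p ∈ antidiagonal m, (if p.1 < N then a p.1 else 0) * (if p.2 < N then a p.2 else 0)‖ ^ 2

theorem cf_zero (ν : ℝ) : cf ν 0 = 1 := by simp [cf]

theorem cf_succ (ν : ℝ) (l : ℕ) : cf ν (l + 1) = cf ν l * ((2 * ν + l) / (l + 1)) := by
  unfold cf
  rw [prod_range_succ]

theorem cf_pos {ν : ℝ} (hν : 0 < ν) (l : ℕ) : 0 < cf ν l := by
  unfold cf
  refine prod_pos fun k _ => ?_
  positivity

theorem cf_one (ν : ℝ) : cf ν 1 = 2 * ν := by simp [cf]

/-- Chu–Vandermonde -/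
theorem cf_conv (x y : ℝ) (m : ℕ) :
    ∑ p ∈ antidiagonal m, cf x p.1 * cf y p.2 = cf (x + y) m := by
  induction m with
  | zero => simp [cf_zero]
  | succ m ih =>
    have hm : ((m : ℝ) + 1) ≠ 0 := by positivity
    have h1 : ((m : ℝ) + 1) * ∑ p ∈ antidiagonal (m + 1), cf x p.1 * cf y p.2
        = ∑ p ∈ antidiagonal (m + 1), ((p.1 : ℝ) * (cf x p.1 * cf y p.2))
          + ∑ p ∈ antidiagonal (m + 1), ((p.2 : ℝ) * (cf x p.1 * cf y p.2)) := by
      rw [mul_sum, ← sum_add_distrib]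
      refine sum_congr rfl fun p hp => ?_
      have : p.1 + p.2 = m + 1 := mem_antidiagonal.1 hp
      have h2 : (p.1 : ℝ) + p.2 = m + 1 := by exact_mod_cast this
      rw [← h2]; ring
    have h3 : ∑ p ∈ antidiagonal (m + 1), ((p.1 : ℝ) * (cf x p.1 * cf y p.2))
        = ∑ p ∈ antidiagonal m, (2 * x + p.1) * (cf x p.1 * cf y p.2) := by
      rw [Nat.sum_antidiagonal_succ]
      simp only [Nat.cast_zero, zero_mul, zero_add]
      refine sum_congr rfl fun p _ => ?_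
      rw [cf_succ]
      have : ((p.1 : ℝ) + 1) ≠ 0 := by positivity
      push_cast
      field_simp
    have h4 : ∑ p ∈ antidiagonal (m + 1), ((p.2 : ℝ) * (cf x p.1 * cf y p.2))
        = ∑ p ∈ antidiagonal m, (2 * y + p.2) * (cf x p.1 * cf y p.2) := by
      rw [Nat.sum_antidiagonal_succ']
      simp only [Nat.cast_zero, zero_mul, zero_add]
      refine sum_congr rfl fun p _ => ?_
      rw [cf_succ]
      have : ((p.2 : ℝ) + 1) ≠ 0 := by positivity
      push_cast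
      field_simp
    have h5 : ∑ p ∈ antidiagonal m, (2 * x + p.1) * (cf x p.1 * cf y p.2)
        + ∑ p ∈ antidiagonal m, (2 * y + p.2) * (cf x p.1 * cf y p.2)
        = (2 * (x + y) + m) * ∑ p ∈ antidiagonal m, cf x p.1 * cf y p.2 := by
      rw [mul_sum, ← sum_add_distrib]
      refine sum_congr rfl fun p hp => ?_
      have : p.1 + p.2 = m := mem_antidiagonal.1 hp
      have h2 : (p.1 : ℝ) + p.2 = m := by exact_mod_cast this
      rw [← h2]; ring
    rw [h3, h4, h5, ih] at h1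
    rw [cf_succ]
    field_simp
    linarith

/-- `∑_{n < K} ∑_{j + k = n} f_j f_k ≤ (∑_{j < K} f_j)²` for `f ≥ 0` -/
theorem sum_antidiag_le (f : ℕ → ℝ) (hf : ∀ j, 0 ≤ f j) (K : ℕ) :
    ∑ n ∈ range K, ∑ p ∈ antidiagonal n, f p.1 * f p.2 ≤ (∑ j ∈ range K, f j) ^ 2 := by
  have h1 : ∑ n ∈ range K, ∑ p ∈ antidiagonal n, f p.1 * f p.2
      = ∑ p ∈ (range K ×ˢ range K).filter (fun p => p.1 + p.2 < K), f p.1 * f p.2 := by
    rw [← sum_fiberwise_of_maps_to (g := fun p : ℕ × ℕ => p.1 + p.2) (t := range K)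
      (s := (range K ×ˢ range K).filter (fun p => p.1 + p.2 < K)) ?_ ]
    · refine sum_congr rfl fun n hn => ?_
      refine sum_congr ?_ fun _ _ => rfl
      ext p
      simp only [HasAntidiagonal.mem_antidiagonal, mem_filter, mem_product, mem_range] at hn ⊢
      omega
    · intro p hp
      simp only [mem_filter, mem_product, mem_range] at hp ⊢
      exact hp.2
  rw [h1, sq, sum_mul_sum, ← sum_product']
  exact sum_le_sum_of_subset_of_nonneg (filter_subset _ _)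
    fun p _ _ => mul_nonneg (hf _) (hf _)

/-- two-term Cauchy–Schwarz -/
theorem cs_two {p q D U P S : ℝ} (hD : 0 ≤ D) (hU : 0 ≤ U) (hP : 0 ≤ P) (hS : 0 ≤ S)
    (h1 : p ^ 2 ≤ D * P) (h2 : q ^ 2 ≤ U * S) : (p + q) ^ 2 ≤ (D + U) * (P + S) := by
  have h3 : (2 * (p * q)) ^ 2 ≤ (D * S + U * P) ^ 2 := by
    have e : (p * q) ^ 2 ≤ (D * P) * (U * S) := by
      rw [mul_pow]
      exact mul_le_mul h1 h2 (sq_nonneg _) (mul_nonneg hD hP)
    nlinarith [sq_nonneg (D * S - U * P)]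
  have h4 : 2 * (p * q) ≤ D * S + U * P := by
    have : 0 ≤ D * S + U * P := by positivity
    exact abs_le_of_sq_le_sq' h3 this |>.2
  nlinarith

/-- the level `m = n + 4` of `A0`, `a_1 = 0`, `a_0 = 1` -/
theorem level_bound {ν : ℝ} (hν : 0 < ν) (a : ℕ → ℂ) (h0 : a 0 = 1) (h1 : a 1 = 0) (n : ℕ) :
    (cf (2 * ν) (n + 4))⁻¹ * ‖∑ p ∈ antidiagonal (n + 4), a p.1 * a p.2‖ ^ 2
      ≤ 4 * ‖a (n + 4)‖ ^ 2 / (2 * cf ν (n + 4) + 4 * ν * cf ν (n + 3))
        + ∑ p ∈ antidiagonal n, (wt ν (p.1 + 2) * ‖a (p.1 + 2)‖ ^ 2)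
            * (wt ν (p.2 + 2) * ‖a (p.2 + 2)‖ ^ 2) := by
  have hsplit : ∀ (f : ℕ → ℂ), ∑ p ∈ antidiagonal (n + 4), f p.1 * f p.2
      = 2 * (f 0 * f (n + 4)) + 2 * (f 1 * f (n + 3))
        + ∑ p ∈ antidiagonal n, f (p.1 + 2) * f (p.2 + 2) := by
    intro f
    rw [Nat.sum_antidiagonal_succ, Nat.sum_antidiagonal_succ, Nat.sum_antidiagonal_succ',
      Nat.sum_antidiagonal_succ']
    ring_nf
  have hsplitR : ∀ (f : ℕ → ℝ), ∑ p ∈ antidiagonal (n + 4), f p.1 * f p.2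
      = 2 * (f 0 * f (n + 4)) + 2 * (f 1 * f (n + 3))
        + ∑ p ∈ antidiagonal n, f (p.1 + 2) * f (p.2 + 2) := by
    intro f
    rw [Nat.sum_antidiagonal_succ, Nat.sum_antidiagonal_succ, Nat.sum_antidiagonal_succ',
      Nat.sum_antidiagonal_succ']
    ring_nf
  have hC : cf (2 * ν) (n + 4) = (2 * cf ν (n + 4) + 4 * ν * cf ν (n + 3))
      + ∑ p ∈ antidiagonal n, cf ν (p.1 + 2) * cf ν (p.2 + 2) := by
    have := cf_conv ν ν (n + 4)
    rw [hsplitR, cf_zero, cf_one] at this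
    rw [two_mul ν, ← this]
    ring
  set D := 2 * cf ν (n + 4) + 4 * ν * cf ν (n + 3) with hD
  set U := ∑ p ∈ antidiagonal n, cf ν (p.1 + 2) * cf ν (p.2 + 2) with hU
  set S := ∑ p ∈ antidiagonal n, (wt ν (p.1 + 2) * ‖a (p.1 + 2)‖ ^ 2)
            * (wt ν (p.2 + 2) * ‖a (p.2 + 2)‖ ^ 2) with hS
  have p4 := cf_pos hν (n + 4)
  have p3 := cf_pos hν (n + 3)
  have hD0 : 0 < D := by positivity
  have hU0 : 0 ≤ U := sum_nonneg fun p _ => (mul_pos (cf_pos hν _) (cf_pos hν _)).le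
  have hS0 : 0 ≤ S := sum_nonneg fun p _ => by
    have := (cf_pos hν (p.1 + 2)).le
    have := (cf_pos hν (p.2 + 2)).le
    unfold wt
    positivity
  have hq : (∑ p ∈ antidiagonal n, ‖a (p.1 + 2)‖ * ‖a (p.2 + 2)‖) ^ 2 ≤ U * S := by
    refine sum_sq_le_sum_mul_sum_of_sq_le_mul _ ?_ ?_ ?_
    · intro p _
      exact (mul_pos (cf_pos hν _) (cf_pos hν _)).le
    · intro p _
      have := (cf_pos hν (p.1 + 2)).le
      have := (cf_pos hν (p.2 + 2)).le
      unfold wt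
      positivity
    · intro p _
      have := (cf_pos hν (p.1 + 2)).ne'
      have := (cf_pos hν (p.2 + 2)).ne'
      unfold wt
      refine le_of_eq ?_
      field_simp
  have hnorm : ‖∑ p ∈ antidiagonal (n + 4), a p.1 * a p.2‖
      ≤ 2 * ‖a (n + 4)‖ + ∑ p ∈ antidiagonal n, ‖a (p.1 + 2)‖ * ‖a (p.2 + 2)‖ := by
    rw [hsplit a, h0, h1]
    simp only [one_mul, zero_mul, mul_zero, add_zero]
    refine (norm_add_le _ _).trans ?_
    refine add_le_add (by simp) ?_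
    refine (norm_sum_le _ _).trans (le_of_eq ?_)
    exact sum_congr rfl fun p _ => norm_mul _ _
  have hfin : ‖∑ p ∈ antidiagonal (n + 4), a p.1 * a p.2‖ ^ 2
      ≤ (D + U) * (4 * ‖a (n + 4)‖ ^ 2 / D + S) := by
    refine (pow_le_pow_left₀ (norm_nonneg _) hnorm 2).trans ?_
    refine cs_two hD0.le hU0 (by positivity) hS0 ?_ hq
    rw [mul_div_cancel₀ _ hD0.ne']
    nlinarith
  rw [hC, inv_mul_le_iff₀ (by positivity)]
  exact hfin

/-- the square norms of the levels -/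
noncomputable def rr (ν : ℝ) (N : ℕ) (a : ℕ → ℂ) (l : ℕ) : ℝ :=
  wt ν l * ‖(if l < N then a l else 0)‖ ^ 2

theorem rr_nonneg {ν : ℝ} (hν : 0 < ν) (N : ℕ) (a : ℕ → ℂ) (l : ℕ) : 0 ≤ rr ν N a l := by
  have := (cf_pos hν l).le
  unfold rr wt
  positivity

theorem E_eq_rr (ν : ℝ) (N K : ℕ) (h : N ≤ K) (a : ℕ → ℂ) :
    E ν N a = ∑ l ∈ range K, rr ν N a l := by
  unfold E
  rw [← sum_subset (range_mono h) (f := fun l => rr ν N a l)]
  · refine sum_congr rfl fun l hl => ?_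
    simp [rr, mem_range.1 hl]
  · intro l _ hl
    simp [rr, mem_range.not.1 hl]

theorem term_bound {ν : ℝ} (hν : 1 / 2 ≤ ν) (x : ℂ) (n : ℕ) :
    4 * ‖x‖ ^ 2 / (2 * cf ν (n + 4) + 4 * ν * cf ν (n + 3))
      ≤ (2 * ν + 2) / (4 * ν + 1) * (wt ν (n + 4) * ‖x‖ ^ 2) := by
  have hν0 : 0 < ν := by linarith
  have p3 := cf_pos hν0 (n + 3)
  have p4 := cf_pos hν0 (n + 4)
  have e : cf ν (n + 4) = cf ν (n + 3) * ((2 * ν + (n + 3)) / (n + 4)) := by
    have := cf_succ ν (n + 3)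
    push_cast at this
    rw [this]
    ring_nf
  have hn : (0 : ℝ) ≤ n := Nat.cast_nonneg n
  have hq : (2 * ν + (n + 3)) / ((n : ℝ) + 4) ≤ 2 * (ν + 1) / 3 := by
    rw [div_le_div_iff₀ (by positivity) (by norm_num)]
    nlinarith
  have h1 : 3 * cf ν (n + 4) ≤ 2 * (ν + 1) * cf ν (n + 3) := by
    rw [e]
    have := mul_le_mul_of_nonneg_left hq p3.le
    linarith
  unfold wt
  have e2 : (2 * ν + 2) / (4 * ν + 1) * ((cf ν (n + 4))⁻¹ * ‖x‖ ^ 2)
      = (2 * ν + 2) * ‖x‖ ^ 2 / ((4 * ν + 1) * cf ν (n + 4)) := by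
    field_simp
  rw [e2, div_le_div_iff₀ (by positivity) (by positivity)]
  have h2 : 4 * ((4 * ν + 1) * cf ν (n + 4))
      ≤ (2 * ν + 2) * (2 * cf ν (n + 4) + 4 * ν * cf ν (n + 3)) := by
    nlinarith
  calc 4 * ‖x‖ ^ 2 * ((4 * ν + 1) * cf ν (n + 4))
      = ‖x‖ ^ 2 * (4 * ((4 * ν + 1) * cf ν (n + 4))) := by ring
    _ ≤ ‖x‖ ^ 2 * ((2 * ν + 2) * (2 * cf ν (n + 4) + 4 * ν * cf ν (n + 3))) :=
        mul_le_mul_of_nonneg_left h2 (by positivity)
    _ = _ := by ring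

theorem A0_le {ν : ℝ} (hν : 1 / 2 ≤ ν) (N : ℕ) (hN : 1 ≤ N) (a : ℕ → ℂ) (h0 : a 0 = 1)
    (h1 : a 1 = 0) (h2 : ‖a 2‖ ≤ ν) :
    A0 ν N a ≤ 1 + 2 * ν ^ 2 / ((4 * ν + 1) * (2 * ν + 1))
      + (2 * ν + 2) / (4 * ν + 1) * (E ν N a - 1) + (E ν N a - 1) ^ 2 := by
  have hν0 : 0 < ν := by linarith
  set b : ℕ → ℂ := fun l => if l < N then a l else 0 with hb
  have hb0 : b 0 = 1 := by
    have : 0 < N := hN
    simp [hb, this, h0]
  have hb1 : b 1 = 0 := by simp [hb, h1]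
  set f : ℕ → ℝ := fun m => (cf (2 * ν) m)⁻¹ * ‖∑ p ∈ antidiagonal m, b p.1 * b p.2‖ ^ 2 with hf
  have hf0 : ∀ m, 0 ≤ f m := fun m => by
    have := (cf_pos (ν := 2 * ν) (by linarith) m).le
    simp only [hf]
    positivity
  have hA : A0 ν N a ≤ ∑ m ∈ range (2 * N + 4), f m := by
    unfold A0
    exact sum_le_sum_of_subset_of_nonneg (range_mono (by omega)) fun m _ _ => hf0 m
  have hr : ∀ l, rr ν N a l = wt ν l * ‖b l‖ ^ 2 := fun l => rfl
  have hE : E ν N a = ∑ n ∈ range (2 * N), rr ν N a (n + 4) + rr ν N a 3 + rr ν N a 2 + 1 := by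
    rw [E_eq_rr ν N (2 * N + 4) (by omega) a, sum_range_succ', sum_range_succ', sum_range_succ',
      sum_range_succ']
    simp only [zero_add]
    rw [hr 1, hb1, hr 0, hb0]
    simp [wt, cf_zero]
  have hf3 : f 3 = (2 * ν + 2) / (4 * ν + 1) * rr ν N a 3 := by
    rw [hr 3]
    simp only [hf, wt]
    have : ∑ p ∈ antidiagonal 3, b p.1 * b p.2 = 2 * b 3 := by
      rw [Nat.sum_antidiagonal_eq_sum_range_succ (fun i j => b i * b j)]
      simp [sum_range_succ, hb0, hb1]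
      ring
    rw [this]
    simp only [norm_mul, Complex.norm_ofNat, cf, prod_range_succ, prod_range_zero]
    push_cast
    field_simp
    ring
  have hf2 : f 2 = (4 * ν + 2) / (4 * ν + 1) * rr ν N a 2 := by
    rw [hr 2]
    simp only [hf, wt]
    have : ∑ p ∈ antidiagonal 2, b p.1 * b p.2 = 2 * b 2 := by
      rw [Nat.sum_antidiagonal_eq_sum_range_succ (fun i j => b i * b j)]
      simp [sum_range_succ, hb0, hb1]
      ring
    rw [this]
    simp only [norm_mul, Complex.norm_ofNat, cf, prod_range_succ, prod_range_zero]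
    push_cast
    field_simp
    ring
  have hf1 : f 1 = 0 := by
    simp only [hf]
    have : ∑ p ∈ antidiagonal 1, b p.1 * b p.2 = 0 := by
      rw [Nat.sum_antidiagonal_eq_sum_range_succ (fun i j => b i * b j)]
      simp [sum_range_succ, hb0, hb1]
    rw [this]
    simp
  have hf00 : f 0 = 1 := by
    simp [hf, hb0, cf_zero]
  have hf4 : ∀ n, f (n + 4) ≤ (2 * ν + 2) / (4 * ν + 1) * rr ν N a (n + 4)
      + ∑ p ∈ antidiagonal n, rr ν N a (p.1 + 2) * rr ν N a (p.2 + 2) := by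
    intro n
    refine (level_bound hν0 b hb0 hb1 n).trans ?_
    exact add_le_add (term_bound hν (b (n + 4)) n) (le_of_eq rfl)
  have hS : ∑ n ∈ range (2 * N), ∑ p ∈ antidiagonal n, rr ν N a (p.1 + 2) * rr ν N a (p.2 + 2)
      ≤ (E ν N a - 1) ^ 2 := by
    refine (sum_antidiag_le (fun l => rr ν N a (l + 2)) (fun l => rr_nonneg hν0 N a _) _).trans ?_
    refine pow_le_pow_left₀ (sum_nonneg fun l _ => rr_nonneg hν0 N a _) ?_ 2
    have hE2 : E ν N a = ∑ n ∈ range (2 * N), rr ν N a (n + 2) + 0 + 1 := by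
      rw [E_eq_rr ν N (2 * N + 2) (by omega) a, sum_range_succ', sum_range_succ']
      simp only [zero_add]
      rw [hr 1, hb1, hr 0, hb0]
      simp [wt, cf_zero]
    rw [hE2]
    linarith
  have hsum : ∑ m ∈ range (2 * N + 4), f m
      ≤ ((2 * ν + 2) / (4 * ν + 1) * ∑ n ∈ range (2 * N), rr ν N a (n + 4) + (E ν N a - 1) ^ 2)
        + (2 * ν + 2) / (4 * ν + 1) * rr ν N a 3 + (4 * ν + 2) / (4 * ν + 1) * rr ν N a 2
        + 0 + 1 := by
    rw [sum_range_succ', sum_range_succ', sum_range_succ', sum_range_succ']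
    simp only [zero_add]
    rw [hf3, hf2, hf1, hf00]
    have : ∑ n ∈ range (2 * N), f (n + 1 + 1 + 1 + 1)
        ≤ (2 * ν + 2) / (4 * ν + 1) * ∑ n ∈ range (2 * N), rr ν N a (n + 4) + (E ν N a - 1) ^ 2 := by
      refine (sum_le_sum fun n _ => hf4 n).trans ?_
      rw [sum_add_distrib, ← mul_sum]
      linarith
    linarith
  have hr2 : rr ν N a 2 ≤ ν / (2 * ν + 1) := by
    rw [hr 2]
    have hb2 : ‖b 2‖ ≤ ν := by
      simp only [hb]
      split_ifs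
      · exact h2
      · simpa using hν0.le
    have hw : wt ν 2 = 1 / (ν * (2 * ν + 1)) := by
      simp only [wt, cf, prod_range_succ, prod_range_zero]
      push_cast
      field_simp
      ring
    have h3 : ‖b 2‖ ^ 2 ≤ ν ^ 2 := pow_le_pow_left₀ (norm_nonneg _) hb2 2
    rw [hw]
    calc 1 / (ν * (2 * ν + 1)) * ‖b 2‖ ^ 2 ≤ 1 / (ν * (2 * ν + 1)) * ν ^ 2 :=
          mul_le_mul_of_nonneg_left h3 (by positivity)
      _ = ν / (2 * ν + 1) := by field_simp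
  have hlast : (4 * ν + 2) / (4 * ν + 1) * rr ν N a 2
      ≤ (2 * ν + 2) / (4 * ν + 1) * rr ν N a 2 + 2 * ν ^ 2 / ((4 * ν + 1) * (2 * ν + 1)) := by
    have e1 : (4 * ν + 2) / (4 * ν + 1) = (2 * ν + 2) / (4 * ν + 1) + 2 * ν / (4 * ν + 1) := by
      rw [← add_div]; ring_nf
    have e2 : 2 * ν ^ 2 / ((4 * ν + 1) * (2 * ν + 1))
        = 2 * ν / (4 * ν + 1) * (ν / (2 * ν + 1)) := by
      field_simp
    rw [e1, e2, add_mul]
    have : 2 * ν / (4 * ν + 1) * rr ν N a 2 ≤ 2 * ν / (4 * ν + 1) * (ν / (2 * ν + 1)) :=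
      mul_le_mul_of_nonneg_left hr2 (by positivity)
    linarith
  have hEE : (2 * ν + 2) / (4 * ν + 1) * (E ν N a - 1)
      = (2 * ν + 2) / (4 * ν + 1) * ∑ n ∈ range (2 * N), rr ν N a (n + 4)
        + (2 * ν + 2) / (4 * ν + 1) * rr ν N a 3 + (2 * ν + 2) / (4 * ν + 1) * rr ν N a 2 := by
    rw [hE]; ring
  linarith

end Pool.Agent.ConeG.Rad
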