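import Pool.Agent.Work.MP_b0b133_an.R.FarAlg

/-!
# Radial data, near region: the refined bound of `A0`
-/

set_option autoImplicit false
open Finset
open scoped Real

namespace Pool.Agent.ConeG.Rad

theorem term_bound5 {ν : ℝ} (hν : 1 / 2 ≤ ν) (x : ℂ) (n : ℕ) :
    4 * ‖x‖ ^ 2 / (2 * cf ν (n + 5) + 4 * ν * cf ν (n + 4))
      ≤ (ν + 2) / (3 * ν + 1) * (wt ν (n + 5) * ‖x‖ ^ 2) := by
  have hν0 : 0 < ν := by linarith
  have p3 := cf_pos hν0 (n + 4)
  have p4 := cf_pos hν0 (n + 5)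
  have e : cf ν (n + 5) = cf ν (n + 4) * ((2 * ν + (n + 4)) / (n + 5)) := by
    have := cf_succ ν (n + 4)
    push_cast at this
    rw [this]
    ring_nf
  have hn : (0 : ℝ) ≤ n := Nat.cast_nonneg n
  have hq : (2 * ν + (n + 4)) / ((n : ℝ) + 5) ≤ (2 * ν + 4) / 5 := by
    rw [div_le_div_iff₀ (by positivity) (by norm_num)]
    nlinarith
  have h1 : 5 * cf ν (n + 5) ≤ (2 * ν + 4) * cf ν (n + 4) := by
    rw [e]
    have := mul_le_mul_of_nonneg_left hq p3.le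
    linarith
  unfold wt
  have e2 : (ν + 2) / (3 * ν + 1) * ((cf ν (n + 5))⁻¹ * ‖x‖ ^ 2)
      = (ν + 2) * ‖x‖ ^ 2 / ((3 * ν + 1) * cf ν (n + 5)) := by
    field_simp
  rw [e2, div_le_div_iff₀ (by positivity) (by positivity)]
  have h2 : 4 * ((3 * ν + 1) * cf ν (n + 5))
      ≤ (ν + 2) * (2 * cf ν (n + 5) + 4 * ν * cf ν (n + 4)) := by
    nlinarith
  calc 4 * ‖x‖ ^ 2 * ((3 * ν + 1) * cf ν (n + 5))
      = ‖x‖ ^ 2 * (4 * ((3 * ν + 1) * cf ν (n + 5))) := by ring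
    _ ≤ ‖x‖ ^ 2 * ((ν + 2) * (2 * cf ν (n + 5) + 4 * ν * cf ν (n + 4))) :=
        mul_le_mul_of_nonneg_left h2 (by positivity)
    _ = _ := by ring

/-- the level `4` -/
theorem level4 {ν : ℝ} (hν : 0 < ν) (x y : ℂ) :
    (cf (2 * ν) 4)⁻¹ * ‖2 * y + x ^ 2‖ ^ 2
      ≤ (2 * ν + 2) / (3 * ν + 1) * (wt ν 4 * ‖y‖ ^ 2) + 3 / 5 * (wt ν 2 * ‖x‖ ^ 2) ^ 2 := by
  have c4 : cf ν 4 = ν * (2 * ν + 1) * (ν + 1) * (2 * ν + 3) / 6 := by
    simp only [cf, prod_range_succ, prod_range_zero]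
    push_cast
    field_simp
    ring
  have c2 : cf ν 2 = ν * (2 * ν + 1) := by
    simp only [cf, prod_range_succ, prod_range_zero]
    push_cast
    field_simp
    ring
  have c4' : cf (2 * ν) 4 = ν * (4 * ν + 1) * (2 * ν + 1) * (4 * ν + 3) / 3 := by
    simp only [cf, prod_range_succ, prod_range_zero]
    push_cast
    field_simp
    ring
  have p4 : 0 < cf ν 4 := cf_pos hν 4
  have p2 : 0 < cf ν 2 := cf_pos hν 2
  have hsum : 4 * cf ν 4 * (3 * ν + 1) / (2 * ν + 2) + 5 / 3 * cf ν 2 ^ 2 = cf (2 * ν) 4 := by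
    rw [c4, c2, c4']
    field_simp
    ring
  have hnorm : ‖2 * y + x ^ 2‖ ≤ 2 * ‖y‖ + ‖x‖ ^ 2 := by
    refine (norm_add_le _ _).trans ?_
    rw [norm_mul, norm_pow]
    simp
  have hcs : (2 * ‖y‖ + ‖x‖ ^ 2) ^ 2
      ≤ (4 * cf ν 4 * (3 * ν + 1) / (2 * ν + 2) + 5 / 3 * cf ν 2 ^ 2)
        * ((2 * ν + 2) / (3 * ν + 1) * (wt ν 4 * ‖y‖ ^ 2) + 3 / 5 * (wt ν 2 * ‖x‖ ^ 2) ^ 2) := by
    refine cs_two (by positivity) (by positivity) ?_ ?_ ?_ ?_
    · unfold wt; positivity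
    · positivity
    · unfold wt
      refine le_of_eq ?_
      field_simp
      ring
    · unfold wt
      refine le_of_eq ?_
      field_simp
  rw [hsum] at hcs
  have pc : 0 < cf (2 * ν) 4 := cf_pos (by linarith) 4
  rw [inv_mul_le_iff₀ pc]
  exact (pow_le_pow_left₀ (norm_nonneg _) hnorm 2).trans hcs

theorem A0_le2 {ν : ℝ} (hν : 1 / 2 ≤ ν) (N : ℕ) (hN : 1 ≤ N) (a : ℕ → ℂ) (h0 : a 0 = 1)
    (h1 : a 1 = 0) :
    A0 ν N a ≤ 1 + (4 * ν + 2) / (4 * ν + 1) * rr ν N a 2 + (2 * ν + 2) / (4 * ν + 1) * rr ν N a 3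
      + (2 * ν + 2) / (3 * ν + 1) * rr ν N a 4
      + (ν + 2) / (3 * ν + 1) * (E ν N a - 1 - rr ν N a 2 - rr ν N a 3 - rr ν N a 4)
      + (E ν N a - 1) ^ 2 - 2 / 5 * rr ν N a 2 ^ 2 := by
  have hν0 : 0 < ν := by linarith
  set b : ℕ → ℂ := fun l => if l < N then a l else 0 with hb
  have hb0 : b 0 = 1 := by
    have : 0 < N := hN
    simp [hb, this, h0]
  have hb1 : b 1 = 0 := by simp [hb, h1]
  set f : ℕ → ℝ := fun m => (cf (2 * ν) m)⁻¹ * ‖∑ p ∈ antidiagonal m, b p.1 * b p.2‖ ^ 2 with hf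
  have hf0 : ∀ m, 0 ≤ f m := fun m => by
    have := (cf_pos (ν := 2 * ν) (by linarith) m).le
    simp only [hf]
    positivity
  have hA : A0 ν N a ≤ ∑ m ∈ range (2 * N + 5), f m := by
    unfold A0
    exact sum_le_sum_of_subset_of_nonneg (range_mono (by omega)) fun m _ _ => hf0 m
  have hr : ∀ l, rr ν N a l = wt ν l * ‖b l‖ ^ 2 := fun l => rfl
  have hE : E ν N a = ∑ n ∈ range (2 * N), rr ν N a (n + 5) + rr ν N a 4 + rr ν N a 3
      + rr ν N a 2 + 1 := by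
    rw [E_eq_rr ν N (2 * N + 5) (by omega) a, sum_range_succ', sum_range_succ', sum_range_succ',
      sum_range_succ', sum_range_succ']
    simp only [zero_add]
    rw [hr 1, hb1, hr 0, hb0]
    simp [wt, cf_zero]
  have hf4 : f 4 ≤ (2 * ν + 2) / (3 * ν + 1) * rr ν N a 4 + 3 / 5 * rr ν N a 2 ^ 2 := by
    rw [hr 4, hr 2]
    have : ∑ p ∈ antidiagonal 4, b p.1 * b p.2 = 2 * b 4 + b 2 ^ 2 := by
      rw [Nat.sum_antidiagonal_eq_sum_range_succ (fun i j => b i * b j)]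
      simp [sum_range_succ, hb0, hb1]
      ring
    simp only [hf]
    rw [this]
    exact level4 hν0 _ _
  have hf3 : f 3 = (2 * ν + 2) / (4 * ν + 1) * rr ν N a 3 := by
    rw [hr 3]
    simp only [hf, wt]
    have : ∑ p ∈ antidiagonal 3, b p.1 * b p.2 = 2 * b 3 := by
      rw [Nat.sum_antidiagonal_eq_sum_range_succ (fun i j => b i * b j)]
      simp [sum_range_succ, hb0, hb1]
      ring
    rw [this]
    simp only [norm_mul, Complex.norm_ofNat, cf, prod_range_succ, prod_range_zero]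
    push_cast
    field_simp
    ring
  have hf2 : f 2 = (4 * ν + 2) / (4 * ν + 1) * rr ν N a 2 := by
    rw [hr 2]
    simp only [hf, wt]
    have : ∑ p ∈ antidiagonal 2, b p.1 * b p.2 = 2 * b 2 := by
      rw [Nat.sum_antidiagonal_eq_sum_range_succ (fun i j => b i * b j)]
      simp [sum_range_succ, hb0, hb1]
      ring
    rw [this]
    simp only [norm_mul, Complex.norm_ofNat, cf, prod_range_succ, prod_range_zero]
    push_cast
    field_simp
    ring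
  have hf1 : f 1 = 0 := by
    simp only [hf]
    have : ∑ p ∈ antidiagonal 1, b p.1 * b p.2 = 0 := by
      rw [Nat.sum_antidiagonal_eq_sum_range_succ (fun i j => b i * b j)]
      simp [sum_range_succ, hb0, hb1]
    rw [this]
    simp
  have hf00 : f 0 = 1 := by
    simp [hf, hb0, cf_zero]
  have hf5 : ∀ n, f (n + 5) ≤ (ν + 2) / (3 * ν + 1) * rr ν N a (n + 5)
      + ∑ p ∈ antidiagonal (n + 1), rr ν N a (p.1 + 2) * rr ν N a (p.2 + 2) := by
    intro n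
    refine (level_bound hν0 b hb0 hb1 (n + 1)).trans ?_
    exact add_le_add (term_bound5 hν (b (n + 5)) n) (le_of_eq rfl)
  have hS : ∑ n ∈ range (2 * N + 1), ∑ p ∈ antidiagonal n, rr ν N a (p.1 + 2) * rr ν N a (p.2 + 2)
      ≤ (E ν N a - 1) ^ 2 := by
    refine (sum_antidiag_le (fun l => rr ν N a (l + 2)) (fun l => rr_nonneg hν0 N a _) _).trans ?_
    refine pow_le_pow_left₀ (sum_nonneg fun l _ => rr_nonneg hν0 N a _) ?_ 2
    have hE2 : E ν N a = ∑ n ∈ range (2 * N + 1), rr ν N a (n + 2) + 0 + 1 := by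
      rw [E_eq_rr ν N (2 * N + 1 + 2) (by omega) a, sum_range_succ', sum_range_succ']
      simp only [zero_add]
      rw [hr 1, hb1, hr 0, hb0]
      simp [wt, cf_zero]
    rw [hE2]
    linarith
  have hS2 : ∑ n ∈ range (2 * N), ∑ p ∈ antidiagonal (n + 1), rr ν N a (p.1 + 2)
      * rr ν N a (p.2 + 2) + rr ν N a 2 ^ 2 ≤ (E ν N a - 1) ^ 2 := by
    rw [sum_range_succ'] at hS
    simpa [sq] using hS
  have hsum : ∑ m ∈ range (2 * N + 5), f m
      ≤ ((ν + 2) / (3 * ν + 1) * ∑ n ∈ range (2 * N), rr ν N a (n + 5)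
          + ((E ν N a - 1) ^ 2 - rr ν N a 2 ^ 2))
        + ((2 * ν + 2) / (3 * ν + 1) * rr ν N a 4 + 3 / 5 * rr ν N a 2 ^ 2)
        + (2 * ν + 2) / (4 * ν + 1) * rr ν N a 3 + (4 * ν + 2) / (4 * ν + 1) * rr ν N a 2
        + 0 + 1 := by
    rw [sum_range_succ', sum_range_succ', sum_range_succ', sum_range_succ', sum_range_succ']
    simp only [zero_add]
    rw [hf3, hf2, hf1, hf00]
    have : ∑ n ∈ range (2 * N), f (n + 1 + 1 + 1 + 1 + 1)
        ≤ (ν + 2) / (3 * ν + 1) * ∑ n ∈ range (2 * N), rr ν N a (n + 5)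
          + ((E ν N a - 1) ^ 2 - rr ν N a 2 ^ 2) := by
      refine (sum_le_sum fun n _ => hf5 n).trans ?_
      rw [sum_add_distrib, ← mul_sum]
      linarith
    linarith
  have hEE : E ν N a - 1 - rr ν N a 2 - rr ν N a 3 - rr ν N a 4
      = ∑ n ∈ range (2 * N), rr ν N a (n + 5) := by
    rw [hE]; ring
  rw [hEE]
  linarith

end Pool.Agent.ConeG.Rad
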