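import Pool.Agent.Work.MP_b0b133_an.R.FarNum

/-!
# Radial data, far region: the Hölder constant
-/

set_option autoImplicit false
open scoped Real
open MeasureTheory Filter Topology

namespace Pool.Agent.ConeG.Rad

/-- Wallis integrals -/
noncomputable def Wa (n : ℕ) : ℝ := ∫ g in (0 : ℝ)..π, Real.sin g ^ n

theorem Wa_pos (n : ℕ) : 0 < Wa n := integral_sin_pow_pos n

theorem Wa_succ_succ (n : ℕ) : Wa (n + 2) = ((n : ℝ) + 1) / (n + 2) * Wa n := by
  unfold Wa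
  rw [integral_sin_pow]
  simp

theorem Wa_zero : Wa 0 = π := by simp [Wa]

theorem Wa_one : Wa 1 = 2 := by
  unfold Wa
  simp
  norm_num

theorem Wa_mul (n : ℕ) : Wa n * Wa (n + 1) = 2 * π / (n + 1) := by
  induction n with
  | zero => simp [Wa_zero, Wa_one]; ring
  | succ n ih =>
    rw [Wa_succ_succ n]
    have : Wa (n + 1) * (((n : ℝ) + 1) / (n + 2) * Wa n)
        = ((n : ℝ) + 1) / (n + 2) * (Wa n * Wa (n + 1)) := by ring
    rw [this, ih]
    push_cast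
    have : ((n : ℝ) + 1) ≠ 0 := by positivity
    have : ((n : ℝ) + 2) ≠ 0 := by positivity
    have : ((n : ℝ) + 1 + 1) ≠ 0 := by positivity
    field_simp
    ring

theorem Wa_anti (n : ℕ) : Wa (n + 1) ≤ Wa n := integral_sin_pow_succ_le n

/-- the ratio of two Wallis integrals -/
noncomputable def Hk (k : ℕ) : ℝ := Wa k / Wa (2 * k + 2)

theorem Hk_pos (k : ℕ) : 0 < Hk k := div_pos (Wa_pos _) (Wa_pos _)

theorem Hk_sqrt (k : ℕ) : Real.sqrt 2 ≤ Hk k := by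
  unfold Hk
  rw [le_div_iff₀ (Wa_pos _)]
  have h1 : 2 * π / (k + 1) ≤ Wa k ^ 2 := by
    rw [← Wa_mul, sq]
    exact mul_le_mul_of_nonneg_left (Wa_anti k) (Wa_pos k).le
  have h2 : Wa (2 * k + 2) ^ 2 ≤ 2 * π / (2 * k + 2) := by
    have := Wa_mul (2 * k + 1)
    push_cast at this
    have e : (2 * (k : ℝ) + 1 + 1) = 2 * k + 2 := by ring
    rw [e] at this
    rw [← this, sq]
    exact mul_le_mul_of_nonneg_right (Wa_anti (2 * k + 1)) (Wa_pos _).le
  have h3 : (Real.sqrt 2 * Wa (2 * k + 2)) ^ 2 ≤ Wa k ^ 2 := by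
    rw [mul_pow, Real.sq_sqrt (by norm_num)]
    refine le_trans ?_ h1
    have : 2 * (2 * π / (2 * (k : ℝ) + 2)) = 2 * π / (k + 1) := by
      have : ((k : ℝ) + 1) ≠ 0 := by positivity
      have : (2 * (k : ℝ) + 2) ≠ 0 := by positivity
      field_simp
    rw [← this]
    linarith
  exact le_of_sq_le_sq h3 (Wa_pos k).le

theorem Hk_step (k : ℕ) : Hk (k + 2) = Hk k * (4 * (k + 1) * (k + 3) / ((2 * k + 5) * (2 * k + 3))) := by
  unfold Hk
  have e1 := Wa_succ_succ k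
  have e2 := Wa_succ_succ (2 * k + 2)
  have e3 := Wa_succ_succ (2 * k + 2 + 2)
  have e4 : 2 * (k + 2) + 2 = 2 * k + 2 + 2 + 2 := by ring
  rw [e4, e3, e2, e1]
  have := (Wa_pos (2 * k + 2)).ne'
  push_cast
  have : ((k : ℝ) + 2) ≠ 0 := by positivity
  have : (2 * (k : ℝ) + 2 + 2) ≠ 0 := by positivity
  have : (2 * (k : ℝ) + 2 + 2 + 2) ≠ 0 := by positivity
  have : (2 * (k : ℝ) + 2 + 1) ≠ 0 := by positivity
  have : (2 * (k : ℝ) + 2 + 2 + 1) ≠ 0 := by positivity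
  have : (2 * (k : ℝ) + 5) ≠ 0 := by positivity
  have : (2 * (k : ℝ) + 3) ≠ 0 := by positivity
  field_simp
  ring

theorem Hk_iter (k j : ℕ) : Hk (k + 2 * j) / (1 + 3 / (8 * ((k + 2 * j : ℕ) + 2)))
    ≤ Hk k / (1 + 3 / (8 * ((k : ℝ) + 2))) := by
  induction j with
  | zero => simp
  | succ j ih =>
    refine le_trans ?_ ih
    have e : k + 2 * (j + 1) = k + 2 * j + 2 := by ring
    rw [e]
    generalize k + 2 * j = m
    rw [Hk_step]
    have hH := Hk_pos m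
    have hm : (0 : ℝ) ≤ m := Nat.cast_nonneg m
    push_cast
    have key : 4 * ((m : ℝ) + 1) * (m + 3) / ((2 * m + 5) * (2 * m + 3))
        / (1 + 3 / (8 * ((m : ℝ) + 2 + 2))) ≤ 1 / (1 + 3 / (8 * ((m : ℝ) + 2))) := by
      rw [div_div, div_le_div_iff₀ (by positivity) (by positivity)]
      have e1 : 1 + 3 / (8 * ((m : ℝ) + 2)) = (8 * m + 19) / (8 * (m + 2)) := by
        field_simp; ring
      have e2 : 1 + 3 / (8 * ((m : ℝ) + 2 + 2)) = (8 * m + 35) / (8 * (m + 4)) := by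
        have : ((m : ℝ) + 2 + 2) ≠ 0 := by positivity
        have : ((m : ℝ) + 4) ≠ 0 := by positivity
        field_simp; ring
      rw [e1, e2]
      have : 4 * ((m : ℝ) + 1) * (m + 3) * ((8 * m + 19) / (8 * (m + 2)))
          = (4 * (m + 1) * (m + 3) * (8 * m + 19)) / (8 * (m + 2)) := by ring
      rw [this]
      have : 1 * ((2 * (m : ℝ) + 5) * (2 * m + 3) * ((8 * m + 35) / (8 * (m + 4))))
          = ((2 * m + 5) * (2 * m + 3) * (8 * m + 35)) / (8 * (m + 4)) := by ring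
      rw [this, div_le_div_iff₀ (by positivity) (by positivity)]
      nlinarith [mul_nonneg hm hm, mul_nonneg (mul_nonneg hm hm) hm]
    calc Hk m * (4 * ((m : ℝ) + 1) * (m + 3) / ((2 * m + 5) * (2 * m + 3)))
          / (1 + 3 / (8 * ((m : ℝ) + 2 + 2)))
        = Hk m * (4 * ((m : ℝ) + 1) * (m + 3) / ((2 * m + 5) * (2 * m + 3))
          / (1 + 3 / (8 * ((m : ℝ) + 2 + 2)))) := by ring
      _ ≤ Hk m * (1 / (1 + 3 / (8 * ((m : ℝ) + 2)))) := mul_le_mul_of_nonneg_left key hH.le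
      _ = _ := by ring

theorem Hk_ge (k : ℕ) : Real.sqrt 2 * (1 + 3 / (8 * ((k : ℝ) + 2))) ≤ Hk k := by
  have hpos : 0 < 1 + 3 / (8 * ((k : ℝ) + 2)) := by positivity
  rw [← le_div_iff₀ hpos]
  have ht : Tendsto (fun j : ℕ => Real.sqrt 2 / (1 + 3 / (8 * (((k + 2 * j : ℕ) : ℝ) + 2))))
      atTop (𝓝 (Real.sqrt 2 / (1 + 0))) := by
    refine Tendsto.div tendsto_const_nhds (tendsto_const_nhds.add ?_) (by norm_num)
    refine Tendsto.div_atTop tendsto_const_nhds ?_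
    refine Tendsto.const_mul_atTop (by norm_num) ?_
    refine tendsto_atTop_add_const_right _ _ ?_
    refine tendsto_natCast_atTop_atTop.comp ?_
    exact tendsto_atTop_mono (fun j => (by omega : j ≤ k + 2 * j)) tendsto_id
  rw [add_zero, div_one] at ht
  refine le_of_tendsto' ht fun j => ?_
  refine le_trans ?_ (Hk_iter k j)
  have : (0 : ℝ) ≤ ((k + 2 * j : ℕ) : ℝ) := Nat.cast_nonneg _
  exact div_le_div_of_nonneg_right (Hk_sqrt _) (by positivity)

theorem log_bound {y : ℝ} (h0 : 0 < y) (h1 : y ≤ 1 / 5) :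
    -y - y ^ 2 / 2 - 2 / 3 * y ^ 3 ≤ Real.log (1 - y) := by
  have h := Real.abs_log_sub_add_sum_range_le (x := y) (by rw [abs_of_pos h0]; linarith) 3
  rw [abs_of_pos h0] at h
  have h2 := (abs_le.1 h).1
  simp only [Finset.sum_range_succ, Finset.sum_range_zero] at h2
  norm_num at h2
  have h3 : y ^ 4 / (1 - y) ≤ y ^ 3 / 4 := by
    rw [div_le_div_iff₀ (by linarith) (by norm_num)]
    have : 0 < y ^ 3 := by positivity
    nlinarith
  have : 0 < y ^ 3 := by positivity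
  linarith

/-- the Hölder constant `((n - 1) / n) ^ (n / 2) * W_{n - 2} / W_{2 n - 2}`, `n = k + 2 = 2 ν` -/
noncomputable def Gk (k : ℕ) : ℝ := (((k : ℝ) + 1) / (k + 2)) ^ (((k : ℝ) + 2) / 2) * Hk k

theorem sqrt_two_exp : (8577 / 10000 : ℝ) ≤ Real.sqrt 2 * Real.exp (-(1 / 2)) := by
  have h1 : (8577 / 10000 : ℝ) ^ 2 ≤ (Real.sqrt 2 * Real.exp (-(1 / 2))) ^ 2 := by
    rw [mul_pow, Real.sq_sqrt (by norm_num), ← Real.exp_nat_mul]
    have : ((2 : ℕ) : ℝ) * -(1 / 2) = -1 := by norm_num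
    rw [this, Real.exp_neg]
    have h2 := Real.exp_one_lt_d9
    have h3 : (2.7182818286 : ℝ)⁻¹ ≤ (Real.exp 1)⁻¹ := inv_anti₀ (Real.exp_pos 1) h2.le
    refine le_trans ?_ (mul_le_mul_of_nonneg_left h3 (by norm_num))
    norm_num
  exact le_of_sq_le_sq h1 (by positivity)

theorem Gk_ge (k : ℕ) (hk : 3 ≤ k) : gl (((k : ℝ) + 2) / 2) ≤ Gk k := by
  have hk' : (3 : ℝ) ≤ k := by exact_mod_cast hk
  set y : ℝ := 1 / ((k : ℝ) + 2) with hy
  have hy0 : 0 < y := by positivity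
  have hy1 : y ≤ 1 / 5 := by
    rw [hy, div_le_div_iff₀ (by positivity) (by norm_num)]; linarith
  have e1 : ((k : ℝ) + 1) / (k + 2) = 1 - y := by
    rw [hy]; field_simp; ring
  have hn : ((k : ℝ) + 2) / 2 = 1 / (2 * y) := by
    rw [hy]; field_simp
  have hpow : Real.exp (-(1 / 2)) * (1 - y / 4 - y ^ 2 / 3)
      ≤ (((k : ℝ) + 1) / (k + 2)) ^ (((k : ℝ) + 2) / 2) := by
    rw [e1, hn, Real.rpow_def_of_pos (by linarith)]
    have h1 : -(1 / 2) + -(y / 4 + y ^ 2 / 3) ≤ Real.log (1 - y) * (1 / (2 * y)) := by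
      have h2 := mul_le_mul_of_nonneg_right (log_bound hy0 hy1) (by positivity : 0 ≤ 1 / (2 * y))
      refine le_trans (le_of_eq ?_) h2
      field_simp
      ring
    refine le_trans ?_ (Real.exp_le_exp.2 h1)
    rw [Real.exp_add]
    refine mul_le_mul_of_nonneg_left ?_ (Real.exp_pos _).le
    have := Real.add_one_le_exp (-(y / 4 + y ^ 2 / 3))
    linarith
  have hH := Hk_ge k
  have hp2 : 0 ≤ 1 - y / 4 - y ^ 2 / 3 := by nlinarith
  have hgl : gl (((k : ℝ) + 2) / 2)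
      = 8577 / 10000 * (1 + 3 / 8 * y) * (1 - y / 4 - y ^ 2 / 3) := by
    rw [hn]
    unfold gl
    field_simp
    ring
  have e3 : 1 + 3 / (8 * ((k : ℝ) + 2)) = 1 + 3 / 8 * y := by
    rw [hy]; field_simp
  rw [e3] at hH
  rw [hgl]
  unfold Gk
  calc 8577 / 10000 * (1 + 3 / 8 * y) * (1 - y / 4 - y ^ 2 / 3)
      ≤ (Real.sqrt 2 * Real.exp (-(1 / 2))) * (1 + 3 / 8 * y) * (1 - y / 4 - y ^ 2 / 3) := by
        refine mul_le_mul_of_nonneg_right ?_ hp2
        exact mul_le_mul_of_nonneg_right sqrt_two_exp (by positivity)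
    _ = (Real.exp (-(1 / 2)) * (1 - y / 4 - y ^ 2 / 3)) * (Real.sqrt 2 * (1 + 3 / 8 * y)) := by ring
    _ ≤ _ := mul_le_mul hpow hH (by positivity) (by positivity)

end Pool.Agent.ConeG.Rad
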