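import Pool.Agent.Work.MP_b0b133_an.R.Defs
import Pool.Agent.Work.MP_b0b133_an.R.FarConst

/-!
# Radial data, far region: Hölder's inequality between the exponents `2` and `4`
-/

set_option autoImplicit false
open scoped Real
open MeasureTheory Filter Topology Complex

namespace Pool.Agent.ConeG.Rad

theorem continuous_Ch (ν : ℝ) (l : ℕ) : Continuous (Ch ν l) := by
  induction l using Nat.strong_induction_on with
  | _ l ih =>
    match l with
    | 0 => exact continuous_const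
    | 1 => exact continuous_id
    | (l + 2) =>
      have h1 := ih (l + 1) (by omega)
      have h0 := ih l (by omega)
      show Continuous fun t => (2 * (l + 1 + ν) * t * Ch ν (l + 1) t - (l + 1) * Ch ν l t)
        / (l + 1 + 2 * ν)
      fun_prop

theorem continuous_F (ν : ℝ) (N : ℕ) (a : ℕ → ℂ) :
    Continuous fun p : ℝ × ℝ => F ν N a p.1 p.2 := by
  unfold F
  refine continuous_finsetSum _ fun l _ => ?_
  have h := continuous_Ch ν l
  have h2 : Continuous fun p : ℝ × ℝ => ((Ch ν l (Real.cos p.2) : ℝ) : ℂ) :=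
    continuous_ofReal.comp (h.comp (Real.continuous_cos.comp continuous_snd))
  have h3 : Continuous fun p : ℝ × ℝ => cexp (-((l : ℂ) * (p.1 : ℂ) * I)) := by fun_prop
  exact (continuous_const.mul h2).mul h3

/-- the measure `dT dg` on `(0, 2π] × (0, π]` -/
noncomputable def mu2 : Measure (ℝ × ℝ) :=
  (volume.restrict (Set.Ioc (0 : ℝ) (2 * π))).prod (volume.restrict (Set.Ioc (0 : ℝ) π))

instance : IsFiniteMeasure mu2 := by unfold mu2; infer_instance

theorem ae_mu2 : ∀ᵐ p ∂mu2, p ∈ Set.Icc (0 : ℝ) (2 * π) ×ˢ Set.Icc (0 : ℝ) π := by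
  unfold mu2
  rw [Measure.prod_restrict]
  refine (ae_restrict_iff' (measurableSet_Ioc.prod measurableSet_Ioc)).2 ?_
  refine Filter.Eventually.of_forall fun p hp => ?_
  exact ⟨Set.Ioc_subset_Icc_self hp.1, Set.Ioc_subset_Icc_self hp.2⟩

theorem memLp_cont (f : ℝ × ℝ → ℝ) (hf : Continuous f) (p : ENNReal) : MemLp f p mu2 := by
  obtain ⟨C, hC⟩ := ((isCompact_Icc (a := (0 : ℝ)) (b := 2 * π)).prod
    (isCompact_Icc (a := (0 : ℝ)) (b := π))).exists_bound_of_continuousOn hf.continuousOn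
  refine MemLp.of_bound hf.aestronglyMeasurable C ?_
  filter_upwards [ae_mu2] with q hq
  exact hC q hq

theorem iterated_eq (f : ℝ × ℝ → ℝ) (hf : Continuous f) :
    ∫ T in (0 : ℝ)..(2 * π), ∫ g in (0 : ℝ)..π, f (T, g) = ∫ p, f p ∂mu2 := by
  have hint : Integrable f mu2 := memLp_one_iff_integrable.1 (memLp_cont f hf 1)
  unfold mu2 at hint ⊢
  rw [integral_prod _ hint, intervalIntegral.integral_of_le (by positivity)]
  refine integral_congr_ae (Filter.Eventually.of_forall fun T => ?_)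
  simp only
  rw [intervalIntegral.integral_of_le (by positivity)]

/-- the integral of `|F|²` -/
noncomputable def M1 (ν : ℝ) (N : ℕ) (a : ℕ → ℂ) : ℝ :=
  (2 * π)⁻¹ * ∫ T in (0 : ℝ)..(2 * π), ∫ g in (0 : ℝ)..π,
    ‖F ν N a T g‖ ^ 2 * Real.sin g ^ (2 * ν - 2)

/-- the integral of `|F|⁴` -/
noncomputable def M2 (ν : ℝ) (N : ℕ) (a : ℕ → ℂ) : ℝ :=
  (2 * π)⁻¹ * ∫ T in (0 : ℝ)..(2 * π), ∫ g in (0 : ℝ)..π,
    ‖F ν N a T g‖ ^ 4 * Real.sin g ^ (4 * ν - 2)

theorem V_eq (ν : ℝ) (hν : 1 < ν) (N : ℕ) (a : ℕ → ℂ) :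
    V ν N a = cn ν * ((2 * π)⁻¹ * ∫ p, ‖F ν N a p.1 p.2‖ ^ (2 * (1 + 1 / ν))
      * Real.sin p.2 ^ (2 * ν) ∂mu2) := by
  have hF := continuous_F ν N a
  have hc : Continuous fun p : ℝ × ℝ => ‖F ν N a p.1 p.2‖ ^ (2 * (1 + 1 / ν))
      * Real.sin p.2 ^ (2 * ν) := by
    refine Continuous.mul ?_ ?_
    · exact hF.norm.rpow_const fun _ => Or.inr (by positivity)
    · exact (Real.continuous_sin.comp continuous_snd).rpow_const fun _ => Or.inr (by positivity)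
  rw [← iterated_eq _ hc]
  unfold V
  rw [intervalIntegral.integral_const_mul]
  ring

theorem holder (ν : ℝ) (hν : 1 < ν) (N : ℕ) (a : ℕ → ℂ) :
    V ν N a ≤ cn ν * (M1 ν N a ^ (1 - 1 / ν) * M2 ν N a ^ (1 / ν)) := by
  have hν0 : 0 < ν := by linarith
  have hF := continuous_F ν N a
  have hs : Continuous fun p : ℝ × ℝ => Real.sin p.2 := Real.continuous_sin.comp continuous_snd
  set f1 : ℝ × ℝ → ℝ := fun p => ‖F ν N a p.1 p.2‖ ^ 2 * Real.sin p.2 ^ (2 * ν - 2) with hf1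
  set f2 : ℝ × ℝ → ℝ := fun p => ‖F ν N a p.1 p.2‖ ^ 4 * Real.sin p.2 ^ (4 * ν - 2) with hf2
  have c1 : Continuous f1 := (hF.norm.pow 2).mul (hs.rpow_const fun _ => Or.inr (by linarith))
  have c2 : Continuous f2 := (hF.norm.pow 4).mul (hs.rpow_const fun _ => Or.inr (by linarith))
  have e1 : M1 ν N a = (2 * π)⁻¹ * ∫ p, f1 p ∂mu2 := by rw [← iterated_eq _ c1]; rfl
  have e2 : M2 ν N a = (2 * π)⁻¹ * ∫ p, f2 p ∂mu2 := by rw [← iterated_eq _ c2]; rfl
  have hε0 : 0 < 1 / ν := by positivity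
  have hε1 : 1 / ν < 1 := by rw [div_lt_one hν0]; exact hν
  have hn1 : ∀ᵐ p ∂mu2, 0 ≤ f1 p := by
    filter_upwards [ae_mu2] with p hp
    have : 0 ≤ Real.sin p.2 := Real.sin_nonneg_of_mem_Icc hp.2
    exact mul_nonneg (by positivity) (Real.rpow_nonneg this _)
  have hn2 : ∀ᵐ p ∂mu2, 0 ≤ f2 p := by
    filter_upwards [ae_mu2] with p hp
    have : 0 ≤ Real.sin p.2 := Real.sin_nonneg_of_mem_Icc hp.2
    exact mul_nonneg (by positivity) (Real.rpow_nonneg this _)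
  have hconj : (1 / (1 - 1 / ν)).HolderConjugate (1 / (1 / ν)) := by
    refine Real.holderConjugate_iff.2 ⟨?_, ?_⟩
    · rw [lt_div_iff₀ (by linarith)]; linarith
    · simp
  have hH := integral_mul_le_Lp_mul_Lq_of_nonneg (μ := mu2) hconj
    (f := fun p => |f1 p| ^ (1 - 1 / ν)) (g := fun p => |f2 p| ^ (1 / ν))
    (Filter.Eventually.of_forall fun p => by positivity)
    (Filter.Eventually.of_forall fun p => by positivity)
    (memLp_cont _ (c1.abs.rpow_const fun _ => Or.inr (by linarith)) _)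
    (memLp_cont _ (c2.abs.rpow_const fun _ => Or.inr (by linarith)) _)
  have hl : ∫ p, |f1 p| ^ (1 - 1 / ν) * |f2 p| ^ (1 / ν) ∂mu2
      = ∫ p, ‖F ν N a p.1 p.2‖ ^ (2 * (1 + 1 / ν)) * Real.sin p.2 ^ (2 * ν) ∂mu2 := by
    refine integral_congr_ae ?_
    filter_upwards [ae_mu2] with p hp
    have hs0 : 0 ≤ Real.sin p.2 := Real.sin_nonneg_of_mem_Icc hp.2
    simp only [hf1, hf2]
    set x := ‖F ν N a p.1 p.2‖ with hx
    have hx0 : 0 ≤ x := norm_nonneg _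
    rw [abs_of_nonneg (mul_nonneg (pow_nonneg hx0 2) (Real.rpow_nonneg hs0 _)),
      abs_of_nonneg (mul_nonneg (pow_nonneg hx0 4) (Real.rpow_nonneg hs0 _)),
      Real.mul_rpow (pow_nonneg hx0 2) (Real.rpow_nonneg hs0 _),
      Real.mul_rpow (pow_nonneg hx0 4) (Real.rpow_nonneg hs0 _),
      ← Real.rpow_mul hs0, ← Real.rpow_mul hs0, ← Real.rpow_natCast x 2, ← Real.rpow_natCast x 4,
      ← Real.rpow_mul hx0, ← Real.rpow_mul hx0]
    have a1 : x ^ (((2 : ℕ) : ℝ) * (1 - 1 / ν)) * x ^ (((4 : ℕ) : ℝ) * (1 / ν))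
        = x ^ (2 * (1 + 1 / ν)) := by
      rw [← Real.rpow_add_of_nonneg hx0 (by push_cast; nlinarith) (by positivity)]
      congr 1
      push_cast
      ring
    have a2 : Real.sin p.2 ^ ((2 * ν - 2) * (1 - 1 / ν)) * Real.sin p.2 ^ ((4 * ν - 2) * (1 / ν))
        = Real.sin p.2 ^ (2 * ν) := by
      rw [← Real.rpow_add_of_nonneg hs0 (mul_nonneg (by linarith) (by linarith))
        (mul_nonneg (by linarith) (by linarith))]
      congr 1
      field_simp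
      ring
    rw [← a1, ← a2]
    ring
  have hr1 : ∫ p, (|f1 p| ^ (1 - 1 / ν)) ^ (1 / (1 - 1 / ν)) ∂mu2 = ∫ p, f1 p ∂mu2 := by
    refine integral_congr_ae ?_
    filter_upwards [hn1] with p hp
    rw [abs_of_nonneg hp, ← Real.rpow_mul hp, mul_one_div_cancel (by linarith), Real.rpow_one]
  have hr2 : ∫ p, (|f2 p| ^ (1 / ν)) ^ (1 / (1 / ν)) ∂mu2 = ∫ p, f2 p ∂mu2 := by
    refine integral_congr_ae ?_
    filter_upwards [hn2] with p hp
    rw [abs_of_nonneg hp, ← Real.rpow_mul hp, mul_one_div_cancel (by linarith), Real.rpow_one]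
  rw [hl, hr1, hr2, one_div_one_div, one_div_one_div] at hH
  have hcn : 0 ≤ cn ν := by
    unfold cn
    refine inv_nonneg.2 (intervalIntegral.integral_nonneg (by positivity) fun g hg => ?_)
    exact Real.rpow_nonneg (Real.sin_nonneg_of_mem_Icc hg) _
  rw [V_eq ν hν]
  refine mul_le_mul_of_nonneg_left ?_ hcn
  rw [e1, e2, Real.mul_rpow (by positivity) (integral_nonneg_of_ae hn1),
    Real.mul_rpow (by positivity) (integral_nonneg_of_ae hn2)]
  have e3 : ((2 * π)⁻¹ : ℝ) ^ (1 - 1 / ν) * (2 * π)⁻¹ ^ (1 / ν) = (2 * π)⁻¹ := by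
    rw [← Real.rpow_add (by positivity)]
    simp
  calc (2 * π)⁻¹ * ∫ p, ‖F ν N a p.1 p.2‖ ^ (2 * (1 + 1 / ν)) * Real.sin p.2 ^ (2 * ν) ∂mu2
      ≤ (2 * π)⁻¹ * ((∫ p, f1 p ∂mu2) ^ (1 - 1 / ν) * (∫ p, f2 p ∂mu2) ^ (1 / ν)) :=
        mul_le_mul_of_nonneg_left hH (by positivity)
    _ = (((2 * π)⁻¹ : ℝ) ^ (1 - 1 / ν) * (2 * π)⁻¹ ^ (1 / ν))
          * ((∫ p, f1 p ∂mu2) ^ (1 - 1 / ν) * (∫ p, f2 p ∂mu2) ^ (1 / ν)) := by rw [e3]
    _ = _ := by ring

/-- the far inequality from the energy identity and a quartic bound -/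
theorem far_of_quartic (k : ℕ) (N : ℕ) (a : ℕ → ℂ) (ν : ℝ) (hν : ν = ((k : ℝ) + 2) / 2)
    (hk : 3 ≤ k) (hE : 0 ≤ E ν N a)
    (h1 : M1 ν N a = (∫ g in (0 : ℝ)..π, Real.sin g ^ (2 * ν - 2)) * E ν N a)
    (h2 : M2 ν N a ≤ (∫ g in (0 : ℝ)..π, Real.sin g ^ (4 * ν - 2)) * (gl ν * E ν N a ^ 2)) :
    V ν N a ≤ E ν N a ^ (1 + 1 / ν) := by
  have hk' : (3 : ℝ) ≤ k := by exact_mod_cast hk
  have hν1 : 1 < ν := by rw [hν]; linarith
  have hν0 : 0 < ν := by linarith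
  have i1 : (∫ g in (0 : ℝ)..π, Real.sin g ^ (2 * ν - 2)) = Wa k := by
    unfold Wa
    have : 2 * ν - 2 = (k : ℝ) := by rw [hν]; ring
    rw [this]
    simp only [Real.rpow_natCast]
  have i2 : (∫ g in (0 : ℝ)..π, Real.sin g ^ (4 * ν - 2)) = Wa (2 * k + 2) := by
    unfold Wa
    have : 4 * ν - 2 = ((2 * k + 2 : ℕ) : ℝ) := by rw [hν]; push_cast; ring
    rw [this]
    simp only [Real.rpow_natCast]
  have is : (∫ g in (0 : ℝ)..π, Real.sin g ^ (2 * ν)) = Wa (k + 2) := by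
    unfold Wa
    have : 2 * ν = ((k + 2 : ℕ) : ℝ) := by rw [hν]; push_cast; ring
    rw [this]
    simp only [Real.rpow_natCast]
  have p1 := Wa_pos k
  have p2 := Wa_pos (2 * k + 2)
  have ps := Wa_pos (k + 2)
  set e := E ν N a with he
  have hG : gl ν ≤ Gk k := by rw [hν]; exact Gk_ge k hk
  have hG2 : Gk k = (Wa (k + 2) / Wa k) ^ ν * (Wa k / Wa (2 * k + 2)) := by
    unfold Gk Hk
    rw [Wa_succ_succ k, hν]
    congr 2
    field_simp
  have hGpos : 0 < Gk k := by rw [hG2]; positivity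
  have h2' : M2 ν N a ≤ Wa (2 * k + 2) * (Gk k * e ^ 2) := by
    rw [i2] at h2
    refine h2.trans ?_
    exact mul_le_mul_of_nonneg_left (mul_le_mul_of_nonneg_right hG (sq_nonneg _)) p2.le
  have hM2 : 0 ≤ M2 ν N a := by
    unfold M2
    refine mul_nonneg (by positivity) (intervalIntegral.integral_nonneg (by positivity)
      fun T _ => intervalIntegral.integral_nonneg (by positivity) fun g hg => ?_)
    exact mul_nonneg (by positivity) (Real.rpow_nonneg (Real.sin_nonneg_of_mem_Icc hg) _)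
  refine (holder ν hν1 N a).trans ?_
  have hcn : cn ν = (Wa (k + 2))⁻¹ := by unfold cn; rw [is]
  rw [hcn, h1, i1]
  have hε : 0 < 1 / ν := by positivity
  have hε1 : 1 / ν < 1 := by rw [div_lt_one hν0]; exact hν1
  have b2 : M2 ν N a ^ (1 / ν) ≤ (Wa (2 * k + 2) * (Gk k * e ^ 2)) ^ (1 / ν) :=
    Real.rpow_le_rpow hM2 h2' hε.le
  have b3 : (Wa (k + 2))⁻¹ * ((Wa k * e) ^ (1 - 1 / ν) * M2 ν N a ^ (1 / ν))
      ≤ (Wa (k + 2))⁻¹ * ((Wa k * e) ^ (1 - 1 / ν) * (Wa (2 * k + 2) * (Gk k * e ^ 2)) ^ (1 / ν)) := by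
    refine mul_le_mul_of_nonneg_left ?_ (by positivity)
    exact mul_le_mul_of_nonneg_left b2 (by positivity)
  refine b3.trans (le_of_eq ?_)
  rw [Real.mul_rpow p1.le hE, Real.mul_rpow p2.le (by positivity),
    Real.mul_rpow hGpos.le (by positivity), hG2, Real.mul_rpow (by positivity) (by positivity),
    ← Real.rpow_mul (by positivity), mul_one_div_cancel hν0.ne', Real.rpow_one,
    Real.div_rpow p1.le p2.le]
  have w1 : Wa k ^ (1 - 1 / ν) * Wa k ^ (1 / ν) = Wa k := by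
    rw [← Real.rpow_add p1]; simp
  have w2 : e ^ (1 - 1 / ν) * (e ^ 2) ^ (1 / ν) = e ^ (1 + 1 / ν) := by
    rw [← Real.rpow_natCast e 2, ← Real.rpow_mul hE,
      ← Real.rpow_add_of_nonneg hE (by linarith) (by positivity)]
    congr 1
    push_cast
    ring
  have w3 : Wa (2 * k + 2) ^ (1 / ν) ≠ 0 := (Real.rpow_pos_of_pos p2 _).ne'
  calc (Wa (k + 2))⁻¹ * (Wa k ^ (1 - 1 / ν) * e ^ (1 - 1 / ν)
        * (Wa (2 * k + 2) ^ (1 / ν) * (Wa (k + 2) / Wa k * (Wa k ^ (1 / ν)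
          / Wa (2 * k + 2) ^ (1 / ν)) * (e ^ 2) ^ (1 / ν))))
      = (Wa (k + 2))⁻¹ * (Wa (k + 2) / Wa k) * (Wa k ^ (1 - 1 / ν) * Wa k ^ (1 / ν))
        * (Wa (2 * k + 2) ^ (1 / ν) / Wa (2 * k + 2) ^ (1 / ν))
        * (e ^ (1 - 1 / ν) * (e ^ 2) ^ (1 / ν)) := by ring
    _ = e ^ (1 + 1 / ν) := by
        rw [w1, w2, div_self w3]
        field_simp

end Pool.Agent.ConeG.Rad
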