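import Mathlib

/-!
# Radial data, far region: the numerical inequalities
-/

set_option autoImplicit false
open scoped Real

namespace Pool.Agent.ConeG.Rad

/-- the quartic constant -/
noncomputable def kap2 (ν : ℝ) : ℝ := ν * (4 * ν - 1) / (2 * (2 * ν + 1) ^ 2)

/-- the lower bound of the Hölder constant -/
noncomputable def gl (ν : ℝ) : ℝ :=
  8577 / 10000 * (1 + 3 / (16 * ν)) * (1 - 1 / (8 * ν) - 1 / (12 * ν ^ 2))

theorem kap2_eq {ν x : ℝ} (hx : 0 < x) (h : ν = 1 / x) :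
    kap2 ν = (4 - x) / (2 * (2 + x) ^ 2) := by
  subst h
  unfold kap2
  field_simp

theorem gl_eq {ν x : ℝ} (hx : 0 < x) (h : ν = 1 / x) :
    gl ν = 8577 / 10000 * (1 + 3 / 16 * x) * (1 - x / 8 - x ^ 2 / 12) := by
  subst h
  unfold gl
  field_simp

/-- the middle region at the end points in `ρ` -/
theorem mid_end1 {x : ℝ} (h0 : 0 ≤ x) (h1 : x ≤ 2 / 5) :
    (4 - x) / (2 * (2 + x) ^ 2) * (7 / 4) ^ 2
      + (1 - (4 - x) / (2 * (2 + x) ^ 2)) * (1 + 2 / ((4 + x) * (2 + x))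
        + (2 + 2 * x) / (4 + x) * (3 / 4) + (3 / 4) ^ 2)
      ≤ 8577 / 10000 * (1 + 3 / 16 * x) * (1 - x / 8 - x ^ 2 / 12) * (7 / 4) ^ 2 := by
  have e : 8577 / 10000 * (1 + 3 / 16 * x) * (1 - x / 8 - x ^ 2 / 12) * (7 / 4) ^ 2
      - ((4 - x) / (2 * (2 + x) ^ 2) * (7 / 4) ^ 2
      + (1 - (4 - x) / (2 * (2 + x) ^ 2)) * (1 + 2 / ((4 + x) * (2 + x))
        + (2 + 2 * x) / (4 + x) * (3 / 4) + (3 / 4) ^ 2))
      = (273/20000 + 68273/12800 * x + 4125753/2560000 * x ^ 2 - 16100273/5120000 * x ^ 3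
        - 20593377/10240000 * x ^ 4 - 10787007/20480000 * x ^ 5 - 420273/10240000 * x ^ 6)
        / (2 + x) ^ 3 := by
    have : (2 + x) ≠ 0 := by positivity
    have : (4 + x) ≠ 0 := by positivity
    field_simp
    ring
  have h2 : 0 ≤ 273/20000 + 68273/12800 * x + 4125753/2560000 * x ^ 2 - 16100273/5120000 * x ^ 3
        - 20593377/10240000 * x ^ 4 - 10787007/20480000 * x ^ 5 - 420273/10240000 * x ^ 6 := by
    have a3 : x ^ 3 ≤ x := by nlinarith [pow_nonneg h0 2, mul_nonneg h0 h0]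
    have a4 : x ^ 4 ≤ x / 2 := by nlinarith [pow_nonneg h0 3, mul_nonneg h0 h0, pow_nonneg h0 2]
    have a5 : x ^ 5 ≤ x / 2 := by
      have : x ^ 5 = x ^ 4 * x := by ring
      nlinarith [pow_nonneg h0 4]
    have a6 : x ^ 6 ≤ x / 2 := by
      have : x ^ 6 = x ^ 5 * x := by ring
      nlinarith [pow_nonneg h0 5]
    nlinarith [pow_nonneg h0 2]
  have h3 : 0 ≤ (273/20000 + 68273/12800 * x + 4125753/2560000 * x ^ 2 - 16100273/5120000 * x ^ 3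
        - 20593377/10240000 * x ^ 4 - 10787007/20480000 * x ^ 5 - 420273/10240000 * x ^ 6)
        / (2 + x) ^ 3 := by positivity
  linarith

theorem mid_end2 {x : ℝ} (h0 : 0 ≤ x) (h1 : x ≤ 2 / 5) :
    (4 - x) / (2 * (2 + x) ^ 2) * (7 / 2) ^ 2
      + (1 - (4 - x) / (2 * (2 + x) ^ 2)) * (1 + 2 / ((4 + x) * (2 + x))
        + (2 + 2 * x) / (4 + x) * (5 / 2) + (5 / 2) ^ 2)
      ≤ 8577 / 10000 * (1 + 3 / 16 * x) * (1 - x / 8 - x ^ 2 / 12) * (7 / 2) ^ 2 := by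
  have e : 8577 / 10000 * (1 + 3 / 16 * x) * (1 - x / 8 - x ^ 2 / 12) * (7 / 2) ^ 2
      - ((4 - x) / (2 * (2 + x) ^ 2) * (7 / 2) ^ 2
      + (1 - (4 - x) / (2 * (2 + x) ^ 2)) * (1 + 2 / ((4 + x) * (2 + x))
        + (2 + 2 * x) / (4 + x) * (5 / 2) + (5 / 2) ^ 2))
      = (273/5000 + 63473/3200 * x + 2205753/640000 * x ^ 2 - 16100273/1280000 * x ^ 3
        - 20593377/2560000 * x ^ 4 - 10787007/5120000 * x ^ 5 - 420273/2560000 * x ^ 6)
        / (2 + x) ^ 3 := by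
    have : (2 + x) ≠ 0 := by positivity
    have : (4 + x) ≠ 0 := by positivity
    field_simp
    ring
  have h2 : 0 ≤ 273/5000 + 63473/3200 * x + 2205753/640000 * x ^ 2 - 16100273/1280000 * x ^ 3
        - 20593377/2560000 * x ^ 4 - 10787007/5120000 * x ^ 5 - 420273/2560000 * x ^ 6 := by
    have a3 : x ^ 3 ≤ x := by nlinarith [pow_nonneg h0 2, mul_nonneg h0 h0]
    have a4 : x ^ 4 ≤ x / 2 := by nlinarith [pow_nonneg h0 3, mul_nonneg h0 h0, pow_nonneg h0 2]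
    have a5 : x ^ 5 ≤ x / 2 := by
      have : x ^ 5 = x ^ 4 * x := by ring
      nlinarith [pow_nonneg h0 4]
    have a6 : x ^ 6 ≤ x / 2 := by
      have : x ^ 6 = x ^ 5 * x := by ring
      nlinarith [pow_nonneg h0 5]
    nlinarith [pow_nonneg h0 2]
  have h3 : 0 ≤ (273/5000 + 63473/3200 * x + 2205753/640000 * x ^ 2 - 16100273/1280000 * x ^ 3
        - 20593377/2560000 * x ^ 4 - 10787007/5120000 * x ^ 5 - 420273/2560000 * x ^ 6)
        / (2 + x) ^ 3 := by positivity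
  linarith

/-- the middle region -/
theorem mid_num {ν E A : ℝ} (hν : 5 / 2 ≤ ν) (h1 : 7 / 4 ≤ E) (h2 : E ≤ 7 / 2)
    (hA : A ≤ 1 + 2 * ν ^ 2 / ((4 * ν + 1) * (2 * ν + 1))
      + (2 * ν + 2) / (4 * ν + 1) * (E - 1) + (E - 1) ^ 2) :
    kap2 ν * E ^ 2 + (1 - kap2 ν) * A ≤ gl ν * E ^ 2 := by
  have hν0 : 0 < ν := by linarith
  obtain ⟨x, hx0, hxν⟩ : ∃ x : ℝ, 0 < x ∧ ν = 1 / x := ⟨1 / ν, by positivity, by simp⟩
  have hx1 : x ≤ 2 / 5 := by
    have : x = 1 / ν := by rw [hxν]; simp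
    rw [this, div_le_div_iff₀ hν0 (by norm_num)]
    linarith
  have eK := kap2_eq hx0 hxν
  have eG := gl_eq hx0 hxν
  have ec : 2 * ν ^ 2 / ((4 * ν + 1) * (2 * ν + 1)) = 2 / ((4 + x) * (2 + x)) := by
    rw [hxν]; field_simp
  have ea : (2 * ν + 2) / (4 * ν + 1) = (2 + 2 * x) / (4 + x) := by
    rw [hxν]; field_simp
  rw [ec, ea] at hA
  rw [eK, eG]
  set K := (4 - x) / (2 * (2 + x) ^ 2) with hK
  set g := 8577 / 10000 * (1 + 3 / 16 * x) * (1 - x / 8 - x ^ 2 / 12) with hg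
  have hK1 : K ≤ 1 := by
    rw [hK, div_le_one (by positivity)]
    nlinarith
  have hg1 : g ≤ 1 := by
    rw [hg]
    nlinarith [mul_nonneg hx0.le hx0.le, pow_pos hx0 3]
  have e1 := mid_end1 hx0.le hx1
  have e2 := mid_end2 hx0.le hx1
  rw [← hK, ← hg] at e1 e2
  set c := 2 / ((4 + x) * (2 + x)) with hc
  set a3 := (2 + 2 * x) / (4 + x) with ha3
  have hA2 : (1 - K) * A ≤ (1 - K) * (1 + c + a3 * (E - 1) + (E - 1) ^ 2) :=
    mul_le_mul_of_nonneg_left hA (by linarith)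
  -- concavity in `E`
  have key : g * E ^ 2 - (K * E ^ 2 + (1 - K) * (1 + c + a3 * (E - 1) + (E - 1) ^ 2))
      = (g * (7 / 4) ^ 2 - (K * (7 / 4) ^ 2 + (1 - K) * (1 + c + a3 * (3 / 4) + (3 / 4) ^ 2)))
          * ((7 / 2 - E) / (7 / 4))
        + (g * (7 / 2) ^ 2 - (K * (7 / 2) ^ 2 + (1 - K) * (1 + c + a3 * (5 / 2) + (5 / 2) ^ 2)))
          * ((E - 7 / 4) / (7 / 4))
        + (1 - g) * ((E - 7 / 4) * (7 / 2 - E)) := by
    ring
  have t1 : 0 ≤ (g * (7 / 4) ^ 2 - (K * (7 / 4) ^ 2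
      + (1 - K) * (1 + c + a3 * (3 / 4) + (3 / 4) ^ 2))) * ((7 / 2 - E) / (7 / 4)) :=
    mul_nonneg (by linarith) (div_nonneg (by linarith) (by norm_num))
  have t2 : 0 ≤ (g * (7 / 2) ^ 2 - (K * (7 / 2) ^ 2
      + (1 - K) * (1 + c + a3 * (5 / 2) + (5 / 2) ^ 2))) * ((E - 7 / 4) / (7 / 4)) :=
    mul_nonneg (by linarith) (div_nonneg (by linarith) (by norm_num))
  have t3 : 0 ≤ (1 - g) * ((E - 7 / 4) * (7 / 2 - E)) :=
    mul_nonneg (by linarith) (mul_nonneg (by linarith) (by linarith))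
  linarith

/-- the region of large energy -/
theorem sup_num {ν E A : ℝ} (hν : 5 / 2 ≤ ν) (h1 : 3 ≤ E)
    (hA : A ≤ (4 * ν - 1) / (2 * ν - 1) * (21 / 20 * E)) :
    kap2 ν * E ^ 2 + (1 - kap2 ν) * A ≤ gl ν * E ^ 2 := by
  have hν0 : 0 < ν := by linarith
  obtain ⟨x, hx0, hxν⟩ : ∃ x : ℝ, 0 < x ∧ ν = 1 / x := ⟨1 / ν, by positivity, by simp⟩
  have hx1 : x ≤ 2 / 5 := by
    have : x = 1 / ν := by rw [hxν]; simp
    rw [this, div_le_div_iff₀ hν0 (by norm_num)]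
    linarith
  have eK := kap2_eq hx0 hxν
  have eG := gl_eq hx0 hxν
  have ec : (4 * ν - 1) / (2 * ν - 1) = (4 - x) / (2 - x) := by
    rw [hxν]
    have : 2 - x ≠ 0 := by linarith
    have : 2 * (1 / x) - 1 ≠ 0 := by
      have : 2 * (1 / x) - 1 = (2 - x) / x := by field_simp
      rw [this]; positivity
    field_simp
  rw [ec] at hA
  rw [eK, eG]
  have h2x : 0 < 2 - x := by linarith
  have e : 8577 / 10000 * (1 + 3 / 16 * x) * (1 - x / 8 - x ^ 2 / 12)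
      - ((4 - x) / (2 * (2 + x) ^ 2) + (1 - (4 - x) / (2 * (2 + x) ^ 2))
        * ((4 - x) / (2 - x) * (7 / 20)))
      = (8577 / 10000 * (1 + 3 / 16 * x) * (1 - x / 8 - x ^ 2 / 12) * (2 * (2 + x) ^ 2 * (2 - x))
        - (4 - x) * (2 - x) - (2 * x + 1) * (x + 4) * (4 - x) * (7 / 20))
        / (2 * (2 + x) ^ 2 * (2 - x)) := by
    field_simp
    ring
  have h2 : 0 ≤ 8577 / 10000 * (1 + 3 / 16 * x) * (1 - x / 8 - x ^ 2 / 12)
        * (2 * (2 + x) ^ 2 * (2 - x))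
        - (4 - x) * (2 - x) - (2 * x + 1) * (x + 4) * (4 - x) * (7 / 20) := by
    have a3 : x ^ 3 ≤ 4 / 25 * x := by nlinarith [mul_nonneg hx0.le hx0.le]
    have a2 : x ^ 2 ≤ 2 / 5 * x := by nlinarith
    have a4 := pow_pos hx0 4
    have a5 := pow_pos hx0 5
    have a6 := pow_pos hx0 6
    nlinarith
  have h3 : (4 - x) / (2 * (2 + x) ^ 2) + (1 - (4 - x) / (2 * (2 + x) ^ 2))
        * ((4 - x) / (2 - x) * (7 / 20))
        ≤ 8577 / 10000 * (1 + 3 / 16 * x) * (1 - x / 8 - x ^ 2 / 12) := by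
    have : 0 ≤ (8577 / 10000 * (1 + 3 / 16 * x) * (1 - x / 8 - x ^ 2 / 12)
        * (2 * (2 + x) ^ 2 * (2 - x))
        - (4 - x) * (2 - x) - (2 * x + 1) * (x + 4) * (4 - x) * (7 / 20))
        / (2 * (2 + x) ^ 2 * (2 - x)) := by positivity
    linarith
  set K := (4 - x) / (2 * (2 + x) ^ 2) with hK
  set g := 8577 / 10000 * (1 + 3 / 16 * x) * (1 - x / 8 - x ^ 2 / 12) with hg
  have hK1 : K ≤ 1 := by
    rw [hK, div_le_one (by positivity)]
    nlinarith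
  have hq : 0 ≤ (4 - x) / (2 - x) := div_nonneg (by linarith) h2x.le
  have hA2 : A ≤ (4 - x) / (2 - x) * (7 / 20) * E ^ 2 := by
    refine hA.trans ?_
    have : 21 / 20 * E ≤ 7 / 20 * E ^ 2 := by nlinarith
    calc (4 - x) / (2 - x) * (21 / 20 * E) ≤ (4 - x) / (2 - x) * (7 / 20 * E ^ 2) :=
          mul_le_mul_of_nonneg_left this hq
      _ = _ := by ring
  have hA3 : (1 - K) * A ≤ (1 - K) * ((4 - x) / (2 - x) * (7 / 20) * E ^ 2) :=
    mul_le_mul_of_nonneg_left hA2 (by linarith)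
  have h4 : (K + (1 - K) * ((4 - x) / (2 - x) * (7 / 20))) * E ^ 2 ≤ g * E ^ 2 :=
    mul_le_mul_of_nonneg_right h3 (sq_nonneg _)
  calc K * E ^ 2 + (1 - K) * A ≤ K * E ^ 2 + (1 - K) * ((4 - x) / (2 - x) * (7 / 20) * E ^ 2) := by
        linarith
    _ = (K + (1 - K) * ((4 - x) / (2 - x) * (7 / 20))) * E ^ 2 := by ring
    _ ≤ _ := h4

end Pool.Agent.ConeG.Rad
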