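import Pool.Agent.Work.MP_b0b133_an.R.FarAlg
import Pool.Agent.Work.MP_b0b133_an.R.FarHol

/-!
# Radial data, far region: the bound of `A0` by the overlaps

If `|f(z)|² (1 - |z|²)^{2ν} ≤ C` on the disc then `A0 ≤ ((4ν - 1)/(2ν - 1)) C E`.
-/

set_option autoImplicit false
open scoped Real
open MeasureTheory Filter Topology Complex Finset

namespace Pool.Agent.ConeG.Rad

/-! ## Beta integrals -/

theorem beta_step (l n : ℕ) : ((n : ℝ) + 1) * ∫ t in (0 : ℝ)..1, t ^ (l + 1) * (1 - t) ^ n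
    = ((l : ℝ) + 1) * ∫ t in (0 : ℝ)..1, t ^ l * (1 - t) ^ (n + 1) := by
  have hd : ∀ t : ℝ, HasDerivAt (fun t : ℝ => t ^ (l + 1) * (1 - t) ^ (n + 1))
      (((l : ℝ) + 1) * (t ^ l * (1 - t) ^ (n + 1)) - ((n : ℝ) + 1) * (t ^ (l + 1) * (1 - t) ^ n)) t := by
    intro t
    have h1 := hasDerivAt_pow (l + 1) t
    have h2 : HasDerivAt (fun t : ℝ => (1 - t) ^ (n + 1)) (((n + 1 : ℕ) : ℝ) * (1 - t) ^ n * (-1)) t := by
      have := (((hasDerivAt_id' t).const_sub 1)).fun_pow (n + 1)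
      simpa using this
    refine (h1.mul h2).congr_deriv ?_
    push_cast
    ring
  have h := intervalIntegral.integral_eq_sub_of_hasDerivAt (a := 0) (b := 1)
    (f := fun t : ℝ => t ^ (l + 1) * (1 - t) ^ (n + 1)) (fun t _ => hd t)
    (Continuous.intervalIntegrable (by fun_prop) _ _)
  rw [intervalIntegral.integral_sub (Continuous.intervalIntegrable (by fun_prop) _ _)
    (Continuous.intervalIntegrable (by fun_prop) _ _), intervalIntegral.integral_const_mul,
    intervalIntegral.integral_const_mul] at h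
  simp at h
  linarith

theorem beta_zero (n : ℕ) : ∫ t in (0 : ℝ)..1, (1 - t) ^ n = 1 / ((n : ℝ) + 1) := by
  have := intervalIntegral.integral_comp_sub_left (a := 0) (b := 1) (fun t : ℝ => t ^ n) 1
  rw [this, integral_pow]
  simp

theorem beta_eq (l n : ℕ) : ((n : ℝ) + 1) * ∫ t in (0 : ℝ)..1, t ^ l * (1 - t) ^ n
    = (cf (((n : ℝ) + 2) / 2) l)⁻¹ := by
  induction l generalizing n with
  | zero =>
    simp only [pow_zero, one_mul, beta_zero, cf_zero]
    field_simp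
  | succ l ih =>
    rw [beta_step]
    have h := ih (n + 1)
    have e : ((n + 1 : ℕ) : ℝ) + 1 = (n : ℝ) + 2 := by push_cast; ring
    rw [e] at h
    have h2 : ∫ t in (0 : ℝ)..1, t ^ l * (1 - t) ^ (n + 1)
        = (cf ((((n + 1 : ℕ) : ℝ) + 2) / 2) l)⁻¹ / ((n : ℝ) + 2) := by
      rw [← h]; field_simp
    rw [h2]
    unfold cf
    have e1 : ∀ k : ℕ, (2 * ((((n + 1 : ℕ) : ℝ) + 2) / 2) + (k : ℝ)) / ((k : ℝ) + 1)
        = ((n : ℝ) + 2 + (k + 1)) / (k + 1) := fun k => by push_cast; ring_nf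
    have e2 : ∀ k : ℕ, (2 * (((n : ℝ) + 2) / 2) + (k : ℝ)) / ((k : ℝ) + 1)
        = ((n : ℝ) + 2 + k) / (k + 1) := fun k => by ring_nf
    simp only [e1, e2, prod_div_distrib]
    have e3 : ∏ k ∈ range (l + 1), ((n : ℝ) + 2 + (k : ℝ))
        = ((n : ℝ) + 2) * ∏ k ∈ range l, ((n : ℝ) + 2 + ((k : ℝ) + 1)) := by
      rw [prod_range_succ']
      push_cast
      ring
    have e4 : ∏ k ∈ range (l + 1), ((k : ℝ) + 1) = (∏ k ∈ range l, ((k : ℝ) + 1)) * (l + 1) :=
      prod_range_succ _ _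
    rw [e3, e4]
    have p1 : (∏ k ∈ range l, ((k : ℝ) + 1)) ≠ 0 := prod_ne_zero_iff.2 fun k _ => by positivity
    have p2 : (∏ k ∈ range l, ((n : ℝ) + 2 + ((k : ℝ) + 1))) ≠ 0 :=
      prod_ne_zero_iff.2 fun k _ => by positivity
    field_simp

/-! ## Parseval on circles -/

theorem parseval (M : ℕ) (c : ℕ → ℂ) (r : ℝ) :
    (2 * π)⁻¹ * ∫ θ in (0 : ℝ)..(2 * π), ‖∑ l ∈ range M, c l * (r * cexp (θ * I)) ^ l‖ ^ 2
      = ∑ l ∈ range M, ‖c l‖ ^ 2 * (r ^ 2) ^ l := by
  have h1 : ∀ θ : ℝ, ((‖∑ l ∈ range M, c l * (r * cexp (θ * I)) ^ l‖ ^ 2 : ℝ) : ℂ)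
      = ∑ j ∈ range M, ∑ k ∈ range M, (c j * (starRingEnd ℂ) (c k) * (r : ℂ) ^ (j + k))
        * cexp ((((j : ℤ) - (k : ℤ) : ℤ) : ℂ) * (θ : ℂ) * I) := by
    intro θ
    rw [← Complex.normSq_eq_norm_sq, Complex.normSq_eq_conj_mul_self, mul_comm, map_sum,
      sum_mul_sum]
    refine sum_congr rfl fun j _ => sum_congr rfl fun k _ => ?_
    rw [map_mul, map_pow, map_mul, Complex.conj_ofReal, ← Complex.exp_conj, map_mul,
      Complex.conj_ofReal, Complex.conj_I, mul_pow, mul_pow, ← Complex.exp_nat_mul,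
      ← Complex.exp_nat_mul]
    have : cexp ((((j : ℤ) - (k : ℤ) : ℤ) : ℂ) * (θ : ℂ) * I)
        = cexp ((j : ℂ) * (θ * I)) * cexp ((k : ℂ) * (θ * -I)) := by
      rw [← Complex.exp_add]
      congr 1
      push_cast
      ring
    rw [this]
    ring
  have h2 : ∀ m : ℤ, ∫ θ in (0 : ℝ)..(2 * π), cexp (((m : ℤ) : ℂ) * (θ : ℂ) * I)
      = if m = 0 then ((2 * π : ℝ) : ℂ) else 0 := by
    intro m
    split_ifs with hm
    · subst hm
      simp
    · have hne : ((m : ℂ) * I) ≠ 0 := mul_ne_zero (by exact_mod_cast hm) I_ne_zero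
      have h3 := integral_exp_mul_complex (a := 0) (b := 2 * π) hne
      have h4 : (fun θ : ℝ => cexp (((m : ℤ) : ℂ) * (θ : ℂ) * I))
          = fun θ : ℝ => cexp (((m : ℂ) * I) * (θ : ℂ)) := by
        funext θ; congr 1; ring
      rw [h4, h3]
      have h5 : cexp ((m : ℂ) * I * ((2 * π : ℝ) : ℂ)) = 1 := by
        have := Complex.exp_int_mul_two_pi_mul_I m
        rw [← this]
        congr 1
        push_cast
        ring
      rw [h5]
      simp
  have h3 : (((2 * π)⁻¹ * ∫ θ in (0 : ℝ)..(2 * π),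
      ‖∑ l ∈ range M, c l * (r * cexp (θ * I)) ^ l‖ ^ 2 : ℝ) : ℂ)
      = ((∑ l ∈ range M, ‖c l‖ ^ 2 * (r ^ 2) ^ l : ℝ) : ℂ) := by
    rw [ofReal_mul, ← intervalIntegral.integral_ofReal]
    simp_rw [h1]
    rw [intervalIntegral.integral_finsetSum]
    swap
    · intro j _
      exact Continuous.intervalIntegrable (by fun_prop) _ _
    have h4 : ∀ j ∈ range M, ∫ θ in (0 : ℝ)..(2 * π), ∑ k ∈ range M,
        (c j * (starRingEnd ℂ) (c k) * (r : ℂ) ^ (j + k))
        * cexp ((((j : ℤ) - (k : ℤ) : ℤ) : ℂ) * (θ : ℂ) * I)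
        = ((‖c j‖ ^ 2 * (r ^ 2) ^ j : ℝ) : ℂ) * ((2 * π : ℝ) : ℂ) := by
      intro j hj
      rw [intervalIntegral.integral_finsetSum]
      swap
      · intro k _
        exact Continuous.intervalIntegrable (by fun_prop) _ _
      simp_rw [intervalIntegral.integral_const_mul, h2]
      rw [sum_eq_single j]
      · simp only [sub_self, if_true]
        rw [Complex.mul_conj, Complex.normSq_eq_norm_sq]
        push_cast
        ring
      · intro k _ hkj
        have : ((j : ℤ) - (k : ℤ)) ≠ 0 := by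
          intro h
          apply hkj
          omega
        simp [this]
      · intro h; exact absurd hj h
    rw [sum_congr rfl h4, ← sum_mul]
    have hpi : ((2 * π : ℝ) : ℂ) ≠ 0 := by
      have : (2 * π : ℝ) ≠ 0 := by positivity
      exact_mod_cast this
    push_cast at hpi ⊢
    field_simp
  exact_mod_cast h3

/-- the square of a polynomial -/
theorem conv_eq (N : ℕ) (a : ℕ → ℂ) (z : ℂ) :
    ∑ m ∈ range (2 * N), (∑ p ∈ antidiagonal m, (if p.1 < N then a p.1 else 0)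
      * (if p.2 < N then a p.2 else 0)) * z ^ m = (∑ l ∈ range N, a l * z ^ l) ^ 2 := by
  set P : Polynomial ℂ := ∑ l ∈ range N, Polynomial.C (a l) * Polynomial.X ^ l with hP
  have hc : ∀ l, P.coeff l = if l < N then a l else 0 := by
    intro l
    rw [hP, Polynomial.finsetSum_coeff]
    simp only [Polynomial.coeff_C_mul_X_pow]
    by_cases h : l < N
    · rw [sum_eq_single l]
      · simp [h]
      · intro b _ hb
        simp [hb.symm]
      · intro h2; exact absurd (mem_range.2 h) h2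
    · rw [if_neg h]
      refine sum_eq_zero fun b hb => ?_
      rw [if_neg]
      intro hlb
      exact h (hlb ▸ mem_range.1 hb)
  have hdeg : (P * P).natDegree < 2 * N ∨ N = 0 := by
    rcases Nat.eq_zero_or_pos N with h | h
    · exact Or.inr h
    · left
      have h1 : P.natDegree ≤ N - 1 := by
        rw [Polynomial.natDegree_le_iff_coeff_eq_zero]
        intro m hm
        rw [hc, if_neg (by omega)]
      have := Polynomial.natDegree_mul_le (p := P) (q := P)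
      omega
  rcases hdeg with hdeg | h0
  · have he : (P * P).eval z = ∑ m ∈ range (2 * N), (P * P).coeff m * z ^ m :=
      Polynomial.eval_eq_sum_range' hdeg z
    have he2 : P.eval z = ∑ l ∈ range N, a l * z ^ l := by
      rw [hP, Polynomial.eval_finsetSum]
      simp
    rw [← he2, sq, ← Polynomial.eval_mul, he]
    refine sum_congr rfl fun m _ => ?_
    rw [Polynomial.coeff_mul]
    simp only [hc]
  · subst h0
    simp

theorem sum_beta (M n : ℕ) (x : ℕ → ℝ) :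
    ((n : ℝ) + 1) * ∫ t in (0 : ℝ)..1, (∑ l ∈ range M, x l * t ^ l) * (1 - t) ^ n
      = ∑ l ∈ range M, (cf (((n : ℝ) + 2) / 2) l)⁻¹ * x l := by
  have h : ∀ t : ℝ, (∑ l ∈ range M, x l * t ^ l) * (1 - t) ^ n
      = ∑ l ∈ range M, x l * (t ^ l * (1 - t) ^ n) := by
    intro t
    rw [sum_mul]
    exact sum_congr rfl fun l _ => by ring
  simp_rw [h]
  rw [intervalIntegral.integral_finsetSum]
  swap
  · intro l _
    exact Continuous.intervalIntegrable (by fun_prop) _ _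
  rw [mul_sum]
  refine sum_congr rfl fun l _ => ?_
  rw [intervalIntegral.integral_const_mul, ← beta_eq l n]
  ring

theorem A0_sup (k N : ℕ) (hk : 1 ≤ k) (a : ℕ → ℂ) (ν : ℝ) (hν : ν = ((k : ℝ) + 2) / 2) (C : ℝ)
    (hC : ∀ z : ℂ, ‖z‖ < 1 → ‖∑ l ∈ range N, a l * z ^ l‖ ^ 2 * (1 - ‖z‖ ^ 2) ^ (2 * ν) ≤ C) :
    A0 ν N a ≤ (4 * ν - 1) / (2 * ν - 1) * (C * E ν N a) := by
  have e1 : E ν N a = ((k : ℝ) + 1) * ∫ t in (0 : ℝ)..1,
      (∑ l ∈ range N, ‖a l‖ ^ 2 * t ^ l) * (1 - t) ^ k := by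
    rw [sum_beta, ← hν]
    rfl
  set c : ℕ → ℂ := fun m => ∑ p ∈ antidiagonal m, (if p.1 < N then a p.1 else 0)
      * (if p.2 < N then a p.2 else 0) with hc
  have e2 : A0 ν N a = (((2 * k + 2 : ℕ) : ℝ) + 1) * ∫ t in (0 : ℝ)..1,
      (∑ m ∈ range (2 * N), ‖c m‖ ^ 2 * t ^ m) * (1 - t) ^ (2 * k + 2) := by
    rw [sum_beta]
    have : (((2 * k + 2 : ℕ) : ℝ) + 2) / 2 = 2 * ν := by rw [hν]; push_cast; ring
    rw [this]
    rfl
  have hpt : ∀ t ∈ Set.Icc (0 : ℝ) 1, (∑ m ∈ range (2 * N), ‖c m‖ ^ 2 * t ^ m) * (1 - t) ^ (2 * k + 2)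
      ≤ C * ((∑ l ∈ range N, ‖a l‖ ^ 2 * t ^ l) * (1 - t) ^ k) := by
    intro t ht
    rcases eq_or_lt_of_le ht.2 with h1 | h1
    · rw [h1]
      have hk0 : k ≠ 0 := by omega
      simp [hk0]
    · have hr : Real.sqrt t ^ 2 = t := Real.sq_sqrt ht.1
      have p1 := parseval N a (Real.sqrt t)
      have p2 := parseval (2 * N) c (Real.sqrt t)
      rw [hr] at p1 p2
      rw [← p1, ← p2]
      have hz : ∀ θ : ℝ, ‖((Real.sqrt t : ℝ) : ℂ) * cexp (θ * I)‖ ^ 2 = t := by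
        intro θ
        rw [norm_mul, Complex.norm_exp_ofReal_mul_I, mul_one, Complex.norm_real, Real.norm_eq_abs,
          sq_abs, hr]
      have hzl : ∀ θ : ℝ, ‖((Real.sqrt t : ℝ) : ℂ) * cexp (θ * I)‖ < 1 := by
        intro θ
        have := hz θ
        by_contra hcon
        push Not at hcon
        nlinarith [norm_nonneg (((Real.sqrt t : ℝ) : ℂ) * cexp (θ * I))]
      have h1t : 0 < 1 - t := by linarith
      have hb : ∀ θ : ℝ, ‖∑ m ∈ range (2 * N), c m * (((Real.sqrt t : ℝ) : ℂ) * cexp (θ * I)) ^ m‖ ^ 2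
          * (1 - t) ^ (2 * k + 2)
          ≤ C * (‖∑ l ∈ range N, a l * (((Real.sqrt t : ℝ) : ℂ) * cexp (θ * I)) ^ l‖ ^ 2
            * (1 - t) ^ k) := by
        intro θ
        have h2 := hC _ (hzl θ)
        rw [hz θ] at h2
        have h3 : (1 - t) ^ (2 * ν) = (1 - t) ^ (k + 2) := by
          have : 2 * ν = ((k + 2 : ℕ) : ℝ) := by rw [hν]; push_cast; ring
          rw [this, Real.rpow_natCast]
        rw [h3] at h2
        rw [hc, conv_eq]
        set y := ‖∑ l ∈ range N, a l * (((Real.sqrt t : ℝ) : ℂ) * cexp (θ * I)) ^ l‖ with hy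
        rw [norm_pow, ← hy]
        calc (y ^ 2) ^ 2 * (1 - t) ^ (2 * k + 2)
            = (y ^ 2 * (1 - t) ^ (k + 2)) * (y ^ 2 * (1 - t) ^ k) := by ring
          _ ≤ C * (y ^ 2 * (1 - t) ^ k) := mul_le_mul_of_nonneg_right h2 (by positivity)
      have hI : (∫ θ in (0 : ℝ)..(2 * π),
          ‖∑ m ∈ range (2 * N), c m * (((Real.sqrt t : ℝ) : ℂ) * cexp (θ * I)) ^ m‖ ^ 2
            * (1 - t) ^ (2 * k + 2))
          ≤ ∫ θ in (0 : ℝ)..(2 * π),
            C * (‖∑ l ∈ range N, a l * (((Real.sqrt t : ℝ) : ℂ) * cexp (θ * I)) ^ l‖ ^ 2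
            * (1 - t) ^ k) := by
        refine intervalIntegral.integral_mono_on (by positivity)
          (Continuous.intervalIntegrable (by fun_prop) _ _)
          (Continuous.intervalIntegrable (by fun_prop) _ _) fun θ _ => hb θ
      rw [intervalIntegral.integral_mul_const, intervalIntegral.integral_const_mul,
        intervalIntegral.integral_mul_const] at hI
      have hpi : (0 : ℝ) ≤ (2 * π)⁻¹ := by positivity
      have := mul_le_mul_of_nonneg_left hI hpi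
      linarith
  have hint : (∫ t in (0 : ℝ)..1, (∑ m ∈ range (2 * N), ‖c m‖ ^ 2 * t ^ m) * (1 - t) ^ (2 * k + 2))
      ≤ C * ∫ t in (0 : ℝ)..1, (∑ l ∈ range N, ‖a l‖ ^ 2 * t ^ l) * (1 - t) ^ k := by
    rw [← intervalIntegral.integral_const_mul]
    exact intervalIntegral.integral_mono_on (by norm_num)
      (Continuous.intervalIntegrable (by fun_prop) _ _)
      (Continuous.intervalIntegrable (by fun_prop) _ _) hpt
  have hq : (4 * ν - 1) / (2 * ν - 1) = (((2 * k + 2 : ℕ) : ℝ) + 1) / ((k : ℝ) + 1) := by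
    rw [hν]; push_cast
    congr 1 <;> ring
  rw [hq, e1, e2]
  have hk1 : (0 : ℝ) < (k : ℝ) + 1 := by positivity
  calc (((2 * k + 2 : ℕ) : ℝ) + 1) * ∫ t in (0 : ℝ)..1,
        (∑ m ∈ range (2 * N), ‖c m‖ ^ 2 * t ^ m) * (1 - t) ^ (2 * k + 2)
      ≤ (((2 * k + 2 : ℕ) : ℝ) + 1) * (C * ∫ t in (0 : ℝ)..1,
          (∑ l ∈ range N, ‖a l‖ ^ 2 * t ^ l) * (1 - t) ^ k) :=
        mul_le_mul_of_nonneg_left hint (by positivity)
    _ = _ := by field_simp

end Pool.Agent.ConeG.Rad
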