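import Pool.Agent.Work.MP_b0b133_an.R.Sharp
import Pool.Agent.Work.MP_b0b133_an.R.Dens

/-!
# The sharp inequality for radial functions
-/

set_option autoImplicit false
open MeasureTheory Complex Filter Metric
open scoped ENNReal NNReal ComplexConjugate Topology Real

namespace Pool.Agent.ConeG.Rad

variable {d : ℕ}

/-- `f` agrees almost everywhere with a function of `|ξ|` -/
def IsRadial (f : Rd d → ℂ) : Prop := ∃ h : ℝ → ℂ, f =ᵐ[sig d] fun ξ => h ‖ξ‖

theorem isRadial_fstar : IsRadial (fstar : Rd d → ℂ) :=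
  ⟨fun r => (Real.exp (-r) : ℂ), Eventually.of_forall fun ξ => by simp [fstar]⟩

variable [Fact (2 ≤ d)]

/-- the sharp inequality for sums of radial exponentials, in the other normalisation -/
theorem good_pow {f : Rd d → ℂ} (h : Good d f) : (∫ a, ‖coneExt f a‖ ^ pe d) ^ te d ≤
    (mM0 d Set.univ).toReal ^ te d * (kap d * 4 ^ nu d * ∫ ξ, ‖f ξ‖ ^ 2 ∂(sig d)) := by
  have hk := kap_pos d
  have hnn : 0 ≤ ∫ a, ‖coneExt f a‖ ^ pe d :=
    integral_nonneg fun x => Real.rpow_nonneg (norm_nonneg _) _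
  have h2 : 0 ≤ kap d * 4 ^ nu d * ∫ ξ, ‖f ξ‖ ^ 2 ∂(sig d) :=
    mul_nonneg (by positivity) (integral_nonneg fun ξ => by positivity)
  have h1 := Real.rpow_le_rpow hnn h (te_pos (d := d)).le
  rw [Real.mul_rpow ENNReal.toReal_nonneg (by positivity), ← Real.rpow_mul h2] at h1
  have e : pe d / 2 * te d = 1 := by
    have := pe_mul_te (d := d)
    linarith
  rwa [e, Real.rpow_one] at h1

/-- the operator, and the sharp inequality on radial functions -/
theorem main_rad (hgood : ∀ D : Dat, Good d (D.fn d)) :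
    ∃ T : Lp ℂ 2 (sig d) →L[ℂ] Lp ℂ (pE d) (volume : Measure (Rs d)),
      (∀ f : Lp ℂ 2 (sig d), Integrable f (sig d) → T f =ᵐ[volume] coneExt f) ∧
      ∀ f : Lp ℂ 2 (sig d), IsRadial f → ‖T f‖ * ‖memLp_fstar.toLp (fstar : Rd d → ℂ)‖ ≤
        ‖T (memLp_fstar.toLp (fstar : Rd d → ℂ))‖ * ‖f‖ := by
  obtain ⟨T, hT, hTnorm⟩ := exists_ext (stri d)
  refine ⟨T, hT, ?_⟩
  have hstar : (memLp_fstar.toLp (fstar : Rd d → ℂ) : Rd d → ℂ) =ᵐ[sig d] fstar :=
    memLp_fstar.coeFn_toLp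
  have hstar1 : Integrable (memLp_fstar.toLp (fstar : Rd d → ℂ)) (sig d) :=
    (Z_expSpan_mem fstar Z_fstar_mem).1.congr hstar.symm
  set Fs := memLp_fstar.toLp (fstar : Rd d → ℂ) with hFs
  set K := (mM0 d Set.univ).toReal ^ te d * (kap d * 4 ^ nu d) with hK
  have e1 : ‖T Fs‖ ^ 2 = K * ‖Fs‖ ^ 2 := by
    rw [hTnorm _ hstar1, Z_coneExt_congr _ _ hstar, Z_fstar_value, Z_norm2]
    have : ∫ ξ, ‖Fs ξ‖ ^ 2 ∂(sig d) = ∫ ξ : Rd d, ‖fstar ξ‖ ^ 2 ∂(sig d) := by
      refine integral_congr_ae ?_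
      filter_upwards [hstar] with ξ hξ
      rw [hξ]
    rw [this]
    ring
  have e2 : ∀ D : Dat, ‖T (U_S ⟨D.fn d, D.fn_mem⟩)‖ ^ 2 ≤ K * ‖U_S ⟨D.fn d, D.fn_mem⟩‖ ^ 2 := by
    intro D
    have h := U_S_coe (⟨D.fn d, D.fn_mem⟩ : ExpSpan d)
    have hf : Integrable (U_S ⟨D.fn d, D.fn_mem⟩) (sig d) :=
      (Z_expSpan_mem (D.fn d) D.fn_mem).1.congr h.symm
    rw [hTnorm _ hf, Z_coneExt_congr _ _ h, U_S_norm, hK, mul_assoc]
    exact good_pow (hgood D)
  have hclosed : IsClosed {f : Lp ℂ 2 (sig d) | ‖T f‖ * ‖Fs‖ ≤ ‖T Fs‖ * ‖f‖} :=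
    isClosed_le (by fun_prop) (by fun_prop)
  rintro f ⟨h, hfh⟩
  have hm : MemLp (fun ξ : Rd d => h ‖ξ‖) 2 (sig d) := (memLp_congr_ae hfh).1 (Lp.memLp f)
  have hf : f = hm.toLp _ := Lp.ext (hfh.trans hm.coeFn_toLp.symm)
  have hcl : f ∈ closure {f : Lp ℂ 2 (sig d) | ‖T f‖ * ‖Fs‖ ≤ ‖T Fs‖ * ‖f‖} := by
    refine Metric.mem_closure_iff.2 fun ε hε => ?_
    obtain ⟨D, hD⟩ := rad_dens h hm ε hε
    refine ⟨U_S ⟨D.fn d, D.fn_mem⟩, ?_, ?_⟩
    · show ‖T (U_S ⟨D.fn d, D.fn_mem⟩)‖ * ‖Fs‖ ≤ ‖T Fs‖ * ‖U_S ⟨D.fn d, D.fn_mem⟩‖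
      refine (abs_le_of_sq_le_sq' ?_ (by positivity)).2
      rw [mul_pow, mul_pow, e1]
      have := e2 D
      nlinarith [sq_nonneg ‖Fs‖]
    · rw [dist_eq_norm, hf]
      exact hD
  rw [hclosed.closure_eq] at hcl
  exact hcl

/-- The form of the result in dimension `d`: the extension of every `f ∈ L²(dξ/|ξ|)` exists in
`L^p` and is unique, it is the extension integral if `f` is integrable, and `f_⋆ = e^{-|ξ|}`
maximizes among the radial functions. -/
theorem result_rad (hgood : ∀ D : Dat, Good d (D.fn d)) :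
    (∀ f : Rd d → ℂ, InTwo f → ∃ u, IsExt f u ∧ ∀ u', IsExt f u' → u' =ᵐ[volume] u) ∧
    (∀ f : Rd d → ℂ, InTwo f → Integrable f (sig d) → IsExt f (coneExt f)) ∧
    (InTwo (fstar : Rd d → ℂ) ∧ Integrable (fstar : Rd d → ℂ) (sig d) ∧
      normTwo (fstar : Rd d → ℂ) ≠ 0 ∧ IsRadial (fstar : Rd d → ℂ)) ∧
    ∀ (f : Rd d → ℂ) (u : Rs d → ℂ), IsExt f u → IsRadial f →
      normQ u * normTwo (fstar : Rd d → ℂ) ≤ normQ (coneExt (fstar : Rd d → ℂ)) * normTwo f := by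
  obtain ⟨T, h1, h2⟩ := main_rad hgood
  have hstar := (memLp_fstar (d := d)).coeFn_toLp
  have hsi : Integrable (fstar : Rd d → ℂ) (sig d) := (Z_expSpan_mem fstar Z_fstar_mem).1
  -- the key fact
  have key : ∀ f u (hf : MemLp f 2 (sig d)), IsExt f u → T (hf.toLp f) =ᵐ[volume] u := by
    rintro f u hf ⟨-, hu, s, hs, h3, h4⟩
    have e1 : Tendsto (fun n => ((hs n).2.toLp (s n) : Lp ℂ 2 (sig d))) atTop
        (𝓝 (hf.toLp f)) := by
      rw [tendsto_iff_norm_sub_tendsto_zero]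
      have h5 := (ENNReal.tendsto_toReal (ENNReal.zero_ne_top)).comp h3
      rw [ENNReal.toReal_zero] at h5
      refine h5.congr fun n => ?_
      simp only [Function.comp]
      rw [norm_two (hs n).2 hf, ENNReal.toReal_ofReal (norm_nonneg _)]
    have e2 := ((T.continuous.tendsto _).comp e1)
    have e3 : ∀ n, T ((hs n).2.toLp (s n)) =ᵐ[volume] coneExt (s n) := by
      intro n
      have h6 : ((hs n).2.toLp (s n) : Rd d → ℂ) =ᵐ[sig d] s n := (hs n).2.coeFn_toLp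
      rw [← Z_coneExt_congr _ _ h6]
      exact h1 _ ((hs n).1.congr h6.symm)
    have e4 : Tendsto (fun n => T ((hs n).2.toLp (s n))) atTop (𝓝 (hu.toLp u)) := by
      rw [tendsto_iff_norm_sub_tendsto_zero]
      have h5 := (ENNReal.tendsto_toReal (ENNReal.zero_ne_top)).comp h4
      rw [ENNReal.toReal_zero] at h5
      refine h5.congr fun n => ?_
      simp only [Function.comp]
      have h7 : ((T ((hs n).2.toLp (s n)) - hu.toLp u :
          Lp ℂ (pE d) (volume : Measure (Rs d))) : Rs d → ℂ) =ᵐ[volume] coneExt (s n) - u := by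
        filter_upwards [Lp.coeFn_sub (T ((hs n).2.toLp (s n))) (hu.toLp u), e3 n,
          hu.coeFn_toLp] with a ha hb hc
        rw [ha, Pi.sub_apply, hb, hc, Pi.sub_apply]
      rw [norm_q' _ h7, ENNReal.toReal_ofReal (norm_nonneg _)]
    have e5 : T (hf.toLp f) = hu.toLp u := tendsto_nhds_unique e2 e4
    rw [e5]
    exact hu.coeFn_toLp
  have hex : ∀ f (hf : MemLp f 2 (sig d)), IsExt f (T (hf.toLp f)) := by
    intro f hf
    have hd : ∀ n : ℕ, ∃ G ∈ Z_D0 d, ‖G - hf.toLp f‖ < 1 / ((n : ℝ) + 1) := by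
      intro n
      obtain ⟨G, hG, hG2⟩ := Metric.mem_closure_iff.1 ((Z_D0_dense (d := d)).closure_eq ▸ Set.mem_univ
        (hf.toLp f)) (1 / ((n : ℝ) + 1)) (by positivity)
      exact ⟨G, hG, by rw [← dist_eq_norm, dist_comm]; exact hG2⟩
    choose G hG hG2 using hd
    have hG3 : Tendsto G atTop (𝓝 (hf.toLp f)) := by
      rw [tendsto_iff_norm_sub_tendsto_zero]
      exact squeeze_zero (fun n => norm_nonneg _) (fun n => (hG2 n).le)
        tendsto_one_div_add_atTop_nhds_zero_nat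
    have hGi : ∀ n, Integrable (G n) (sig d) := fun n => Z_D0_le (hG n)
    refine ⟨hf, Lp.memLp _, fun n => G n, fun n => ⟨hGi n, Lp.memLp _⟩, ?_, ?_⟩
    · have h5 : Tendsto (fun n => ENNReal.ofReal ‖G n - hf.toLp f‖) atTop (𝓝 0) := by
        have := ENNReal.tendsto_ofReal (tendsto_iff_norm_sub_tendsto_zero.1 hG3)
        rwa [ENNReal.ofReal_zero] at this
      refine h5.congr fun n => ?_
      rw [norm_two (Lp.memLp (G n)) hf, Lp.toLp_coeFn]
    · have h5 : Tendsto (fun n => ENNReal.ofReal ‖T (G n) - T (hf.toLp f)‖) atTop (𝓝 0) := by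
        have := ENNReal.tendsto_ofReal (tendsto_iff_norm_sub_tendsto_zero.1
          ((T.continuous.tendsto _).comp hG3))
        rwa [ENNReal.ofReal_zero] at this
      refine h5.congr fun n => ?_
      refine (norm_q' _ ?_).symm
      filter_upwards [Lp.coeFn_sub (T (G n)) (T (hf.toLp f)), h1 (G n) (hGi n)] with a ha hb
      rw [ha, Pi.sub_apply, hb, Pi.sub_apply]
  refine ⟨fun f hf => ⟨T (MemLp.toLp f hf), hex f hf, fun u' hu' => (key f u' hf hu').symm⟩,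
    fun f hf hi => ?_, ⟨memLp_fstar, hsi, ?_, isRadial_fstar⟩, fun f u hfu hrad => ?_⟩
  · have hf' : MemLp f 2 (sig d) := hf
    have h6 : (hf'.toLp f : Rd d → ℂ) =ᵐ[sig d] f := hf'.coeFn_toLp
    have h7 := h1 _ (hi.congr h6.symm)
    rw [Z_coneExt_congr _ _ h6] at h7
    refine ⟨hf, (memLp_congr_ae h7).1 (Lp.memLp _), fun _ => f, fun _ => ⟨hi, hf⟩, ?_, ?_⟩
    · simp [normTwo]
    · simp [normQ]
  · rw [norm_two' memLp_fstar]
    have h3 := Z_norm2 (memLp_fstar.toLp (fstar : Rd d → ℂ))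
    have h4 : ∫ ξ, ‖memLp_fstar.toLp (fstar : Rd d → ℂ) ξ‖ ^ 2 ∂(sig d) =
        ∫ ξ : Rd d, ‖fstar ξ‖ ^ 2 ∂(sig d) := by
      refine integral_congr_ae ?_
      filter_upwards [hstar] with ξ hξ
      rw [hξ]
    rw [h4, Z_norm_fstar] at h3
    have hk := kap_pos d
    have h5 : 0 < ‖memLp_fstar.toLp (fstar : Rd d → ℂ)‖ ^ 2 := by rw [h3]; positivity
    have h6 : 0 < ‖memLp_fstar.toLp (fstar : Rd d → ℂ)‖ := by
      rcases (norm_nonneg (memLp_fstar.toLp (fstar : Rd d → ℂ))).lt_or_eq with h | h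
      · exact h
      · rw [← h] at h5; norm_num at h5
    exact (ENNReal.ofReal_pos.2 h6).ne'
  · have hf : MemLp f 2 (sig d) := hfu.1
    have h6 := key f u hf hfu
    have h8 := h1 _ (hsi.congr hstar.symm)
    rw [Z_coneExt_congr _ _ hstar] at h8
    have hr : IsRadial (hf.toLp f : Rd d → ℂ) := by
      obtain ⟨h, hh⟩ := hrad
      exact ⟨h, hf.coeFn_toLp.trans hh⟩
    rw [norm_q' _ h6, norm_q' _ h8, norm_two' memLp_fstar, norm_two' hf,
      ← ENNReal.ofReal_mul (norm_nonneg _), ← ENNReal.ofReal_mul (norm_nonneg _)]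
    exact ENNReal.ofReal_le_ofReal (h2 _ hr)

/-- the result from the sharp inequality on all exponential sums -/
theorem good_of_sharp (h : Sharp d) (D : Dat) : Good d (D.fn d) := by
  unfold Good
  have hk := kap_pos d
  have hp := pe_pos (d := d)
  have h1 := h (D.fn d) D.fn_mem
  have hnn : 0 ≤ ∫ a, ‖coneExt (D.fn d) a‖ ^ pe d :=
    integral_nonneg fun x => Real.rpow_nonneg (norm_nonneg _) _
  have h2 : 0 ≤ kap d * 4 ^ nu d * ∫ ξ, ‖D.fn d ξ‖ ^ 2 ∂(sig d) :=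
    mul_nonneg (by positivity) (integral_nonneg fun ξ => by positivity)
  have e : te d * (pe d / 2) = 1 := by
    have := pe_mul_te (d := d)
    linarith
  have h3 := Real.rpow_le_rpow (Real.rpow_nonneg hnn _) h1 (by positivity : 0 ≤ pe d / 2)
  rwa [Real.mul_rpow (Real.rpow_nonneg ENNReal.toReal_nonneg _) h2, ← Real.rpow_mul hnn,
    ← Real.rpow_mul ENNReal.toReal_nonneg, e, Real.rpow_one, Real.rpow_one] at h3

end Pool.Agent.ConeG.Rad
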