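import Pool.Agent.Work.MP_b0b133_an.R.Main

/-!
# Draft of the hand-in `ConeRadial`

To hand in: replace the namespace, the hypothesis `hnear` and the name `result_of`.
-/

set_option autoImplicit false
open MeasureTheory Complex Filter
open scoped ENNReal Topology

namespace Pool.Agent.ConeG.RadialDraft

open Pool.Agent.ConeG (Rd Rs sig coneExt fstar)

variable {d : ℕ}

/-- the exponent `p = 2 (d + 1) / (d - 1)` -/
noncomputable def p (d : ℕ) : ℝ≥0∞ := ENNReal.ofReal (2 * ((d : ℝ) + 1) / ((d : ℝ) - 1))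

/-- the norm of `L²(dξ/|ξ|)` -/
noncomputable def normTwo (f : Rd d → ℂ) : ℝ≥0∞ := eLpNorm f 2 (sig d)

/-- the norm of `L^p(ℝ × ℝᵈ)` -/
noncomputable def normP (u : Rs d → ℂ) : ℝ≥0∞ := eLpNorm u (p d) volume

/-- `f` is in `L²(dξ/|ξ|)` -/
def InTwo (f : Rd d → ℂ) : Prop := MemLp f 2 (sig d)

/-- `u` is in `L^p(ℝ × ℝᵈ)` -/
def InP (u : Rs d → ℂ) : Prop := MemLp u (p d) volume

/-- `u` is the extension of `f`: the `L^p`-limit of the extension integrals of integrable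
`L²`-functions which converge to `f` in `L²` -/
def IsExt (f : Rd d → ℂ) (u : Rs d → ℂ) : Prop :=
  InTwo f ∧ InP u ∧ ∃ s : ℕ → Rd d → ℂ, (∀ n, Integrable (s n) (sig d) ∧ InTwo (s n)) ∧
    Tendsto (fun n => normTwo (s n - f)) atTop (𝓝 0) ∧
    Tendsto (fun n => normP (coneExt (s n) - u)) atTop (𝓝 0)

/-- `f` is radial: it agrees almost everywhere with a function of `|ξ|` -/
def IsRadial (f : Rd d → ℂ) : Prop := ∃ h : ℝ → ℂ, f =ᵐ[sig d] fun ξ => h ‖ξ‖

/-- The theorem: for every `d ≥ 4` the extension of every `f ∈ L²(dξ/|ξ|)` exists in `L^p` and is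
unique, it is the extension integral if `f` is integrable, and `f_⋆ = e^{-|ξ|}` is a maximizer
among the radial functions. -/
theorem result_of (hnear : ∀ k : ℕ, 3 ≤ k → Pool.Agent.ConeG.Rad.RadNear (((k : ℝ) + 2) / 2))
    (d : ℕ) (hd : 4 ≤ d) :
    (∀ f : Rd d → ℂ, InTwo f → ∃ u, IsExt f u ∧ ∀ u', IsExt f u' → u' =ᵐ[volume] u) ∧
    (∀ f : Rd d → ℂ, InTwo f → Integrable f (sig d) → IsExt f (coneExt f)) ∧
    (InTwo (fstar (d := d)) ∧ Integrable (fstar (d := d)) (sig d) ∧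
      normTwo (fstar (d := d)) ≠ 0 ∧ IsRadial (fstar (d := d))) ∧
    ∀ (f : Rd d → ℂ) (u : Rs d → ℂ), IsExt f u → IsRadial f →
      normP u * normTwo (fstar (d := d)) ≤ normP (coneExt (fstar (d := d))) * normTwo f := by
  have : Fact (2 ≤ d) := ⟨by omega⟩
  exact Pool.Agent.ConeG.Rad.result_rad fun D => Pool.Agent.ConeG.Rad.good_all hnear d hd D

end Pool.Agent.ConeG.RadialDraft
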