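import Mathlib

/-!
# The conditions at a maximum of the overlap
-/

set_option autoImplicit false
open Filter Metric
open scoped Topology

namespace Pool.Agent.ConeG.Rad

theorem loc_unit (a : ℂ) (m : ℕ) (hm : m ≠ 0) : ∃ u : ℂ, ‖u‖ = 1 ∧ a * u ^ m = (‖a‖ : ℂ) := by
  by_cases h : a = 0
  · exact ⟨1, by simp, by simp [h]⟩
  · have hn : (‖a‖ : ℂ) ≠ 0 := by exact_mod_cast (norm_ne_zero_iff.2 h)
    obtain ⟨u, hu⟩ := IsAlgClosed.exists_pow_nat_eq ((‖a‖ : ℂ) / a) (Nat.pos_of_ne_zero hm)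
    refine ⟨u, ?_, ?_⟩
    · have h1 : ‖u‖ ^ m = 1 := by
        rw [← norm_pow, hu, norm_div, Complex.norm_real, norm_norm, div_self (norm_ne_zero_iff.2 h)]
      exact (pow_eq_one_iff_of_nonneg (norm_nonneg u) hm).1 h1
    · rw [hu]
      field_simp

/-- the remainder -/
theorem loc_rem (a : ℕ → ℂ) (C : ℝ) (hC : ∀ l, ‖a l‖ ≤ C) (η b : ℂ) (hη : ‖η‖ ≤ 1 / 2)
    (h : HasSum (fun l => a l * η ^ l) b) (m : ℕ) :
    ‖b - ∑ l ∈ Finset.range m, a l * η ^ l‖ ≤ 2 * C * ‖η‖ ^ m := by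
  have h1 := (hasSum_nat_add_iff' (f := fun l => a l * η ^ l) m).2 h
  have hC0 : 0 ≤ C := (norm_nonneg _).trans (hC 0)
  have hs : Summable fun l : ℕ => C * ‖η‖ ^ m * ‖η‖ ^ l :=
    (summable_geometric_of_lt_one (norm_nonneg _) (by linarith)).mul_left _
  have h2 : ‖b - ∑ l ∈ Finset.range m, a l * η ^ l‖ ≤ ∑' l : ℕ, C * ‖η‖ ^ m * ‖η‖ ^ l := by
    rw [← h1.tsum_eq]
    refine tsum_of_norm_bounded hs.hasSum fun l => ?_
    rw [norm_mul, norm_pow, pow_add]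
    calc ‖a (l + m)‖ * (‖η‖ ^ l * ‖η‖ ^ m) ≤ C * (‖η‖ ^ l * ‖η‖ ^ m) :=
          mul_le_mul_of_nonneg_right (hC _) (by positivity)
      _ = _ := by ring
  refine h2.trans ?_
  rw [tsum_mul_left, tsum_geometric_of_lt_one (norm_nonneg _) (by linarith)]
  have h3 : (1 - ‖η‖)⁻¹ ≤ 2 := by
    rw [inv_le_comm₀ (by linarith) (by norm_num)]
    linarith
  calc C * ‖η‖ ^ m * (1 - ‖η‖)⁻¹ ≤ C * ‖η‖ ^ m * 2 :=
        mul_le_mul_of_nonneg_left h3 (by positivity)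
    _ = _ := by ring

theorem loc_step (n : ℕ) (r y v : ℝ) (hr : (n : ℝ) * r ^ 2 ≤ 1 / 2) (hr1 : r ^ 2 ≤ 1) (hy : 0 ≤ y)
    (hv : 1 + y ≤ v) (h : v ^ 2 * (1 - r ^ 2) ^ n ≤ 1) : 2 * y * (1 - n * r ^ 2) ≤ n * r ^ 2 := by
  have h1 : 1 - n * r ^ 2 ≤ (1 - r ^ 2) ^ n := by
    have := one_add_mul_le_pow (a := -r ^ 2) (by nlinarith) n
    calc 1 - n * r ^ 2 = 1 + n * -r ^ 2 := by ring
      _ ≤ (1 + -r ^ 2) ^ n := this
      _ = _ := by ring
  have h2 : (1 + y) ^ 2 ≤ v ^ 2 := pow_le_pow_left₀ (by linarith) hv 2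
  have h3 : (1 + y) ^ 2 * (1 - n * r ^ 2) ≤ 1 := by
    calc (1 + y) ^ 2 * (1 - n * r ^ 2) ≤ v ^ 2 * (1 - r ^ 2) ^ n :=
          mul_le_mul h2 h1 (by linarith) (by positivity)
      _ ≤ 1 := h
  nlinarith [sq_nonneg y]

/-- first and second order conditions at the maximum -/
theorem loc_cond (n : ℕ) (a : ℕ → ℂ) (C : ℝ) (hC : ∀ l, ‖a l‖ ≤ C) (f : ℂ → ℂ)
    (hf : ∀ η : ℂ, ‖η‖ < 1 → HasSum (fun l => a l * η ^ l) (f η)) (h0 : a 0 = 1)
    (hmax : ∀ η : ℂ, ‖η‖ < 1 → ‖f η‖ ^ 2 * (1 - ‖η‖ ^ 2) ^ n ≤ 1) :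
    a 1 = 0 ∧ 2 * ‖a 2‖ ≤ n := by
  have hC0 : 0 ≤ C := (norm_nonneg _).trans (hC 0)
  have hn0 : (0 : ℝ) ≤ n := Nat.cast_nonneg n
  have ha1 : a 1 = 0 := by
    by_contra hne
    have hα : 0 < ‖a 1‖ := norm_pos_iff.2 hne
    obtain ⟨u, hu, hau⟩ := loc_unit (a 1) 1 one_ne_zero
    rw [pow_one] at hau
    set K : ℝ := n + 2 * C + 2 with hK
    have hK0 : 0 < K := by positivity
    set r : ℝ := min (1 / K) (‖a 1‖ / (2 * K)) with hr
    have hr0 : 0 < r := by positivity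
    have hr1 : r ≤ 1 / K := min_le_left _ _
    have hr2 : r ≤ ‖a 1‖ / (2 * K) := min_le_right _ _
    have hrK : r * K ≤ 1 := by
      rw [le_div_iff₀ hK0] at hr1
      exact hr1
    have hrK2 : r * (2 * K) ≤ ‖a 1‖ := by
      rw [le_div_iff₀ (by positivity)] at hr2
      exact hr2
    have hrh : r ≤ 1 / 2 := by nlinarith
    have hη : ‖(r : ℂ) * u‖ = r := by
      rw [norm_mul, hu, Complex.norm_real, Real.norm_eq_abs, abs_of_pos hr0, mul_one]
    have h1 := loc_rem a C hC ((r : ℂ) * u) _ (by rw [hη]; exact hrh) (hf _ (by rw [hη]; linarith)) 2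
    rw [hη, Finset.sum_range_succ, Finset.sum_range_one, pow_zero, pow_one, h0, one_mul] at h1
    have h2 : a 1 * ((r : ℂ) * u) = ((r * ‖a 1‖ : ℝ) : ℂ) := by
      rw [mul_left_comm, hau]
      push_cast
      ring
    rw [h2] at h1
    have h3 : 1 + (r * ‖a 1‖ - 2 * C * r ^ 2) ≤ ‖f ((r : ℂ) * u)‖ := by
      have h4 := (abs_le.1 ((Complex.abs_re_le_norm _).trans h1)).1
      simp only [Complex.sub_re, Complex.add_re, Complex.one_re, Complex.ofReal_re] at h4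
      have h5 := Complex.re_le_norm (f ((r : ℂ) * u))
      linarith
    have h6 := hmax ((r : ℂ) * u) (by rw [hη]; linarith)
    rw [hη] at h6
    have hnr : (n : ℝ) * r ^ 2 ≤ 1 / 2 := by nlinarith
    have hy : 0 ≤ r * ‖a 1‖ - 2 * C * r ^ 2 := by nlinarith
    have h7 := loc_step n r _ _ hnr (by nlinarith) hy h3 h6
    have h8 : r * ‖a 1‖ - 2 * C * r ^ 2 ≤ n * r ^ 2 := by nlinarith
    have h9 : ‖a 1‖ ≤ (n + 2 * C) * r := by nlinarith
    nlinarith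
  refine ⟨ha1, ?_⟩
  obtain ⟨u, hu, hau⟩ := loc_unit (a 2) 2 two_ne_zero
  by_contra hne
  rw [not_le] at hne
  set α := ‖a 2‖ with hα
  have hα0 : 0 < α := by linarith
  set g : ℝ := 2 * α - n with hg
  have hg0 : 0 < g := by linarith
  set K : ℝ := 4 * C + 2 * α * n + n + α + 2 with hK
  have hK0 : 0 < K := by positivity
  set r : ℝ := min (1 / K) (min (g / (2 * K)) (α / (2 * K))) with hr
  have hr0 : 0 < r := by positivity
  have hr1 : r ≤ 1 / K := min_le_left _ _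
  have hr2 : r ≤ g / (2 * K) := (min_le_right _ _).trans (min_le_left _ _)
  have hr3 : r ≤ α / (2 * K) := (min_le_right _ _).trans (min_le_right _ _)
  have hrK : r * K ≤ 1 := by
    rw [le_div_iff₀ hK0] at hr1
    exact hr1
  have hrK2 : r * (2 * K) ≤ g := by
    rw [le_div_iff₀ (by positivity)] at hr2
    exact hr2
  have hrK3 : r * (2 * K) ≤ α := by
    rw [le_div_iff₀ (by positivity)] at hr3
    exact hr3
  have hrh : r ≤ 1 / 2 := by
    have : 2 ≤ K := by rw [hK]; nlinarith [mul_nonneg hα0.le hn0]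
    nlinarith
  have hη : ‖(r : ℂ) * u‖ = r := by
    rw [norm_mul, hu, Complex.norm_real, Real.norm_eq_abs, abs_of_pos hr0, mul_one]
  have h1 := loc_rem a C hC ((r : ℂ) * u) _ (by rw [hη]; exact hrh) (hf _ (by rw [hη]; linarith)) 3
  rw [hη, Finset.sum_range_succ, Finset.sum_range_succ, Finset.sum_range_one, pow_zero, pow_one, h0,
    one_mul, ha1, zero_mul, add_zero] at h1
  have h2 : a 2 * ((r : ℂ) * u) ^ 2 = ((r ^ 2 * α : ℝ) : ℂ) := by
    rw [mul_pow, mul_left_comm, hau]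
    push_cast
    ring
  rw [h2] at h1
  have h3 : 1 + (r ^ 2 * α - 2 * C * r ^ 3) ≤ ‖f ((r : ℂ) * u)‖ := by
    have h4 := (abs_le.1 ((Complex.abs_re_le_norm _).trans h1)).1
    simp only [Complex.sub_re, Complex.add_re, Complex.one_re, Complex.ofReal_re] at h4
    have h5 := Complex.re_le_norm (f ((r : ℂ) * u))
    linarith
  have h6 := hmax ((r : ℂ) * u) (by rw [hη]; linarith)
  rw [hη] at h6
  have hnK : (n : ℝ) ≤ K := by rw [hK]; nlinarith [mul_nonneg hα0.le hn0]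
  have hrn : r * n ≤ 1 := (mul_le_mul_of_nonneg_left hnK hr0.le).trans hrK
  have hnr : (n : ℝ) * r ^ 2 ≤ 1 / 2 := by nlinarith
  have hCK : 4 * C ≤ K := by rw [hK]; nlinarith [mul_nonneg hα0.le hn0]
  have hCr : r * (4 * C) ≤ α := by
    have := mul_le_mul_of_nonneg_left hCK hr0.le
    nlinarith
  have hy : 0 ≤ r ^ 2 * α - 2 * C * r ^ 3 := by
    have : r ^ 2 * α - 2 * C * r ^ 3 = r ^ 2 * (α - 2 * C * r) := by ring
    rw [this]
    exact mul_nonneg (by positivity) (by nlinarith)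
  have h7 := loc_step n r _ _ hnr (by nlinarith) hy h3 h6
  have hr2p : 0 < r ^ 2 := by positivity
  have h8 : 2 * (α - 2 * C * r) * (1 - n * r ^ 2) ≤ n := by
    have e : 2 * (r ^ 2 * α - 2 * C * r ^ 3) * (1 - n * r ^ 2) =
        r ^ 2 * (2 * (α - 2 * C * r) * (1 - n * r ^ 2)) := by ring
    rw [e] at h7
    have : r ^ 2 * (2 * (α - 2 * C * r) * (1 - n * r ^ 2)) ≤ r ^ 2 * n := by linarith
    exact le_of_mul_le_mul_left this hr2p
  have h9 : 2 * α - n ≤ 4 * C * r + 2 * α * n * r ^ 2 := by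
    have : 0 ≤ C * r * (n * r ^ 2) := by positivity
    nlinarith
  have h10 : 2 * α * n * r ^ 2 ≤ 2 * α * n * r := by
    have : 0 ≤ 2 * α * n := by positivity
    nlinarith
  have h11 : r * (4 * C + 2 * α * n) ≤ r * K := mul_le_mul_of_nonneg_left (by rw [hK]; linarith) hr0.le
  have h12 : g ≤ r * K := by rw [hg]; nlinarith
  nlinarith

end Pool.Agent.ConeG.Rad
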