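import Pool.Agent.Work.MP_b0b133_an.R.En
import Pool.Agent.Work.MP_b0b133_an.R.Loc

/-!
# The frame of maximal overlap
-/

set_option autoImplicit false
open MeasureTheory Complex Filter Metric
open scoped ENNReal NNReal ComplexConjugate Topology Real

namespace Pool.Agent.ConeG.Rad

variable {d : ℕ}

/-- the overlap with `e^{-w̄ |ξ|}`, up to a constant -/
noncomputable def Dat.ov (d : ℕ) (D : Dat) (w : ℂ) : ℂ := ∑ i, D.κ i * ((D.z i + w) ^ (d - 1))⁻¹

theorem be_be {w : ℂ} (hw : 1 + w ≠ 0) : be (be w) = w := by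
  unfold be
  have h2 : (1 + (1 - w) / (1 + w)) ≠ 0 := by
    have : 1 + (1 - w) / (1 + w) = 2 / (1 + w) := by field_simp; ring
    rw [this]
    exact div_ne_zero two_ne_zero hw
  field_simp
  ring

theorem be_re {η : ℂ} (hη : ‖η‖ < 1) : 0 < (be η).re := by
  have h1 : (1 + η) ≠ 0 := by
    intro h
    have : η = -1 := by linear_combination h
    rw [this, norm_neg, norm_one] at hη
    exact lt_irrefl _ hη
  have h2 : (be η).re = (1 - ‖η‖ ^ 2) / ‖1 + η‖ ^ 2 := by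
    unfold be
    rw [Complex.div_re, ← Complex.normSq_eq_norm_sq, ← Complex.normSq_eq_norm_sq]
    have h3 : Complex.normSq (1 + η) ≠ 0 := Complex.normSq_eq_zero.not.2 h1
    field_simp
    rw [Complex.normSq_apply η]
    simp only [Complex.sub_re, Complex.one_re, Complex.add_re, Complex.sub_im, Complex.one_im,
      Complex.add_im]
    ring
  rw [h2]
  have h3 : 0 < ‖1 + η‖ := norm_pos_iff.2 h1
  have h4 : ‖η‖ ^ 2 < 1 := by nlinarith [norm_nonneg η]
  have h5 : 0 < 1 - ‖η‖ ^ 2 := by linarith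
  positivity

theorem one_sub_be {w : ℂ} (hw : 0 < w.re) : 1 - ‖be w‖ ^ 2 = w.re * ‖1 + be w‖ ^ 2 := by
  have h1 := one_add_ne hw
  rw [one_add_be hw]
  unfold be
  rw [norm_div, norm_div, div_pow, div_pow, ← Complex.normSq_eq_norm_sq,
    ← Complex.normSq_eq_norm_sq, Complex.norm_ofNat]
  have h3 : Complex.normSq (1 + w) ≠ 0 := Complex.normSq_eq_zero.not.2 h1
  field_simp
  rw [Complex.normSq_apply, Complex.normSq_apply]
  simp only [Complex.sub_re, Complex.one_re, Complex.add_re, Complex.sub_im, Complex.one_im,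
      Complex.add_im]
  ring

section
variable [Fact (2 ≤ d)]

theorem Dat.summable_aa (D : Dat) : Summable fun l => ‖D.aa d l‖ := by
  have h : Summable fun l => ∑ i, ‖D.κ i * (1 + be (D.z i)) ^ (d - 1)‖ *
      ‖(cf (nu d) l : ℂ) * (‖be (D.z i)‖ : ℂ) ^ l‖ := by
    refine summable_sum fun i _ => Summable.mul_left _ ?_
    have h1 : ‖(‖be (D.z i)‖ : ℂ)‖ < 1 := by
      rw [Complex.norm_real, norm_norm]
      exact be_norm (D.hz i)
    exact (hasSum_cf (d := d) h1).summable.norm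
  refine Summable.of_nonneg_of_le (fun _ => norm_nonneg _) (fun l => ?_) h
  unfold Dat.aa Dat.bb
  rw [norm_mul]
  refine (mul_le_mul_of_nonneg_left (norm_sum_le _ _) (norm_nonneg _)).trans ?_
  rw [Finset.mul_sum]
  refine Finset.sum_le_sum fun i _ => ?_
  rw [norm_mul, norm_mul (cf (nu d) l : ℂ), norm_pow, norm_pow, Complex.norm_real ‖be (D.z i)‖,
    norm_norm]
  exact (by ring : ‖(cf (nu d) l : ℂ)‖ * (‖D.κ i * (1 + be (D.z i)) ^ (d - 1)‖ *
    ‖be (D.z i)‖ ^ l) = _).le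

theorem Dat.hasSum_aa (D : Dat) {η : ℂ} (hη : ‖η‖ < 1) :
    HasSum (fun l => D.aa d l * η ^ l) (∑ i, D.κ i * (1 + be (D.z i)) ^ (d - 1) *
      ((1 - be (D.z i) * η) ^ (d - 1))⁻¹) := by
  have h1 : ∀ i, HasSum (fun l => D.κ i * (1 + be (D.z i)) ^ (d - 1) *
      ((cf (nu d) l : ℂ) * (be (D.z i) * η) ^ l)) (D.κ i * (1 + be (D.z i)) ^ (d - 1) *
      ((1 - be (D.z i) * η) ^ (d - 1))⁻¹) := fun i => by
    refine (hasSum_cf (d := d) ?_).mul_left _
    rw [norm_mul]
    have := be_norm (D.hz i)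
    nlinarith [norm_nonneg (be (D.z i)), norm_nonneg η]
  refine (hasSum_sum fun i (_ : i ∈ Finset.univ) => h1 i).congr_fun fun l => ?_
  unfold Dat.aa Dat.bb
  rw [Finset.mul_sum, Finset.sum_mul]
  exact Finset.sum_congr rfl fun i _ => by ring

omit [Fact (2 ≤ d)] in
/-- the overlap in the disc -/
theorem Dat.ov_disc (D : Dat) {w : ℂ} (hw : 0 < w.re) :
    (∑ i, D.κ i * (1 + be (D.z i)) ^ (d - 1) * ((1 - be (D.z i) * be w) ^ (d - 1))⁻¹) *
      (1 + be w) ^ (d - 1) = 2 ^ (d - 1) * D.ov d w := by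
  unfold Dat.ov
  rw [Finset.sum_mul, Finset.mul_sum]
  refine Finset.sum_congr rfl fun i _ => ?_
  have h3 := be_add (one_add_ne (D.hz i)) (one_add_ne hw)
  have hs : (D.z i + w) ≠ 0 := fun h => by
    have h1 := D.hz i
    have h2 := congrArg Complex.re h
    simp at h2
    linarith
  have ht : (1 - be (D.z i) * be w) ≠ 0 := by
    intro h
    rw [sub_eq_zero] at h
    have h1 : ‖be (D.z i) * be w‖ < 1 := by
      rw [norm_mul]
      have a1 := be_norm (D.hz i)
      have a2 := be_norm hw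
      nlinarith [norm_nonneg (be (D.z i)), norm_nonneg (be w)]
    rw [← h, norm_one] at h1
    exact lt_irrefl _ h1
  have e : ((1 + be (D.z i)) * (1 + be w)) ^ (d - 1) * ((1 - be (D.z i) * be w) ^ (d - 1))⁻¹ =
      2 ^ (d - 1) * ((D.z i + w) ^ (d - 1))⁻¹ := by
    rw [← div_eq_mul_inv, ← div_eq_mul_inv, ← div_pow, ← div_pow]
    congr 1
    rw [div_eq_div_iff ht hs]
    linear_combination h3
  rw [mul_pow] at e
  linear_combination D.κ i * e

theorem Dat.ov_one (D : Dat) : D.aa d 0 = 2 ^ (d - 1) * D.ov d 1 := by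
  have h := D.ov_disc (d := d) (w := 1) (by simp)
  have hb : be 1 = 0 := by simp [be]
  rw [hb] at h
  simp only [mul_zero, sub_zero, one_pow, inv_one, mul_one, add_zero] at h
  rw [← h]
  unfold Dat.aa Dat.bb
  simp [cf]

/-- the overlap with weight -/
theorem Dat.ov_norm (D : Dat) {η : ℂ} (hη : ‖η‖ < 1) :
    ‖∑ i, D.κ i * (1 + be (D.z i)) ^ (d - 1) * ((1 - be (D.z i) * η) ^ (d - 1))⁻¹‖ ^ 2 *
      (1 - ‖η‖ ^ 2) ^ (d - 1) = (2 ^ (d - 1)) ^ 2 * (‖D.ov d (be η)‖ ^ 2 * (be η).re ^ (d - 1)) := by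
  have hw := be_re hη
  have h1 : (1 + η) ≠ 0 := by
    intro h
    have : η = -1 := by linear_combination h
    rw [this, norm_neg, norm_one] at hη
    exact lt_irrefl _ hη
  have hbb := be_be h1
  have h2 := D.ov_disc (d := d) hw
  have h3 := one_sub_be hw
  rw [hbb] at h2 h3
  have h4 := congrArg (fun x : ℂ => ‖x‖ ^ 2) h2
  simp only [norm_mul, norm_pow, Complex.norm_ofNat] at h4
  rw [h3, mul_pow]
  calc _ = (‖∑ i, D.κ i * (1 + be (D.z i)) ^ (d - 1) * ((1 - be (D.z i) * η) ^ (d - 1))⁻¹‖ *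
        ‖1 + η‖ ^ (d - 1)) ^ 2 * (be η).re ^ (d - 1) := by
        rw [← pow_mul, mul_pow, ← pow_mul, mul_comm 2 (d - 1)]
        ring
    _ = _ := by rw [h4]; ring

end

/-! ### existence of the maximum -/

theorem fr_lower {z w : ℂ} (hz : 0 < z.re) (hw : 0 ≤ w.re) :
    z.re / (1 + ‖z‖ + z.re) * (1 + ‖w‖) ≤ ‖z + w‖ := by
  have h1 : z.re ≤ ‖z + w‖ := by
    have := Complex.re_le_norm (z + w)
    rw [Complex.add_re] at this
    linarith
  have h2 : ‖w‖ - ‖z‖ ≤ ‖z + w‖ := by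
    have := norm_sub_norm_le w (-z)
    rw [norm_neg, sub_neg_eq_add, add_comm w z] at this
    exact this
  have hz0 := norm_nonneg z
  have hp : 0 < 1 + ‖z‖ + z.re := by positivity
  rw [div_mul_eq_mul_div, div_le_iff₀ hp]
  rcases le_total ‖w‖ (‖z‖ + z.re) with h | h
  · nlinarith
  · nlinarith

theorem Dat.ov_bound (d : ℕ) (D : Dat) : ∃ K : ℝ, 0 ≤ K ∧ ∀ w : ℂ, 0 ≤ w.re →
    ‖D.ov d w‖ ≤ K * ((1 + ‖w‖) ^ (d - 1))⁻¹ := by
  refine ⟨∑ i, ‖D.κ i‖ * (((D.z i).re / (1 + ‖D.z i‖ + (D.z i).re)) ^ (d - 1))⁻¹, ?_, fun w hw => ?_⟩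
  · refine Finset.sum_nonneg fun i _ => ?_
    have := D.hz i
    positivity
  · unfold Dat.ov
    refine (norm_sum_le _ _).trans ?_
    rw [Finset.sum_mul]
    refine Finset.sum_le_sum fun i _ => ?_
    rw [norm_mul, norm_inv, norm_pow, mul_assoc, ← mul_inv, ← mul_pow]
    refine mul_le_mul_of_nonneg_left ?_ (norm_nonneg _)
    have hz := D.hz i
    refine inv_anti₀ (by positivity) (pow_le_pow_left₀ (by positivity) (fr_lower hz hw) _)

/-- the point of the closed half-plane -/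
noncomputable def hp (w : ℂ) : ℂ := (max w.re 0 : ℝ) + w.im * I

theorem hp_re (w : ℂ) : (hp w).re = max w.re 0 := by simp [hp]

theorem hp_norm (w : ℂ) : ‖hp w‖ ≤ ‖w‖ := by
  refine le_of_sq_le_sq ?_ (norm_nonneg _)
  rw [← Complex.normSq_eq_norm_sq, ← Complex.normSq_eq_norm_sq, Complex.normSq_apply,
    Complex.normSq_apply]
  have h1 : (hp w).im = w.im := by simp [hp]
  rw [hp_re, h1]
  rcases le_total w.re 0 with h | h
  · rw [max_eq_right h]
    nlinarith [mul_self_nonneg w.re]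
  · rw [max_eq_left h]

theorem hp_self {w : ℂ} (hw : 0 ≤ w.re) : hp w = w := by
  apply Complex.ext
  · rw [hp_re, max_eq_left hw]
  · simp [hp]

theorem Dat.ov_cont (d : ℕ) (D : Dat) : Continuous fun w : ℂ => ‖D.ov d (hp w)‖ ^ 2 * (hp w).re ^ (d - 1) := by
  have h1 : Continuous hp := by
    unfold hp
    fun_prop
  have h2 : Continuous fun w : ℂ => D.ov d (hp w) := by
    unfold Dat.ov
    refine continuous_finsetSum _ fun i _ => continuous_const.mul ?_
    refine Continuous.inv₀ ((continuous_const.add h1).pow _) fun w => pow_ne_zero _ fun h => ?_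
    have h3 := D.hz i
    have h4 := congrArg Complex.re h
    rw [Complex.add_re, hp_re, Complex.zero_re] at h4
    have := le_max_right w.re 0
    linarith
  exact (h2.norm.pow 2).mul ((Complex.continuous_re.comp h1).pow _)

theorem Dat.ov_max (d : ℕ) [Fact (2 ≤ d)] (D : Dat) (w₁ : ℂ) (hw₁ : 0 < w₁.re) (h1 : D.ov d w₁ ≠ 0) :
    ∃ w₀ : ℂ, 0 < w₀.re ∧ D.ov d w₀ ≠ 0 ∧ ∀ w : ℂ, 0 < w.re →
      ‖D.ov d w‖ ^ 2 * w.re ^ (d - 1) ≤ ‖D.ov d w₀‖ ^ 2 * w₀.re ^ (d - 1) := by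
  have h2d : (2 : ℕ) ≤ d := two_le d
  obtain ⟨K, hK, hb⟩ := D.ov_bound d
  set G : ℂ → ℝ := fun w => ‖D.ov d (hp w)‖ ^ 2 * (hp w).re ^ (d - 1) with hG
  have hG1 : 0 < G w₁ := by
    rw [hG]
    simp only
    rw [hp_self hw₁.le]
    have := norm_pos_iff.2 h1
    positivity
  have hle : ∀ w, ‖w‖ * G w ≤ K ^ 2 * 1 := by
    intro w
    rcases le_or_gt w.re 0 with h | h
    · have : (hp w).re = 0 := by rw [hp_re, max_eq_right h]
      rw [hG]
      simp only
      rw [this, zero_pow (by omega), mul_zero, mul_zero]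
      positivity
    · have hw := hp_self h.le
      rw [hG]
      simp only
      rw [hw]
      have h3 := hb w h.le
      have h4 : ‖D.ov d w‖ ^ 2 ≤ (K * ((1 + ‖w‖) ^ (d - 1))⁻¹) ^ 2 :=
        pow_le_pow_left₀ (norm_nonneg _) h3 2
      have h5 : w.re ^ (d - 1) ≤ (1 + ‖w‖) ^ (d - 1) := by
        refine pow_le_pow_left₀ h.le ?_ _
        have := Complex.re_le_norm w
        linarith
      have h6 : ‖w‖ ≤ (1 + ‖w‖) ^ (d - 1) := by
        have : (1 + ‖w‖) ^ 1 ≤ (1 + ‖w‖) ^ (d - 1) :=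
          pow_le_pow_right₀ (by linarith [norm_nonneg w]) (by omega)
        rw [pow_one] at this
        linarith
      have hP : 0 < (1 + ‖w‖) ^ (d - 1) := by positivity
      calc ‖w‖ * (‖D.ov d w‖ ^ 2 * w.re ^ (d - 1)) ≤ (1 + ‖w‖) ^ (d - 1) *
            ((K * ((1 + ‖w‖) ^ (d - 1))⁻¹) ^ 2 * (1 + ‖w‖) ^ (d - 1)) := by gcongr
        _ = K ^ 2 * 1 := by
            field_simp
  obtain ⟨w₀, hw₀⟩ := (D.ov_cont d).exists_forall_ge' w₁ (by
    have h3 : ∀ᶠ w : ℂ in cocompact ℂ, K ^ 2 * 1 / G w₁ < ‖w‖ :=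
      (tendsto_norm_cocompact_atTop (E := ℂ)).eventually_gt_atTop _
    filter_upwards [h3] with w hw
    rw [div_lt_iff₀ hG1] at hw
    have h4 := hle w
    have h5 : 0 < ‖w‖ := by
      by_contra h
      have : ‖w‖ = 0 := le_antisymm (not_lt.1 h) (norm_nonneg _)
      rw [this, zero_mul] at hw
      have : 0 ≤ K ^ 2 * 1 := by positivity
      linarith
    have h6 : ‖w‖ * G w ≤ ‖w‖ * G w₁ := by linarith
    exact le_of_mul_le_mul_left h6 h5)
  have hpos : 0 < G w₀ := hG1.trans_le (hw₀ w₁)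
  have hre : 0 < w₀.re := by
    by_contra h
    have : (hp w₀).re = 0 := by rw [hp_re, max_eq_right (not_lt.1 h)]
    rw [hG] at hpos
    simp only at hpos
    rw [this, zero_pow (by omega), mul_zero] at hpos
    exact lt_irrefl _ hpos
  refine ⟨w₀, hre, ?_, fun w hw => ?_⟩
  · intro h
    rw [hG] at hpos
    simp only at hpos
    rw [hp_self hre.le, h] at hpos
    simp at hpos
  · have h3 : G w ≤ G w₀ := hw₀ w
    rw [hG] at h3
    simp only at h3
    rwa [hp_self hw.le, hp_self hre.le] at h3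

end Pool.Agent.ConeG.Rad
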