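import Pool.Agent.Work.MP_b0b133_an.R.Ser
import Pool.Agent.Work.MP_b0b133_an.G.Glue

/-!
# The extension of radial exponentials on the compactification
-/

set_option autoImplicit false
open MeasureTheory Complex Filter Metric
open scoped ENNReal NNReal ComplexConjugate Topology Real

namespace Pool.Agent.ConeG.Rad

variable {d : ℕ}

/-- the radial exponential `e^{-z |ξ|}` -/
noncomputable def rex (d : ℕ) (z : ℂ) : Rd d → ℂ := fun ξ => cexp (-(z * (‖ξ‖ : ℂ)))

theorem rex_eq (z : ℂ) : rex d z = expo (-z.im, 0) (z.re, 0) := by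
  funext ξ
  unfold rex expo pair
  congr 1
  simp only [inner_zero_left, add_zero]
  apply Complex.ext <;> simp

theorem rex_fwd {z : ℂ} (hz : 0 < z.re) : ((z.re, 0) : Rs d) ∈ Fwd := by
  show ‖(0 : Rd d)‖ < z.re
  simpa using hz

/-- `(z + i t)² + |x|²` -/
noncomputable def qz (a : Rs d) (z : ℂ) : ℂ := (z + I * a.1) ^ 2 + (‖a.2‖ : ℂ) ^ 2

theorem qz_eq (a : Rs d) (z : ℂ) : qz a z = qf (a - ((-z.im, 0) : Rs d)) (z.re, 0) := by
  unfold qz qf
  simp only [Prod.fst_sub, Prod.snd_sub, sub_zero, norm_zero, inner_zero_right]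
  apply Complex.ext
  · simp [pow_two, Complex.add_re, Complex.mul_re]
    ring
  · simp [pow_two, Complex.add_im, Complex.mul_im]
    ring

theorem coneExt_rex [Fact (2 ≤ d)] {z : ℂ} (hz : 0 < z.re) (a : Rs d) :
    coneExt (rex d z) a = (kap d : ℂ) * (qz a z) ^ (-(nu d : ℂ)) := by
  rw [rex_eq, coneExt_expo _ _ (rex_fwd hz), qz_eq]

theorem qz_slit {z : ℂ} (hz : 0 < z.re) (a : Rs d) : qz a z ∈ slitPlane := by
  rw [qz_eq]
  exact qf_mem_slitPlane _ _ (rex_fwd hz)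

theorem qz_one (a : Rs d) : qz a 1 = w a := by
  rw [qz_eq]
  unfold w
  congr 1
  ext <;> simp

/-- `e^{-iU}` -/
noncomputable def ze (u : ℝ) : ℂ := (1 - I * u) / (1 + I * u)

theorem ze_ne (u : ℝ) : (1 + I * (u : ℂ)) ≠ 0 := by
  intro h
  have := congrArg Complex.re h
  simp at this

theorem ze_norm (u : ℝ) : ‖ze u‖ = 1 := by
  unfold ze
  rw [norm_div, div_eq_one_iff_eq (norm_ne_zero_iff.2 (ze_ne u))]
  have : (1 - I * (u : ℂ)) = conj (1 + I * (u : ℂ)) := by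
    simp [sub_eq_add_neg]
  rw [this, Complex.norm_conj]

/-- the two null coordinates -/
noncomputable def z1 (a : Rs d) : ℂ := ze (a.1 + ‖a.2‖)

noncomputable def z2 (a : Rs d) : ℂ := ze (a.1 - ‖a.2‖)

theorem w_fac (a : Rs d) : w a = (1 + I * ((a.1 + ‖a.2‖ : ℝ) : ℂ)) * (1 + I * ((a.1 - ‖a.2‖ : ℝ) : ℂ)) := by
  rw [← qz_one]
  unfold qz
  push_cast
  linear_combination ((‖a.2‖ : ℂ) ^ 2) * Complex.I_sq

theorem z_add (a : Rs d) : (z1 a + z2 a) / 2 = X 0 a := by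
  rw [C0_X_zero, w_fac]
  unfold z1 z2 ze
  have h1 := ze_ne (a.1 + ‖a.2‖)
  have h2 := ze_ne (a.1 - ‖a.2‖)
  rw [div_add_div _ _ h1 h2, div_div, div_eq_div_iff (mul_ne_zero (mul_ne_zero h1 h2) two_ne_zero)
    (mul_ne_zero h1 h2)]
  push_cast
  linear_combination (-2 * ((a.1 : ℂ) ^ 2 - (‖a.2‖ : ℂ) ^ 2) * ((1 + I * ((a.1 : ℂ) + ‖a.2‖)) *
    (1 + I * ((a.1 : ℂ) - ‖a.2‖)))) * Complex.I_sq

theorem z_mul (a : Rs d) : z1 a * z2 a = ∑ k, X k a ^ 2 := by
  have h1 := ze_ne (a.1 + ‖a.2‖)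
  have h2 := ze_ne (a.1 - ‖a.2‖)
  have hw : w a ≠ 0 := C0_w_ne a
  have e : ∑ k, X k a ^ 2 = ((‖w a‖ ^ 2 : ℝ) : ℂ) / w a ^ 2 := by
    rw [← C0_sum_num a]
    push_cast
    rw [Finset.sum_div]
    exact Finset.sum_congr rfl fun k _ => by rw [C0_X_eq, div_pow]
  have e2 : ((‖w a‖ ^ 2 : ℝ) : ℂ) = w a * conj (w a) := by
    rw [Complex.mul_conj']
    push_cast
    rfl
  have e3 : conj (w a) = (1 - I * ((a.1 + ‖a.2‖ : ℝ) : ℂ)) * (1 - I * ((a.1 - ‖a.2‖ : ℝ) : ℂ)) := by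
    rw [w_fac]
    simp only [map_mul, map_add, map_one, Complex.conj_I, Complex.conj_ofReal]
    ring
  rw [e, e2, e3, sq, mul_div_mul_left _ _ hw]
  unfold z1 z2 ze
  rw [div_mul_div_comm, w_fac]

/-- the Cayley transform -/
noncomputable def be (z : ℂ) : ℂ := (1 - z) / (1 + z)

theorem one_add_ne {z : ℂ} (hz : 0 < z.re) : (1 + z) ≠ 0 := by
  intro h
  have := congrArg Complex.re h
  simp at this
  linarith

theorem be_norm {z : ℂ} (hz : 0 < z.re) : ‖be z‖ < 1 := by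
  unfold be
  rw [norm_div, div_lt_one (norm_pos_iff.2 (one_add_ne hz))]
  have h : ‖1 - z‖ ^ 2 < ‖1 + z‖ ^ 2 := by
    rw [← Complex.normSq_eq_norm_sq, ← Complex.normSq_eq_norm_sq, Complex.normSq_apply,
      Complex.normSq_apply]
    simp only [Complex.sub_re, Complex.one_re, Complex.sub_im, Complex.one_im, Complex.add_re,
      Complex.add_im]
    nlinarith
  exact lt_of_pow_lt_pow_left₀ 2 (norm_nonneg _) h

theorem one_add_be {z : ℂ} (hz : 0 < z.re) : 1 + be z = 2 / (1 + z) := by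
  unfold be
  have := one_add_ne hz
  field_simp
  ring

theorem be_key (a : Rs d) {z : ℂ} (hz : 0 < z.re) :
    w a * ((1 - be z * z1 a) * (1 - be z * z2 a)) = (1 + be z) ^ 2 * qz a z := by
  have h1 := ze_ne (a.1 + ‖a.2‖)
  have h2 := ze_ne (a.1 - ‖a.2‖)
  have h0 := one_add_ne hz
  have k : ∀ u : ℝ, (1 + I * (u : ℂ)) * (1 - be z * ze u) = (1 + be z) * (z + I * u) := by
    intro u
    have hu := ze_ne u
    unfold ze be
    field_simp
    ring
  have k1 := k (a.1 + ‖a.2‖)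
  have k2 := k (a.1 - ‖a.2‖)
  rw [w_fac]
  have e : (1 + I * ((a.1 + ‖a.2‖ : ℝ) : ℂ)) * (1 + I * ((a.1 - ‖a.2‖ : ℝ) : ℂ)) *
      ((1 - be z * z1 a) * (1 - be z * z2 a)) =
      ((1 + I * ((a.1 + ‖a.2‖ : ℝ) : ℂ)) * (1 - be z * ze (a.1 + ‖a.2‖))) *
      ((1 + I * ((a.1 - ‖a.2‖ : ℝ) : ℂ)) * (1 - be z * ze (a.1 - ‖a.2‖))) := by
    unfold z1 z2
    ring
  rw [e, k1, k2]
  unfold qz
  push_cast
  linear_combination (-(1 + be z) ^ 2 * (‖a.2‖ : ℂ) ^ 2) * Complex.I_sq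

/-- the extension of a radial exponential on the compactification -/
theorem toM_rex [Fact (2 ≤ d)] {z : ℂ} (hz : 0 < z.re) (a : Rs d) :
    toM (coneExt (rex d z)) a = (kap d : ℂ) * ((1 + be z) ^ (d - 1) *
      (1 - 2 * (be z * ((z1 a + z2 a) / 2)) + be z ^ 2 * (z1 a * z2 a)) ^ (-(nu d : ℂ))) := by
  unfold toM
  rw [coneExt_rex hz, mul_left_comm]
  congr 1
  have hcont_be : ContinuousOn be {z : ℂ | 0 < z.re} := by
    intro z hz
    unfold be
    exact ((continuousAt_const.sub continuousAt_id).div (continuousAt_const.add continuousAt_id)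
      (one_add_ne hz)).continuousWithinAt
  have hslit : ∀ z : ℂ, 0 < z.re →
      1 - 2 * (be z * ((z1 a + z2 a) / 2)) + be z ^ 2 * (z1 a * z2 a) ∈ slitPlane := fun z hz =>
    S_q_slit (be_norm hz) (ze_norm _) (ze_norm _)
  have key := (convex_halfSpace_re_gt 0).isPreconnected.eq_of_sq_eq
    (f := fun z : ℂ => w a ^ (nu d : ℂ) * qz a z ^ (-(nu d : ℂ)))
    (g := fun z : ℂ => (1 + be z) ^ (d - 1) *
      (1 - 2 * (be z * ((z1 a + z2 a) / 2)) + be z ^ 2 * (z1 a * z2 a)) ^ (-(nu d : ℂ)))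
    ?_ ?_ ?_ ?_ (y := 1) ?_ ?_
  · exact key hz
  · refine continuousOn_const.mul ?_
    intro z hz
    have : ContinuousAt (fun z => qz a z) z := by
      unfold qz
      fun_prop
    exact (this.cpow continuousAt_const (qz_slit hz a)).continuousWithinAt
  · refine ((continuousOn_const.add hcont_be).pow _).mul ?_
    intro z hz
    have h1 : ContinuousWithinAt be {z : ℂ | 0 < z.re} z := hcont_be z hz
    have h2 : ContinuousWithinAt (fun z => 1 - 2 * (be z * ((z1 a + z2 a) / 2)) +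
        be z ^ 2 * (z1 a * z2 a)) {z : ℂ | 0 < z.re} z := by
      exact (continuousWithinAt_const.sub (continuousWithinAt_const.mul
        (h1.mul continuousWithinAt_const))).add ((h1.pow 2).mul continuousWithinAt_const)
    exact h2.cpow continuousWithinAt_const (hslit z hz)
  · intro z hz
    simp only [Pi.pow_apply]
    rw [mul_pow, mul_pow, U_sq_cpow, U_sq_cpow, U_sq_cpow', S_fac]
    have hz' : 0 < z.re := hz
    have k := be_key a hz'
    have hw := C0_w_ne a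
    have hq := slitPlane_ne_zero (qz_slit hz' a)
    have hp := slitPlane_ne_zero (hslit z hz')
    rw [S_fac] at hp
    have e : (1 + be z) ^ 2 * ((1 - be z * z1 a) * (1 - be z * z2 a))⁻¹ = w a * (qz a z)⁻¹ := by
      rw [← div_eq_mul_inv, ← div_eq_mul_inv, div_eq_div_iff hp hq]
      linear_combination (-(1 : ℂ)) * k
    rw [← pow_mul, mul_comm (d - 1) 2, pow_mul, ← inv_pow, ← inv_pow, ← mul_pow, ← mul_pow, e]
  · intro z hz
    have hz' : 0 < z.re := hz
    refine mul_ne_zero (pow_ne_zero _ ?_) ?_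
    · rw [one_add_be hz']
      exact div_ne_zero two_ne_zero (one_add_ne hz')
    · rw [Ne, Complex.cpow_eq_zero_iff, not_and_or]
      exact Or.inl (slitPlane_ne_zero (hslit z hz'))
  · show 0 < (1 : ℂ).re
    simp
  · have hb : be 1 = 0 := by simp [be]
    simp only [hb, qz_one]
    rw [Complex.cpow_neg, mul_inv_cancel₀ (by
      rw [Ne, Complex.cpow_eq_zero_iff, not_and_or]
      exact Or.inl (C0_w_ne a))]
    simp

end Pool.Agent.ConeG.Rad
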