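import Pool.Agent.Work.MP_b0b133_an.R.Ker

/-!
# The law of the pair `(X₀, ∑ X_k²)`
-/

set_option autoImplicit false
open MeasureTheory Complex Filter Metric
open scoped ENNReal NNReal ComplexConjugate Topology Real

namespace Pool.Agent.ConeG.Rad

variable {d : ℕ} [Fact (2 ≤ d)]

omit [Fact (2 ≤ d)] in
theorem two_nu : 2 * nu d = (d : ℝ) - 1 := by unfold nu; ring

theorem pe_nu : pe d = 2 * (1 + 1 / nu d) := by
  have h := two_le_real d
  unfold pe nu
  have h1 : (d : ℝ) - 1 ≠ 0 := by linarith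
  field_simp
  ring

theorem sin_pow (g : ℝ) : Real.sin g ^ (2 * nu d) = Real.sin g ^ (d - 1) := by
  have h2 : (2 : ℕ) ≤ d := two_le d
  have : 2 * nu d = ((d - 1 : ℕ) : ℝ) := by
    rw [two_nu, Nat.cast_sub (by omega)]
    simp
  rw [this, Real.rpow_natCast]

theorem sin_pow_int (h : ℝ → ℝ) : ∫ g in (0 : ℝ)..π, h g * Real.sin g ^ (2 * nu d) =
    ∫ g in (0 : ℝ)..π, h g * Real.sin g ^ (d - 1) := by
  refine intervalIntegral.integral_congr fun g _ => ?_
  rw [sin_pow g]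

theorem cn_eq : cn (nu d) = (∫ g in (0 : ℝ)..π, Real.sin g ^ (d - 1))⁻¹ := by
  unfold cn
  have h : ∫ g in (0 : ℝ)..π, Real.sin g ^ (2 * nu d) = ∫ g in (0 : ℝ)..π, Real.sin g ^ (d - 1) :=
    intervalIntegral.integral_congr fun g _ => sin_pow g
  rw [h]

/-- the partial sums on the compactification -/
noncomputable def Fh (d N : ℕ) (b : ℕ → ℂ) (x : CC d) : ℂ :=
  ∑ l ∈ Finset.range N, b l * Zf d (x 0) (∑ k, x k ^ 2) l

omit [Fact (2 ≤ d)] in
theorem Fh_cont (N : ℕ) (b : ℕ → ℂ) : Continuous (Fh d N b) := by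
  unfold Fh
  refine continuous_finsetSum _ fun l _ => continuous_const.mul ?_
  have h : Continuous fun x : CC d => (x 0, ∑ k, x k ^ 2) := by fun_prop
  exact (Zf_cont d l).comp h

theorem Fh_polar (N : ℕ) (b : ℕ → ℂ) (T g : ℝ) (x : CC d)
    (h0 : x 0 = cexp (-(T * I)) * (Real.cos g : ℂ)) (h1 : ∑ k, x k ^ 2 = cexp (-(T * I)) ^ 2) :
    Fh d N b x = F (nu d) N (fun l => (cf (nu d) l : ℂ) * b l) T g := by
  unfold Fh F
  refine Finset.sum_congr rfl fun l _ => ?_
  rw [h0, h1, Zf_eq]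
  ring

theorem F_periodic (N : ℕ) (a : ℕ → ℂ) (ν : ℝ) (g : ℝ) : Function.Periodic (fun T => F ν N a T g) (2 * π) := by
  intro T
  unfold F
  refine Finset.sum_congr rfl fun l _ => ?_
  congr 1
  have : -((l : ℂ) * ((T + 2 * π : ℝ) : ℂ) * I) = -((l : ℂ) * (T : ℂ) * I) + ((-(l : ℤ) : ℤ) : ℂ) * (2 * π * I) := by
    push_cast
    ring
  rw [this, Complex.exp_add, Complex.exp_int_mul_two_pi_mul_I, mul_one]

theorem law_V (N : ℕ) (b : ℕ → ℂ) :
    ∫ a, ‖Fh d N b (fun j => X j a)‖ ^ pe d ∂(mM d) =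
      V (nu d) N (fun l => (cf (nu d) l : ℂ) * b l) := by
  set a : ℕ → ℂ := fun l => (cf (nu d) l : ℂ) * b l with ha
  set h : CC d → ℂ := fun x => ((‖Fh d N b x‖ ^ pe d : ℝ) : ℂ) with hh
  have hc : Continuous h := Complex.continuous_ofReal.comp
    ((Fh_cont N b).norm.rpow_const fun x => Or.inr (pe_pos (d := d)).le)
  have h1 := integral_comp_X h hc
  have hS : ∀ T : ℝ, ∫ ω : Sph (d + 1), h (fun j => cexp (-(T * I)) * (((ω : Rd (d + 1)) j : ℝ) : ℂ))
      ∂(sphM (d + 1)) = ((cn (nu d) * ∫ g in (0 : ℝ)..π, ‖F (nu d) N a T g‖ ^ (2 * (1 + 1 / nu d)) *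
        Real.sin g ^ (2 * nu d) : ℝ) : ℂ) := by
    intro T
    have h2 := sphM_polar (d := d) (fun y => h (fun j => cexp (-(T * I)) * ((y j : ℝ) : ℂ)))
      (hc.comp (by fun_prop))
    rw [h2, sin_pow_int, cn_eq]
    have hprob : IsProbabilityMeasure (sphM d) := C1_prob3
    have h3 : ∀ θ : ℝ, ∫ η : Sph d, h (fun j => cexp (-(T * I)) *
        ((Fin.cases (motive := fun _ => ℝ) (Real.cos θ)
        (fun i : Fin d => Real.sin θ * (η : (Rd d)) i) j : ℝ) : ℂ)) ∂(sphM d) =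
        ((‖F (nu d) N a T θ‖ ^ (2 * (1 + 1 / nu d)) : ℝ) : ℂ) := by
      intro θ
      have h4 : ∀ η : Sph d, h (fun j => cexp (-(T * I)) *
        ((Fin.cases (motive := fun _ => ℝ) (Real.cos θ)
        (fun i : Fin d => Real.sin θ * (η : (Rd d)) i) j : ℝ) : ℂ)) =
        ((‖F (nu d) N a T θ‖ ^ (2 * (1 + 1 / nu d)) : ℝ) : ℂ) := by
        intro η
        rw [hh]
        simp only
        rw [Fh_polar N b T θ, pe_nu]
        · simp
        · rw [Fin.sum_univ_succ]
          simp only [Fin.cases_zero, Fin.cases_succ]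
          have hη : ∑ i : Fin d, ((η : Rd d) i) ^ 2 = 1 := by
            have h5 : ‖(η : Rd d)‖ = 1 := by simp
            have h6 := EuclideanSpace.norm_sq_eq (η : Rd d)
            rw [h5] at h6
            simpa [Real.norm_eq_abs, sq_abs] using h6.symm
          have hη' : ∑ i : Fin d, (((η : Rd d) i : ℝ) : ℂ) ^ 2 = 1 := by exact_mod_cast hη
          have e : ∀ i : Fin d, (cexp (-(T * I)) * ((Real.sin θ * (η : Rd d) i : ℝ) : ℂ)) ^ 2 =
              cexp (-(T * I)) ^ 2 * (Real.sin θ : ℂ) ^ 2 * (((η : Rd d) i : ℝ) : ℂ) ^ 2 := by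
            intro i
            push_cast
            ring
          simp only [e]
          rw [← Finset.mul_sum, hη', mul_one]
          have hsc : (Real.cos θ : ℂ) ^ 2 + (Real.sin θ : ℂ) ^ 2 = 1 := by
            have := Real.cos_sq_add_sin_sq θ
            exact_mod_cast this
          linear_combination (cexp (-(T * I)) ^ 2) * hsc
      simp only [h4]
      rw [integral_const]
      simp
    simp only [h3]
    have e5 : ∀ θ : ℝ, (Real.sin θ ^ (d - 1)) • ((‖F (nu d) N a T θ‖ ^ (2 * (1 + 1 / nu d)) : ℝ) : ℂ) =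
        ((‖F (nu d) N a T θ‖ ^ (2 * (1 + 1 / nu d)) * Real.sin θ ^ (d - 1) : ℝ) : ℂ) := by
      intro θ
      rw [Complex.real_smul, ← Complex.ofReal_mul, mul_comm]
    simp only [e5]
    rw [intervalIntegral.integral_ofReal, Complex.real_smul, ← Complex.ofReal_mul]
  simp only [hS] at h1
  have hL : ∫ a, h (fun j => X j a) ∂(mM d) =
      ((∫ a, ‖Fh d N b (fun j => X j a)‖ ^ pe d ∂(mM d) : ℝ) : ℂ) := by
    rw [hh]
    exact integral_complex_ofReal
  rw [hL, intervalIntegral.integral_ofReal, Complex.real_smul, ← Complex.ofReal_mul] at h1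
  have h6 := Complex.ofReal_injective h1
  rw [h6]
  unfold V
  congr 1
  have hper : Function.Periodic (fun T : ℝ => cn (nu d) * ∫ g in (0 : ℝ)..π,
      ‖F (nu d) N a T g‖ ^ (2 * (1 + 1 / nu d)) * Real.sin g ^ (2 * nu d)) (2 * π) := by
    intro T
    have e : ∀ g, F (nu d) N a (T + 2 * π) g = F (nu d) N a T g := fun g => F_periodic N a (nu d) g T
    simp only [e]
  have h7 := hper.intervalIntegral_add_eq (-π) 0
  have e8 : -π + 2 * π = π := by ring
  rw [e8, zero_add] at h7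
  exact h7

end Pool.Agent.ConeG.Rad
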