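import Pool.Agent.Work.MP_b0b133_an.R.Law

/-!
# Sums of radial exponentials: the expansion on the compactification
-/

set_option autoImplicit false
open MeasureTheory Complex Filter Metric
open scoped ENNReal NNReal ComplexConjugate Topology Real

namespace Pool.Agent.ConeG.Rad

variable {d : ℕ} [Fact (2 ≤ d)]

local instance : IsProbabilityMeasure (mM d) := mM_prob

/-- data of a sum of radial exponentials -/
structure Dat where
  ι : Type
  [ft : Fintype ι]
  κ : ι → ℂ
  z : ι → ℂ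
  hz : ∀ i, 0 < (z i).re

attribute [instance] Dat.ft

/-- the sum of radial exponentials -/
noncomputable def Dat.fn (d : ℕ) (D : Dat) : Rd d → ℂ := fun ξ => ∑ i, D.κ i * rex d (D.z i) ξ

/-- the coefficients in the disc -/
noncomputable def Dat.bb (d : ℕ) (D : Dat) (l : ℕ) : ℂ :=
  ∑ i, D.κ i * (1 + be (D.z i)) ^ (d - 1) * be (D.z i) ^ l

/-- the Taylor coefficients of the overlap -/
noncomputable def Dat.aa (d : ℕ) (D : Dat) (l : ℕ) : ℂ := (cf (nu d) l : ℂ) * D.bb d l

omit [Fact (2 ≤ d)] in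
theorem Dat.rho (D : Dat) : ∃ ρ : ℝ, 0 < ρ ∧ ρ < 1 ∧ ∀ i, ‖be (D.z i)‖ ≤ ρ := by
  rcases isEmpty_or_nonempty D.ι with h | h
  · exact ⟨1 / 2, by norm_num, by norm_num, fun i => (h.false i).elim⟩
  · obtain ⟨i0, hi0⟩ := Finite.exists_max (fun i => ‖be (D.z i)‖)
    refine ⟨max (1 / 2) ‖be (D.z i0)‖, by positivity, max_lt (by norm_num) (be_norm (D.hz i0)),
      fun i => (hi0 i).trans (le_max_right _ _)⟩

omit [Fact (2 ≤ d)] in
theorem Dat.fn_mem (D : Dat) : D.fn d ∈ ExpSpan d := by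
  have : D.fn d = ∑ i, D.κ i • rex d (D.z i) := by
    funext ξ
    simp [Dat.fn, Finset.sum_apply]
  rw [this]
  refine Submodule.sum_mem _ fun i _ => Submodule.smul_mem _ _ ?_
  refine Submodule.subset_span ⟨_, _, rex_fwd (D.hz i), rex_eq _⟩

theorem Dat.toM_fn (D : Dat) (a : Rs d) : toM (coneExt (D.fn d)) a =
    ∑ i, D.κ i * toM (coneExt (rex d (D.z i))) a := by
  have h : ∀ s : Finset D.ι, coneExt (fun ξ => ∑ i ∈ s, D.κ i * rex d (D.z i) ξ) a =
      ∑ i ∈ s, D.κ i * coneExt (rex d (D.z i)) a := by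
    intro s
    have hi : ∀ i, Integrable (rex d (D.z i)) (sig d) := fun i => by
      rw [rex_eq]
      exact (expo_integrable _ _ (rex_fwd (D.hz i))).1
    unfold coneExt
    have e : ∀ ξ : Rd d, cexp (-(I * (pair a ξ : ℂ))) * ∑ i ∈ s, D.κ i * rex d (D.z i) ξ =
        ∑ i ∈ s, D.κ i * (cexp (-(I * (pair a ξ : ℂ))) * rex d (D.z i) ξ) := by
      intro ξ
      rw [Finset.mul_sum]
      exact Finset.sum_congr rfl fun i _ => by ring
    simp only [e]
    rw [integral_finsetSum]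
    · exact Finset.sum_congr rfl fun i _ => integral_const_mul _ _
    · intro i _
      exact (Z_integrable _ (hi i) a).const_mul _
  unfold toM Dat.fn
  rw [h Finset.univ, Finset.mul_sum]
  exact Finset.sum_congr rfl fun i _ => by ring

/-- the expansion, with uniform geometric bounds -/
theorem Dat.expand (D : Dat) : ∃ C q : ℝ, 0 ≤ C ∧ 0 < q ∧ q < 1 ∧ ∀ a : Rs d,
    (∀ l, ‖D.bb d l * Zf d (X 0 a) (∑ k, X k a ^ 2) l‖ ≤ C * q ^ l) ∧
    HasSum (fun l => D.bb d l * Zf d (X 0 a) (∑ k, X k a ^ 2) l)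
      ((kap d : ℂ)⁻¹ * toM (coneExt (D.fn d)) a) := by
  obtain ⟨ρ, hρ0, hρ1, hρ⟩ := D.rho
  set R : ℝ := (1 + ρ) / 2 with hR
  have hR0 : 0 < R := by rw [hR]; linarith
  have hR1 : R < 1 := by rw [hR]; linarith
  have hρR : ρ < R := by rw [hR]; linarith
  set M : ℝ := ((1 - R) ^ 2) ^ (-(nu d)) with hM
  have hM0 : 0 ≤ M := Real.rpow_nonneg (sq_nonneg _) _
  set K : ℝ := ∑ i, ‖D.κ i * (1 + be (D.z i)) ^ (d - 1)‖ with hK
  have hK0 : 0 ≤ K := Finset.sum_nonneg fun i _ => norm_nonneg _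
  refine ⟨K * M, ρ * R⁻¹, by positivity, by positivity, ?_, fun a => ?_⟩
  · rw [← div_eq_mul_inv, div_lt_one hR0]
    exact hρR
  · have hgen := S_gen d (ζ₁ := z1 a) (ζ₂ := z2 a) (ze_norm _) (ze_norm _) R hR0 hR1
    rw [z_add, z_mul] at hgen
    constructor
    · intro l
      unfold Dat.bb
      rw [Finset.sum_mul]
      refine (norm_sum_le _ _).trans ?_
      rw [hK, Finset.sum_mul, Finset.sum_mul]
      refine Finset.sum_le_sum fun i _ => ?_
      rw [norm_mul, norm_mul, mul_assoc, mul_assoc]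
      refine mul_le_mul_of_nonneg_left ?_ (norm_nonneg _)
      rw [norm_pow, mul_pow, ← mul_assoc, mul_comm M, mul_assoc]
      exact mul_le_mul (pow_le_pow_left₀ (norm_nonneg _) (hρ i) l) (hgen.2 l) (norm_nonneg _)
        (by positivity)
    · rw [D.toM_fn, Finset.mul_sum]
      have e : (fun l => D.bb d l * Zf d (X 0 a) (∑ k, X k a ^ 2) l) = fun l =>
          ∑ i, D.κ i * (1 + be (D.z i)) ^ (d - 1) *
            (be (D.z i) ^ l * Zf d (X 0 a) (∑ k, X k a ^ 2) l) := by
        funext l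
        unfold Dat.bb
        rw [Finset.sum_mul]
        exact Finset.sum_congr rfl fun i _ => by ring
      rw [e]
      refine hasSum_sum fun i _ => ?_
      have h2 := (hgen.1 (be (D.z i)) ((hρ i).trans_lt hρR)).mul_left
        (D.κ i * (1 + be (D.z i)) ^ (d - 1))
      rw [toM_rex (D.hz i), z_add, z_mul]
      have hk : (kap d : ℂ) ≠ 0 := by exact_mod_cast (kap_pos d).ne'
      have e3 : ∀ A B c : ℂ, (kap d : ℂ)⁻¹ * (c * ((kap d : ℂ) * (A * B))) = c * A * B := by
        intro A B c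
        rw [mul_left_comm c, inv_mul_cancel_left₀ hk, mul_assoc]
      rw [e3]
      exact h2

theorem Dat.lim_V (D : Dat) : Tendsto (fun N => V (nu d) N (D.aa d)) atTop
    (𝓝 (∫ a, ‖(kap d : ℂ)⁻¹ * toM (coneExt (D.fn d)) a‖ ^ pe d ∂(mM d))) := by
  obtain ⟨C, q, hC, hq0, hq1, hall⟩ := D.expand (d := d)
  have hV : ∀ N, V (nu d) N (D.aa d) = ∫ a, ‖Fh d N (D.bb d) (fun j => X j a)‖ ^ pe d ∂(mM d) :=
    fun N => (law_V N (D.bb d)).symm
  simp only [hV]
  have hp := pe_pos (d := d)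
  refine tendsto_integral_of_dominated_convergence (fun _ => (C * (1 - q)⁻¹) ^ pe d) ?_
    (integrable_const _) ?_ ?_
  · intro N
    have h1 : Continuous fun a : Rs d => Fh d N (D.bb d) (fun j => X j a) :=
      (Fh_cont N _).comp LX_cont
    exact (h1.norm.rpow_const fun x => Or.inr hp.le).aestronglyMeasurable
  · intro N
    refine Eventually.of_forall fun a => ?_
    rw [Real.norm_eq_abs, abs_of_nonneg (by positivity)]
    refine Real.rpow_le_rpow (norm_nonneg _) ?_ hp.le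
    unfold Fh
    refine (norm_sum_le _ _).trans ?_
    refine (Finset.sum_le_sum fun l _ => (hall a).1 l).trans ?_
    rw [← Finset.mul_sum]
    refine mul_le_mul_of_nonneg_left ?_ hC
    rw [← tsum_geometric_of_lt_one hq0.le hq1]
    exact (summable_geometric_of_lt_one hq0.le hq1).sum_le_tsum _ fun i _ => by positivity
  · refine Eventually.of_forall fun a => ?_
    have h1 := (hall a).2.tendsto_sum_nat
    exact h1.norm.rpow_const (Or.inr hp.le)

end Pool.Agent.ConeG.Rad
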