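import Pool.Agent.Work.MP_b0b133_an.R.Fin
import Pool.Agent.Work.MP_b0b133_an.R.Far
import Pool.Agent.Work.MP_b0b133_an.G.Sharp4
import Pool.Agent.Work.MP_b0b133_an.D5.Main

/-!
# Radial functions in all dimensions `d ≥ 4`: assembly
-/

set_option autoImplicit false
open MeasureTheory Complex Filter Metric
open scoped ENNReal NNReal ComplexConjugate Topology Real

namespace Pool.Agent.ConeG.Rad

/-- the core inequality in the near region -/
def RadNear (ν : ℝ) : Prop := ∀ (N : ℕ) (a : ℕ → ℂ), 1 ≤ N → a 0 = 1 → a 1 = 0 → ‖a 2‖ ≤ ν →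
  E ν N a ≤ 7 / 4 → V ν N a ≤ E ν N a ^ (1 + 1 / ν)

theorem coreA_of_near (k : ℕ) (hk : 3 ≤ k) (h : RadNear (((k : ℝ) + 2) / 2)) :
    RadCoreA (((k : ℝ) + 2) / 2) := by
  intro N a hN h0 h1 h2 hE
  rcases le_total (E (((k : ℝ) + 2) / 2) N a) (7 / 4) with h3 | h3
  · exact h N a hN h0 h1 h2 h3
  · exact rad_mid k hk _ rfl N hN a h0 h1 h2 h3 hE

theorem nu_eq (d k : ℕ) (hk : d = k + 3) : nu d = ((k : ℝ) + 2) / 2 := by
  subst hk
  unfold nu
  push_cast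
  ring

theorem good_all (hnear : ∀ k : ℕ, 3 ≤ k → RadNear (((k : ℝ) + 2) / 2)) (d : ℕ) (hd : 4 ≤ d)
    [Fact (2 ≤ d)] (D : Dat) : Good d (D.fn d) := by
  rcases (by omega : d = 4 ∨ d = 5 ∨ 6 ≤ d) with rfl | rfl | h6
  · exact good_of_sharp sharp4 D
  · exact good_of_sharp sharp5 D
  · obtain ⟨k, rfl⟩ : ∃ k, d = k + 3 := ⟨d - 3, by omega⟩
    have e := nu_eq (k + 3) k rfl
    refine Dat.good ?_ ?_ D
    · rw [e]; exact coreA_of_near k (by omega) (hnear k (by omega))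
    · rw [e]; exact rad_sup k (by omega)

end Pool.Agent.ConeG.Rad
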