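import Mathlib
import Pool.Agent.Work.MP_b0b133_an.Radial.Quartic

/-!
Radial data, near region: Jensen in the time variable and the integrated certificate.
-/

namespace Pool.Agent.ConeRadial

open Finset MeasureTheory
open scoped Real
open Pool.Agent.ConeG.Rad (Ch cf wt)

/-- the polynomial of the conjugate wave at fixed `g` -/
noncomputable def polF (ν : ℝ) (N : ℕ) (a : ℕ → ℂ) (g : ℝ) : Polynomial ℂ :=
  ∑ l ∈ range N, Polynomial.monomial l ((starRingEnd ℂ) (a l * (Y ν l g : ℂ)))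

theorem polF_eval (ν : ℝ) (N : ℕ) (a : ℕ → ℂ) (g T : ℝ) :
    (polF ν N a g).eval (circleMap 0 1 T) =
      (starRingEnd ℂ) (Pool.Agent.ConeG.Rad.F ν N a T g) := by
  unfold polF Pool.Agent.ConeG.Rad.F
  rw [Polynomial.eval_finsetSum, map_sum]
  refine sum_congr rfl fun l _ => ?_
  rw [Polynomial.eval_monomial, map_mul (starRingEnd ℂ) (a l * _), ← Complex.exp_conj]
  unfold circleMap
  congr 1
  rw [Complex.ofReal_one, one_mul, zero_add, ← Complex.exp_nat_mul]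
  congr 1
  simp only [map_neg, map_mul, Complex.conj_I, Complex.conj_ofReal, Complex.conj_natCast]
  ring

theorem polF_norm (ν : ℝ) (N : ℕ) (a : ℕ → ℂ) (g T : ℝ) :
    ‖(polF ν N a g).eval (circleMap 0 1 T)‖ = ‖Pool.Agent.ConeG.Rad.F ν N a T g‖ := by
  rw [polF_eval, RCLike.norm_conj]

theorem polF_coeff_zero (ν : ℝ) (N : ℕ) (hN : 1 ≤ N) (a : ℕ → ℂ) (ha : a 0 = 1) (g : ℝ) :
    (polF ν N a g).coeff 0 = 1 := by
  unfold polF
  rw [Polynomial.finsetSum_coeff, sum_eq_single 0]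
  · rw [Polynomial.coeff_monomial, if_pos rfl, ha, Y, Ch_zero]
    simp
  · intro l _ hl
    rw [Polynomial.coeff_monomial, if_neg hl]
  · intro h
    exact absurd (mem_range.2 hN) h

theorem polF_ne_zero (ν : ℝ) (N : ℕ) (hN : 1 ≤ N) (a : ℕ → ℂ) (ha : a 0 = 1) (g : ℝ) :
    polF ν N a g ≠ 0 := by
  intro h
  have := polF_coeff_zero ν N hN a ha g
  rw [h] at this
  simp at this

theorem log_integrable (ν : ℝ) (N : ℕ) (a : ℕ → ℂ) (g : ℝ) :
    IntervalIntegrable (fun T => Real.log ‖Pool.Agent.ConeG.Rad.F ν N a T g‖) volume 0 (2 * π) := by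
  have := (polF ν N a g).intervalIntegrable_mahlerMeasure
  simpa only [polF_norm] using this

/-- **Jensen's inequality in the time variable.** -/
theorem jensen_time (ν : ℝ) (N : ℕ) (hN : 1 ≤ N) (a : ℕ → ℂ) (ha : a 0 = 1) (g : ℝ) :
    0 ≤ ∫ T in (0 : ℝ)..(2 * π), Real.log ‖Pool.Agent.ConeG.Rad.F ν N a T g‖ := by
  have h1 := (polF ν N a g).norm_coeff_le_choose_mul_mahlerMeasure 0
  rw [polF_coeff_zero ν N hN a ha g] at h1
  simp only [norm_one, Nat.choose_zero_right, Nat.cast_one, one_mul] at h1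
  have h2 : 0 ≤ (polF ν N a g).logMahlerMeasure := by
    rw [Polynomial.logMahlerMeasure_eq_log_MahlerMeasure]
    exact Real.log_nonneg h1
  rw [Polynomial.logMahlerMeasure_def, Real.circleAverage_def] at h2
  simp only [polF_norm, smul_eq_mul] at h2
  have h3 : 0 < (2 * π)⁻¹ := by positivity
  exact (mul_nonneg_iff_of_pos_left h3).1 h2

theorem ae_ne_zero (ν : ℝ) (N : ℕ) (hN : 1 ≤ N) (a : ℕ → ℂ) (ha : a 0 = 1) (g : ℝ) :
    ∀ᵐ T ∂(volume : Measure ℝ), Pool.Agent.ConeG.Rad.F ν N a T g ≠ 0 := by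
  have h0 := polF_ne_zero ν N hN a ha g
  have h1 : {z : ℂ | (polF ν N a g).IsRoot z}.Countable :=
    (Polynomial.finite_setOfPred_isRoot h0).countable
  have h2 := (h1.preimage_circleMap 0 (one_ne_zero : (1 : ℝ) ≠ 0)).measure_zero volume
  rw [ae_iff]
  refine measure_mono_null ?_ h2
  intro T hT
  simp only [ne_eq, not_not, Set.mem_ofPred_eq] at hT
  simp only [Set.mem_preimage, Set.mem_ofPred_eq, Polynomial.IsRoot.def, polF_eval, hT, map_zero]

/-- the order of the two integrals -/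
theorem iterated_swap (f : ℝ → ℝ → ℝ) (hf : Continuous (Function.uncurry f)) :
    ∫ T in (0 : ℝ)..(2 * π), ∫ g in (0 : ℝ)..π, f T g =
      ∫ g in (0 : ℝ)..π, ∫ T in (0 : ℝ)..(2 * π), f T g := by
  have hp : (0 : ℝ) ≤ π := Real.pi_pos.le
  have h2p : (0 : ℝ) ≤ 2 * π := by positivity
  have hint : Integrable (Function.uncurry f)
      ((volume.restrict (Set.Ioc (0 : ℝ) (2 * π))).prod (volume.restrict (Set.Ioc (0 : ℝ) π))) := by
    rw [Measure.prod_restrict]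
    refine IntegrableOn.mono_set (t := Set.Icc (0 : ℝ) (2 * π) ×ˢ Set.Icc (0 : ℝ) π) ?_
      (Set.prod_mono Set.Ioc_subset_Icc_self Set.Ioc_subset_Icc_self)
    exact hf.continuousOn.integrableOn_compact (isCompact_Icc.prod isCompact_Icc)
  have := integral_integral_swap hint
  simp only [intervalIntegral.integral_of_le hp, intervalIntegral.integral_of_le h2p]
  exact this

/-- the double integral, a mean in the first variable -/
noncomputable def II (f : ℝ → ℝ → ℝ) : ℝ :=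
  (2 * π)⁻¹ * ∫ T in (0 : ℝ)..(2 * π), ∫ g in (0 : ℝ)..π, f T g

theorem cont_inner {f : ℝ → ℝ → ℝ} (hf : Continuous (Function.uncurry f)) :
    Continuous fun T => ∫ g in (0 : ℝ)..π, f T g :=
  intervalIntegral.continuous_parametric_intervalIntegral_of_continuous' hf _ _

theorem II_add {f h : ℝ → ℝ → ℝ} (hf : Continuous (Function.uncurry f))
    (hh : Continuous (Function.uncurry h)) :
    II (fun T g => f T g + h T g) = II f + II h := by
  unfold II
  rw [← mul_add, ← intervalIntegral.integral_add ((cont_inner hf).intervalIntegrable _ _)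
    ((cont_inner hh).intervalIntegrable _ _)]
  congr 1
  refine intervalIntegral.integral_congr fun T _ => ?_
  have c1 : Continuous fun g => f T g := hf.comp (Continuous.prodMk_right T)
  have c2 : Continuous fun g => h T g := hh.comp (Continuous.prodMk_right T)
  exact intervalIntegral.integral_add (c1.intervalIntegrable _ _) (c2.intervalIntegrable _ _)

theorem II_smul (c : ℝ) (f : ℝ → ℝ → ℝ) : II (fun T g => c * f T g) = c * II f := by
  unfold II
  simp only [intervalIntegral.integral_const_mul]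
  ring

theorem II_const (f : ℝ → ℝ) : II (fun _ g => f g) = ∫ g in (0 : ℝ)..π, f g := by
  unfold II
  rw [intervalIntegral.integral_const]
  have := Real.pi_pos.ne'
  rw [sub_zero, smul_eq_mul, ← mul_assoc, inv_mul_cancel₀ (by positivity), one_mul]

theorem II_mono {f h : ℝ → ℝ → ℝ} (hf : Continuous (Function.uncurry f))
    (hh : Continuous (Function.uncurry h))
    (hle : ∀ g ∈ Set.Ioo 0 π, ∫ T in (0 : ℝ)..(2 * π), f T g ≤ ∫ T in (0 : ℝ)..(2 * π), h T g) :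
    II f ≤ II h := by
  unfold II
  rw [iterated_swap f hf, iterated_swap h hh]
  refine mul_le_mul_of_nonneg_left ?_ (by positivity)
  have c1 : Continuous fun g => ∫ T in (0 : ℝ)..(2 * π), f T g := by
    refine intervalIntegral.continuous_parametric_intervalIntegral_of_continuous' ?_ _ _
    exact hf.comp continuous_swap
  have c2 : Continuous fun g => ∫ T in (0 : ℝ)..(2 * π), h T g := by
    refine intervalIntegral.continuous_parametric_intervalIntegral_of_continuous' ?_ _ _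
    exact hh.comp continuous_swap
  exact intervalIntegral.integral_mono_on_of_le_Ioo Real.pi_pos.le (c1.intervalIntegrable _ _)
    (c2.intervalIntegrable _ _) hle

theorem continuous_F2 (ν : ℝ) (N : ℕ) (a : ℕ → ℂ) :
    Continuous (Function.uncurry (Pool.Agent.ConeG.Rad.F ν N a)) := by
  unfold Pool.Agent.ConeG.Rad.F Function.uncurry
  refine continuous_finsetSum _ fun l _ => ?_
  have h2 : Continuous fun p : ℝ × ℝ => ((Ch ν l (Real.cos p.2) : ℝ) : ℂ) :=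
    Complex.continuous_ofReal.comp ((continuous_Y ν l).comp continuous_snd)
  have h3 : Continuous fun p : ℝ × ℝ =>
      Complex.exp (-((l : ℂ) * (p.1 : ℂ) * Complex.I)) := by fun_prop
  exact (continuous_const.mul h2).mul h3

/-- the coefficient `κ` of the certificate, as a function of `s = sin g` -/
noncomputable def kapN (ν A K1 K2 b0 s : ℝ) : ℝ :=
  (A + K1 * s ^ ν) / s ^ 2 - (ν + 1) - K2 * b0 * s ^ (2 * ν - 2)

/-- the right-hand side of the certificate times `s^{2ν}` -/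
noncomputable def cert (ν A K1 K2 b0 s u : ℝ) : ℝ :=
  s ^ (2 * ν) + (1 / ν) * ((A * s ^ (2 * ν - 2) + K1 * s ^ (3 * ν - 2)
    - K2 * b0 * s ^ (4 * ν - 2)) * (u - 1)
    + b0 * s ^ (4 * ν - 2) * ((u ^ 2 - 1) - 2 * (u - 1)))

theorem s_kapN {ν A K1 K2 b0 s : ℝ} (hs : 0 < s) : s ^ (2 * ν) * kapN ν A K1 K2 b0 s =
    A * s ^ (2 * ν - 2) + K1 * s ^ (3 * ν - 2) - (ν + 1) * s ^ (2 * ν)
      - K2 * b0 * s ^ (4 * ν - 2) := by
  have e1 : s ^ (2 * ν) = s ^ (2 * ν - 2) * s ^ 2 := by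
    rw [← Real.rpow_natCast s 2, ← Real.rpow_add hs]
    congr 1
    push_cast
    ring
  have e2 : s ^ (3 * ν - 2) = s ^ (2 * ν - 2) * s ^ ν := by
    rw [← Real.rpow_add hs]
    congr 1
    ring
  have e3 : s ^ (4 * ν - 2) = s ^ (2 * ν) * s ^ (2 * ν - 2) := by
    rw [← Real.rpow_add hs]
    congr 1
    ring
  have e4 : s ^ (2 * ν) * ((A + K1 * s ^ ν) / s ^ 2) = s ^ (2 * ν - 2) * (A + K1 * s ^ ν) := by
    rw [e1]
    have : s ≠ 0 := hs.ne'
    field_simp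
  unfold kapN
  rw [mul_sub, mul_sub, e4, e3, e2]
  ring

theorem cert_ge {ν A K1 K2 b0 s u : ℝ} (hν : 0 < ν) (hs : 0 < s) (hu : 0 < u)
    (h : ν * (u * (u ^ (1 / ν) - 1)) ≤ (1 + kapN ν A K1 K2 b0 s) * (u - 1) +
      b0 * s ^ (2 * ν - 2) * (u - 1) ^ 2 - kapN ν A K1 K2 b0 s * Real.log u) :
    u ^ (1 + 1 / ν) * s ^ (2 * ν) + (1 / ν) * (s ^ (2 * ν) * kapN ν A K1 K2 b0 s) * Real.log u ≤
      cert ν A K1 K2 b0 s u := by
  have e3 : s ^ (4 * ν - 2) = s ^ (2 * ν) * s ^ (2 * ν - 2) := by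
    rw [← Real.rpow_add hs]
    congr 1
    ring
  have hp : 0 < s ^ (2 * ν) := Real.rpow_pos_of_pos hs _
  have hu1 : u ^ (1 + 1 / ν) = u * u ^ (1 / ν) := by
    rw [Real.rpow_add hu, Real.rpow_one]
  have h2 := mul_le_mul_of_nonneg_left h (show 0 ≤ (1 / ν) * s ^ (2 * ν) by positivity)
  have hk := s_kapN (ν := ν) (A := A) (K1 := K1) (K2 := K2) (b0 := b0) hs
  unfold cert
  rw [hu1]
  set k := kapN ν A K1 K2 b0 s with hkd
  have h3 : (1 / ν) * s ^ (2 * ν) * (ν * (u * (u ^ (1 / ν) - 1))) =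
      u * u ^ (1 / ν) * s ^ (2 * ν) - u * s ^ (2 * ν) := by
    field_simp
  rw [h3] at h2
  have h4 : (1 / ν) * s ^ (2 * ν) * ((1 + k) * (u - 1) + b0 * s ^ (2 * ν - 2) * (u - 1) ^ 2
      - k * Real.log u) = (1 / ν) * ((s ^ (2 * ν) + s ^ (2 * ν) * k) * (u - 1)
      + b0 * (s ^ (2 * ν) * s ^ (2 * ν - 2)) * (u - 1) ^ 2) - (1 / ν) * (s ^ (2 * ν) * k) * Real.log u := by
    ring
  rw [h4, ← e3] at h2
  have h5 : (1 / ν) * ((s ^ (2 * ν) + s ^ (2 * ν) * k) * (u - 1)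
      + b0 * s ^ (4 * ν - 2) * (u - 1) ^ 2) = (1 / ν) * ((A * s ^ (2 * ν - 2) + K1 * s ^ (3 * ν - 2)
    - K2 * b0 * s ^ (4 * ν - 2)) * (u - 1)
    + b0 * s ^ (4 * ν - 2) * ((u ^ 2 - 1) - 2 * (u - 1))) - s ^ (2 * ν) * (u - 1) := by
    rw [hk]
    field_simp
    ring
  rw [h5] at h2
  linarith

/-- the certificate integrated over the time, for an abstract modulus `x`. -/
theorem near_abs {ν : ℝ} (hν : 0 < ν) {A K1 K2 b0 s : ℝ} (hs : 0 < s)
    (hk : 0 ≤ kapN ν A K1 K2 b0 s)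
    (hin : ∀ u : ℝ, 0 < u → ν * (u * (u ^ (1 / ν) - 1)) ≤
      (1 + kapN ν A K1 K2 b0 s) * (u - 1) +
      b0 * s ^ (2 * ν - 2) * (u - 1) ^ 2 - kapN ν A K1 K2 b0 s * Real.log u)
    {x : ℝ → ℝ} (cx : Continuous x) (hx : ∀ T, 0 ≤ x T)
    (hl : IntervalIntegrable (fun T => Real.log (x T)) volume 0 (2 * π))
    (hJ : 0 ≤ ∫ T in (0 : ℝ)..(2 * π), Real.log (x T))
    (hne : ∀ᵐ T ∂(volume : Measure ℝ), x T ≠ 0) :
    ∫ T in (0 : ℝ)..(2 * π), x T ^ (2 * (1 + 1 / ν)) * s ^ (2 * ν) ≤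
      ∫ T in (0 : ℝ)..(2 * π), cert ν A K1 K2 b0 s (x T ^ 2) := by
  have hp : 0 ≤ 2 * (1 + 1 / ν) := by positivity
  have c1 : Continuous fun T => x T ^ (2 * (1 + 1 / ν)) * s ^ (2 * ν) :=
    (cx.rpow_const fun _ => Or.inr hp).mul continuous_const
  have c2 : Continuous fun T => cert ν A K1 K2 b0 s (x T ^ 2) := by
    unfold cert
    fun_prop
  obtain ⟨q, hq⟩ : ∃ q, q = (1 / ν) * (s ^ (2 * ν) * kapN ν A K1 K2 b0 s) * 2 := ⟨_, rfl⟩
  have hq0 : 0 ≤ q := by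
    have := Real.rpow_nonneg hs.le (2 * ν)
    rw [hq]
    positivity
  have hmono : ∀ᵐ T ∂(volume : Measure ℝ),
      x T ^ (2 * (1 + 1 / ν)) * s ^ (2 * ν) + q * Real.log (x T) ≤
        cert ν A K1 K2 b0 s (x T ^ 2) := by
    filter_upwards [hne] with T hT
    have hn : 0 < x T := lt_of_le_of_ne (hx T) (Ne.symm hT)
    have hu : 0 < x T ^ 2 := by positivity
    have h2 := cert_ge hν hs hu (hin _ hu)
    refine le_trans (le_of_eq ?_) h2
    have e1 : (x T ^ 2) ^ (1 + 1 / ν) = x T ^ (2 * (1 + 1 / ν)) := by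
      rw [Real.rpow_mul hn.le, ← Real.rpow_natCast _ 2]
      norm_num
    have e2 : Real.log (x T ^ 2) = 2 * Real.log (x T) := by
      rw [Real.log_pow]
      norm_num
    rw [e1, e2, hq]
    ring
  have i1 : IntervalIntegrable (fun T => x T ^ (2 * (1 + 1 / ν)) * s ^ (2 * ν)) volume 0 (2 * π) :=
    c1.intervalIntegrable _ _
  have i2 : IntervalIntegrable (fun T => q * Real.log (x T)) volume 0 (2 * π) := hl.const_mul q
  have h1 : ∫ T in (0 : ℝ)..(2 * π), (x T ^ (2 * (1 + 1 / ν)) * s ^ (2 * ν)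
      + q * Real.log (x T)) ≤
      ∫ T in (0 : ℝ)..(2 * π), cert ν A K1 K2 b0 s (x T ^ 2) :=
    intervalIntegral.integral_mono_ae (by positivity) (i1.add i2) (c2.intervalIntegrable _ _) hmono
  rw [intervalIntegral.integral_add i1 i2, intervalIntegral.integral_const_mul] at h1
  have := mul_nonneg hq0 hJ
  linarith

/-- the certificate integrated over the time, at a fixed `g`. -/
theorem near_time {ν : ℝ} (hν : 1 ≤ ν) {N : ℕ} (hN : 1 ≤ N) {a : ℕ → ℂ} (ha : a 0 = 1)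
    {A K1 K2 b0 : ℝ} (g : ℝ) (hg : 0 < Real.sin g)
    (hk : 0 ≤ kapN ν A K1 K2 b0 (Real.sin g))
    (hin : ∀ u : ℝ, 0 < u → ν * (u * (u ^ (1 / ν) - 1)) ≤
      (1 + kapN ν A K1 K2 b0 (Real.sin g)) * (u - 1) +
      b0 * Real.sin g ^ (2 * ν - 2) * (u - 1) ^ 2 - kapN ν A K1 K2 b0 (Real.sin g) * Real.log u) :
    ∫ T in (0 : ℝ)..(2 * π), ‖Pool.Agent.ConeG.Rad.F ν N a T g‖ ^ (2 * (1 + 1 / ν)) *
        Real.sin g ^ (2 * ν) ≤
      ∫ T in (0 : ℝ)..(2 * π), cert ν A K1 K2 b0 (Real.sin g)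
        (‖Pool.Agent.ConeG.Rad.F ν N a T g‖ ^ 2) := by
  have c0 : Continuous fun T : ℝ => ((T, g) : ℝ × ℝ) := by fun_prop
  have cF0 : Continuous fun T => Function.uncurry (Pool.Agent.ConeG.Rad.F ν N a) (T, g) :=
    (continuous_F2 ν N a).comp c0
  have cF : Continuous fun T => Pool.Agent.ConeG.Rad.F ν N a T g := by
    simpa only [Function.uncurry_apply_pair] using cF0
  have h3 : ∀ᵐ T ∂(volume : Measure ℝ), ‖Pool.Agent.ConeG.Rad.F ν N a T g‖ ≠ 0 := by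
    filter_upwards [ae_ne_zero ν N hN a ha g] with T hT
    exact (norm_pos_iff.2 hT).ne'
  exact near_abs (show 0 < ν by linarith) hg hk hin
    (x := fun T => ‖Pool.Agent.ConeG.Rad.F ν N a T g‖) cF.norm (fun T => norm_nonneg _)
    (log_integrable ν N a g) (jensen_time ν N hN a ha g) h3

/-- parseval for `F` -/
theorem parseval_F {b : ℝ} (hb : 0 ≤ b) (ν : ℝ) (N : ℕ) (a : ℕ → ℂ) :
    II (fun T g => ‖Pool.Agent.ConeG.Rad.F ν N a T g‖ ^ 2 * Real.sin g ^ b) =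
      ∑ l ∈ range N, ‖a l‖ ^ 2 * J b (fun g => Y ν l g ^ 2) := by
  set G : ℕ → ℝ → ℂ := fun l g => a l * ((Y ν l g : ℝ) : ℂ) with hG
  have hGc : ∀ m, Continuous (G m) := by
    intro m
    exact continuous_const.mul (Complex.continuous_ofReal.comp (continuous_Y ν _))
  have h := parseval hb N G hGc
  have h1 : II (fun T g => ‖Pool.Agent.ConeG.Rad.F ν N a T g‖ ^ 2 * Real.sin g ^ b) =
      (2 * π)⁻¹ * ∫ T in (0 : ℝ)..(2 * π), J b (fun g =>
      ‖∑ m ∈ range N, G m g * Complex.exp (-((m : ℂ) * (T : ℂ) * Complex.I))‖ ^ 2) := rfl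
  rw [h1, h]
  refine sum_congr rfl fun l _ => ?_
  rw [← J_smul]
  congr 1
  ext g
  rw [hG]
  simp only [norm_mul, Complex.norm_real, mul_pow, Real.norm_eq_abs, sq_abs]

theorem sum_range_sub_zero (N : ℕ) (hN : 1 ≤ N) (f : ℕ → ℝ) :
    ∑ l ∈ range N, f l - f 0 = ∑ l ∈ Ico 1 N, f l := by
  rw [range_eq_Ico, sum_eq_sum_Ico_succ_bot (by omega)]
  ring

/-- **The near certificate, integrated.** -/
theorem near {ν : ℝ} (hν : 1 ≤ ν) {N : ℕ} (hN : 1 ≤ N) {a : ℕ → ℂ} (ha : a 0 = 1)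
    {A K1 K2 b0 : ℝ} (hk : ∀ s : ℝ, 0 < s → s ≤ 1 → 0 ≤ kapN ν A K1 K2 b0 s)
    (hin : ∀ s : ℝ, 0 < s → s ≤ 1 → ∀ u : ℝ, 0 < u → ν * (u * (u ^ (1 / ν) - 1)) ≤
      (1 + kapN ν A K1 K2 b0 s) * (u - 1) + b0 * s ^ (2 * ν - 2) * (u - 1) ^ 2
        - kapN ν A K1 K2 b0 s * Real.log u) :
    Pool.Agent.ConeG.Rad.V ν N a ≤ 1 + (1 / ν) * (
      (∑ l ∈ Ico 1 N, ‖a l‖ ^ 2 * (cst (2 * ν) * (A * J (2 * ν - 2) (fun g => Y ν l g ^ 2)
        + K1 * J (3 * ν - 2) (fun g => Y ν l g ^ 2)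
        - (2 + K2) * b0 * J (4 * ν - 2) (fun g => Y ν l g ^ 2))))
      + b0 * (cst (2 * ν) * (((2 * π)⁻¹ * ∫ T in (0 : ℝ)..(2 * π), ∫ g in (0 : ℝ)..π,
          ‖Pool.Agent.ConeG.Rad.F ν N a T g‖ ^ 4 * Real.sin g ^ (4 * ν - 2))
          - ∫ g in (0 : ℝ)..π, Real.sin g ^ (4 * ν - 2)))) := by
  have hν0 : 0 < ν := by linarith
  have b1 : 0 ≤ 2 * ν - 2 := by linarith
  have b2 : 0 ≤ 3 * ν - 2 := by linarith
  have b3 : 0 ≤ 4 * ν - 2 := by linarith
  have b4 : 0 ≤ 2 * ν := by linarith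
  have cF := continuous_F2 ν N a
  have cs : ∀ {b : ℝ}, 0 ≤ b → Continuous fun p : ℝ × ℝ => Real.sin p.2 ^ b := fun hb =>
    (continuous_sin_rpow hb).comp continuous_snd
  have cFn : Continuous fun p : ℝ × ℝ => ‖Pool.Agent.ConeG.Rad.F ν N a p.1 p.2‖ := cF.norm
  have s1 := cs b1
  have s2 := cs b2
  have s3 := cs b3
  have s4 := cs b4
  have hcst : 0 < cst (2 * ν) := inv_pos.2 (J_one_pos b4)
  -- the two sides
  have h1 : Pool.Agent.ConeG.Rad.V ν N a = cst (2 * ν) * II (fun T g =>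
      ‖Pool.Agent.ConeG.Rad.F ν N a T g‖ ^ (2 * (1 + 1 / ν)) * Real.sin g ^ (2 * ν)) := by
    unfold Pool.Agent.ConeG.Rad.V II Pool.Agent.ConeG.Rad.cn cst
    rw [intervalIntegral.integral_const_mul]
    ring
  have h2 : II (fun T g =>
      ‖Pool.Agent.ConeG.Rad.F ν N a T g‖ ^ (2 * (1 + 1 / ν)) * Real.sin g ^ (2 * ν)) ≤
      II (fun T g => cert ν A K1 K2 b0 (Real.sin g) (‖Pool.Agent.ConeG.Rad.F ν N a T g‖ ^ 2)) := by
    refine II_mono ?_ ?_ ?_
    · exact (cFn.rpow_const fun _ => Or.inr (by positivity)).mul s4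
    · unfold cert Function.uncurry
      dsimp only
      fun_prop
    · intro g hg
      have hs : 0 < Real.sin g := Real.sin_pos_of_mem_Ioo hg
      exact near_time hν hN ha g hs (hk _ hs (Real.sin_le_one g)) (hin _ hs (Real.sin_le_one g))
  have h3 : II (fun T g => cert ν A K1 K2 b0 (Real.sin g)
      (‖Pool.Agent.ConeG.Rad.F ν N a T g‖ ^ 2)) =
      (∫ g in (0 : ℝ)..π, Real.sin g ^ (2 * ν)) + (1 / ν) * (
      A * (∑ l ∈ Ico 1 N, ‖a l‖ ^ 2 * J (2 * ν - 2) (fun g => Y ν l g ^ 2))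
      + K1 * (∑ l ∈ Ico 1 N, ‖a l‖ ^ 2 * J (3 * ν - 2) (fun g => Y ν l g ^ 2))
      - (2 + K2) * b0 * (∑ l ∈ Ico 1 N, ‖a l‖ ^ 2 * J (4 * ν - 2) (fun g => Y ν l g ^ 2))
      + b0 * (((2 * π)⁻¹ * ∫ T in (0 : ℝ)..(2 * π), ∫ g in (0 : ℝ)..π,
          ‖Pool.Agent.ConeG.Rad.F ν N a T g‖ ^ 4 * Real.sin g ^ (4 * ν - 2))
          - ∫ g in (0 : ℝ)..π, Real.sin g ^ (4 * ν - 2))) := by
    have hU : ∀ {b : ℝ}, 0 ≤ b → II (fun T g =>
        ‖Pool.Agent.ConeG.Rad.F ν N a T g‖ ^ 2 * Real.sin g ^ b + (-1) * Real.sin g ^ b) =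
        ∑ l ∈ Ico 1 N, ‖a l‖ ^ 2 * J b (fun g => Y ν l g ^ 2) := by
      intro b hb
      have k1 : Continuous (Function.uncurry fun T g =>
          ‖Pool.Agent.ConeG.Rad.F ν N a T g‖ ^ 2 * Real.sin g ^ b) := by
        show Continuous fun p : ℝ × ℝ =>
          ‖Pool.Agent.ConeG.Rad.F ν N a p.1 p.2‖ ^ 2 * Real.sin p.2 ^ b
        exact (cFn.pow 2).mul (cs hb)
      have k2 : Continuous (Function.uncurry fun (_ g : ℝ) => (-1) * Real.sin g ^ b) := by
        show Continuous fun p : ℝ × ℝ => (-1) * Real.sin p.2 ^ b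
        exact continuous_const.mul (cs hb)
      rw [II_add k1 k2, parseval_F hb, II_const,
        intervalIntegral.integral_const_mul, ← sum_range_sub_zero N hN]
      have : ‖a 0‖ ^ 2 * J b (fun g => Y ν 0 g ^ 2) = ∫ g in (0 : ℝ)..π, Real.sin g ^ b := by
        rw [ha]
        unfold J Y
        simp [Ch_zero]
      rw [this]
      ring
    have hV : II (fun T g =>
        ‖Pool.Agent.ConeG.Rad.F ν N a T g‖ ^ 4 * Real.sin g ^ (4 * ν - 2) +
          (-1) * Real.sin g ^ (4 * ν - 2)) =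
        ((2 * π)⁻¹ * ∫ T in (0 : ℝ)..(2 * π), ∫ g in (0 : ℝ)..π,
          ‖Pool.Agent.ConeG.Rad.F ν N a T g‖ ^ 4 * Real.sin g ^ (4 * ν - 2))
          - ∫ g in (0 : ℝ)..π, Real.sin g ^ (4 * ν - 2) := by
      have k1 : Continuous (Function.uncurry fun T g =>
          ‖Pool.Agent.ConeG.Rad.F ν N a T g‖ ^ 4 * Real.sin g ^ (4 * ν - 2)) := by
        show Continuous fun p : ℝ × ℝ =>
          ‖Pool.Agent.ConeG.Rad.F ν N a p.1 p.2‖ ^ 4 * Real.sin p.2 ^ (4 * ν - 2)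
        exact (cFn.pow 4).mul s3
      have k2 : Continuous (Function.uncurry fun (_ g : ℝ) =>
          (-1) * Real.sin g ^ (4 * ν - 2)) := by
        show Continuous fun p : ℝ × ℝ => (-1) * Real.sin p.2 ^ (4 * ν - 2)
        exact continuous_const.mul s3
      rw [II_add k1 k2, II_const,
        intervalIntegral.integral_const_mul]
      unfold II
      ring
    rw [← hU b1, ← hU b2, ← hU b3, ← hV, ← II_smul A, ← II_smul K1, ← II_smul ((2 + K2) * b0),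
      ← II_smul b0, sub_eq_add_neg, neg_eq_neg_one_mul (II _), ← II_smul (-1),
      ← II_add (by fun_prop) (by fun_prop), ← II_add (by fun_prop) (by fun_prop),
      ← II_add (by fun_prop) (by fun_prop), ← II_smul (1 / ν), ← II_const,
      ← II_add (by fun_prop) (by fun_prop)]
    congr 1
    ext T g
    unfold cert
    ring
  have h4 : cst (2 * ν) * ∫ g in (0 : ℝ)..π, Real.sin g ^ (2 * ν) = 1 :=
    inv_mul_cancel₀ (J_one_pos b4).ne'
  have h5 : ∑ l ∈ Ico 1 N, ‖a l‖ ^ 2 * (cst (2 * ν) * (A * J (2 * ν - 2) (fun g => Y ν l g ^ 2)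
        + K1 * J (3 * ν - 2) (fun g => Y ν l g ^ 2)
        - (2 + K2) * b0 * J (4 * ν - 2) (fun g => Y ν l g ^ 2))) =
      cst (2 * ν) * (A * (∑ l ∈ Ico 1 N, ‖a l‖ ^ 2 * J (2 * ν - 2) (fun g => Y ν l g ^ 2))
      + K1 * (∑ l ∈ Ico 1 N, ‖a l‖ ^ 2 * J (3 * ν - 2) (fun g => Y ν l g ^ 2))
      - (2 + K2) * b0 * (∑ l ∈ Ico 1 N, ‖a l‖ ^ 2 * J (4 * ν - 2) (fun g => Y ν l g ^ 2))) := by
    simp only [mul_sum, ← sum_add_distrib, ← sum_sub_distrib]
    refine sum_congr rfl fun l _ => ?_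
    ring
  rw [h1]
  refine (mul_le_mul_of_nonneg_left h2 hcst.le).trans (le_of_eq ?_)
  rw [h3, mul_add, h4, h5]
  ring

end Pool.Agent.ConeRadial
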