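import Mathlib

/-!
# Radial data, near region: the numerical inequalities in `x = 1/ν`
-/

set_option autoImplicit false
open scoped Real

namespace Pool.Agent.ConeG.Rad

/-- upper bound of `J(3ν-2)/J(2ν)` -/
noncomputable def Sh (x : ℝ) : ℝ := 8172 / 10000 + 302 / 1000 * x + 138 / 1000 * x ^ 2
/-- upper bound of `J(4ν-2)/J(2ν)` -/
noncomputable def Wh (x : ℝ) : ℝ := 7077 / 10000 + 2195 / 10000 * x + 7 / 100 * x ^ 2
/-- the parameter `b₀` for `ν ≥ 4` -/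
noncomputable def pp (x : ℝ) : ℝ := 8361 / 10000 + 532 / 1000 * x + 14 / 100 * x ^ 2
/-- the parameter `K₁` for `ν ≥ 4` -/
noncomputable def Kh (x : ℝ) : ℝ := 22503 / 10000 + 862 / 1000 * x - 47 / 100 * x ^ 2
/-- the parameter `q` for `ν ≥ 4` -/
noncomputable def qq (x : ℝ) : ℝ := 18 / 100 - 63 / 100 * x

/-- the numerical conditions of the near region -/
structure NumOK (x q α b l2 l3 c : ℝ) : Prop where
  hl2 : 0 ≤ l2
  hc : 0 ≤ c
  hcb : c ≤ b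
  h32 : l2 + c ≤ l3
  hb : (1 + x) / 2 ≤ b
  hα : 147 / 125 * b ≤ α
  L2 : l2 ≤ 1 + (1 - 2 * q) / (2 - x) - α / 2 - b * (4 / 5 * (3 + 2 * x + x ^ 2) / (2 + x) ^ 2)
  L3 : l3 ≤ 1 + (1 - 2 * q) / (2 - x) - 5 / 12 * α - b / 2
  L4 : l3 ≤ 1 + (1 - 2 * q) / (2 - x) - 35 / 96 * α - 681 / 1000 * b
  L5 : l3 ≤ 1 + (1 - 2 * q) / (2 - x) - 21 / 64 * (α - 147 / 125 * b)
    - b * ((4 - x) / (2 + x) ^ 2 + (1 + 2 * x) ^ 2 * (x + 4) / (2 * (2 + x) ^ 2 * (3 + x)))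
  hce : c ≤ 2 / 5 * b * ((1 + 2 * x) * (x + 4) / (2 * (2 + x) ^ 2))
  C1 : (b - c) / 2 ≤ l2 + (1 + x) / (2 * (2 + (2 / 3 * (1 - x)) / 2))
  C2 : 1 / 2 < 3 / 4 * (1 - x) → 0 ≤ l2 / 2 + l3 * (3 / 4 * (1 - x) - 1 / 2)
    - b * (3 / 4 * (1 - x)) ^ 2 + c / 4
      + (1 + x) * (3 / 4 * (1 - x)) ^ 2 / (2 + 2 / 3 * (1 - x) * (3 / 4 * (1 - x)))

theorem numI1 : NumOK (2 / 7) 0 (49 / 20 * Sh (2 / 7)) (Wh (2 / 7)) (28 / 1000) (237 / 1000)
    (200 / 1000) := by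
  constructor <;> norm_num [Sh, Wh]

theorem numI2 : NumOK (1 / 3) 0 (49 / 20 * Sh (1 / 3)) (Wh (1 / 3)) (19 / 1000) (229 / 1000)
    (209 / 1000) := by
  constructor <;> norm_num [Sh, Wh]

theorem numI3 : NumOK (2 / 5) 0 (49 / 20 * Sh (2 / 5)) (Wh (2 / 5)) (5 / 1000) (218 / 1000)
    (212 / 1000) := by
  constructor <;> norm_num [Sh, Wh]

theorem pol_a {x : ℝ} (h0 : 0 ≤ x) (h1 : x ≤ 1 / 4) : 0 ≤ (1001319/62500000) + (-18677797/125000000) * x ^ 1 + (2267969/3125000) * x ^ 2 + (513242489/250000000) * x ^ 3 + (71539909/50000000) * x ^ 4 + (4117899/10000000) * x ^ 5 + (-2747/125000) * x ^ 6 + (-2459/100000) * x ^ 7 := by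
  obtain ⟨y, hy, hxy⟩ : ∃ y : ℝ, 0 ≤ y ∧ y = 1 / 4 - x := ⟨1 / 4 - x, by linarith, rfl⟩
  have e2 : (1001319/62500000) + (-18677797/125000000) * x ^ 1 + (2267969/3125000) * x ^ 2 + (513242489/250000000) * x ^ 3 + (71539909/50000000) * x ^ 4 + (4117899/10000000) * x ^ 5 + (-2747/125000) * x ^ 6 + (-2459/100000) * x ^ 7
      = (512675328/1953125) * x ^ 0 * y ^ 7 + (2393348288/1953125) * x ^ 1 * y ^ 6 + (40363264/15625) * x ^ 2 * y ^ 5 + (8296937138/1953125) * x ^ 3 * y ^ 4 + (25671695209/3906250) * x ^ 4 * y ^ 3 + (112470607903/15625000) * x ^ 5 * y ^ 2 + (6673606767/1562500) * x ^ 6 * y ^ 1 + (63576958401/62500000) * x ^ 7 * y ^ 0 := by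
    rw [hxy]; ring
  rw [e2]
  positivity

theorem pol_b {x : ℝ} (h0 : 0 ≤ x) (h1 : x ≤ 1 / 4) : 0 ≤ (2683773/100000000) + (642657/200000000) * x ^ 1 + (42198451/120000000) * x ^ 2 + (1994381/12000000) * x ^ 3 + (8239/120000) * x ^ 4 + (-177/8000) * x ^ 5 := by
  obtain ⟨y, hy, hxy⟩ : ∃ y : ℝ, 0 ≤ y ∧ y = 1 / 4 - x := ⟨1 / 4 - x, by linarith, rfl⟩
  have e2 : (2683773/100000000) + (642657/200000000) * x ^ 1 + (42198451/120000000) * x ^ 2 + (1994381/12000000) * x ^ 3 + (8239/120000) * x ^ 4 + (-177/8000) * x ^ 5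
      = (10735092/390625) * x ^ 0 * y ^ 5 + (107993577/781250) * x ^ 1 * y ^ 4 + (2818261871/9375000) * x ^ 2 * y ^ 3 + (6561199823/18750000) * x ^ 3 * y ^ 2 + (4008939107/18750000) * x ^ 4 * y ^ 1 + (4029147001/75000000) * x ^ 5 * y ^ 0 := by
    rw [hxy]; ring
  rw [e2]
  positivity

theorem pol_c {x : ℝ} (h0 : 0 ≤ x) (h1 : x ≤ 1 / 4) : 0 ≤ (104905809/25000000000) + (-2201244769/50000000000) * x ^ 1 + (9031932623/30000000000) * x ^ 2 + (2149602133/12000000000) * x ^ 3 + (21556241/300000000) * x ^ 4 + (-678923/40000000) * x ^ 5 := by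
  obtain ⟨y, hy, hxy⟩ : ∃ y : ℝ, 0 ≤ y ∧ y = 1 / 4 - x := ⟨1 / 4 - x, by linarith, rfl⟩
  have e2 : (104905809/25000000000) + (-2201244769/50000000000) * x ^ 1 + (9031932623/30000000000) * x ^ 2 + (2149602133/12000000000) * x ^ 3 + (21556241/300000000) * x ^ 4 + (-678923/40000000) * x ^ 5
      = (209811618/48828125) * x ^ 0 * y ^ 5 + (1994987591/195312500) * x ^ 1 * y ^ 4 + (40209490843/2343750000) * x ^ 2 * y ^ 3 + (675331594261/18750000000) * x ^ 3 * y ^ 2 + (188565349231/4687500000) * x ^ 4 * y ^ 1 + (1157345347307/75000000000) * x ^ 5 * y ^ 0 := by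
    rw [hxy]; ring
  rw [e2]
  positivity

theorem pol_d {x : ℝ} (h0 : 0 ≤ x) (h1 : x ≤ 1 / 4) : 0 ≤ (24229121517/50000000000) + (416661343293/20000000000) * x ^ 1 + (2470556609211/200000000000) * x ^ 2 + (721521012743/80000000000) * x ^ 3 + (783906592209/100000000000) * x ^ 4 + (358242852691/80000000000) * x ^ 5 + (1083488763/1000000000) * x ^ 6 + (20681311/400000000) * x ^ 7 + (-437101/40000000) * x ^ 8 := by
  obtain ⟨y, hy, hxy⟩ : ∃ y : ℝ, 0 ≤ y ∧ y = 1 / 4 - x := ⟨1 / 4 - x, by linarith, rfl⟩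
  have e2 : (24229121517/50000000000) + (416661343293/20000000000) * x ^ 1 + (2470556609211/200000000000) * x ^ 2 + (721521012743/80000000000) * x ^ 3 + (783906592209/100000000000) * x ^ 4 + (358242852691/80000000000) * x ^ 5 + (1083488763/1000000000) * x ^ 6 + (20681311/400000000) * x ^ 7 + (-437101/40000000) * x ^ 8
      = (1550663777088/48828125) * x ^ 0 * y ^ 8 + (29071763948424/48828125) * x ^ 1 * y ^ 7 + (32510863697943/9765625) * x ^ 2 * y ^ 6 + (3616855921370227/390625000) * x ^ 3 * y ^ 5 + (731283435633373/48828125) * x ^ 4 * y ^ 4 + (3709386945528471/250000000) * x ^ 5 * y ^ 3 + (55758429132345001/6250000000) * x ^ 6 * y ^ 2 + (37525559574713517/12500000000) * x ^ 7 * y ^ 1 + (10880749044103509/25000000000) * x ^ 8 * y ^ 0 := by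
    rw [hxy]; ring
  rw [e2]
  positivity

theorem pol_e {x : ℝ} (h0 : 0 ≤ x) (h1 : x ≤ 1 / 4) : 0 ≤ (170797/62500000) + (545313/250000000) * x ^ 1 + (153111509/250000000) * x ^ 2 + (25613317/25000000) * x ^ 3 + (149961/312500) * x ^ 4 + (11207/125000) * x ^ 5 + (49/6250) * x ^ 6 := by
  obtain ⟨y, hy, hxy⟩ : ∃ y : ℝ, 0 ≤ y ∧ y = 1 / 4 - x := ⟨1 / 4 - x, by linarith, rfl⟩
  have e2 : (170797/62500000) + (545313/250000000) * x ^ 1 + (153111509/250000000) * x ^ 2 + (25613317/25000000) * x ^ 3 + (149961/312500) * x ^ 4 + (11207/125000) * x ^ 5 + (49/6250) * x ^ 6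
      = (21862016/1953125) * x ^ 0 * y ^ 6 + (5421384/78125) * x ^ 1 * y ^ 5 + (655965778/1953125) * x ^ 2 * y ^ 4 + (1833824017/1953125) * x ^ 3 * y ^ 3 + (2608089243/1953125) * x ^ 4 * y ^ 2 + (3585538161/3906250) * x ^ 5 * y ^ 1 + (476225973/1953125) * x ^ 6 * y ^ 0 := by
    rw [hxy]; ring
  rw [e2]
  positivity

theorem pol_f {x : ℝ} (h0 : 0 ≤ x) (h1 : x ≤ 1 / 4) : 0 ≤ (29304421/100000000) + (-1417931/12500000) * x ^ 1 + (-28412653/20000000) * x ^ 2 + (-201411/1000000) * x ^ 3 + (-63/100000) * x ^ 4 + (49/5000) * x ^ 5 := by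
  obtain ⟨y, hy, hxy⟩ : ∃ y : ℝ, 0 ≤ y ∧ y = 1 / 4 - x := ⟨1 / 4 - x, by linarith, rfl⟩
  have e2 : (29304421/100000000) + (-1417931/12500000) * x ^ 1 + (-28412653/20000000) * x ^ 2 + (-201411/1000000) * x ^ 3 + (-63/100000) * x ^ 4 + (49/5000) * x ^ 5
      = (117217684/390625) * x ^ 0 * y ^ 5 + (574744972/390625) * x ^ 1 * y ^ 4 + (4365148927/1562500) * x ^ 2 * y ^ 3 + (1992619769/781250) * x ^ 3 * y ^ 2 + (3453188459/3125000) * x ^ 4 * y ^ 1 + (276409779/1562500) * x ^ 5 * y ^ 0 := by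
    rw [hxy]; ring
  rw [e2]
  positivity

theorem pol_g {x : ℝ} (h0 : 0 ≤ x) (h1 : x ≤ 1 / 4) : 0 ≤ (7262827/320000000) + (213754501/1600000000) * x ^ 1 + (-21665149/32000000) * x ^ 2 + (533996871/800000000) * x ^ 3 + (-205898913/1600000000) * x ^ 4 + (-4428783/320000000) * x ^ 5 + (-904491/16000000) * x ^ 6 + (-25893/1600000) * x ^ 7 + (-441/80000) * x ^ 8 := by
  obtain ⟨y, hy, hxy⟩ : ∃ y : ℝ, 0 ≤ y ∧ y = 1 / 4 - x := ⟨1 / 4 - x, by linarith, rfl⟩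
  have e2 : (7262827/320000000) + (213754501/1600000000) * x ^ 1 + (-21665149/32000000) * x ^ 2 + (533996871/800000000) * x ^ 3 + (-205898913/1600000000) * x ^ 4 + (-4428783/320000000) * x ^ 5 + (-904491/16000000) * x ^ 6 + (-25893/1600000) * x ^ 7 + (-441/80000) * x ^ 8
      = (116205232/78125) * x ^ 0 * y ^ 8 + (5503227284/390625) * x ^ 1 * y ^ 7 + (21170601058/390625) * x ^ 2 * y ^ 6 + (88520593559/781250) * x ^ 3 * y ^ 5 + (890731569367/6250000) * x ^ 4 * y ^ 4 + (2778631022597/25000000) * x ^ 5 * y ^ 3 + (329066076221/6250000) * x ^ 6 * y ^ 2 + (693188882113/50000000) * x ^ 7 * y ^ 1 + (38796141601/25000000) * x ^ 8 * y ^ 0 := by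
    rw [hxy]; ring
  rw [e2]
  positivity

theorem pol_h1 {x : ℝ} (h0 : 0 ≤ x) (h1 : x ≤ 1 / 4) : 0 ≤ (14288707341/12500000000) + (1813582671/2500000000) * x ^ 1 + (-8493019/62500000) * x ^ 2 + (-1286459/12500000) * x ^ 3 + (-95481/1250000) * x ^ 4 := by
  obtain ⟨y, hy, hxy⟩ : ∃ y : ℝ, 0 ≤ y ∧ y = 1 / 4 - x := ⟨1 / 4 - x, by linarith, rfl⟩
  have e2 : (14288707341/12500000000) + (1813582671/2500000000) * x ^ 1 + (-8493019/62500000) * x ^ 2 + (-1286459/12500000) * x ^ 3 + (-95481/1250000) * x ^ 4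
      = (14288707341/48828125) * x ^ 0 * y ^ 4 + (237687230811/195312500) * x ^ 1 * y ^ 3 + (369708065299/195312500) * x ^ 2 * y ^ 2 + (509786703867/390625000) * x ^ 3 * y ^ 1 + (262811076701/781250000) * x ^ 4 * y ^ 0 := by
    rw [hxy]; ring
  rw [e2]
  positivity

theorem pol_h2 {x : ℝ} (h0 : 0 ≤ x) (h1 : x ≤ 1 / 4) : 0 ≤ (9170797/100000000) + (1200407/20000000) * x ^ 1 + (274379/1000000) * x ^ 2 + (6797/100000) * x ^ 3 + (49/5000) * x ^ 4 := by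
  obtain ⟨y, hy, hxy⟩ : ∃ y : ℝ, 0 ≤ y ∧ y = 1 / 4 - x := ⟨1 / 4 - x, by linarith, rfl⟩
  have e2 : (9170797/100000000) + (1200407/20000000) * x ^ 1 + (274379/1000000) * x ^ 2 + (6797/100000) * x ^ 3 + (49/5000) * x ^ 4
      = (9170797/390625) * x ^ 0 * y ^ 4 + (152734787/1562500) * x ^ 1 * y ^ 3 + (61241177/390625) * x ^ 2 * y ^ 2 + (357765239/3125000) * x ^ 3 * y ^ 1 + (49984823/1562500) * x ^ 4 * y ^ 0 := by
    rw [hxy]; ring
  rw [e2]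
  positivity

theorem pol_h3 {x : ℝ} (h0 : 0 ≤ x) (h1 : x ≤ 1 / 4) : 0 ≤ (47370797/100000000) + (6000407/20000000) * x ^ 1 + (274379/1000000) * x ^ 2 + (6797/100000) * x ^ 3 + (49/5000) * x ^ 4 := by
  obtain ⟨y, hy, hxy⟩ : ∃ y : ℝ, 0 ≤ y ∧ y = 1 / 4 - x := ⟨1 / 4 - x, by linarith, rfl⟩
  have e2 : (47370797/100000000) + (6000407/20000000) * x ^ 1 + (274379/1000000) * x ^ 2 + (6797/100000) * x ^ 3 + (49/5000) * x ^ 4
      = (47370797/390625) * x ^ 0 * y ^ 4 + (787934787/1562500) * x ^ 1 * y ^ 3 + (308441177/390625) * x ^ 2 * y ^ 2 + (1724165239/3125000) * x ^ 3 * y ^ 1 + (226784823/1562500) * x ^ 4 * y ^ 0 := by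
    rw [hxy]; ring
  rw [e2]
  positivity

theorem pol_p {x : ℝ} (h0 : 0 ≤ x) (h1 : x ≤ 1 / 4) : 0 ≤ (7141/25000000) + (56701/25000000) * x ^ 1 + (371077/20000000) * x ^ 2 + (-4426709/50000000) * x ^ 3 + (-317079/2500000) * x ^ 4 + (-27783/250000) * x ^ 5 := by
  obtain ⟨y, hy, hxy⟩ : ∃ y : ℝ, 0 ≤ y ∧ y = 1 / 4 - x := ⟨1 / 4 - x, by linarith, rfl⟩
  have e2 : (7141/25000000) + (56701/25000000) * x ^ 1 + (371077/20000000) * x ^ 2 + (-4426709/50000000) * x ^ 3 + (-317079/2500000) * x ^ 4 + (-27783/250000) * x ^ 5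
      = (114256/390625) * x ^ 0 * y ^ 5 + (798084/390625) * x ^ 1 * y ^ 4 + (10054489/1562500) * x ^ 2 * y ^ 3 + (26732673/3125000) * x ^ 3 * y ^ 2 + (2504293/625000) * x ^ 4 * y ^ 1 + (159717/6250000) * x ^ 5 * y ^ 0 := by
    rw [hxy]; ring
  rw [e2]
  positivity

theorem pol_K {x : ℝ} (h0 : 0 ≤ x) (h1 : x ≤ 1 / 4) : 0 ≤ (431/200000) + (1689/100000) * x ^ 1 + (-2001/5000) * x ^ 2 + (813/500) * x ^ 3 := by
  obtain ⟨y, hy, hxy⟩ : ∃ y : ℝ, 0 ≤ y ∧ y = 1 / 4 - x := ⟨1 / 4 - x, by linarith, rfl⟩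
  have e2 : (431/200000) + (1689/100000) * x ^ 1 + (-2001/5000) * x ^ 2 + (813/500) * x ^ 3
      = (27584/3125) * x ^ 0 * y ^ 6 + (219552/3125) * x ^ 1 * y ^ 5 + (72768/625) * x ^ 2 * y ^ 4 + (27344/625) * x ^ 3 * y ^ 3 + (1776/625) * x ^ 4 * y ^ 2 + (130704/3125) * x ^ 5 * y ^ 1 + (86672/3125) * x ^ 6 * y ^ 0 := by
    rw [hxy]; ring
  rw [e2]
  positivity

theorem pol_p1 {x : ℝ} (h0 : 0 ≤ x) (h1 : x ≤ 1 / 4) : 0 ≤ (1639/10000) + (-133/250) * x ^ 1 + (-7/50) * x ^ 2 := by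
  obtain ⟨y, hy, hxy⟩ : ∃ y : ℝ, 0 ≤ y ∧ y = 1 / 4 - x := ⟨1 / 4 - x, by linarith, rfl⟩
  have e2 : (1639/10000) + (-133/250) * x ^ 1 + (-7/50) * x ^ 2
      = (1639/625) * x ^ 0 * y ^ 2 + (1948/625) * x ^ 1 * y ^ 1 + (443/1250) * x ^ 2 * y ^ 0 := by
    rw [hxy]; ring
  rw [e2]
  positivity

theorem pol_S {x : ℝ} (h0 : 0 ≤ x) (h1 : x ≤ 2 / 5) : 0 ≤ (21547/6250000) + (-261967/12500000) * x ^ 1 + (184213/1250000) * x ^ 2 + (-562677/2500000) * x ^ 3 + (-8487/125000) * x ^ 4 + (-14283/500000) * x ^ 5 := by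
  obtain ⟨y, hy, hxy⟩ : ∃ y : ℝ, 0 ≤ y ∧ y = 2 / 5 - x := ⟨2 / 5 - x, by linarith, rfl⟩
  have e2 : (21547/6250000) + (-261967/12500000) * x ^ 1 + (184213/1250000) * x ^ 2 + (-562677/2500000) * x ^ 3 + (-8487/125000) * x ^ 4 + (-14283/500000) * x ^ 5
      = (21547/64000) * x ^ 0 * y ^ 5 + (69177/80000) * x ^ 1 * y ^ 4 + (383167/160000) * x ^ 2 * y ^ 3 + (1582453/400000) * x ^ 3 * y ^ 2 + (746763/320000) * x ^ 4 * y ^ 1 + (215689/1000000) * x ^ 5 * y ^ 0 := by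
    rw [hxy]; ring
  rw [e2]
  positivity

theorem pol_W {x : ℝ} (h0 : 0 ≤ x) (h1 : x ≤ 2 / 5) : 0 ≤ (83929/25000000) + (-1707547/200000000) * x ^ 1 + (1210251/20000000) * x ^ 2 + (-783739/8000000) * x ^ 3 + (-5299/200000) * x ^ 4 + (-147/20000) * x ^ 5 := by
  obtain ⟨y, hy, hxy⟩ : ∃ y : ℝ, 0 ≤ y ∧ y = 2 / 5 - x := ⟨2 / 5 - x, by linarith, rfl⟩
  have e2 : (83929/25000000) + (-1707547/200000000) * x ^ 1 + (1210251/20000000) * x ^ 2 + (-783739/8000000) * x ^ 3 + (-5299/200000) * x ^ 4 + (-147/20000) * x ^ 5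
      = (83929/256000) * x ^ 0 * y ^ 5 + (6685353/5120000) * x ^ 1 * y ^ 4 + (1849577/640000) * x ^ 2 * y ^ 3 + (8964287/2560000) * x ^ 3 * y ^ 2 + (2369169/1280000) * x ^ 4 * y ^ 1 + (1300313/5120000) * x ^ 5 * y ^ 0 := by
    rw [hxy]; ring
  rw [e2]
  positivity

theorem pol_i {x : ℝ} (h0 : 0 ≤ x) (h1 : x ≤ 2 / 5) : 0 ≤ (11/10) * x ^ 1 + (9/10) * x ^ 2 + (-4/5) * x ^ 3 := by
  obtain ⟨y, hy, hxy⟩ : ∃ y : ℝ, 0 ≤ y ∧ y = 2 / 5 - x := ⟨2 / 5 - x, by linarith, rfl⟩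
  have e2 : (11/10) * x ^ 1 + (9/10) * x ^ 2 + (-4/5) * x ^ 3
      = (55/8) * x ^ 1 * y ^ 2 + (16) * x ^ 2 * y ^ 1 + (333/40) * x ^ 3 * y ^ 0 := by
    rw [hxy]; ring
  rw [e2]
  positivity

theorem pol_j {x : ℝ} (h0 : 0 ≤ x) (h1 : x ≤ 2 / 5) : 0 ≤ (47/500) + (69/125) * x ^ 1 + (1127/400) * x ^ 2 + (-2491/400) * x ^ 3 + (-23013/2000) * x ^ 4 + (-4939/2000) * x ^ 5 := by
  obtain ⟨y, hy, hxy⟩ : ∃ y : ℝ, 0 ≤ y ∧ y = 2 / 5 - x := ⟨2 / 5 - x, by linarith, rfl⟩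
  have e2 : (47/500) + (69/125) * x ^ 1 + (1127/400) * x ^ 2 + (-2491/400) * x ^ 3 + (-23013/2000) * x ^ 4 + (-4939/2000) * x ^ 5
      = (1175/128) * x ^ 0 * y ^ 5 + (8635/128) * x ^ 1 * y ^ 4 + (28425/128) * x ^ 2 * y ^ 3 + (40233/128) * x ^ 3 * y ^ 2 + (126087/800) * x ^ 4 * y ^ 1 + (576/125) * x ^ 5 * y ^ 0 := by
    rw [hxy]; ring
  rw [e2]
  positivity

theorem numII {x : ℝ} (h0 : 0 ≤ x) (h1 : x ≤ 1 / 4) :
    NumOK x (qq x) (Kh x * Sh x) (pp x * Wh x) (435 / 10000 - 1 / 10 * x) (2445 / 10000 - 75 / 1000 * x) (118 / 1000 + 26 / 100 * x) := by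
  have d2m : 2 - x ≠ 0 := by linarith
  have d2m' : 0 < 2 - x := by linarith
  have d2p : 2 + x ≠ 0 := by positivity
  have d3p : 3 + x ≠ 0 := by positivity
  have d7m : 7 - x ≠ 0 := by linarith
  have d7m' : 0 < 7 - x := by linarith
  constructor
  · linarith
  · linarith
  · have h2 := pol_h3 h0 h1
    have e : (pp x * Wh x) - (118 / 1000 + 26 / 100 * x) = (47370797/100000000) + (6000407/20000000) * x ^ 1 + (274379/1000000) * x ^ 2 + (6797/100000) * x ^ 3 + (49/5000) * x ^ 4 := by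
      unfold pp Wh; ring
    linarith
  · linarith
  · have h2 := pol_h2 h0 h1
    have e : (pp x * Wh x) - (1 + x) / 2 = (9170797/100000000) + (1200407/20000000) * x ^ 1 + (274379/1000000) * x ^ 2 + (6797/100000) * x ^ 3 + (49/5000) * x ^ 4 := by
      unfold pp Wh; ring
    linarith
  · have h2 := pol_h1 h0 h1
    have e : (Kh x * Sh x) - 147 / 125 * (pp x * Wh x) = (14288707341/12500000000) + (1813582671/2500000000) * x ^ 1 + (-8493019/62500000) * x ^ 2 + (-1286459/12500000) * x ^ 3 + (-95481/1250000) * x ^ 4 := by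
      unfold pp Wh Kh Sh; ring
    linarith
  · have h2 := pol_a h0 h1
    have e : 1 + (1 - 2 * qq x) / (2 - x) - (Kh x * Sh x) / 2 - (pp x * Wh x) * (4 / 5 * (3 + 2 * x + x ^ 2) / (2 + x) ^ 2) - (435 / 10000 - 1 / 10 * x) = ((1001319/62500000) + (-18677797/125000000) * x ^ 1 + (2267969/3125000) * x ^ 2 + (513242489/250000000) * x ^ 3 + (71539909/50000000) * x ^ 4 + (4117899/10000000) * x ^ 5 + (-2747/125000) * x ^ 6 + (-2459/100000) * x ^ 7) / ((2 - x) * (2 + x) ^ 2) := by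
      simp only [pp, Kh, Sh, Wh, qq]
      field_simp
      ring
    have h3 : 0 ≤ 1 + (1 - 2 * qq x) / (2 - x) - (Kh x * Sh x) / 2 - (pp x * Wh x) * (4 / 5 * (3 + 2 * x + x ^ 2) / (2 + x) ^ 2) - (435 / 10000 - 1 / 10 * x) := by rw [e]; positivity
    linarith

  · have h2 := pol_b h0 h1
    have e : 1 + (1 - 2 * qq x) / (2 - x) - 5 / 12 * (Kh x * Sh x) - (pp x * Wh x) / 2 - (2445 / 10000 - 75 / 1000 * x) = ((2683773/100000000) + (642657/200000000) * x ^ 1 + (42198451/120000000) * x ^ 2 + (1994381/12000000) * x ^ 3 + (8239/120000) * x ^ 4 + (-177/8000) * x ^ 5) / (2 - x) := by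
      simp only [pp, Kh, Sh, Wh, qq]
      field_simp
      ring
    have h3 : 0 ≤ 1 + (1 - 2 * qq x) / (2 - x) - 5 / 12 * (Kh x * Sh x) - (pp x * Wh x) / 2 - (2445 / 10000 - 75 / 1000 * x) := by rw [e]; positivity
    linarith

  · have h2 := pol_c h0 h1
    have e : 1 + (1 - 2 * qq x) / (2 - x) - 35 / 96 * (Kh x * Sh x) - 681 / 1000 * (pp x * Wh x) - (2445 / 10000 - 75 / 1000 * x) = ((104905809/25000000000) + (-2201244769/50000000000) * x ^ 1 + (9031932623/30000000000) * x ^ 2 + (2149602133/12000000000) * x ^ 3 + (21556241/300000000) * x ^ 4 + (-678923/40000000) * x ^ 5) / (2 - x) := by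
      simp only [pp, Kh, Sh, Wh, qq]
      field_simp
      ring
    have h3 : 0 ≤ 1 + (1 - 2 * qq x) / (2 - x) - 35 / 96 * (Kh x * Sh x) - 681 / 1000 * (pp x * Wh x) - (2445 / 10000 - 75 / 1000 * x) := by rw [e]; positivity
    linarith

  · have h2 := pol_d h0 h1
    have e : 1 + (1 - 2 * qq x) / (2 - x) - 21 / 64 * ((Kh x * Sh x) - 147 / 125 * (pp x * Wh x)) - (pp x * Wh x) * ((4 - x) / (2 + x) ^ 2 + (1 + 2 * x) ^ 2 * (x + 4) / (2 * (2 + x) ^ 2 * (3 + x))) - (2445 / 10000 - 75 / 1000 * x) = ((24229121517/50000000000) + (416661343293/20000000000) * x ^ 1 + (2470556609211/200000000000) * x ^ 2 + (721521012743/80000000000) * x ^ 3 + (783906592209/100000000000) * x ^ 4 + (358242852691/80000000000) * x ^ 5 + (1083488763/1000000000) * x ^ 6 + (20681311/400000000) * x ^ 7 + (-437101/40000000) * x ^ 8) / ((2 - x) * (2 * (2 + x) ^ 2 * (3 + x))) := by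
      simp only [pp, Kh, Sh, Wh, qq]
      field_simp
      ring
    have h3 : 0 ≤ 1 + (1 - 2 * qq x) / (2 - x) - 21 / 64 * ((Kh x * Sh x) - 147 / 125 * (pp x * Wh x)) - (pp x * Wh x) * ((4 - x) / (2 + x) ^ 2 + (1 + 2 * x) ^ 2 * (x + 4) / (2 * (2 + x) ^ 2 * (3 + x))) - (2445 / 10000 - 75 / 1000 * x) := by rw [e]; positivity
    linarith

  · have h2 := pol_e h0 h1
    have e : 2 / 5 * (pp x * Wh x) * ((1 + 2 * x) * (x + 4) / (2 * (2 + x) ^ 2)) - (118 / 1000 + 26 / 100 * x) = ((170797/62500000) + (545313/250000000) * x ^ 1 + (153111509/250000000) * x ^ 2 + (25613317/25000000) * x ^ 3 + (149961/312500) * x ^ 4 + (11207/125000) * x ^ 5 + (49/6250) * x ^ 6) / (2 * (2 + x) ^ 2) := by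
      simp only [pp, Kh, Sh, Wh, qq]
      field_simp
      ring
    have h3 : 0 ≤ 2 / 5 * (pp x * Wh x) * ((1 + 2 * x) * (x + 4) / (2 * (2 + x) ^ 2)) - (118 / 1000 + 26 / 100 * x) := by rw [e]; positivity
    linarith

  · have h2 := pol_f h0 h1
    have e0 : (1 + x) / (2 * (2 + (2 / 3 * (1 - x)) / 2)) = 3 * (1 + x) / (2 * (7 - x)) := by
      have : 2 * (2 + (2 / 3 * (1 - x)) / 2) = 2 * (7 - x) / 3 := by ring
      rw [this]
      field_simp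
    rw [e0]
    have e : (435 / 10000 - 1 / 10 * x) + 3 * (1 + x) / (2 * (7 - x)) - ((pp x * Wh x) - (118 / 1000 + 26 / 100 * x)) / 2 = ((29304421/100000000) + (-1417931/12500000) * x ^ 1 + (-28412653/20000000) * x ^ 2 + (-201411/1000000) * x ^ 3 + (-63/100000) * x ^ 4 + (49/5000) * x ^ 5) / (2 * (7 - x)) := by
      simp only [pp, Kh, Sh, Wh, qq]
      field_simp
      ring
    have h3 : 0 ≤ (435 / 10000 - 1 / 10 * x) + 3 * (1 + x) / (2 * (7 - x)) - ((pp x * Wh x) - (118 / 1000 + 26 / 100 * x)) / 2 := by rw [e]; positivity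
    linarith

  · intro _
    have h2 := pol_g h0 h1
    have hq : 0 < 4 + (1 - x) ^ 2 := by positivity
    have e0 : (1 + x) * (3 / 4 * (1 - x)) ^ 2 / (2 + 2 / 3 * (1 - x) * (3 / 4 * (1 - x)))
        = 9 / 8 * (1 + x) * (1 - x) ^ 2 / (4 + (1 - x) ^ 2) := by
      have : 2 + 2 / 3 * (1 - x) * (3 / 4 * (1 - x)) = (4 + (1 - x) ^ 2) / 2 := by ring
      rw [this]
      field_simp
      ring
    rw [e0]
    have e : (435 / 10000 - 1 / 10 * x) / 2 + (2445 / 10000 - 75 / 1000 * x) * (3 / 4 * (1 - x) - 1 / 2)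
        - (pp x * Wh x) * (3 / 4 * (1 - x)) ^ 2 + (118 / 1000 + 26 / 100 * x) / 4
        + 9 / 8 * (1 + x) * (1 - x) ^ 2 / (4 + (1 - x) ^ 2)
        = ((7262827/320000000) + (213754501/1600000000) * x ^ 1 + (-21665149/32000000) * x ^ 2 + (533996871/800000000) * x ^ 3 + (-205898913/1600000000) * x ^ 4 + (-4428783/320000000) * x ^ 5 + (-904491/16000000) * x ^ 6 + (-25893/1600000) * x ^ 7 + (-441/80000) * x ^ 8) / (4 + (1 - x) ^ 2) := by
      unfold pp Wh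
      field_simp
      ring
    rw [e]
    positivity

end Pool.Agent.ConeG.Rad
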