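import Pool.Agent.Work.MP_b0b133_an.R.NearCore
import Pool.Agent.Work.MP_b0b133_an.R.NearNum

/-!
# Radial data, near region: the inequalities level by level
-/

set_option autoImplicit false
open scoped Real

namespace Pool.Agent.ConeG.Rad

theorem lev {base αh bh α b s sh e eh κ l : ℝ} (hα : α ≤ αh) (hαh : 0 ≤ αh) (hb : b ≤ bh)
    (hbh : 0 ≤ bh) (hs0 : 0 ≤ s) (hs : s ≤ sh) (he : eh ≤ e) (hκ : 12 / 5 * e ≤ κ)
    (hl : l ≤ base - αh * sh - bh * (κ - 12 / 5 * eh)) :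
    l ≤ base - α * s - b * (κ - 12 / 5 * e) := by
  have h1 : α * s ≤ αh * sh :=
    (mul_le_mul_of_nonneg_right hα hs0).trans (mul_le_mul_of_nonneg_left hs hαh)
  have h2 : b * (κ - 12 / 5 * e) ≤ bh * (κ - 12 / 5 * e) :=
    mul_le_mul_of_nonneg_right hb (by linarith)
  have h3 : bh * (κ - 12 / 5 * e) ≤ bh * (κ - 12 / 5 * eh) :=
    mul_le_mul_of_nonneg_left (by linarith) hbh
  linarith

theorem lev5 {base αh bh α b s e κ l : ℝ} (hα : α ≤ αh) (hb : b ≤ bh)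
    (hbh : 0 ≤ bh) (hs0 : 0 ≤ s) (hs : s ≤ 21 / 64) (he : 49 / 100 * s ≤ e)
    (hκ : 12 / 5 * e ≤ κ) (hab : 147 / 125 * bh ≤ αh)
    (hl : l ≤ base - 21 / 64 * (αh - 147 / 125 * bh) - bh * κ) :
    l ≤ base - α * s - b * (κ - 12 / 5 * e) := by
  have h1 : α * s ≤ αh * s := mul_le_mul_of_nonneg_right hα hs0
  have h2 : b * (κ - 12 / 5 * e) ≤ bh * (κ - 12 / 5 * e) :=
    mul_le_mul_of_nonneg_right hb (by linarith)
  have h3 : bh * (κ - 12 / 5 * e) ≤ bh * (κ - 12 / 5 * (49 / 100 * s)) :=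
    mul_le_mul_of_nonneg_left (by linarith) hbh
  have h4 : (αh - 147 / 125 * bh) * s ≤ (αh - 147 / 125 * bh) * (21 / 64) :=
    mul_le_mul_of_nonneg_left hs (by linarith)
  nlinarith

/-- the coefficients `κ_l = 2 kap + (1 - kap) c_l` in `x = 1/ν` -/
noncomputable def k2 (x : ℝ) : ℝ := 2 * (3 + 2 * x + x ^ 2) / (2 + x) ^ 2
noncomputable def k3 (x : ℝ) : ℝ := (5 + 2 * x + 2 * x ^ 2) / (2 + x) ^ 2
noncomputable def k4 (x : ℝ) : ℝ :=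
  (4 - x) / (2 + x) ^ 2 + (1 + 2 * x) * (x + 4) * (1 + x) / ((2 + x) ^ 2 * (3 + x))
noncomputable def k5 (x : ℝ) : ℝ :=
  (4 - x) / (2 + x) ^ 2 + (1 + 2 * x) ^ 2 * (x + 4) / (2 * (2 + x) ^ 2 * (3 + x))

noncomputable def ee2 (x : ℝ) : ℝ := (3 + 2 * x + x ^ 2) / (2 * (2 + x) ^ 2)
noncomputable def ee3 (x : ℝ) : ℝ := ee2 x * ((5 + 7 / 2 * x) / (6 * (1 + x)))
noncomputable def ee4 (x : ℝ) : ℝ := ee3 x * ((7 + 17 / 2 * x) / (4 * (2 + 3 * x)))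

theorem k3_e3 {x : ℝ} (h0 : 0 ≤ x) (h1 : x ≤ 2 / 5) : k3 x - 12 / 5 * ee3 x ≤ 1 / 2 := by
  have h := pol_i h0 h1
  have p1 : 2 + x ≠ 0 := by positivity
  have p2 : 1 + x ≠ 0 := by positivity
  have e : 1 / 2 - (k3 x - 12 / 5 * ee3 x)
      = (0 + (11/10) * x ^ 1 + (9/10) * x ^ 2 + (-4/5) * x ^ 3) / ((2 + x) ^ 2 * (1 + x)) := by
    unfold k3 ee3 ee2
    field_simp
    ring
  have h3 : 0 ≤ 1 / 2 - (k3 x - 12 / 5 * ee3 x) := by
    rw [e]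
    refine div_nonneg ?_ (by positivity)
    linarith
  linarith

theorem k4_e4 {x : ℝ} (h0 : 0 ≤ x) (h1 : x ≤ 2 / 5) : k4 x - 12 / 5 * ee4 x ≤ 681 / 1000 := by
  have h := pol_j h0 h1
  have p1 : 2 + x ≠ 0 := by positivity
  have p2 : 1 + x ≠ 0 := by positivity
  have p3 : 3 + x ≠ 0 := by positivity
  have p4 : 2 + 3 * x ≠ 0 := by positivity
  have e : 681 / 1000 - (k4 x - 12 / 5 * ee4 x)
      = ((47/500) + (69/125) * x ^ 1 + (1127/400) * x ^ 2 + (-2491/400) * x ^ 3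
        + (-23013/2000) * x ^ 4 + (-4939/2000) * x ^ 5)
        / ((2 + x) ^ 2 * (1 + x) * (2 + 3 * x) * (3 + x)) := by
    unfold k4 ee4 ee3 ee2
    field_simp
    ring
  have h3 : 0 ≤ 681 / 1000 - (k4 x - 12 / 5 * ee4 x) := by
    rw [e]
    exact div_nonneg h (by positivity)
  linarith

theorem k3_ge {x : ℝ} (h0 : 0 ≤ x) (h1 : x ≤ 2 / 5) : 3 / 4 ≤ k3 x := by
  unfold k3
  rw [div_le_div_iff₀ (by norm_num) (by positivity)]
  nlinarith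

theorem k5_ge {x : ℝ} (h0 : 0 ≤ x) (h1 : x ≤ 2 / 5) : 21 / 32 ≤ k5 x := by
  have p1 : 2 + x ≠ 0 := by positivity
  have p3 : 3 + x ≠ 0 := by positivity
  have e : k5 x - 21 / 32 = (2 * (4 - x) * (3 + x) + (1 + 2 * x) ^ 2 * (x + 4)
      - 21 / 16 * ((2 + x) ^ 2 * (3 + x))) / (2 * (2 + x) ^ 2 * (3 + x)) := by
    unfold k5
    field_simp
    ring
  have h3 : 0 ≤ k5 x - 21 / 32 := by
    rw [e]
    refine div_nonneg ?_ (by positivity)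
    nlinarith [mul_nonneg h0 h0, mul_nonneg (mul_nonneg h0 h0) h0]
  linarith

theorem k4_ge {x : ℝ} (h0 : 0 ≤ x) (h1 : x ≤ 2 / 5) : 21 / 32 ≤ k4 x := by
  have p1 : 2 + x ≠ 0 := by positivity
  have p3 : 3 + x ≠ 0 := by positivity
  have e : k4 x - 21 / 32 = ((4 - x) * (3 + x) + (1 + 2 * x) * (x + 4) * (1 + x)
      - 21 / 32 * ((2 + x) ^ 2 * (3 + x))) / ((2 + x) ^ 2 * (3 + x)) := by
    unfold k4
    field_simp
  have h3 : 0 ≤ k4 x - 21 / 32 := by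
    rw [e]
    refine div_nonneg ?_ (by positivity)
    nlinarith [mul_nonneg h0 h0, mul_nonneg (mul_nonneg h0 h0) h0]
  linarith

/-- the near inequality, levels and numbers -/
theorem near_alg {x q αh bh l2 l3 c : ℝ} (H : NumOK x q αh bh l2 l3 c) (hx0 : 0 < x)
    (hx1 : x ≤ 2 / 5) {α b : ℝ} (hα : α ≤ αh) (hb : b ≤ bh)
    {s e r : ℕ → ℝ} {M : ℕ} {ρ : ℝ}
    (hs0 : ∀ l, 0 ≤ s l) (hs2 : s 2 ≤ 1 / 2) (hs3 : s 3 ≤ 5 / 12) (hs4 : s 4 ≤ 35 / 96)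
    (hs5 : ∀ l, 5 ≤ l → s l ≤ 21 / 64)
    (he2 : e 2 = ee2 x) (he3 : ee3 x ≤ e 3) (he4 : ee4 x ≤ e 4)
    (he5 : ∀ l, 5 ≤ l → 49 / 100 * s l ≤ e l) (heu3 : e 3 ≤ 5 / 16)
    (heu4 : ∀ l, 4 ≤ l → e l ≤ 35 / 128) (hr : ∀ l, 0 ≤ r l) (hr2 : r 2 ≤ 1 / 2)
    (hρ : ρ = r 2 + r 3 + r 4 + ∑ n ∈ Finset.range M, r (n + 5))
    (hρR : ρ ≤ 3 / 4 * (1 - x)) (f : ℕ → ℝ)
    (hf : ∀ l, f l = (1 / x - 1 + q) * (2 / (2 - x)) + α * s l - 12 / 5 * b * e l) :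
    r 2 * f 2 + r 3 * f 3 + r 4 * f 4 + ∑ n ∈ Finset.range M, r (n + 5) * f (n + 5)
      + b * ((4 - x) / (2 * (2 + x) ^ 2) * (2 * ρ + ρ ^ 2)
        + (1 - (4 - x) / (2 * (2 + x) ^ 2)) * ((4 + 2 * x) / (4 + x) * r 2
          + (2 + 2 * x) / (4 + x) * r 3 + (2 + 2 * x) / (3 + x) * r 4
          + (1 + 2 * x) / (3 + x) * (ρ - r 2 - r 3 - r 4) + ρ ^ 2 - 2 / 5 * r 2 ^ 2))
      ≤ (1 / x + 1) * ρ + (1 + x) * ρ ^ 2 / (2 + 2 / 3 * (1 - x) * ρ) := by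
  have p2m : 2 - x ≠ 0 := by linarith
  have p2 : 2 + x ≠ 0 := by positivity
  have p3 : 3 + x ≠ 0 := by positivity
  have p4 : 4 + x ≠ 0 := by positivity
  have hbh : 0 ≤ bh := H.hc.trans H.hcb
  have hαh : 0 ≤ αh := by have := H.hα; linarith
  have hbase : (1 / x + 1) - (1 / x - 1 + q) * (2 / (2 - x)) = 1 + (1 - 2 * q) / (2 - x) := by
    field_simp
    ring
  set base := 1 + (1 - 2 * q) / (2 - x) with hbase_def
  -- level by level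
  have f2 : f 2 ≤ (1 / x + 1) - l2 - b * k2 x := by
    have hk : 12 / 5 * e 2 ≤ k2 x := by
      rw [he2]
      unfold ee2 k2
      have : (2 : ℝ) * (3 + 2 * x + x ^ 2) / (2 + x) ^ 2
        - 12 / 5 * ((3 + 2 * x + x ^ 2) / (2 * (2 + x) ^ 2))
        = 4 / 5 * (3 + 2 * x + x ^ 2) / (2 + x) ^ 2 := by
        field_simp
        ring
      have h3 : 0 ≤ 4 / 5 * (3 + 2 * x + x ^ 2) / (2 + x) ^ 2 := by positivity
      linarith
    have h := lev (base := base) (κ := k2 x) (l := l2) hα hαh hb hbh (hs0 2) hs2 he2.ge hk (by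
      have h2 := H.L2
      have e1 : k2 x - 12 / 5 * ee2 x = 4 / 5 * (3 + 2 * x + x ^ 2) / (2 + x) ^ 2 := by
        unfold ee2 k2
        field_simp
        ring
      rw [e1]
      linarith)
    rw [hf 2]
    linarith
  have f3 : f 3 ≤ (1 / x + 1) - l3 - b * k3 x := by
    have hk : 12 / 5 * e 3 ≤ k3 x := by
      have := k3_ge hx0.le hx1
      linarith
    have h := lev (base := base) (κ := k3 x) (l := l3) hα hαh hb hbh (hs0 3) hs3 he3 hk (by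
      have h2 := H.L3
      have h3 := mul_le_mul_of_nonneg_left (k3_e3 hx0.le hx1) hbh
      linarith)
    rw [hf 3]
    linarith
  have f4 : f 4 ≤ (1 / x + 1) - l3 - b * k4 x := by
    have hk : 12 / 5 * e 4 ≤ k4 x := by
      have := k4_ge hx0.le hx1
      have := heu4 4 le_rfl
      linarith
    have h := lev (base := base) (κ := k4 x) (l := l3) hα hαh hb hbh (hs0 4) hs4 he4 hk (by
      have h2 := H.L4
      have h3 := mul_le_mul_of_nonneg_left (k4_e4 hx0.le hx1) hbh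
      linarith)
    rw [hf 4]
    linarith
  have f5 : ∀ l, 5 ≤ l → f l ≤ (1 / x + 1) - l3 - b * k5 x := by
    intro l hl
    have hk : 12 / 5 * e l ≤ k5 x := by
      have := k5_ge hx0.le hx1
      have := heu4 l (by omega)
      linarith
    have h := lev5 (base := base) (κ := k5 x) (l := l3) hα hb hbh (hs0 l) (hs5 l hl) (he5 l hl)
      hk H.hα (by
        have h2 := H.L5
        have e1 : k5 x = (4 - x) / (2 + x) ^ 2
          + (1 + 2 * x) ^ 2 * (x + 4) / (2 * (2 + x) ^ 2 * (3 + x)) := rfl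
        rw [e1]
        linarith)
    rw [hf l]
    linarith
  set R5 := ∑ n ∈ Finset.range M, r (n + 5) with hR5
  have hR5' : ρ - r 2 - r 3 - r 4 = R5 := by rw [hρ]; ring
  have hsum5 : ∑ n ∈ Finset.range M, r (n + 5) * f (n + 5)
      ≤ R5 * ((1 / x + 1) - l3 - b * k5 x) := by
    rw [hR5, Finset.sum_mul]
    exact Finset.sum_le_sum fun n _ => mul_le_mul_of_nonneg_left (f5 _ (by omega)) (hr _)
  have g2 := mul_le_mul_of_nonneg_left f2 (hr 2)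
  have g3 := mul_le_mul_of_nonneg_left f3 (hr 3)
  have g4 := mul_le_mul_of_nonneg_left f4 (hr 4)
  -- the quartic part
  have hquart : (4 - x) / (2 * (2 + x) ^ 2) * (2 * ρ + ρ ^ 2)
        + (1 - (4 - x) / (2 * (2 + x) ^ 2)) * ((4 + 2 * x) / (4 + x) * r 2
          + (2 + 2 * x) / (4 + x) * r 3 + (2 + 2 * x) / (3 + x) * r 4
          + (1 + 2 * x) / (3 + x) * (ρ - r 2 - r 3 - r 4) + ρ ^ 2 - 2 / 5 * r 2 ^ 2)
      = k2 x * r 2 + k3 x * r 3 + k4 x * r 4 + k5 x * R5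
        + (ρ ^ 2 - 2 / 5 * ((1 + 2 * x) * (x + 4) / (2 * (2 + x) ^ 2)) * r 2 ^ 2) := by
    rw [← hR5']
    unfold k2 k3 k4 k5
    field_simp
    ring
  rw [hquart]
  have hR50 : 0 ≤ R5 := Finset.sum_nonneg fun n _ => hr _
  have hr2ρ : r 2 ≤ ρ := by
    have := hr 3
    have := hr 4
    linarith
  have hT : 0 ≤ ρ ^ 2 - 2 / 5 * ((1 + 2 * x) * (x + 4) / (2 * (2 + x) ^ 2)) * r 2 ^ 2 := by
    have h1 : (1 + 2 * x) * (x + 4) / (2 * (2 + x) ^ 2) ≤ 1 := by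
      rw [div_le_one (by positivity)]
      nlinarith
    have h2 : r 2 ^ 2 ≤ ρ ^ 2 := pow_le_pow_left₀ (hr 2) hr2ρ 2
    have h3 : 0 ≤ r 2 ^ 2 := sq_nonneg _
    have h4 : ((1 + 2 * x) * (x + 4) / (2 * (2 + x) ^ 2)) * r 2 ^ 2 ≤ 1 * r 2 ^ 2 :=
      mul_le_mul_of_nonneg_right h1 h3
    linarith
  have hbT := mul_le_mul_of_nonneg_right hb hT
  have hcr : c * r 2 ^ 2 ≤ 2 / 5 * bh * ((1 + 2 * x) * (x + 4) / (2 * (2 + x) ^ 2)) * r 2 ^ 2 :=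
    mul_le_mul_of_nonneg_right H.hce (sq_nonneg _)
  have hcore := core (x := x) (l2 := l2) (l3 := l3) (b := bh) (c := c) (R := 3 / 4 * (1 - x))
    (u := r 2) (r := ρ) hx0.le (by linarith) H.hl2 H.hc H.hcb H.h32 H.hb H.C1 H.C2 (hr 2) hr2
    hr2ρ hρR
  have e1 : r 3 + r 4 + R5 = ρ - r 2 := by linarith
  have e2 : l3 * (ρ - r 2) = l3 * r 3 + l3 * r 4 + l3 * R5 := by rw [← e1]; ring
  have e3 : (1 / x + 1) * ρ = (1 / x + 1) * r 2 + (1 / x + 1) * r 3 + (1 / x + 1) * r 4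
      + (1 / x + 1) * R5 := by rw [hρ]; ring
  rw [e3]
  rw [e2] at hcore
  have e4 : r 2 * (1 / x + 1 - l2 - b * k2 x) = (1 / x + 1) * r 2 - l2 * r 2 - b * k2 x * r 2 := by
    ring
  have e5 : r 3 * (1 / x + 1 - l3 - b * k3 x) = (1 / x + 1) * r 3 - l3 * r 3 - b * k3 x * r 3 := by
    ring
  have e6 : r 4 * (1 / x + 1 - l3 - b * k4 x) = (1 / x + 1) * r 4 - l3 * r 4 - b * k4 x * r 4 := by
    ring
  have e7 : R5 * (1 / x + 1 - l3 - b * k5 x) = (1 / x + 1) * R5 - l3 * R5 - b * k5 x * R5 := by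
    ring
  rw [e4] at g2
  rw [e5] at g3
  rw [e6] at g4
  rw [e7] at hsum5
  have e8 : b * (k2 x * r 2 + k3 x * r 3 + k4 x * r 4 + k5 x * R5
        + (ρ ^ 2 - 2 / 5 * ((1 + 2 * x) * (x + 4) / (2 * (2 + x) ^ 2)) * r 2 ^ 2))
      = b * k2 x * r 2 + b * k3 x * r 3 + b * k4 x * r 4 + b * k5 x * R5
        + b * (ρ ^ 2 - 2 / 5 * ((1 + 2 * x) * (x + 4) / (2 * (2 + x) ^ 2)) * r 2 ^ 2) := by ring
  rw [e8]
  have e9 : bh * (ρ ^ 2 - 2 / 5 * ((1 + 2 * x) * (x + 4) / (2 * (2 + x) ^ 2)) * r 2 ^ 2)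
      = bh * ρ ^ 2 - 2 / 5 * bh * ((1 + 2 * x) * (x + 4) / (2 * (2 + x) ^ 2)) * r 2 ^ 2 := by ring
  rw [e9] at hbT
  linarith

end Pool.Agent.ConeG.Rad
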