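import Mathlib

/-!
# Radial data, near region: the elementary inequality in `ρ₂` and `ρ`
-/

set_option autoImplicit false
open scoped Real

namespace Pool.Agent.ConeG.Rad

theorem core_one {x l2 b c k r : ℝ} (hx : 0 ≤ x) (hk : 0 ≤ k) (hl2 : 0 ≤ l2) (hcb : c ≤ b)
    (hr0 : 0 ≤ r) (hr1 : r ≤ 1 / 2)
    (hC1 : (b - c) / 2 ≤ l2 + (1 + x) / (2 * (2 + k / 2))) :
    0 ≤ l2 * r - (b - c) * r ^ 2 + (1 + x) * r ^ 2 / (2 + k * r) := by
  have hD : 0 < 2 + k * r := by positivity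
  have hD2 : 0 < 2 + k / 2 := by positivity
  have h1 : 0 ≤ (l2 - (b - c) / 2) * (2 + k / 2) + (1 + x) / 2 := by
    have e : (1 + x) / (2 * (2 + k / 2)) = ((1 + x) / 2) / (2 + k / 2) := by
      rw [div_div]
    rw [e] at hC1
    have h2 : (b - c) / 2 - l2 ≤ ((1 + x) / 2) / (2 + k / 2) := by linarith
    rw [le_div_iff₀ hD2] at h2
    linarith
  have e : l2 * r - (b - c) * r ^ 2 + (1 + x) * r ^ 2 / (2 + k * r)
      = r * ((l2 - (b - c) * r) * (2 + k * r) + (1 + x) * r) / (2 + k * r) := by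
    have := hD.ne'
    field_simp
  rw [e]
  refine div_nonneg (mul_nonneg hr0 ?_) hD.le
  have key : (l2 - (b - c) * r) * (2 + k * r) + (1 + x) * r
      = (1 - 2 * r) * (2 * l2) + 2 * r * ((l2 - (b - c) / 2) * (2 + k / 2) + (1 + x) / 2)
        + k * (b - c) * (r * (1 / 2 - r)) := by ring
  rw [key]
  have t1 : 0 ≤ (1 - 2 * r) * (2 * l2) := mul_nonneg (by linarith) (by linarith)
  have t2 : 0 ≤ 2 * r * ((l2 - (b - c) / 2) * (2 + k / 2) + (1 + x) / 2) :=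
    mul_nonneg (by linarith) h1
  have t3 : 0 ≤ k * (b - c) * (r * (1 / 2 - r)) :=
    mul_nonneg (mul_nonneg hk (by linarith)) (mul_nonneg hr0 (by linarith))
  linarith

theorem core_two {x l2 l3 b c k r R : ℝ} (hx : 0 ≤ x) (hk : 0 ≤ k) (hb : (1 + x) / 2 ≤ b)
    (hr0 : 1 / 2 ≤ r) (hr1 : r ≤ R) (hR : 1 / 2 < R)
    (h0 : 0 ≤ l2 / 2 - b / 4 + c / 4 + (1 + x) * (1 / 2) ^ 2 / (2 + k * (1 / 2)))
    (hC2 : 0 ≤ l2 / 2 + l3 * (R - 1 / 2) - b * R ^ 2 + c / 4 + (1 + x) * R ^ 2 / (2 + k * R)) :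
    0 ≤ l2 / 2 + l3 * (r - 1 / 2) - b * r ^ 2 + c / 4 + (1 + x) * r ^ 2 / (2 + k * r) := by
  have hr : 0 ≤ r := by linarith
  have hR' : 0 ≤ R := by linarith
  have hD : 0 < 2 + k * r := by positivity
  have hD0 : 0 < 2 + k * (1 / 2) := by positivity
  have hD1 : 0 < 2 + k * R := by positivity
  have hRR : 0 < R - 1 / 2 := by linarith
  set P := (2 + k * (1 / 2)) * (2 + k * R) * (2 + k * r) with hP
  have hP8 : 8 ≤ P := by
    have a1 : 2 ≤ 2 + k * (1 / 2) := by nlinarith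
    have a2 : 2 ≤ 2 + k * R := by nlinarith
    have a3 : 2 ≤ 2 + k * r := by nlinarith
    have a4 : 4 ≤ (2 + k * (1 / 2)) * (2 + k * R) := by nlinarith
    rw [hP]; nlinarith
  have hbP : 4 * (1 + x) / P ≤ b := by
    rw [div_le_iff₀ (by linarith)]
    nlinarith
  have key : (l2 / 2 + l3 * (r - 1 / 2) - b * r ^ 2 + c / 4 + (1 + x) * r ^ 2 / (2 + k * r))
        * (R - 1 / 2)
      = (R - r) * (l2 / 2 - b / 4 + c / 4 + (1 + x) * (1 / 2) ^ 2 / (2 + k * (1 / 2)))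
        + (r - 1 / 2) * (l2 / 2 + l3 * (R - 1 / 2) - b * R ^ 2 + c / 4
          + (1 + x) * R ^ 2 / (2 + k * R))
        + (R - 1 / 2) * ((r - 1 / 2) * (R - r)) * (b - 4 * (1 + x) / P) := by
    rw [hP]
    field_simp
    ring
  have t1 := mul_nonneg (by linarith : 0 ≤ R - r) h0
  have t2 := mul_nonneg (by linarith : 0 ≤ r - 1 / 2) hC2
  have t3 : 0 ≤ (R - 1 / 2) * ((r - 1 / 2) * (R - r)) * (b - 4 * (1 + x) / P) :=
    mul_nonneg (mul_nonneg hRR.le (mul_nonneg (by linarith) (by linarith))) (by linarith)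
  have t4 : 0 ≤ (l2 / 2 + l3 * (r - 1 / 2) - b * r ^ 2 + c / 4 + (1 + x) * r ^ 2 / (2 + k * r))
        * (R - 1 / 2) := by rw [key]; linarith
  exact nonneg_of_mul_nonneg_left t4 hRR

/-- the elementary inequality -/
theorem core {x l2 l3 b c R u r : ℝ} (hx0 : 0 ≤ x) (hx1 : x ≤ 1) (hl2 : 0 ≤ l2)
    (hc : 0 ≤ c) (hcb : c ≤ b) (h32 : l2 + c ≤ l3) (hb : (1 + x) / 2 ≤ b)
    (hC1 : (b - c) / 2 ≤ l2 + (1 + x) / (2 * (2 + (2 / 3 * (1 - x)) / 2)))
    (hC2 : 1 / 2 < R → 0 ≤ l2 / 2 + l3 * (R - 1 / 2) - b * R ^ 2 + c / 4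
      + (1 + x) * R ^ 2 / (2 + 2 / 3 * (1 - x) * R))
    (hu0 : 0 ≤ u) (hu1 : u ≤ 1 / 2) (hur : u ≤ r) (hrR : r ≤ R) :
    0 ≤ l2 * u + l3 * (r - u) + (1 + x) * r ^ 2 / (2 + 2 / 3 * (1 - x) * r) - b * r ^ 2
      + c * u ^ 2 := by
  have hk : 0 ≤ 2 / 3 * (1 - x) := by linarith
  have hr0 : 0 ≤ r := by linarith
  rcases le_total r (1 / 2) with h | h
  · have h1 := core_one (r := r) hx0 hk hl2 hcb hr0 h hC1
    have h2 : l2 * r + c * r ^ 2 ≤ l2 * u + l3 * (r - u) + c * u ^ 2 := by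
      have : c * (r ^ 2 - u ^ 2) ≤ c * (r - u) := by
        refine mul_le_mul_of_nonneg_left ?_ hc
        nlinarith
      have : (l2 + c) * (r - u) ≤ l3 * (r - u) :=
        mul_le_mul_of_nonneg_right h32 (by linarith)
      nlinarith
    linarith
  · have h3 : l2 / 2 + l3 * (r - 1 / 2) + c / 4 ≤ l2 * u + l3 * (r - u) + c * u ^ 2 := by
      have e1 : c * ((1 / 2) ^ 2 - u ^ 2) ≤ c * (1 / 2 - u) := by
        refine mul_le_mul_of_nonneg_left ?_ hc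
        nlinarith
      have : (l2 + c) * (1 / 2 - u) ≤ l3 * (1 / 2 - u) :=
        mul_le_mul_of_nonneg_right h32 (by linarith)
      nlinarith
    rcases eq_or_lt_of_le h with h4 | h4
    · subst h4
      have h1 := core_one (r := 1 / 2) hx0 hk hl2 hcb (by norm_num) le_rfl hC1
      have : c / 4 = c * (1 / 2) ^ 2 := by ring
      have : b * (1 / 2 : ℝ) ^ 2 = b / 4 := by ring
      nlinarith
    · have hR : 1 / 2 < R := by linarith
      have h0 : 0 ≤ l2 / 2 - b / 4 + c / 4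
          + (1 + x) * (1 / 2) ^ 2 / (2 + 2 / 3 * (1 - x) * (1 / 2)) := by
        have h1 := core_one (r := 1 / 2) hx0 hk hl2 hcb (by norm_num) le_rfl hC1
        have e1 : (b - c) * (1 / 2 : ℝ) ^ 2 = b / 4 - c / 4 := by ring
        rw [e1] at h1
        linarith
      have h5 := core_two hx0 hk hb h hrR hR h0 (hC2 hR)
      linarith

end Pool.Agent.ConeG.Rad
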