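import Pool.Agent.Work.MP_b0b133_an.R.FarConst

/-!
# Radial data, near region: sharp bounds for the Wallis integrals

`2π/(n + 1/2 + 1/(8n)) ≤ W_n² ≤ 2π/(n + 1/2)` and `J_a² ≤ 2π/(a + 1/2)` for half-integers `a`.
-/

set_option autoImplicit false
open scoped Real
open MeasureTheory Filter Topology

namespace Pool.Agent.ConeG.Rad

theorem Wa_upper_aux (a j : ℕ) : Wa a ^ 2 * ((a : ℝ) + 1 / 2)
    ≤ Wa (a + 2 * j) ^ 2 * (((a + 2 * j : ℕ) : ℝ) + 1 / 2) := by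
  induction j with
  | zero => simp
  | succ j ih =>
    refine ih.trans ?_
    have e : a + 2 * (j + 1) = a + 2 * j + 2 := by ring
    rw [e]
    generalize a + 2 * j = m
    rw [Wa_succ_succ m, mul_pow]
    have hm : (0 : ℝ) ≤ m := Nat.cast_nonneg m
    have h2 : (m : ℝ) + 1 / 2 ≤ (((m : ℝ) + 1) / (m + 2)) ^ 2 * (((m + 2 : ℕ) : ℝ) + 1 / 2) := by
      rw [div_pow, div_mul_eq_mul_div, le_div_iff₀ (by positivity)]
      push_cast
      nlinarith
    have hW := sq_nonneg (Wa m)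
    calc Wa m ^ 2 * ((m : ℝ) + 1 / 2) ≤ Wa m ^ 2 * ((((m : ℝ) + 1) / (m + 2)) ^ 2
          * (((m + 2 : ℕ) : ℝ) + 1 / 2)) := mul_le_mul_of_nonneg_left h2 hW
      _ = _ := by ring

theorem tendsto_aux (a : ℕ) (c : ℝ) : Tendsto (fun j : ℕ => c / (((a + 2 * j : ℕ) : ℝ) + 1))
    atTop (𝓝 0) := by
  refine Tendsto.div_atTop tendsto_const_nhds ?_
  refine tendsto_atTop_add_const_right _ _ ?_
  refine tendsto_natCast_atTop_atTop.comp ?_
  exact tendsto_atTop_mono (fun j => (by omega : j ≤ a + 2 * j)) tendsto_id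

theorem Wa_upper (a : ℕ) : Wa a ^ 2 * ((a : ℝ) + 1 / 2) ≤ 2 * π := by
  -- `W_a² ≤ W_{a-1} W_a = 2π/a` for `a ≥ 1`
  have h1 : ∀ m : ℕ, Wa (m + 1) ^ 2 * (((m + 1 : ℕ) : ℝ) + 1 / 2)
      ≤ 2 * π + π / ((m : ℝ) + 1) := by
    intro m
    have h2 : Wa (m + 1) ^ 2 ≤ 2 * π / (m + 1) := by
      rw [← Wa_mul, sq]
      exact mul_le_mul_of_nonneg_right (Wa_anti m) (Wa_pos _).le
    have h3 := mul_le_mul_of_nonneg_right h2 (by positivity : (0 : ℝ) ≤ ((m + 1 : ℕ) : ℝ) + 1 / 2)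
    refine h3.trans (le_of_eq ?_)
    push_cast
    field_simp
  have ht : Tendsto (fun j : ℕ => 2 * π + π / (((a + 1 + 2 * j : ℕ) : ℝ) + 1)) atTop
      (𝓝 (2 * π + 0)) := tendsto_const_nhds.add (tendsto_aux (a + 1) π)
  rw [add_zero] at ht
  refine ge_of_tendsto' ht fun j => ?_
  have h4 := Wa_upper_aux a (j + 1)
  refine h4.trans ?_
  have e : a + 2 * (j + 1) = (a + 1 + 2 * j) + 1 := by ring
  rw [e]
  exact h1 _

theorem Wa_lower_aux (a j : ℕ) (ha : 1 ≤ a) :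
    Wa (a + 2 * j) ^ 2 * (((a + 2 * j : ℕ) : ℝ) + 1 / 2 + 1 / (8 * ((a + 2 * j : ℕ) : ℝ)))
    ≤ Wa a ^ 2 * ((a : ℝ) + 1 / 2 + 1 / (8 * (a : ℝ))) := by
  induction j with
  | zero => simp
  | succ j ih =>
    refine le_trans ?_ ih
    have e : a + 2 * (j + 1) = a + 2 * j + 2 := by ring
    have hpos : 1 ≤ a + 2 * j := by omega
    rw [e]
    generalize a + 2 * j = m at hpos ⊢
    rw [Wa_succ_succ m, mul_pow]
    have hm : (1 : ℝ) ≤ m := by exact_mod_cast hpos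
    have hm0 : (0 : ℝ) < m := by linarith
    have h2 : (((m : ℝ) + 1) / (m + 2)) ^ 2 * (((m + 2 : ℕ) : ℝ) + 1 / 2
        + 1 / (8 * ((m + 2 : ℕ) : ℝ))) ≤ (m : ℝ) + 1 / 2 + 1 / (8 * m) := by
      push_cast
      have e1 : (m : ℝ) + 2 + 1 / 2 + 1 / (8 * ((m : ℝ) + 2))
          = (8 * m ^ 2 + 36 * m + 41) / (8 * (m + 2)) := by
        field_simp; ring
      have e2 : (m : ℝ) + 1 / 2 + 1 / (8 * m) = (8 * m ^ 2 + 4 * m + 1) / (8 * m) := by
        field_simp; ring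
      rw [e1, e2, div_pow, div_mul_div_comm, div_le_div_iff₀ (by positivity) (by positivity)]
      nlinarith [mul_pos hm0 hm0, mul_pos (mul_pos hm0 hm0) hm0,
        mul_pos (mul_pos hm0 hm0) (mul_pos hm0 hm0)]
    have hW := sq_nonneg (Wa m)
    calc (((m : ℝ) + 1) / (m + 2)) ^ 2 * Wa m ^ 2 * (((m + 2 : ℕ) : ℝ) + 1 / 2
          + 1 / (8 * ((m + 2 : ℕ) : ℝ)))
        = Wa m ^ 2 * ((((m : ℝ) + 1) / (m + 2)) ^ 2 * (((m + 2 : ℕ) : ℝ) + 1 / 2
          + 1 / (8 * ((m + 2 : ℕ) : ℝ)))) := by ring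
      _ ≤ Wa m ^ 2 * ((m : ℝ) + 1 / 2 + 1 / (8 * m)) := mul_le_mul_of_nonneg_left h2 hW

theorem Wa_lower (a : ℕ) (ha : 1 ≤ a) :
    2 * π ≤ Wa a ^ 2 * ((a : ℝ) + 1 / 2 + 1 / (8 * (a : ℝ))) := by
  have h1 : ∀ m : ℕ, 1 ≤ m → 2 * π - π / ((m : ℝ) + 1)
      ≤ Wa m ^ 2 * ((m : ℝ) + 1 / 2 + 1 / (8 * (m : ℝ))) := by
    intro m hm
    have hm' : (1 : ℝ) ≤ m := by exact_mod_cast hm
    have h2 : 2 * π / (m + 1) ≤ Wa m ^ 2 := by
      rw [← Wa_mul, sq]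
      exact mul_le_mul_of_nonneg_left (Wa_anti m) (Wa_pos _).le
    have h3 := mul_le_mul_of_nonneg_right h2 (by positivity : (0 : ℝ) ≤ (m : ℝ) + 1 / 2)
    have h4 : Wa m ^ 2 * ((m : ℝ) + 1 / 2) ≤ Wa m ^ 2 * ((m : ℝ) + 1 / 2 + 1 / (8 * (m : ℝ))) := by
      refine mul_le_mul_of_nonneg_left ?_ (sq_nonneg _)
      have : 0 < 1 / (8 * (m : ℝ)) := by positivity
      linarith
    refine le_trans (le_of_eq ?_) (h3.trans h4)
    field_simp
    ring
  have ht : Tendsto (fun j : ℕ => 2 * π - π / (((a + 2 * j : ℕ) : ℝ) + 1)) atTop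
      (𝓝 (2 * π - 0)) := tendsto_const_nhds.sub (tendsto_aux a π)
  rw [sub_zero] at ht
  refine le_of_tendsto' ht fun j => ?_
  exact (h1 _ (by omega)).trans (Wa_lower_aux a j ha)

/-- Cauchy–Schwarz for half-integer exponents -/
theorem J_half (m : ℕ) : (∫ g in (0 : ℝ)..π, Real.sin g ^ ((m : ℝ) + 1 / 2)) ^ 2
    ≤ Wa m * Wa (m + 1) := by
  set X := ∫ g in (0 : ℝ)..π, Real.sin g ^ ((m : ℝ) + 1 / 2) with hX
  have hc : Continuous fun g : ℝ => Real.sin g ^ ((m : ℝ) + 1 / 2) :=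
    Real.continuous_sin.rpow_const fun _ => Or.inr (by positivity)
  have key : ∀ t : ℝ, 0 < t → 2 * t * X ≤ t ^ 2 * Wa m + Wa (m + 1) := by
    intro t ht
    have h1 : 2 * t * X = ∫ g in (0 : ℝ)..π, 2 * t * Real.sin g ^ ((m : ℝ) + 1 / 2) := by
      rw [intervalIntegral.integral_const_mul]
    have h2 : t ^ 2 * Wa m + Wa (m + 1)
        = ∫ g in (0 : ℝ)..π, (t ^ 2 * Real.sin g ^ m + Real.sin g ^ (m + 1)) := by
      unfold Wa
      rw [intervalIntegral.integral_add (Continuous.intervalIntegrable (by fun_prop) _ _)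
        (Continuous.intervalIntegrable (by fun_prop) _ _), intervalIntegral.integral_const_mul]
    rw [h1, h2]
    refine intervalIntegral.integral_mono_on Real.pi_pos.le
      (Continuous.intervalIntegrable (by fun_prop) _ _)
      (Continuous.intervalIntegrable (by fun_prop) _ _) fun g hg => ?_
    have hs : 0 ≤ Real.sin g := Real.sin_nonneg_of_mem_Icc hg
    have e : Real.sin g ^ ((m : ℝ) + 1 / 2) = Real.sin g ^ m * Real.sqrt (Real.sin g) := by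
      rcases eq_or_lt_of_le hs with h0 | h0
      · rw [← h0, Real.sqrt_zero, mul_zero, Real.zero_rpow (by positivity)]
      · rw [Real.rpow_add h0, Real.rpow_natCast, Real.sqrt_eq_rpow]
    rw [e, pow_succ (Real.sin g) m]
    have h3 : Real.sqrt (Real.sin g) ^ 2 = Real.sin g := Real.sq_sqrt hs
    have h4 : 0 ≤ Real.sin g ^ m * (t - Real.sqrt (Real.sin g)) ^ 2 :=
      mul_nonneg (pow_nonneg hs _) (sq_nonneg _)
    have h5 : Real.sin g ^ m * (t - Real.sqrt (Real.sin g)) ^ 2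
        = t ^ 2 * Real.sin g ^ m - 2 * t * (Real.sin g ^ m * Real.sqrt (Real.sin g))
          + Real.sin g ^ m * Real.sqrt (Real.sin g) ^ 2 := by ring
    rw [h5, h3] at h4
    linarith
  have hX0 : 0 ≤ X := intervalIntegral.integral_nonneg Real.pi_pos.le fun g hg =>
    Real.rpow_nonneg (Real.sin_nonneg_of_mem_Icc hg) _
  rcases eq_or_lt_of_le hX0 with h0 | h0
  · rw [← h0]
    have := mul_pos (Wa_pos m) (Wa_pos (m + 1))
    simpa using this.le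
  · have h1 := key (X / Wa m) (div_pos h0 (Wa_pos m))
    have hW := Wa_pos m
    have e1 : 2 * (X / Wa m) * X = 2 * (X ^ 2 / Wa m) := by ring
    have e2 : (X / Wa m) ^ 2 * Wa m = X ^ 2 / Wa m := by field_simp
    rw [e1, e2] at h1
    have h2 : X ^ 2 / Wa m ≤ Wa (m + 1) := by linarith
    rw [div_le_iff₀ hW] at h2
    linarith

/-- the upper bound for `J (3ν - 2)`, `2ν = n` -/
theorem J_three (n : ℕ) (hn : 3 ≤ n) (ν : ℝ) (hν : ν = (n : ℝ) / 2) :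
    (∫ g in (0 : ℝ)..π, Real.sin g ^ (3 * ν - 2)) ^ 2 * (3 * ν - 3 / 2) ≤ 2 * π := by
  rcases Nat.even_or_odd' n with ⟨c, hc | hc⟩
  · -- `n = 2c`, exponent `3c - 2`
    obtain ⟨m, hm⟩ : ∃ m : ℕ, 3 * c = m + 2 := ⟨3 * c - 2, by omega⟩
    have e : 3 * ν - 2 = (m : ℝ) := by
      have : (3 * c : ℝ) = m + 2 := by exact_mod_cast hm
      rw [hν, hc]; push_cast; linarith
    have e2 : 3 * ν - 3 / 2 = (m : ℝ) + 1 / 2 := by linarith
    rw [e, e2]
    simp only [Real.rpow_natCast]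
    exact Wa_upper m
  · -- `n = 2c + 1`, exponent `3c - 1/2 = (3c - 1) + 1/2`
    obtain ⟨m, hm⟩ : ∃ m : ℕ, 3 * c = m + 1 := ⟨3 * c - 1, by omega⟩
    have e : 3 * ν - 2 = (m : ℝ) + 1 / 2 := by
      have : (3 * c : ℝ) = m + 1 := by exact_mod_cast hm
      rw [hν, hc]; push_cast; linarith
    have e2 : 3 * ν - 3 / 2 = (m : ℝ) + 1 := by linarith
    rw [e, e2]
    have h := J_half m
    rw [Wa_mul] at h
    have hp : (0 : ℝ) < (m : ℝ) + 1 := by positivity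
    rw [le_div_iff₀ hp] at h
    exact h

end Pool.Agent.ConeG.Rad
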