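import Mathlib

/-!
# A Pade-type lower bound for `(1 + r) ^ (1 + x)`
-/

set_option autoImplicit false

namespace Pool.Agent.ConeG.Rad

open Set

/-- a function with value `0` at `0` and nonnegative derivative is nonnegative -/
theorem pade_aux {f f' : ℝ → ℝ} (h : ∀ r, 0 ≤ r → HasDerivAt f (f' r) r)
    (h0 : f 0 = 0) (h1 : ∀ r, 0 ≤ r → 0 ≤ f' r) {r : ℝ} (hr : 0 ≤ r) : 0 ≤ f r := by
  have hm : MonotoneOn f (Ici 0) := by
    refine monotoneOn_of_deriv_nonneg (convex_Ici 0)
      (fun x hx => (h x hx).continuousAt.continuousWithinAt) ?_ ?_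
    · intro x hx
      rw [interior_Ici] at hx
      exact (h x hx.le).differentiableAt.differentiableWithinAt
    · intro x hx
      rw [interior_Ici] at hx
      rw [(h x hx.le).deriv]
      exact h1 x hx.le
  have := hm (mem_Ici.2 le_rfl) (mem_Ici.2 hr) hr
  rwa [h0] at this

theorem pade_bern {x r : ℝ} (hx0 : 0 ≤ x) (hx1 : x ≤ 1) (hr : 0 ≤ r) :
    8 / (2 + 2 / 3 * (1 - x) * r) ^ 3 ≤ (1 + r) ^ (x - 1) := by
  have h1 : (1 + r) ^ ((1 - x) / 3) ≤ 1 + (1 - x) / 3 * r :=
    rpow_one_add_le_one_add_mul_self (by linarith) (by linarith) (by linarith)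
  have h0 : 0 < (1 + r) ^ ((1 - x) / 3) := Real.rpow_pos_of_pos (by linarith) _
  have h2 : (1 + r) ^ (x - 1) = 1 / ((1 + r) ^ ((1 - x) / 3)) ^ 3 := by
    rw [← Real.rpow_natCast, ← Real.rpow_mul (by linarith), one_div, ← Real.rpow_neg (by linarith)]
    congr 1
    push_cast
    ring
  rw [h2]
  have h3 : 8 / (2 + 2 / 3 * (1 - x) * r) ^ 3 = 1 / (1 + (1 - x) / 3 * r) ^ 3 := by
    have e : 2 + 2 / 3 * (1 - x) * r = 2 * (1 + (1 - x) / 3 * r) := by ring
    rw [e, mul_pow]
    have : 0 < (1 + (1 - x) / 3 * r) ^ 3 := by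
      have : 0 ≤ (1 - x) / 3 * r := mul_nonneg (by linarith) hr
      positivity
    field_simp
    norm_num
  rw [h3]
  exact one_div_le_one_div_of_le (by positivity) (pow_le_pow_left₀ h0.le h1 3)

theorem one_add_rpow_ge {x r : ℝ} (hx0 : 0 ≤ x) (hx1 : x ≤ 1) (hr : 0 ≤ r) :
    1 + (1 + x) * r + x * (1 + x) * r ^ 2 / (2 + 2 / 3 * (1 - x) * r) ≤ (1 + r) ^ (1 + x) := by
  set c : ℝ := 2 / 3 * (1 - x) with hc
  have hc0 : 0 ≤ c := by rw [hc]; linarith
  have hden : ∀ r : ℝ, 0 ≤ r → 0 < 2 + c * r := fun r hr => by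
    have := mul_nonneg hc0 hr
    linarith
  -- first derivative
  have hh : ∀ r : ℝ, 0 ≤ r →
      0 ≤ (1 + r) ^ x - 1 - x * ((4 * r + c * r ^ 2) / (2 + c * r) ^ 2) := by
    intro r hr
    refine pade_aux (f := fun r => (1 + r) ^ x - 1 - x * ((4 * r + c * r ^ 2) / (2 + c * r) ^ 2))
      (f' := fun r => x * (1 + r) ^ (x - 1) - x * (8 / (2 + c * r) ^ 3)) ?_ ?_ ?_ hr
    · intro r hr
      have d := (hden r hr).ne'
      have e1 : HasDerivAt (fun r : ℝ => (1 + r) ^ x) (x * (1 + r) ^ (x - 1)) r := by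
        have := ((hasDerivAt_id r).const_add 1).rpow_const (p := x) (Or.inl (by
          simp only [id]
          linarith))
        simpa [mul_comm, mul_assoc] using this
      have e2 : HasDerivAt (fun r : ℝ => (4 * r + c * r ^ 2) / (2 + c * r) ^ 2)
          (8 / (2 + c * r) ^ 3) r := by
        have a1 : HasDerivAt (fun r : ℝ => 4 * r + c * r ^ 2) (4 + c * (2 * r)) r := by
          have t1 : HasDerivAt (fun r : ℝ => 4 * r) (4 * 1) r := (hasDerivAt_id r).const_mul 4
          have t2 : HasDerivAt (fun r : ℝ => r ^ 2) (↑(2 : ℕ) * r ^ (2 - 1)) r := hasDerivAt_pow 2 r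
          have t3 : HasDerivAt (fun r : ℝ => 4 * r + c * r ^ 2)
            (4 * 1 + c * (↑(2 : ℕ) * r ^ (2 - 1))) r := t1.add (t2.const_mul c)
          exact t3.congr_deriv (by norm_num)
        have a2 : HasDerivAt (fun r : ℝ => (2 + c * r) ^ 2) (2 * (2 + c * r) * c) r := by
          have t1 : HasDerivAt (fun r : ℝ => c * r) (c * 1) r := (hasDerivAt_id r).const_mul c
          have t2 : HasDerivAt (fun r : ℝ => 2 + c * r) (c * 1) r := t1.const_add 2
          have t3 : HasDerivAt (fun r : ℝ => (2 + c * r) ^ 2)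
            (↑(2 : ℕ) * (2 + c * r) ^ (2 - 1) * (c * 1)) r := t2.pow 2
          exact t3.congr_deriv (by norm_num)
        have a3 : HasDerivAt (fun r : ℝ => (4 * r + c * r ^ 2) / (2 + c * r) ^ 2) _ r :=
          a1.div a2 (pow_ne_zero 2 d)
        refine a3.congr_deriv ?_
        rw [div_eq_div_iff (pow_ne_zero 2 (pow_ne_zero 2 d)) (pow_ne_zero 3 d)]
        ring
      exact (e1.sub_const 1).sub (e2.const_mul x)
    · simp
    · intro r hr
      have := pade_bern hx0 hx1 hr
      have := mul_le_mul_of_nonneg_left this hx0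
      simp only [hc]
      linarith
  have key : 0 ≤ (1 + r) ^ (1 + x) - 1 - (1 + x) * r - x * (1 + x) * (r ^ 2 / (2 + c * r)) := by
    refine pade_aux
      (f := fun r => (1 + r) ^ (1 + x) - 1 - (1 + x) * r - x * (1 + x) * (r ^ 2 / (2 + c * r)))
      (f' := fun r => (1 + x) * ((1 + r) ^ x - 1 - x * ((4 * r + c * r ^ 2) / (2 + c * r) ^ 2)))
      ?_ ?_ ?_ hr
    · intro r hr
      have d := (hden r hr).ne'
      have e1 : HasDerivAt (fun r : ℝ => (1 + r) ^ (1 + x)) ((1 + x) * (1 + r) ^ x) r := by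
        have := ((hasDerivAt_id r).const_add 1).rpow_const (p := 1 + x) (Or.inl (by
          simp only [id]
          linarith))
        have e : 1 + x - 1 = x := by ring
        rw [e] at this
        simpa [mul_comm, mul_assoc] using this
      have e2 : HasDerivAt (fun r : ℝ => r ^ 2 / (2 + c * r))
          ((4 * r + c * r ^ 2) / (2 + c * r) ^ 2) r := by
        have a1 : HasDerivAt (fun r : ℝ => r ^ 2) (2 * r) r := by
          have t2 : HasDerivAt (fun r : ℝ => r ^ 2) (↑(2 : ℕ) * r ^ (2 - 1)) r := hasDerivAt_pow 2 r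
          exact t2.congr_deriv (by norm_num)
        have a2 : HasDerivAt (fun r : ℝ => 2 + c * r) c r := by
          have t1 : HasDerivAt (fun r : ℝ => c * r) (c * 1) r := (hasDerivAt_id r).const_mul c
          have t2 : HasDerivAt (fun r : ℝ => 2 + c * r) (c * 1) r := t1.const_add 2
          exact t2.congr_deriv (by ring)
        have a3 : HasDerivAt (fun r : ℝ => r ^ 2 / (2 + c * r)) _ r := a1.div a2 d
        refine a3.congr_deriv ?_
        rw [div_eq_div_iff (pow_ne_zero 2 d) (pow_ne_zero 2 d)]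
        ring
      have e3 : HasDerivAt (fun r : ℝ => (1 + x) * r) (1 + x) r := by
        have := (hasDerivAt_id r).const_mul (1 + x)
        simpa using this
      have e4 : HasDerivAt
        (fun r : ℝ => (1 + r) ^ (1 + x) - 1 - (1 + x) * r - x * (1 + x) * (r ^ 2 / (2 + c * r)))
        ((1 + x) * (1 + r) ^ x - (1 + x)
          - x * (1 + x) * ((4 * r + c * r ^ 2) / (2 + c * r) ^ 2)) r :=
        ((e1.sub_const 1).sub e3).sub (e2.const_mul (x * (1 + x)))
      exact e4.congr_deriv (by ring)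
    · simp
    · intro r hr
      exact mul_nonneg (by linarith) (hh r hr)
  have e : x * (1 + x) * r ^ 2 / (2 + c * r) = x * (1 + x) * (r ^ 2 / (2 + c * r)) := by
    rw [mul_div_assoc]
  rw [e]
  linarith

end Pool.Agent.ConeG.Rad
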