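import Pool.Agent.Work.MP_b0b133_an.R.Rec

/-!
# Radial data: bounds for the two moment sequences

`s n = TT ν (3ν-2) n` and `e n = TT ν (4ν-2) n`, for `ν ≥ 5/2`.
-/

set_option autoImplicit false
open Finset MeasureTheory
open scoped Real

namespace Pool.Agent.ConeRadial

theorem ss_one {ν : ℝ} (hν : 1 ≤ ν) : TT ν (3 * ν - 2) 1 = 2 / 3 := by
  have hν0 : 0 < ν := by linarith
  rw [recT_zero hν0 (by linarith)]
  rw [show (3 * ν - 2) / 2 + 1 = 3 * ν / 2 by ring]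
  field_simp

theorem recS {ν : ℝ} (hν : 1 ≤ ν) (n : ℕ) :
    ((n : ℝ) + 2) * ((n : ℝ) + 1 + 2 * ν) * ((n : ℝ) + 1 + 3 * ν / 2)
        * (TT ν (3 * ν - 2) (n + 1) - TT ν (3 * ν - 2) (n + 2))
      = ((n : ℝ) + 1) * ((n : ℝ) + 2 * ν) * ((n : ℝ) + 1 + ν / 2)
          * (TT ν (3 * ν - 2) n - TT ν (3 * ν - 2) (n + 1))
        + ν * ((n : ℝ) + 1 + ν) * TT ν (3 * ν - 2) (n + 1) := by
  have h := recD (show 0 < ν by linarith) (show 0 ≤ 3 * ν - 2 by linarith) n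
  rw [show (3 * ν - 2) / 2 + 1 = 3 * ν / 2 by ring] at h
  rw [h]
  ring

theorem ss_two {ν : ℝ} (hν : 1 ≤ ν) : TT ν (3 * ν - 2) 2 =
    (9 * ν ^ 2 + 10 * ν + 4) / (3 * (6 * ν ^ 2 + 7 * ν + 2)) := by
  have hν0 : 0 < ν := by linarith
  have h := recS hν 0
  rw [zero_add, zero_add, TT_zero (by linarith), ss_one hν] at h
  push_cast at h
  rw [eq_div_iff (by positivity)]
  linear_combination (-3 : ℝ) * h

theorem s2_le {ν : ℝ} (hν : 2 ≤ ν) : TT ν (3 * ν - 2) 2 ≤ 1 / 2 := by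
  rw [ss_two (by linarith), div_le_iff₀ (by positivity)]
  nlinarith

theorem recE {ν : ℝ} (hν : 1 ≤ ν) (n : ℕ) :
    ((n : ℝ) + 2) * ((n : ℝ) + 1 + 2 * ν) * ((n : ℝ) + 1 + 2 * ν)
        * (TT ν (4 * ν - 2) (n + 1) - TT ν (4 * ν - 2) (n + 2))
      = ((n : ℝ) + 1) * ((n : ℝ) + 2 * ν) * ((n : ℝ) + 1)
          * (TT ν (4 * ν - 2) n - TT ν (4 * ν - 2) (n + 1))
        + 2 * ν * ((n : ℝ) + 1 + ν) * TT ν (4 * ν - 2) (n + 1) := by
  have h := recD (show 0 < ν by linarith) (show 0 ≤ 4 * ν - 2 by linarith) n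
  rw [show (4 * ν - 2) / 2 + 1 = 2 * ν by ring] at h
  rw [h]
  ring

theorem ee_one {ν : ℝ} (hν : 1 ≤ ν) : TT ν (4 * ν - 2) 1 = 1 / 2 := by
  have hν0 : 0 < ν := by linarith
  rw [recT_zero hν0 (by linarith)]
  rw [show (4 * ν - 2) / 2 + 1 = 2 * ν by ring]
  field_simp

theorem ee_two {ν : ℝ} (hν : 1 ≤ ν) : TT ν (4 * ν - 2) 2 =
    (3 * ν ^ 2 + 2 * ν + 1) / (2 * (1 + 2 * ν) ^ 2) := by
  have hν0 : 0 < ν := by linarith
  have h := recE hν 0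
  rw [zero_add, zero_add, TT_zero (by linarith), ee_one hν] at h
  push_cast at h
  rw [eq_div_iff (by positivity)]
  linear_combination (-1 : ℝ) * h

/-- **(S1)** -/
theorem S1 {ν : ℝ} (hν : 2 ≤ ν) (n : ℕ) :
    (2 * (n : ℝ) + 4) * TT ν (3 * ν - 2) (n + 2) ≤
      (2 * (n : ℝ) + 3) * TT ν (3 * ν - 2) (n + 1) := by
  have hν0 : 0 < ν := by linarith
  induction n with
  | zero =>
    rw [zero_add, zero_add, ss_one (by linarith), ss_two (by linarith)]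
    push_cast
    rw [← mul_div_assoc, div_le_iff₀ (by positivity)]
    nlinarith
  | succ n ih =>
    have h := recS (show 1 ≤ ν by linarith) (n + 1)
    have hT := TT_nonneg hν0 (show 0 ≤ 3 * ν - 2 by linarith) (n + 2)
    push_cast at h ⊢
    rw [show n + 1 + 1 = n + 2 by ring, show n + 1 + 2 = n + 3 by ring] at *
    obtain ⟨m, hm, hm2⟩ : ∃ m : ℝ, m = (n : ℝ) + 2 ∧ 2 ≤ m :=
      ⟨_, rfl, by have : (0 : ℝ) ≤ n := Nat.cast_nonneg n; linarith⟩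
    have hn : (n : ℝ) = m - 2 := by linarith
    rw [hn] at h ih ⊢
    generalize TT ν (3 * ν - 2) (n + 1) = t1 at *
    generalize TT ν (3 * ν - 2) (n + 2) = t2 at *
    generalize TT ν (3 * ν - 2) (n + 3) = t3 at *
    have h1 : t2 ≤ (2 * m - 1) * (t1 - t2) := by linarith
    have h2 : 0 ≤ m * (m - 1 + 2 * ν) * (m + ν / 2) := by
      have : 0 ≤ m - 1 := by linarith
      positivity
    have h4 := mul_le_mul_of_nonneg_left h1 h2
    have h5 : 0 ≤ ((2 * ν - 1) * m ^ 2 + ν / 2 * m + ν ^ 2) * t2 := by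
      have : 0 ≤ 2 * ν - 1 := by linarith
      positivity
    have h6 : ((2 * m - 1) * ((m + 2 * ν) * (m + 3 * ν / 2))) * (2 * (m + 1) * (t2 - t3) - t2) =
        2 * (m * (m - 1 + 2 * ν) * (m + ν / 2) * ((2 * m - 1) * (t1 - t2)) -
          m * (m - 1 + 2 * ν) * (m + ν / 2) * t2) +
        ((2 * ν - 1) * m ^ 2 + ν / 2 * m + ν ^ 2) * t2 := by
      linear_combination (2 * (2 * m - 1)) * h
    have h7 : 0 < (2 * m - 1) * ((m + 2 * ν) * (m + 3 * ν / 2)) := by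
      have : 0 < 2 * m - 1 := by linarith
      positivity
    have h8 := nonneg_of_mul_nonneg_right (by rw [h6]; linarith) h7
    linarith

/-- **(S2)** -/
theorem S2 {ν : ℝ} (hν : 5 / 2 ≤ ν) (n : ℕ) :
    ((n : ℝ) + ν + 1 / 2) * TT ν (3 * ν - 2) (n + 1) ≤ ((n : ℝ) + 2) * ((n : ℝ) + 1 + 2 * ν) *
      (TT ν (3 * ν - 2) (n + 1) - TT ν (3 * ν - 2) (n + 2)) := by
  have hν0 : 0 < ν := by linarith
  induction n with
  | zero =>
    rw [zero_add, zero_add, ss_one (by linarith), ss_two (by linarith)]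
    push_cast
    have h1 : (2 : ℝ) / 3 - (9 * ν ^ 2 + 10 * ν + 4) / (3 * (6 * ν ^ 2 + 7 * ν + 2)) =
        ν * (4 + 3 * ν) / (3 * (6 * ν ^ 2 + 7 * ν + 2)) := by
      field_simp
      ring
    have h3 : (0 + 2) * (0 + 1 + 2 * ν) * (ν * (4 + 3 * ν) / (3 * (6 * ν ^ 2 + 7 * ν + 2))) =
        (2 * (1 + 2 * ν) * (ν * (4 + 3 * ν))) / (3 * (6 * ν ^ 2 + 7 * ν + 2)) := by ring
    rw [h1, h3, le_div_iff₀ (by positivity)]
    have h2 : 0 ≤ (ν - 5 / 2) := by linarith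
    nlinarith [mul_nonneg h2 h2, mul_nonneg (mul_nonneg h2 h2) h2]
  | succ n ih =>
    have h := recS (show 1 ≤ ν by linarith) (n + 1)
    have hT := TT_nonneg hν0 (show 0 ≤ 3 * ν - 2 by linarith) (n + 2)
    push_cast at h ⊢
    rw [show n + 1 + 1 = n + 2 by ring, show n + 1 + 2 = n + 3 by ring] at *
    obtain ⟨m, hm, hm2⟩ : ∃ m : ℝ, m = (n : ℝ) + 2 ∧ 2 ≤ m :=
      ⟨_, rfl, by have : (0 : ℝ) ≤ n := Nat.cast_nonneg n; linarith⟩
    have hn : (n : ℝ) = m - 2 := by linarith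
    rw [hn] at h ih ⊢
    generalize TT ν (3 * ν - 2) (n + 1) = t1 at *
    generalize TT ν (3 * ν - 2) (n + 2) = t2 at *
    generalize TT ν (3 * ν - 2) (n + 3) = t3 at *
    have hG : 0 < m * (m - 1 + 2 * ν) - (m + ν - 3 / 2) := by nlinarith
    have h1 : (m + ν - 3 / 2) * t2 ≤ (m * (m - 1 + 2 * ν) - (m + ν - 3 / 2)) * (t1 - t2) := by
      linarith
    have h2 : 0 ≤ m * (m - 1 + 2 * ν) * (m + ν / 2) := by
      have : 0 ≤ m - 1 := by linarith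
      positivity
    have h4 := mul_le_mul_of_nonneg_left h1 h2
    have h5' : 0 ≤ m ^ 2 * (ν / 2 - 1) + m * (2 * ν ^ 2 - 7 * ν / 2 + 3 / 4) +
        (ν ^ 3 / 2 - 3 * ν ^ 2 / 2 + 9 * ν / 8) := by
      have e1 : 0 ≤ ν / 2 - 1 := by linarith
      have e2 : 0 ≤ 2 * ν ^ 2 - 7 * ν / 2 + 3 / 4 := by nlinarith
      have e3 : 0 ≤ ν ^ 3 / 2 - 3 * ν ^ 2 / 2 + 9 * ν / 8 := by
        have : ν ^ 3 / 2 - 3 * ν ^ 2 / 2 + 9 * ν / 8 = ν / 2 * (ν - 3 / 2) ^ 2 := by ring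
        rw [this]
        positivity
      positivity
    have h5 := mul_nonneg h5' hT
    have h6 : ((m * (m - 1 + 2 * ν) - (m + ν - 3 / 2)) * (m + 3 * ν / 2)) *
        ((m + 1) * (m + 2 * ν) * (t2 - t3) - (m + ν - 1 / 2) * t2) =
        (m * (m - 1 + 2 * ν) * (m + ν / 2) *
          ((m * (m - 1 + 2 * ν) - (m + ν - 3 / 2)) * (t1 - t2)) -
          m * (m - 1 + 2 * ν) * (m + ν / 2) * ((m + ν - 3 / 2) * t2)) +
        (m ^ 2 * (ν / 2 - 1) + m * (2 * ν ^ 2 - 7 * ν / 2 + 3 / 4) +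
        (ν ^ 3 / 2 - 3 * ν ^ 2 / 2 + 9 * ν / 8)) * t2 := by
      linear_combination (m * (m - 1 + 2 * ν) - (m + ν - 3 / 2)) * h
    have h7 : 0 < (m * (m - 1 + 2 * ν) - (m + ν - 3 / 2)) * (m + 3 * ν / 2) := by
      positivity
    have h8 := nonneg_of_mul_nonneg_right (by rw [h6]; linarith) h7
    linarith

/-- **(E1)** -/
theorem E1 {ν : ℝ} (hν : 1 ≤ ν) (n : ℕ) :
    (2 * (n : ℝ) + 2) * TT ν (4 * ν - 2) (n + 1) ≤
      (2 * (n : ℝ) + 1) * TT ν (4 * ν - 2) n := by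
  have hν0 : 0 < ν := by linarith
  induction n with
  | zero =>
    rw [zero_add, ee_one hν, TT_zero (by linarith)]
    norm_num
  | succ n ih =>
    have h := recE hν n
    have hT := TT_nonneg hν0 (show 0 ≤ 4 * ν - 2 by linarith) (n + 1)
    push_cast at h ⊢
    rw [show n + 1 + 1 = n + 2 by ring]
    obtain ⟨m, hm, hm2⟩ : ∃ m : ℝ, m = (n : ℝ) + 1 ∧ 1 ≤ m :=
      ⟨_, rfl, by have : (0 : ℝ) ≤ n := Nat.cast_nonneg n; linarith⟩
    have hn : (n : ℝ) = m - 1 := by linarith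
    rw [hn] at h ih ⊢
    generalize TT ν (4 * ν - 2) n = t1 at *
    generalize TT ν (4 * ν - 2) (n + 1) = t2 at *
    generalize TT ν (4 * ν - 2) (n + 2) = t3 at *
    have h1 : t2 ≤ (2 * m - 1) * (t1 - t2) := by linarith
    have h2 : 0 ≤ m * (m - 1 + 2 * ν) * m := by
      have : 0 ≤ m - 1 := by linarith
      positivity
    have h4 := mul_le_mul_of_nonneg_left h1 h2
    have h5 : 0 ≤ ((4 * ν - 1) * m ^ 2) * t2 := by
      have : 0 ≤ 4 * ν - 1 := by linarith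
      positivity
    have h6 : ((2 * m - 1) * ((m + 2 * ν) * (m + 2 * ν))) * (2 * (m + 1) * (t2 - t3) - t2) =
        2 * (m * (m - 1 + 2 * ν) * m * ((2 * m - 1) * (t1 - t2)) -
          m * (m - 1 + 2 * ν) * m * t2) +
        ((4 * ν - 1) * m ^ 2) * t2 := by
      linear_combination (2 * (2 * m - 1)) * h
    have h7 : 0 < (2 * m - 1) * ((m + 2 * ν) * (m + 2 * ν)) := by
      have : 0 < 2 * m - 1 := by linarith
      positivity
    have h8 := nonneg_of_mul_nonneg_right (by rw [h6]; linarith) h7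
    linarith

/-- **(E2)** -/
theorem E2 {ν : ℝ} (hν : 5 / 2 ≤ ν) (n : ℕ) :
    ((n : ℝ) + 2) * ((n : ℝ) + 1 + 2 * ν) *
      (TT ν (4 * ν - 2) (n + 1) - TT ν (4 * ν - 2) (n + 2)) ≤
      ((n : ℝ) + ν + 3 / 2) * TT ν (4 * ν - 2) (n + 1) := by
  have hν0 : 0 < ν := by linarith
  induction n with
  | zero =>
    rw [zero_add, zero_add, ee_one (by linarith), ee_two (by linarith)]
    push_cast
    have h1 : (1 : ℝ) / 2 - (3 * ν ^ 2 + 2 * ν + 1) / (2 * (1 + 2 * ν) ^ 2) =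
        ν * (2 + ν) / (2 * (1 + 2 * ν) ^ 2) := by
      field_simp
      ring
    rw [h1, ← mul_div_assoc, div_le_iff₀ (by positivity)]
    have h2 : 0 ≤ (ν - 5 / 2) := by linarith
    nlinarith [mul_nonneg h2 h2, mul_nonneg (mul_nonneg h2 h2) h2]
  | succ n ih =>
    have h := recE (show 1 ≤ ν by linarith) (n + 1)
    have hT := TT_nonneg hν0 (show 0 ≤ 4 * ν - 2 by linarith) (n + 2)
    push_cast at h ⊢
    rw [show n + 1 + 1 = n + 2 by ring, show n + 1 + 2 = n + 3 by ring] at *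
    obtain ⟨m, hm, hm2⟩ : ∃ m : ℝ, m = (n : ℝ) + 2 ∧ 2 ≤ m :=
      ⟨_, rfl, by have : (0 : ℝ) ≤ n := Nat.cast_nonneg n; linarith⟩
    have hn : (n : ℝ) = m - 2 := by linarith
    rw [hn] at h ih ⊢
    generalize TT ν (4 * ν - 2) (n + 1) = t1 at *
    generalize TT ν (4 * ν - 2) (n + 2) = t2 at *
    generalize TT ν (4 * ν - 2) (n + 3) = t3 at *
    have hG : 0 < m * (m - 1 + 2 * ν) - (m + ν - 1 / 2) := by nlinarith
    have h1 : (m * (m - 1 + 2 * ν) - (m + ν - 1 / 2)) * (t1 - t2) ≤ (m + ν - 1 / 2) * t2 := by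
      linarith
    have h2 : 0 ≤ m * (m - 1 + 2 * ν) * m := by
      have : 0 ≤ m - 1 := by linarith
      positivity
    have h4 := mul_le_mul_of_nonneg_left h1 h2
    have h5' : 0 ≤ m ^ 2 * (ν - 1) + m * (ν ^ 2 - 2 * ν + 1 / 4) - ν ^ 2 + ν / 2 := by
      have e1 : 0 ≤ ν - 1 := by linarith
      have e2 : 0 ≤ (m - 2) * (ν ^ 2 - 2 * ν + 1 / 4) :=
        mul_nonneg (by linarith) (by nlinarith)
      nlinarith [mul_nonneg (mul_nonneg e1 (show 0 ≤ m - 2 by linarith))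
        (show 0 ≤ m + 2 by linarith)]
    have h5 := mul_nonneg h5' hT
    have h6 : ((m * (m - 1 + 2 * ν) - (m + ν - 1 / 2)) * (m + 2 * ν)) *
        ((m + ν + 1 / 2) * t2 - (m + 1) * (m + 2 * ν) * (t2 - t3)) =
        (m * (m - 1 + 2 * ν) * m * ((m + ν - 1 / 2) * t2) -
          m * (m - 1 + 2 * ν) * m * ((m * (m - 1 + 2 * ν) - (m + ν - 1 / 2)) * (t1 - t2))) +
        (m ^ 2 * (ν - 1) + m * (ν ^ 2 - 2 * ν + 1 / 4) - ν ^ 2 + ν / 2) * t2 := by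
      linear_combination (-(m * (m - 1 + 2 * ν) - (m + ν - 1 / 2))) * h
    have h7 : 0 < (m * (m - 1 + 2 * ν) - (m + ν - 1 / 2)) * (m + 2 * ν) := by
      positivity
    have h8 := nonneg_of_mul_nonneg_right (by rw [h6]; linarith) h7
    linarith

/-- the comparison of the two sequences, with the potential `(n+3/2)/(n+1/2)`. -/
theorem ER_aux {ν : ℝ} (hν : 5 / 2 ≤ ν) (n : ℕ) :
    (49 / 100 : ℝ) * ((n : ℝ) + 7 / 2) * TT ν (3 * ν - 2) (n + 2) ≤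
      ((n : ℝ) + 5 / 2) * TT ν (4 * ν - 2) (n + 2) := by
  have hν0 : 0 < ν := by linarith
  induction n with
  | zero =>
    rw [zero_add, ee_two (by linarith), ss_two (by linarith)]
    push_cast
    have e1 : (49 / 100 : ℝ) * (0 + 7 / 2) *
        ((9 * ν ^ 2 + 10 * ν + 4) / (3 * (6 * ν ^ 2 + 7 * ν + 2))) =
        ((343 / 200) * (9 * ν ^ 2 + 10 * ν + 4)) / (3 * (6 * ν ^ 2 + 7 * ν + 2)) := by ring
    have e2 : (0 + 5 / 2 : ℝ) * ((3 * ν ^ 2 + 2 * ν + 1) / (2 * (1 + 2 * ν) ^ 2)) =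
        ((5 / 2) * (3 * ν ^ 2 + 2 * ν + 1)) / (2 * (1 + 2 * ν) ^ 2) := by ring
    rw [e1, e2, div_le_div_iff₀ (by positivity) (by positivity)]
    have h2 : 0 ≤ (ν - 5 / 2) := by linarith
    nlinarith [mul_nonneg h2 h2, mul_nonneg (mul_nonneg h2 h2) h2,
      mul_nonneg (mul_nonneg h2 h2) (mul_nonneg h2 h2)]
  | succ n ih =>
    have hs := S2 hν (n + 1)
    have he := E2 hν (n + 1)
    have hT := TT_nonneg hν0 (show 0 ≤ 3 * ν - 2 by linarith) (n + 2)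
    have hT' := TT_nonneg hν0 (show 0 ≤ 4 * ν - 2 by linarith) (n + 2)
    push_cast at hs he ⊢
    rw [show n + 1 + 1 = n + 2 by ring, show n + 1 + 2 = n + 3 by ring] at *
    obtain ⟨k, hk, hk2⟩ : ∃ k : ℝ, k = (n : ℝ) + 2 ∧ 2 ≤ k :=
      ⟨_, rfl, by have : (0 : ℝ) ≤ n := Nat.cast_nonneg n; linarith⟩
    have hn : (n : ℝ) = k - 2 := by linarith
    rw [hn] at hs he ih ⊢
    generalize TT ν (3 * ν - 2) (n + 2) = s2 at *
    generalize TT ν (3 * ν - 2) (n + 3) = s3 at *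
    generalize TT ν (4 * ν - 2) (n + 2) = e2 at *
    generalize TT ν (4 * ν - 2) (n + 3) = e3 at *
    obtain ⟨P, hP⟩ : ∃ P : ℝ, P = (k + 1) * (k + 2 * ν) := ⟨_, rfl⟩
    obtain ⟨G, hG⟩ : ∃ G : ℝ, G = k ^ 2 + 2 * ν * k + ν + 1 / 2 := ⟨_, rfl⟩
    have hP0 : 0 < P := by rw [hP]; positivity
    have hG1 : (k + 3 / 2) ^ 2 ≤ G := by
      rw [hG]
      nlinarith
    have h1 : P * s3 ≤ G * s2 := by
      rw [hP, hG]
      linarith
    have h2 : (G - 1) * e2 ≤ P * e3 := by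
      rw [hP, hG]
      linarith
    have g1 : 0 ≤ G - 1 := by nlinarith
    have a1 := mul_le_mul_of_nonneg_left h2 (show 0 ≤ (k + 1 / 2) * (k + 3 / 2) by positivity)
    have a2 := mul_le_mul_of_nonneg_left ih (show 0 ≤ (k + 3 / 2) * (G - 1) by positivity)
    have a3 : 0 ≤ 49 / 100 * s2 * (G - (k + 3 / 2) ^ 2) :=
      mul_nonneg (by positivity) (by linarith)
    have a4 := mul_le_mul_of_nonneg_left h1
      (show 0 ≤ 49 / 100 * ((k + 1 / 2) * (k + 5 / 2)) by positivity)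
    have h7 : 0 < (k + 1 / 2) * P := by positivity
    have h8 : 0 ≤ ((k + 1 / 2) * P) * ((k + 3 / 2) * e3 - 49 / 100 * (k + 5 / 2) * s3) := by
      linarith
    have h9 := nonneg_of_mul_nonneg_right h8 h7
    linarith

/-- **(ER)** -/
theorem ER {ν : ℝ} (hν : 5 / 2 ≤ ν) (n : ℕ) (hn : 2 ≤ n) :
    (49 / 100 : ℝ) * TT ν (3 * ν - 2) n ≤ TT ν (4 * ν - 2) n := by
  obtain ⟨k, rfl⟩ := Nat.exists_eq_add_of_le' hn
  have h := ER_aux hν k
  have hT := TT_nonneg (show 0 < ν by linarith) (show 0 ≤ 3 * ν - 2 by linarith) (k + 2)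
  have hk : (0 : ℝ) ≤ k := Nat.cast_nonneg k
  have h8 : 0 ≤ ((k : ℝ) + 5 / 2) * (TT ν (4 * ν - 2) (k + 2) -
      49 / 100 * TT ν (3 * ν - 2) (k + 2)) := by
    linarith
  have h9 := nonneg_of_mul_nonneg_right h8 (by positivity)
  linarith

/-! ### the forms with an index `n ≥ 1` -/

theorem S1' {ν : ℝ} (hν : 2 ≤ ν) (n : ℕ) (hn : 1 ≤ n) :
    (2 * (n : ℝ) + 2) * TT ν (3 * ν - 2) (n + 1) ≤ (2 * (n : ℝ) + 1) * TT ν (3 * ν - 2) n := by
  obtain ⟨k, rfl⟩ := Nat.exists_eq_add_of_le' hn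
  have h := S1 hν k
  push_cast
  rw [show k + 1 + 1 = k + 2 by ring]
  linarith

theorem S2' {ν : ℝ} (hν : 5 / 2 ≤ ν) (n : ℕ) (hn : 1 ≤ n) :
    TT ν (3 * ν - 2) (n + 1) ≤
      (1 - ((n : ℝ) + ν - 1 / 2) / (((n : ℝ) + 1) * ((n : ℝ) + 2 * ν))) *
        TT ν (3 * ν - 2) n := by
  obtain ⟨k, rfl⟩ := Nat.exists_eq_add_of_le' hn
  have h := S2 hν k
  have hk : (0 : ℝ) ≤ k := Nat.cast_nonneg k
  push_cast
  rw [show k + 1 + 1 = k + 2 by ring]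
  have hP : 0 < ((k : ℝ) + 1 + 1) * ((k : ℝ) + 1 + 2 * ν) := by positivity
  have h1 : (1 - ((k : ℝ) + 1 + ν - 1 / 2) / (((k : ℝ) + 1 + 1) * ((k : ℝ) + 1 + 2 * ν))) *
        TT ν (3 * ν - 2) (k + 1) = ((((k : ℝ) + 1 + 1) * ((k : ℝ) + 1 + 2 * ν)
        - ((k : ℝ) + 1 + ν - 1 / 2)) * TT ν (3 * ν - 2) (k + 1)) /
        (((k : ℝ) + 1 + 1) * ((k : ℝ) + 1 + 2 * ν)) := by
    field_simp
  rw [h1, le_div_iff₀ hP]
  linarith

theorem E2' {ν : ℝ} (hν : 5 / 2 ≤ ν) (n : ℕ) (hn : 1 ≤ n) :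
    (1 - ((n : ℝ) + ν + 1 / 2) / (((n : ℝ) + 1) * ((n : ℝ) + 2 * ν))) *
      TT ν (4 * ν - 2) n ≤ TT ν (4 * ν - 2) (n + 1) := by
  obtain ⟨k, rfl⟩ := Nat.exists_eq_add_of_le' hn
  have h := E2 hν k
  have hk : (0 : ℝ) ≤ k := Nat.cast_nonneg k
  push_cast
  rw [show k + 1 + 1 = k + 2 by ring]
  have hP : 0 < ((k : ℝ) + 1 + 1) * ((k : ℝ) + 1 + 2 * ν) := by positivity
  have h1 : (1 - ((k : ℝ) + 1 + ν + 1 / 2) / (((k : ℝ) + 1 + 1) * ((k : ℝ) + 1 + 2 * ν))) *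
        TT ν (4 * ν - 2) (k + 1) = ((((k : ℝ) + 1 + 1) * ((k : ℝ) + 1 + 2 * ν)
        - ((k : ℝ) + 1 + ν + 1 / 2)) * TT ν (4 * ν - 2) (k + 1)) /
        (((k : ℝ) + 1 + 1) * ((k : ℝ) + 1 + 2 * ν)) := by
    field_simp
  rw [h1, div_le_iff₀ hP]
  linarith

end Pool.Agent.ConeRadial
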