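import Pool.Agent.Work.MP_b0b133_an.R.NearAlg
import Pool.Agent.Work.MP_b0b133_an.R.NearW
import Pool.Agent.Work.MP_b0b133_an.R.FarAlg2
import Pool.Agent.Work.MP_b0b133_an.R.Far
import Pool.Agent.Work.MP_b0b133_an.R.RecB
import Pool.Agent.Work.MP_b0b133_an.R.Near
import Pool.Agent.Work.MP_b0b133_an.R.Pade

/-!
# Radial data: the near region, from the pointwise certificate
-/

set_option autoImplicit false
open scoped Real
open MeasureTheory Filter Topology Complex Finset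

namespace Pool.Agent.ConeG.Rad

open Pool.Agent.ConeRadial (TT XX cst J Y kapN)

/-- `J(3ν-2)/J(2ν)` -/
noncomputable def S0 (ν : ℝ) : ℝ := cst (2 * ν) * XX ν (3 * ν - 2) 0
/-- `J(4ν-2)/J(2ν)` -/
noncomputable def W0 (ν : ℝ) : ℝ := cst (2 * ν) * XX ν (4 * ν - 2) 0

theorem int_two (k : ℕ) (ν : ℝ) (hν : ν = ((k : ℝ) + 2) / 2) :
    (∫ g in (0 : ℝ)..π, Real.sin g ^ (2 * ν)) = Wa (k + 2) := by
  unfold Wa
  have : 2 * ν = ((k + 2 : ℕ) : ℝ) := by rw [hν]; push_cast; ring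
  rw [this]
  simp only [Real.rpow_natCast]

theorem int_low (k : ℕ) (ν : ℝ) (hν : ν = ((k : ℝ) + 2) / 2) :
    (∫ g in (0 : ℝ)..π, Real.sin g ^ (2 * ν - 2)) = Wa k := by
  unfold Wa
  have : 2 * ν - 2 = (k : ℝ) := by rw [hν]; ring
  rw [this]
  simp only [Real.rpow_natCast]

theorem int_four (k : ℕ) (ν : ℝ) (hν : ν = ((k : ℝ) + 2) / 2) :
    (∫ g in (0 : ℝ)..π, Real.sin g ^ (4 * ν - 2)) = Wa (2 * k + 2) := by
  unfold Wa
  have : 4 * ν - 2 = ((2 * k + 2 : ℕ) : ℝ) := by rw [hν]; push_cast; ring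
  rw [this]
  simp only [Real.rpow_natCast]

theorem S0_nonneg {ν : ℝ} (hν : 1 ≤ ν) : 0 ≤ S0 ν := by
  unfold S0
  have h1 : 0 < ∫ g in (0 : ℝ)..π, Real.sin g ^ (2 * ν) :=
    Pool.Agent.ConeRadial.J_one_pos (by linarith)
  have h2 := Pool.Agent.ConeRadial.XX_nonneg ν (3 * ν - 2) 0
  unfold cst
  positivity

theorem W0_nonneg {ν : ℝ} (hν : 1 ≤ ν) : 0 ≤ W0 ν := by
  unfold W0
  have h1 : 0 < ∫ g in (0 : ℝ)..π, Real.sin g ^ (2 * ν) :=
    Pool.Agent.ConeRadial.J_one_pos (by linarith)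
  have h2 := Pool.Agent.ConeRadial.XX_nonneg ν (4 * ν - 2) 0
  unfold cst
  positivity

theorem S0_le (k : ℕ) (hk : 3 ≤ k) (ν : ℝ) (hν : ν = ((k : ℝ) + 2) / 2) : S0 ν ≤ Sh (1 / ν) := by
  have hk' : (3 : ℝ) ≤ k := by exact_mod_cast hk
  have hν0 : 5 / 2 ≤ ν := by rw [hν]; linarith
  have hW := Wa_pos (k + 2)
  have h3 := J_three (k + 2) (by omega) ν (by rw [hν]; push_cast; ring)
  have hlow := Wa_lower (k + 2) (by omega)
  have e2ν : ((k + 2 : ℕ) : ℝ) = 2 * ν := by rw [hν]; push_cast; ring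
  rw [e2ν] at hlow
  obtain ⟨x, hx0, hxν⟩ : ∃ x : ℝ, 0 < x ∧ ν = 1 / x := ⟨1 / ν, by positivity, by simp⟩
  have hxe : 1 / ν = x := by rw [hxν]; simp
  have hx1 : x ≤ 2 / 5 := by
    rw [← hxe, div_le_div_iff₀ (by linarith) (by norm_num)]
    linarith
  rw [hxe]
  have hp := pol_S hx0.le hx1
  set X := ∫ g in (0 : ℝ)..π, Real.sin g ^ (3 * ν - 2) with hX
  have hS : S0 ν = X / Wa (k + 2) := by
    unfold S0 cst
    rw [int_two k ν hν, Pool.Agent.ConeRadial.XX_zero, ← hX]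
    field_simp
  have hX0 : 0 ≤ X := intervalIntegral.integral_nonneg Real.pi_pos.le fun g hg =>
    Real.rpow_nonneg (Real.sin_nonneg_of_mem_Icc hg) _
  have hSh0 : 0 ≤ Sh x := by unfold Sh; positivity
  have h4 : X ^ 2 * (3 * ν - 3 / 2) ≤ Wa (k + 2) ^ 2 * (2 * ν + 1 / 2 + 1 / (8 * (2 * ν))) :=
    h3.trans hlow
  have h5 : 2 * ν + 1 / 2 + 1 / (8 * (2 * ν)) = (2 + x / 2 + x ^ 2 / 16) / x := by
    rw [hxν]; field_simp; ring
  have h6 : 3 * ν - 3 / 2 = (3 - 3 / 2 * x) / x := by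
    rw [hxν]; field_simp
  rw [h5, h6] at h4
  have h7 : X ^ 2 * (3 - 3 / 2 * x) ≤ Wa (k + 2) ^ 2 * (2 + x / 2 + x ^ 2 / 16) := by
    have e1 : X ^ 2 * ((3 - 3 / 2 * x) / x) = X ^ 2 * (3 - 3 / 2 * x) / x := by ring
    have e2 : Wa (k + 2) ^ 2 * ((2 + x / 2 + x ^ 2 / 16) / x)
        = Wa (k + 2) ^ 2 * (2 + x / 2 + x ^ 2 / 16) / x := by ring
    rw [e1, e2] at h4
    exact (div_le_div_iff_of_pos_right hx0).1 h4
  have h8 : 2 + x / 2 + x ^ 2 / 16 ≤ Sh x ^ 2 * (3 - 3 / 2 * x) := by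
    have : 0 ≤ Sh x ^ 2 * (3 - 3 / 2 * x) - (2 + x / 2 + x ^ 2 / 16) := by
      refine hp.trans (le_of_eq ?_)
      unfold Sh; ring
    linarith
  have h9 : X ^ 2 * (3 - 3 / 2 * x) ≤ (Sh x * Wa (k + 2)) ^ 2 * (3 - 3 / 2 * x) := by
    have := mul_le_mul_of_nonneg_left h8 (sq_nonneg (Wa (k + 2)))
    rw [mul_pow]
    linarith
  have h10 : 0 < 3 - 3 / 2 * x := by linarith
  have h11 : X ^ 2 ≤ (Sh x * Wa (k + 2)) ^ 2 := le_of_mul_le_mul_right h9 h10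
  rw [hS, div_le_iff₀ hW]
  exact le_of_sq_le_sq h11 (by positivity)

theorem W0_le (k : ℕ) (hk : 3 ≤ k) (ν : ℝ) (hν : ν = ((k : ℝ) + 2) / 2) : W0 ν ≤ Wh (1 / ν) := by
  have hk' : (3 : ℝ) ≤ k := by exact_mod_cast hk
  have hν0 : 5 / 2 ≤ ν := by rw [hν]; linarith
  have hW := Wa_pos (k + 2)
  have h3 := Wa_upper (2 * k + 2)
  have hlow := Wa_lower (k + 2) (by omega)
  have e2ν : ((k + 2 : ℕ) : ℝ) = 2 * ν := by rw [hν]; push_cast; ring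
  have e4ν : ((2 * k + 2 : ℕ) : ℝ) + 1 / 2 = 4 * ν - 3 / 2 := by rw [hν]; push_cast; ring
  rw [e2ν] at hlow
  rw [e4ν] at h3
  obtain ⟨x, hx0, hxν⟩ : ∃ x : ℝ, 0 < x ∧ ν = 1 / x := ⟨1 / ν, by positivity, by simp⟩
  have hxe : 1 / ν = x := by rw [hxν]; simp
  have hx1 : x ≤ 2 / 5 := by
    rw [← hxe, div_le_div_iff₀ (by linarith) (by norm_num)]
    linarith
  rw [hxe]
  have hp := pol_W hx0.le hx1
  have hS : W0 ν = Wa (2 * k + 2) / Wa (k + 2) := by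
    unfold W0 cst
    rw [int_two k ν hν, Pool.Agent.ConeRadial.XX_zero, int_four k ν hν]
    field_simp
  set X := Wa (2 * k + 2) with hX
  have hX0 : 0 ≤ X := (Wa_pos _).le
  have hSh0 : 0 ≤ Wh x := by unfold Wh; positivity
  have h4 : X ^ 2 * (4 * ν - 3 / 2) ≤ Wa (k + 2) ^ 2 * (2 * ν + 1 / 2 + 1 / (8 * (2 * ν))) :=
    h3.trans hlow
  have h5 : 2 * ν + 1 / 2 + 1 / (8 * (2 * ν)) = (2 + x / 2 + x ^ 2 / 16) / x := by
    rw [hxν]; field_simp; ring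
  have h6 : 4 * ν - 3 / 2 = (4 - 3 / 2 * x) / x := by
    rw [hxν]; field_simp
  rw [h5, h6] at h4
  have h7 : X ^ 2 * (4 - 3 / 2 * x) ≤ Wa (k + 2) ^ 2 * (2 + x / 2 + x ^ 2 / 16) := by
    have e1 : X ^ 2 * ((4 - 3 / 2 * x) / x) = X ^ 2 * (4 - 3 / 2 * x) / x := by ring
    have e2 : Wa (k + 2) ^ 2 * ((2 + x / 2 + x ^ 2 / 16) / x)
        = Wa (k + 2) ^ 2 * (2 + x / 2 + x ^ 2 / 16) / x := by ring
    rw [e1, e2] at h4
    exact (div_le_div_iff_of_pos_right hx0).1 h4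
  have h8 : 2 + x / 2 + x ^ 2 / 16 ≤ Wh x ^ 2 * (4 - 3 / 2 * x) := by
    have : 0 ≤ Wh x ^ 2 * (4 - 3 / 2 * x) - (2 + x / 2 + x ^ 2 / 16) := by
      refine hp.trans (le_of_eq ?_)
      unfold Wh; ring
    linarith
  have h9 : X ^ 2 * (4 - 3 / 2 * x) ≤ (Wh x * Wa (k + 2)) ^ 2 * (4 - 3 / 2 * x) := by
    have := mul_le_mul_of_nonneg_left h8 (sq_nonneg (Wa (k + 2)))
    rw [mul_pow]
    linarith
  have h10 : 0 < 4 - 3 / 2 * x := by linarith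
  have h11 : X ^ 2 ≤ (Wh x * Wa (k + 2)) ^ 2 := le_of_mul_le_mul_right h9 h10
  rw [hS, div_le_iff₀ hW]
  exact le_of_sq_le_sq h11 (by positivity)

/-- the levels of the near inequality -/
theorem near_level (k : ℕ) (hk : 3 ≤ k) (ν : ℝ) (hν : ν = ((k : ℝ) + 2) / 2) (A K1 b0 : ℝ)
    (q : ℝ) (hA : A = ν - 1 + q) (z : ℂ) (l : ℕ) :
    ‖z‖ ^ 2 * (cst (2 * ν) * (A * J (2 * ν - 2) (fun g => Y ν l g ^ 2)
        + K1 * J (3 * ν - 2) (fun g => Y ν l g ^ 2)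
        - (2 + 2 / 5) * b0 * J (4 * ν - 2) (fun g => Y ν l g ^ 2)))
      = (wt ν l * ‖z‖ ^ 2) * ((1 / (1 / ν) - 1 + q) * (2 / (2 - 1 / ν))
        + (K1 * S0 ν) * TT ν (3 * ν - 2) l - 12 / 5 * (b0 * W0 ν) * TT ν (4 * ν - 2) l) := by
  have hk' : (3 : ℝ) ≤ k := by exact_mod_cast hk
  have hν0 : 5 / 2 ≤ ν := by rw [hν]; linarith
  have hν1 : 0 < ν := by linarith
  have hc := (cf_pos hν1 l).ne'
  have hW := (Wa_pos (k + 2)).ne'
  have x3 := (Pool.Agent.ConeRadial.XX_zero_pos (ν := ν) (b := 3 * ν - 2) (by linarith)).ne'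
  have x4 := (Pool.Agent.ConeRadial.XX_zero_pos (ν := ν) (b := 4 * ν - 2) (by linarith)).ne'
  have hcst : cst (2 * ν) = (Wa (k + 2))⁻¹ := by unfold cst; rw [int_two k ν hν]
  have j1 : J (2 * ν - 2) (fun g => Y ν l g ^ 2) = Wa k * wt ν l := by
    have h := Pool.Agent.ConeRadial.J_Y_sq (by linarith : 1 ≤ ν) l
    unfold cst at h
    rw [int_low k ν hν] at h
    rw [← h]
    have := (Wa_pos k).ne'
    field_simp
  have j3 : cst (2 * ν) * J (3 * ν - 2) (fun g => Y ν l g ^ 2)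
      = S0 ν * TT ν (3 * ν - 2) l * wt ν l := by
    unfold S0 TT wt
    have : J (3 * ν - 2) (fun g => Y ν l g ^ 2) = XX ν (3 * ν - 2) l := rfl
    rw [this]
    generalize XX ν (3 * ν - 2) 0 = P0 at *
    generalize XX ν (3 * ν - 2) l = Pl at *
    field_simp
  have j4 : cst (2 * ν) * J (4 * ν - 2) (fun g => Y ν l g ^ 2)
      = W0 ν * TT ν (4 * ν - 2) l * wt ν l := by
    unfold W0 TT wt
    have : J (4 * ν - 2) (fun g => Y ν l g ^ 2) = XX ν (4 * ν - 2) l := rfl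
    rw [this]
    generalize XX ν (4 * ν - 2) 0 = P0 at *
    generalize XX ν (4 * ν - 2) l = Pl at *
    field_simp
  have j1' : cst (2 * ν) * J (2 * ν - 2) (fun g => Y ν l g ^ 2)
      = 2 / (2 - 1 / ν) * wt ν l := by
    rw [j1, hcst, Wa_succ_succ k]
    have hW0 := (Wa_pos k).ne'
    have e1 : 2 - 1 / ν = 2 * ((k : ℝ) + 1) / (k + 2) := by
      rw [hν]
      field_simp
      ring
    rw [e1]
    field_simp
  have e0 : 1 / (1 / ν) = ν := by simp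
  rw [e0, hA]
  calc ‖z‖ ^ 2 * (cst (2 * ν) * ((ν - 1 + q) * J (2 * ν - 2) (fun g => Y ν l g ^ 2)
        + K1 * J (3 * ν - 2) (fun g => Y ν l g ^ 2)
        - (2 + 2 / 5) * b0 * J (4 * ν - 2) (fun g => Y ν l g ^ 2)))
      = ‖z‖ ^ 2 * ((ν - 1 + q) * (cst (2 * ν) * J (2 * ν - 2) (fun g => Y ν l g ^ 2))
        + K1 * (cst (2 * ν) * J (3 * ν - 2) (fun g => Y ν l g ^ 2))
        - (2 + 2 / 5) * b0 * (cst (2 * ν) * J (4 * ν - 2) (fun g => Y ν l g ^ 2))) := by ring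
    _ = _ := by
      rw [j1', j3, j4]
      ring

theorem s_low {ν : ℝ} (hν : 5 / 2 ≤ ν) : TT ν (3 * ν - 2) 3 ≤ 5 / 12 ∧
    TT ν (3 * ν - 2) 4 ≤ 35 / 96 ∧ ∀ l, 5 ≤ l → TT ν (3 * ν - 2) l ≤ 21 / 64 := by
  have h2 := Pool.Agent.ConeRadial.s2_le (by linarith : 2 ≤ ν)
  have h3 := Pool.Agent.ConeRadial.S1' (by linarith : 2 ≤ ν) 2 (by norm_num)
  have h4 := Pool.Agent.ConeRadial.S1' (by linarith : 2 ≤ ν) 3 (by norm_num)
  have h5 := Pool.Agent.ConeRadial.S1' (by linarith : 2 ≤ ν) 4 (by norm_num)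
  norm_num at h3 h4 h5
  have a3 : TT ν (3 * ν - 2) 3 ≤ 5 / 12 := by linarith
  have a4 : TT ν (3 * ν - 2) 4 ≤ 35 / 96 := by linarith
  have a5 : TT ν (3 * ν - 2) 5 ≤ 21 / 64 := by linarith
  refine ⟨a3, a4, fun l hl => ?_⟩
  induction l, hl using Nat.le_induction with
  | base => exact a5
  | succ l _ ih =>
    refine le_trans ?_ ih
    exact Pool.Agent.ConeRadial.TT_anti (by linarith) (by linarith) (by linarith) (by linarith) l

theorem e_up {ν : ℝ} (hν : 5 / 2 ≤ ν) : TT ν (4 * ν - 2) 3 ≤ 5 / 16 ∧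
    ∀ l, 4 ≤ l → TT ν (4 * ν - 2) l ≤ 35 / 128 := by
  have h0 : TT ν (4 * ν - 2) 0 = 1 := Pool.Agent.ConeRadial.TT_zero (by linarith)
  have h1 := Pool.Agent.ConeRadial.E1 (by linarith : 1 ≤ ν) 0
  have h2 := Pool.Agent.ConeRadial.E1 (by linarith : 1 ≤ ν) 1
  have h3 := Pool.Agent.ConeRadial.E1 (by linarith : 1 ≤ ν) 2
  have h4 := Pool.Agent.ConeRadial.E1 (by linarith : 1 ≤ ν) 3
  norm_num at h1 h2 h3 h4
  have a3 : TT ν (4 * ν - 2) 3 ≤ 5 / 16 := by linarith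
  have a4 : TT ν (4 * ν - 2) 4 ≤ 35 / 128 := by linarith
  refine ⟨a3, fun l hl => ?_⟩
  induction l, hl using Nat.le_induction with
  | base => exact a4
  | succ l _ ih =>
    refine le_trans ?_ ih
    exact Pool.Agent.ConeRadial.TT_anti (by linarith) (by linarith) (by linarith) (by linarith) l

theorem e_low {ν : ℝ} (hν : 5 / 2 ≤ ν) : TT ν (4 * ν - 2) 2 = ee2 (1 / ν) ∧
    ee3 (1 / ν) ≤ TT ν (4 * ν - 2) 3 ∧ ee4 (1 / ν) ≤ TT ν (4 * ν - 2) 4 := by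
  have hν0 : 0 < ν := by linarith
  have h2 := Pool.Agent.ConeRadial.ee_two (by linarith : 1 ≤ ν)
  have h3 := Pool.Agent.ConeRadial.E2' hν 2 (by norm_num)
  have h4 := Pool.Agent.ConeRadial.E2' hν 3 (by norm_num)
  norm_num at h3 h4
  have a2 : TT ν (4 * ν - 2) 2 = ee2 (1 / ν) := by
    rw [h2]
    unfold ee2
    field_simp
    ring
  have a3 : ee3 (1 / ν) ≤ TT ν (4 * ν - 2) 3 := by
    refine le_trans (le_of_eq ?_) h3
    rw [a2]
    unfold ee3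
    rw [mul_comm]
    congr 1
    field_simp
    ring
  refine ⟨a2, a3, ?_⟩
  have hfac : 0 ≤ 1 - (3 + ν + 1 / 2) / (4 * (3 + 2 * ν)) := by
    rw [sub_nonneg, div_le_one (by positivity)]
    linarith
  refine le_trans ?_ ((mul_le_mul_of_nonneg_left a3 hfac).trans (le_trans (le_of_eq ?_) h4))
  · unfold ee4
    rw [mul_comm]
    refine le_of_eq ?_
    congr 1
    field_simp
    ring
  · norm_num

theorem kap2_x {x : ℝ} (hx : 0 < x) : kap2 (1 / x) = (4 - x) / (2 * (2 + x) ^ 2) :=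
  kap2_eq hx rfl

/-- the sum over the levels -/
theorem sum_levels (ν : ℝ) (N : ℕ) (hN : 1 ≤ N) (a : ℕ → ℂ) (h1 : a 1 = 0) (f : ℕ → ℝ) :
    ∑ l ∈ Ico 1 N, (wt ν l * ‖a l‖ ^ 2) * f l
      = rr ν N a 2 * f 2 + rr ν N a 3 * f 3 + rr ν N a 4 * f 4
        + ∑ n ∈ range (2 * N), rr ν N a (n + 5) * f (n + 5) := by
  have hr1 : rr ν N a 1 = 0 := by simp [rr, h1]
  have e1 : ∑ l ∈ Ico 1 N, (wt ν l * ‖a l‖ ^ 2) * f l = ∑ l ∈ Ico 1 N, rr ν N a l * f l := by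
    refine sum_congr rfl fun l hl => ?_
    have : l < N := (mem_Ico.1 hl).2
    simp [rr, this]
  have e2 : ∑ l ∈ Ico 1 N, rr ν N a l * f l = ∑ l ∈ Ico 1 (2 * N + 5), rr ν N a l * f l := by
    refine sum_subset (Ico_subset_Ico le_rfl (by omega)) fun l hl hl2 => ?_
    have h3 : ¬ l < N := by
      intro h
      exact hl2 (mem_Ico.2 ⟨(mem_Ico.1 hl).1, h⟩)
    simp [rr, h3]
  rw [e1, e2, sum_Ico_eq_sum_range]
  have e3 : 2 * N + 5 - 1 = 2 * N + 4 := by omega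
  rw [e3, sum_range_succ', sum_range_succ', sum_range_succ', sum_range_succ']
  have e4 : ∀ n, 1 + (n + 1 + 1 + 1 + 1) = n + 5 := fun n => by ring
  simp only [e4, zero_add, add_zero]
  rw [hr1]
  norm_num
  ring

/-- **The near region from the pointwise certificate.** -/
theorem rad_near_of (k : ℕ) (hk : 3 ≤ k) (ν : ℝ) (hν : ν = ((k : ℝ) + 2) / 2)
    {q αh bh l2 l3 c : ℝ} (H : NumOK (1 / ν) q αh bh l2 l3 c) {K1 b0 : ℝ}
    (hK : K1 * S0 ν ≤ αh) (hb : b0 * W0 ν ≤ bh) (hb0 : 0 ≤ b0)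
    (hk0 : ∀ s : ℝ, 0 < s → s ≤ 1 → 0 ≤ kapN ν (ν - 1 + q) K1 (2 / 5) b0 s)
    (hin : ∀ s : ℝ, 0 < s → s ≤ 1 → ∀ u : ℝ, 0 < u → ν * (u * (u ^ (1 / ν) - 1)) ≤
      (1 + kapN ν (ν - 1 + q) K1 (2 / 5) b0 s) * (u - 1) + b0 * s ^ (2 * ν - 2) * (u - 1) ^ 2
        - kapN ν (ν - 1 + q) K1 (2 / 5) b0 s * Real.log u)
    (N : ℕ) (hN : 1 ≤ N) (a : ℕ → ℂ) (h0 : a 0 = 1) (h1 : a 1 = 0) (h2 : ‖a 2‖ ≤ ν)
    (hE : E ν N a ≤ 7 / 4 - 3 / 4 * (1 / ν)) : V ν N a ≤ E ν N a ^ (1 + 1 / ν) := by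
  have hk' : (3 : ℝ) ≤ k := by exact_mod_cast hk
  have hν0 : 5 / 2 ≤ ν := by rw [hν]; linarith
  have hν1 : 0 < ν := by linarith
  have hnear := Pool.Agent.ConeRadial.near (by linarith : 1 ≤ ν) hN h0 hk0 hin
  obtain ⟨x, hx0, hxν⟩ : ∃ x : ℝ, 0 < x ∧ ν = 1 / x := ⟨1 / ν, by positivity, by simp⟩
  have hxe : 1 / ν = x := by rw [hxν]; simp
  have hx1 : x ≤ 2 / 5 := by
    rw [← hxe, div_le_div_iff₀ (by linarith) (by norm_num)]
    linarith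
  set r := rr ν N a with hr
  set f : ℕ → ℝ := fun l => (1 / x - 1 + q) * (2 / (2 - x)) + (K1 * S0 ν) * TT ν (3 * ν - 2) l
    - 12 / 5 * (b0 * W0 ν) * TT ν (4 * ν - 2) l with hf
  -- the sum over the levels
  have hsum : ∑ l ∈ Ico 1 N, ‖a l‖ ^ 2 * (cst (2 * ν) * ((ν - 1 + q) *
        J (2 * ν - 2) (fun g => Y ν l g ^ 2) + K1 * J (3 * ν - 2) (fun g => Y ν l g ^ 2)
        - (2 + 2 / 5) * b0 * J (4 * ν - 2) (fun g => Y ν l g ^ 2)))
      = r 2 * f 2 + r 3 * f 3 + r 4 * f 4 + ∑ n ∈ range (2 * N), r (n + 5) * f (n + 5) := by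
    rw [← sum_levels ν N hN a h1 f]
    refine sum_congr rfl fun l _ => ?_
    rw [near_level k hk ν hν (ν - 1 + q) K1 b0 q rfl (a l) l, hxe]
  rw [hsum] at hnear
  -- the quartic term
  have hJ4 : 0 < ∫ g in (0 : ℝ)..π, Real.sin g ^ (4 * ν - 2) :=
    Pool.Agent.ConeRadial.J_one_pos (by linarith)
  have hM2 := M2_le (by linarith : 1 < ν) hJ4 N a
  have hA0 := A0_le2 (by linarith : 1 / 2 ≤ ν) N hN a h0 h1
  set ρ := E ν N a - 1 with hρdef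
  have hEρ : E ν N a = 1 + ρ := by rw [hρdef]; ring
  have hcst : 0 ≤ cst (2 * ν) := by
    unfold cst
    exact inv_nonneg.2 (Pool.Agent.ConeRadial.J_one_pos (by linarith)).le
  have hkap : kap2 ν = (4 - x) / (2 * (2 + x) ^ 2) := kap2_eq hx0 hxν
  have hkap1 : 0 ≤ 1 - kap2 ν := by
    rw [hkap, sub_nonneg, div_le_one (by positivity)]
    nlinarith
  have hquart : cst (2 * ν) * (((2 * π)⁻¹ * ∫ T in (0 : ℝ)..(2 * π), ∫ g in (0 : ℝ)..π,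
          ‖F ν N a T g‖ ^ 4 * Real.sin g ^ (4 * ν - 2))
          - ∫ g in (0 : ℝ)..π, Real.sin g ^ (4 * ν - 2))
      ≤ W0 ν * (kap2 ν * (2 * ρ + ρ ^ 2) + (1 - kap2 ν) * (A0 ν N a - 1)) := by
    have h3 : (2 * π)⁻¹ * ∫ T in (0 : ℝ)..(2 * π), ∫ g in (0 : ℝ)..π,
          ‖F ν N a T g‖ ^ 4 * Real.sin g ^ (4 * ν - 2) = M2 ν N a := rfl
    rw [h3]
    have h4 : M2 ν N a - ∫ g in (0 : ℝ)..π, Real.sin g ^ (4 * ν - 2)
        ≤ (∫ g in (0 : ℝ)..π, Real.sin g ^ (4 * ν - 2))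
          * (kap2 ν * (2 * ρ + ρ ^ 2) + (1 - kap2 ν) * (A0 ν N a - 1)) := by
      have e5 : kap2 ν * E ν N a ^ 2 + (1 - kap2 ν) * A0 ν N a
          = 1 + (kap2 ν * (2 * ρ + ρ ^ 2) + (1 - kap2 ν) * (A0 ν N a - 1)) := by
        rw [hEρ]; ring
      rw [e5] at hM2
      linarith
    refine (mul_le_mul_of_nonneg_left h4 hcst).trans (le_of_eq ?_)
    unfold W0
    rw [Pool.Agent.ConeRadial.XX_zero]
    ring
  have hW0 := W0_nonneg (by linarith : 1 ≤ ν)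
  have hA0' : A0 ν N a - 1 ≤ (4 + 2 * x) / (4 + x) * r 2
          + (2 + 2 * x) / (4 + x) * r 3 + (2 + 2 * x) / (3 + x) * r 4
          + (1 + 2 * x) / (3 + x) * (ρ - r 2 - r 3 - r 4) + ρ ^ 2 - 2 / 5 * r 2 ^ 2 := by
    have e1 : (4 * ν + 2) / (4 * ν + 1) = (4 + 2 * x) / (4 + x) := by rw [hxν]; field_simp
    have e2 : (2 * ν + 2) / (4 * ν + 1) = (2 + 2 * x) / (4 + x) := by rw [hxν]; field_simp
    have e3 : (2 * ν + 2) / (3 * ν + 1) = (2 + 2 * x) / (3 + x) := by rw [hxν]; field_simp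
    have e4 : (ν + 2) / (3 * ν + 1) = (1 + 2 * x) / (3 + x) := by rw [hxν]; field_simp
    rw [e1, e2, e3, e4] at hA0
    linarith
  have hquart2 : b0 * (cst (2 * ν) * (((2 * π)⁻¹ * ∫ T in (0 : ℝ)..(2 * π), ∫ g in (0 : ℝ)..π,
          ‖F ν N a T g‖ ^ 4 * Real.sin g ^ (4 * ν - 2))
          - ∫ g in (0 : ℝ)..π, Real.sin g ^ (4 * ν - 2)))
      ≤ (b0 * W0 ν) * ((4 - x) / (2 * (2 + x) ^ 2) * (2 * ρ + ρ ^ 2)
        + (1 - (4 - x) / (2 * (2 + x) ^ 2)) * ((4 + 2 * x) / (4 + x) * r 2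
          + (2 + 2 * x) / (4 + x) * r 3 + (2 + 2 * x) / (3 + x) * r 4
          + (1 + 2 * x) / (3 + x) * (ρ - r 2 - r 3 - r 4) + ρ ^ 2 - 2 / 5 * r 2 ^ 2)) := by
    refine (mul_le_mul_of_nonneg_left hquart hb0).trans ?_
    rw [← mul_assoc, ← hkap]
    refine mul_le_mul_of_nonneg_left ?_ (mul_nonneg hb0 hW0)
    have := mul_le_mul_of_nonneg_left hA0' hkap1
    linarith
  -- `ρ` is the sum of the levels
  have hρsum : ρ = r 2 + r 3 + r 4 + ∑ n ∈ range (2 * N), r (n + 5) := by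
    have h5 : E ν N a = ∑ n ∈ range (2 * N), r (n + 5) + r 4 + r 3 + r 2 + 1 := by
      rw [E_eq_rr ν N (2 * N + 5) (by omega) a, sum_range_succ', sum_range_succ',
        sum_range_succ', sum_range_succ', sum_range_succ']
      simp only [zero_add]
      have hr1 : rr ν N a 1 = 0 := by simp [rr, h1]
      have hr0 : rr ν N a 0 = 1 := by
        have : 0 < N := hN
        simp [rr, h0, this, wt, cf_zero]
      rw [hr1, hr0]
      ring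
    rw [hρdef, h5]
    ring
  have hr2 : r 2 ≤ 1 / 2 := by
    have hb2 : ‖(if 2 < N then a 2 else 0)‖ ≤ ν := by
      split_ifs
      · exact h2
      · simpa using hν1.le
    have hw : wt ν 2 = 1 / (ν * (2 * ν + 1)) := by
      simp only [wt, cf, prod_range_succ, prod_range_zero]
      push_cast
      field_simp
      ring
    have h3 : ‖(if 2 < N then a 2 else 0)‖ ^ 2 ≤ ν ^ 2 := pow_le_pow_left₀ (norm_nonneg _) hb2 2
    have h4 : r 2 ≤ 1 / (ν * (2 * ν + 1)) * ν ^ 2 := by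
      rw [hr]
      unfold rr
      rw [hw]
      exact mul_le_mul_of_nonneg_left h3 (by positivity)
    refine h4.trans ?_
    have : 1 / (ν * (2 * ν + 1)) * ν ^ 2 = ν / (2 * ν + 1) := by field_simp
    rw [this, div_le_div_iff₀ (by positivity) (by norm_num)]
    linarith
  have hρR : ρ ≤ 3 / 4 * (1 - x) := by
    rw [hxe] at hE
    rw [hρdef]
    linarith
  obtain ⟨hs3, hs4, hs5⟩ := s_low hν0
  obtain ⟨he3u, he4u⟩ := e_up hν0
  obtain ⟨he2, he3, he4⟩ := e_low hν0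
  rw [hxe] at he2 he3 he4 H
  have halg := near_alg H hx0 hx1 (α := K1 * S0 ν) (b := b0 * W0 ν) hK hb
    (s := fun l => TT ν (3 * ν - 2) l) (e := fun l => TT ν (4 * ν - 2) l) (r := r) (M := 2 * N)
    (ρ := ρ)
    (fun l => Pool.Agent.ConeRadial.TT_nonneg hν1 (by linarith) l)
    (Pool.Agent.ConeRadial.s2_le (by linarith)) hs3 hs4 hs5 he2 he3 he4
    (fun l hl => Pool.Agent.ConeRadial.ER hν0 l (by omega)) he3u he4u
    (fun l => rr_nonneg hν1 N a l) hr2 hρsum hρR f (fun l => by simp only [hf])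
  have hρ0 : 0 ≤ ρ := by
    rw [hρsum]
    have := rr_nonneg hν1 N a 2
    have := rr_nonneg hν1 N a 3
    have := rr_nonneg hν1 N a 4
    have : 0 ≤ ∑ n ∈ range (2 * N), r (n + 5) := sum_nonneg fun n _ => rr_nonneg hν1 N a _
    linarith
  have hpade := one_add_rpow_ge (x := x) (r := ρ) hx0.le (by linarith) hρ0
  have hfin : V ν N a ≤ 1 + x * ((1 / x + 1) * ρ
      + (1 + x) * ρ ^ 2 / (2 + 2 / 3 * (1 - x) * ρ)) := by
    rw [hxe] at hnear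
    refine hnear.trans ?_
    have := mul_le_mul_of_nonneg_left (le_trans (add_le_add_right hquart2 _) halg) hx0.le
    linarith
  rw [hEρ, hxe]
  refine hfin.trans (le_trans (le_of_eq ?_) hpade)
  have hD : 2 + 2 / 3 * (1 - x) * ρ ≠ 0 := by
    have : 0 ≤ 2 / 3 * (1 - x) * ρ := mul_nonneg (by linarith) hρ0
    linarith
  field_simp
  ring

end Pool.Agent.ConeG.Rad
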