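import Pool.Agent.Work.MP_b0b133_an.Radial.Quartic

/-!
# Radial data: the three-term recursion of the weighted square norms of the zonal functions

`TT ν b n = cf ν n * J b (Y_n²) / J b 1`; with `B = b/2 + 1` and `d_n = TT n - TT (n+1)`:
`(n+2)(n+1+2ν)(n+1+B) d_{n+1} = (n+1)(n+2ν)(n+1+2ν-B) d_n + 2(B-ν)(n+1+ν) TT (n+1)`.
-/

set_option autoImplicit false
open Finset MeasureTheory
open scoped Real

namespace Pool.Agent.ConeRadial

open Pool.Agent.ConeG.Rad (Ch cf wt)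

/-- square norms -/
noncomputable def XX (ν b : ℝ) (n : ℕ) : ℝ := J b (fun g => Y ν n g ^ 2)

/-- cross terms -/
noncomputable def ZZ (ν b : ℝ) (n : ℕ) : ℝ := J b (fun g => Real.cos g * (Y ν n g * Y ν (n + 1) g))

/-- the integrals with `cos²` -/
noncomputable def CC (ν b : ℝ) (n : ℕ) : ℝ := J b (fun g => Real.cos g ^ 2 * Y ν n g ^ 2)

theorem rec1 {ν b : ℝ} (hν : 0 < ν) (hb : 0 ≤ b) (n : ℕ) :
    (2 * ν + n) * XX ν b (n + 1) - (n + 1) * XX ν b n + (b + 2 - 2 * ν) * ZZ ν b n = 0 := by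
  have cY : ∀ l, Continuous (Y ν l) := fun l => continuous_Y ν l
  have cdY : ∀ l, Continuous (dY ν l) := fun l => continuous_dY ν l
  have hd : ∀ x, HasDerivAt (fun g => Y ν n g * Y ν (n + 1) g)
      (dY ν n x * Y ν (n + 1) x + Y ν n x * dY ν (n + 1) x) x := fun x =>
    (hasDerivAt_Y ν n x).mul (hasDerivAt_Y ν (n + 1) x)
  have h0 := ibp hb hd (by fun_prop)
  have h1 : (fun g => (b + 1) * Real.cos g * (Y ν n g * Y ν (n + 1) g) + Real.sin g *
      (dY ν n g * Y ν (n + 1) g + Y ν n g * dY ν (n + 1) g)) =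
      fun g => ((2 * ν + n) * Y ν (n + 1) g ^ 2 + (-((n : ℝ) + 1)) * Y ν n g ^ 2)
        + (b + 2 - 2 * ν) * (Real.cos g * (Y ν n g * Y ν (n + 1) g)) := by
    ext g
    have r1 := Y_rai hν n g
    have l1 := Y_low hν (n + 1) g
    rw [Nat.add_sub_cancel] at l1
    push_cast at l1
    linear_combination (-Y ν (n + 1) g) * r1 + (Y ν n g) * l1
  rw [h1, J_add hb (by fun_prop) (by fun_prop), J_add hb (by fun_prop) (by fun_prop), J_smul,
    J_smul, J_smul] at h0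
  unfold XX ZZ
  linarith

theorem rec2 {ν b : ℝ} (hν : 0 < ν) (hb : 0 ≤ b) (n : ℕ) :
    (b + 2 + 2 * ((n : ℝ) + 1)) * CC ν b (n + 1) - XX ν b (n + 1)
      - 2 * ((n : ℝ) + 1) * ZZ ν b n = 0 := by
  have cY : ∀ l, Continuous (Y ν l) := fun l => continuous_Y ν l
  have cdY : ∀ l, Continuous (dY ν l) := fun l => continuous_dY ν l
  have cc := Real.continuous_cos
  have cs := Real.continuous_sin
  have hd : ∀ x, HasDerivAt (fun g => Real.cos g * (Y ν (n + 1) g * Y ν (n + 1) g))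
      (-Real.sin x * (Y ν (n + 1) x * Y ν (n + 1) x)
        + Real.cos x * (dY ν (n + 1) x * Y ν (n + 1) x + Y ν (n + 1) x * dY ν (n + 1) x)) x :=
    fun x => (Real.hasDerivAt_cos x).mul ((hasDerivAt_Y ν (n + 1) x).mul (hasDerivAt_Y ν (n + 1) x))
  have h0 := ibp hb hd (by fun_prop)
  have h1 : (fun g => (b + 1) * Real.cos g * (Real.cos g * (Y ν (n + 1) g * Y ν (n + 1) g))
      + Real.sin g * (-Real.sin g * (Y ν (n + 1) g * Y ν (n + 1) g)
        + Real.cos g * (dY ν (n + 1) g * Y ν (n + 1) g + Y ν (n + 1) g * dY ν (n + 1) g))) =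
      fun g => ((b + 2 + 2 * ((n : ℝ) + 1)) * (Real.cos g ^ 2 * Y ν (n + 1) g ^ 2)
        + (-1) * Y ν (n + 1) g ^ 2)
        + (-(2 * ((n : ℝ) + 1))) * (Real.cos g * (Y ν n g * Y ν (n + 1) g)) := by
    ext g
    have l1 := Y_low hν (n + 1) g
    have hs := Real.sin_sq_add_cos_sq g
    rw [Nat.add_sub_cancel] at l1
    push_cast at l1
    linear_combination (2 * Real.cos g * Y ν (n + 1) g) * l1
      - (Y ν (n + 1) g) ^ 2 * hs
  rw [h1, J_add hb (by fun_prop) (by fun_prop), J_add hb (by fun_prop) (by fun_prop), J_smul,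
    J_smul, J_smul] at h0
  unfold XX ZZ CC
  linarith

theorem rec3 {ν b : ℝ} (hν : 0 < ν) (hb : 0 ≤ b) (n : ℕ) :
    (b + 2 - 4 * ν - 2 * (n : ℝ)) * CC ν b n - XX ν b n
      + 2 * (2 * ν + n) * ZZ ν b n = 0 := by
  have cY : ∀ l, Continuous (Y ν l) := fun l => continuous_Y ν l
  have cdY : ∀ l, Continuous (dY ν l) := fun l => continuous_dY ν l
  have cc := Real.continuous_cos
  have cs := Real.continuous_sin
  have hd : ∀ x, HasDerivAt (fun g => Real.cos g * (Y ν n g * Y ν n g))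
      (-Real.sin x * (Y ν n x * Y ν n x)
        + Real.cos x * (dY ν n x * Y ν n x + Y ν n x * dY ν n x)) x :=
    fun x => (Real.hasDerivAt_cos x).mul ((hasDerivAt_Y ν n x).mul (hasDerivAt_Y ν n x))
  have h0 := ibp hb hd (by fun_prop)
  have h1 : (fun g => (b + 1) * Real.cos g * (Real.cos g * (Y ν n g * Y ν n g))
      + Real.sin g * (-Real.sin g * (Y ν n g * Y ν n g)
        + Real.cos g * (dY ν n g * Y ν n g + Y ν n g * dY ν n g))) =
      fun g => ((b + 2 - 4 * ν - 2 * (n : ℝ)) * (Real.cos g ^ 2 * Y ν n g ^ 2)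
        + (-1) * Y ν n g ^ 2)
        + (2 * (2 * ν + n)) * (Real.cos g * (Y ν n g * Y ν (n + 1) g)) := by
    ext g
    have r1 := Y_rai hν n g
    have hs := Real.sin_sq_add_cos_sq g
    linear_combination (-(2 * Real.cos g * Y ν n g)) * r1
      - (Y ν n g) ^ 2 * hs
  rw [h1, J_add hb (by fun_prop) (by fun_prop), J_add hb (by fun_prop) (by fun_prop), J_smul,
    J_smul, J_smul] at h0
  unfold XX ZZ CC
  linarith

/-- the recursion of the cross terms -/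
theorem recZ {ν b : ℝ} (hν : 0 < ν) (hb : 0 ≤ b) (n : ℕ) :
    ((n : ℝ) + 1 + 2 * ν) * ((n : ℝ) + 1 + (b / 2 + 1)) * ZZ ν b (n + 1)
      = ((n : ℝ) + 1 + ν) * XX ν b (n + 1)
        + ((n : ℝ) + 1) * ((n : ℝ) + 1 + 2 * ν - (b / 2 + 1)) * ZZ ν b n := by
  have h2 := rec2 hν hb n
  have h3 := rec3 hν hb (n + 1)
  push_cast at h3
  linear_combination (1 / 4) * (b + 2 + 2 * ((n : ℝ) + 1)) * h3
    - (1 / 4) * (b + 2 - 4 * ν - 2 * ((n : ℝ) + 1)) * h2

theorem XX_zero (ν b : ℝ) : XX ν b 0 = ∫ g in (0 : ℝ)..π, Real.sin g ^ b := by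
  unfold XX J
  simp [Y, Ch_zero]

theorem XX_zero_pos {ν b : ℝ} (hb : 0 ≤ b) : 0 < XX ν b 0 := by
  rw [XX_zero]
  exact J_one_pos hb

theorem XX_nonneg (ν b : ℝ) (n : ℕ) : 0 ≤ XX ν b n := by
  unfold XX J
  refine intervalIntegral.integral_nonneg Real.pi_pos.le fun g hg => ?_
  exact mul_nonneg (sq_nonneg _) (Real.rpow_nonneg (Real.sin_nonneg_of_mem_Icc hg) _)

theorem recZ_zero {ν b : ℝ} (hν : 0 < ν) (hb : 0 ≤ b) :
    2 * (b / 2 + 1) * ZZ ν b 0 = XX ν b 0 := by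
  -- `ZZ 0 = J (cos²)`
  have h3 := rec3 hν hb 0
  have hd : ∀ x, HasDerivAt (fun g => Real.cos g) (-Real.sin x) x := Real.hasDerivAt_cos
  have h0 := ibp hb hd (by fun_prop)
  have h1 : (fun g => (b + 1) * Real.cos g * Real.cos g + Real.sin g * -Real.sin g) =
      fun g => (b + 2) * (Real.cos g * (Y ν 0 g * Y ν (0 + 1) g)) + (-1) * Y ν 0 g ^ 2 := by
    ext g
    have hs := Real.sin_sq_add_cos_sq g
    simp only [Y, Ch_zero, Ch_one, zero_add]
    linear_combination (-1 : ℝ) * hs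
  have cY : ∀ l, Continuous (Y ν l) := fun l => continuous_Y ν l
  have cc := Real.continuous_cos
  rw [h1, J_add hb (by fun_prop) (by fun_prop), J_smul, J_smul] at h0
  unfold XX ZZ
  linarith

/-- normalised square norms -/
noncomputable def TT (ν b : ℝ) (n : ℕ) : ℝ := cf ν n * XX ν b n / XX ν b 0

theorem TT_zero {ν b : ℝ} (hb : 0 ≤ b) : TT ν b 0 = 1 := by
  unfold TT
  have := (XX_zero_pos (ν := ν) hb).ne'
  have h : cf ν 0 = 1 := by simp [cf]
  rw [h]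
  field_simp

theorem cf_succ' (ν : ℝ) (l : ℕ) : cf ν (l + 1) = cf ν l * ((2 * ν + l) / (l + 1)) := by
  unfold cf
  rw [prod_range_succ]

theorem cf_pos' {ν : ℝ} (hν : 0 < ν) (l : ℕ) : 0 < cf ν l := by
  unfold cf
  refine prod_pos fun k _ => ?_
  positivity

theorem TT_nonneg {ν b : ℝ} (hν : 0 < ν) (hb : 0 ≤ b) (n : ℕ) : 0 ≤ TT ν b n := by
  have h1 := (cf_pos' hν n).le
  have h2 := XX_nonneg ν b n
  have h3 := (XX_zero_pos (ν := ν) hb).le
  unfold TT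
  positivity

/-- the differences through the cross terms -/
theorem TT_diff {ν b : ℝ} (hν : 0 < ν) (hb : 0 ≤ b) (n : ℕ) :
    ((n : ℝ) + 1) * (TT ν b n - TT ν b (n + 1)) * XX ν b 0
      = 2 * ((b / 2 + 1) - ν) * cf ν n * ZZ ν b n := by
  have h := rec1 hν hb n
  have h0 := (XX_zero_pos (ν := ν) hb).ne'
  have hn : (n : ℝ) + 1 ≠ 0 := by positivity
  unfold TT
  rw [cf_succ']
  field_simp
  linear_combination (-(cf ν n)) * h

theorem recT_zero {ν b : ℝ} (hν : 0 < ν) (hb : 0 ≤ b) : TT ν b 1 = ν / (b / 2 + 1) := by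
  have h := TT_diff hν hb 0
  have hz := recZ_zero hν hb
  have h0 := (XX_zero_pos (ν := ν) hb).ne'
  have hB : (b / 2 + 1) ≠ 0 := by positivity
  have hcf : cf ν 0 = 1 := by simp [cf]
  rw [TT_zero hb, hcf] at h
  rw [eq_div_iff hB]
  apply mul_right_cancel₀ h0
  push_cast at h
  linear_combination (-(b / 2 + 1)) * h - ((b / 2 + 1) - ν) * hz

/-- the three-term recursion -/
theorem recD {ν b : ℝ} (hν : 0 < ν) (hb : 0 ≤ b) (n : ℕ) :
    ((n : ℝ) + 2) * ((n : ℝ) + 1 + 2 * ν) * ((n : ℝ) + 1 + (b / 2 + 1))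
        * (TT ν b (n + 1) - TT ν b (n + 2))
      = ((n : ℝ) + 1) * ((n : ℝ) + 2 * ν) * ((n : ℝ) + 1 + 2 * ν - (b / 2 + 1))
          * (TT ν b n - TT ν b (n + 1))
        + 2 * ((b / 2 + 1) - ν) * ((n : ℝ) + 1 + ν) * TT ν b (n + 1) := by
  have h1 := TT_diff hν hb n
  have h2 := TT_diff hν hb (n + 1)
  have hz := recZ hν hb n
  have h0 := (XX_zero_pos (ν := ν) hb).ne'
  have hT : TT ν b (n + 1) * XX ν b 0 = cf ν (n + 1) * XX ν b (n + 1) := by
    unfold TT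
    field_simp
  have hcf : cf ν (n + 1) * ((n : ℝ) + 1) = cf ν n * (2 * ν + n) := by
    rw [cf_succ']
    have hn : (n : ℝ) + 1 ≠ 0 := by positivity
    field_simp
  apply mul_right_cancel₀ h0
  push_cast at h2
  have h2' : ((n : ℝ) + 2) * (TT ν b (n + 1) - TT ν b (n + 2)) * XX ν b 0
      = 2 * ((b / 2 + 1) - ν) * cf ν (n + 1) * ZZ ν b (n + 1) := by
    rw [← h2]; ring
  linear_combination (((n : ℝ) + 1 + 2 * ν) * ((n : ℝ) + 1 + (b / 2 + 1))) * h2'
    + (2 * ((b / 2 + 1) - ν) * cf ν (n + 1)) * hz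
    - (((n : ℝ) + 2 * ν) * ((n : ℝ) + 1 + 2 * ν - (b / 2 + 1))) * h1
    - (2 * ((b / 2 + 1) - ν) * ((n : ℝ) + 1 + ν)) * hT
    + (2 * ((b / 2 + 1) - ν) * ((n : ℝ) + 1 + 2 * ν - (b / 2 + 1)) * ZZ ν b n) * hcf

/-- monotonicity in the level -/
theorem TT_anti {ν b : ℝ} (hν : 0 < ν) (hb : 0 ≤ b) (h1 : ν ≤ b / 2 + 1) (h2 : b / 2 + 1 ≤ 2 * ν)
    (n : ℕ) : TT ν b (n + 1) ≤ TT ν b n := by
  induction n with
  | zero =>
    rw [TT_zero hb, recT_zero hν hb, div_le_one (by positivity)]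
    exact h1
  | succ n ih =>
    have h := recD hν hb n
    have hT := TT_nonneg hν hb (n + 1)
    have hn : (0 : ℝ) ≤ n := Nat.cast_nonneg n
    have h3 : 0 ≤ ((n : ℝ) + 1) * ((n : ℝ) + 2 * ν) * ((n : ℝ) + 1 + 2 * ν - (b / 2 + 1))
          * (TT ν b n - TT ν b (n + 1)) := by
      refine mul_nonneg (mul_nonneg (by positivity) (by linarith)) (by linarith)
    have h4 : 0 ≤ 2 * ((b / 2 + 1) - ν) * ((n : ℝ) + 1 + ν) * TT ν b (n + 1) := by
      refine mul_nonneg (mul_nonneg (by linarith) (by positivity)) hT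
    have h5 : 0 ≤ ((n : ℝ) + 2) * ((n : ℝ) + 1 + 2 * ν) * ((n : ℝ) + 1 + (b / 2 + 1))
        * (TT ν b (n + 1) - TT ν b (n + 2)) := by rw [h]; linarith
    have h6 : 0 < ((n : ℝ) + 2) * ((n : ℝ) + 1 + 2 * ν) * ((n : ℝ) + 1 + (b / 2 + 1)) := by
      positivity
    have := nonneg_of_mul_nonneg_right h5 h6
    linarith

end Pool.Agent.ConeRadial
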