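import Pool.Agent.Work.MP_b0b133_an.R.Defs
import Pool.Agent.Work.MP_b0b133_an.G.A
import Pool.Agent.Work.MP_b0b133_an.G.Uk

/-!
# The generating function of the Gegenbauer polynomials on the unit disc
-/

set_option autoImplicit false
open MeasureTheory Complex Filter Metric
open scoped ENNReal NNReal ComplexConjugate Topology Real

namespace Pool.Agent.ConeG.Rad

/-- a power series known near `0` converges to the function in the whole disc -/
theorem S_disc (G : ℂ → ℂ) (c : ℕ → ℂ) (R : ℝ) (hR : 0 < R) (M : ℝ)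
    (hG : DifferentiableOn ℂ G (closedBall 0 R)) (hM : ∀ z, ‖z‖ = R → ‖G z‖ ≤ M)
    (h0 : ∀ᶠ z : ℂ in 𝓝 0, HasSum (fun n => z ^ n * c n) (G z)) :
    (∀ z : ℂ, ‖z‖ < R → HasSum (fun n => z ^ n * c n) (G z)) ∧ ∀ n, ‖c n‖ ≤ M * R⁻¹ ^ n := by
  lift R to ℝ≥0 using hR.le
  have hR' : 0 < R := by exact_mod_cast hR
  have h1 := hG.hasFPowerSeriesOnBall hR'
  have h2 : HasFPowerSeriesAt G (FormalMultilinearSeries.ofScalars ℂ c) 0 := by
    rw [hasFPowerSeriesAt_iff]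
    filter_upwards [h0] with z hz
    simpa [FormalMultilinearSeries.coeff_ofScalars, smul_eq_mul] using hz
  have h3 := h1.hasFPowerSeriesAt.eq_formalMultilinearSeries h2
  have h4 : ∀ n, (cauchyPowerSeries G 0 R).coeff n = c n := fun n => by
    rw [h3, FormalMultilinearSeries.coeff_ofScalars]
  refine ⟨fun z hz => ?_, fun n => ?_⟩
  · have h5 := h1.hasSum (y := z) (by
      rw [Metric.mem_eball, edist_eq_enorm_sub, sub_zero]
      have : ‖z‖₊ < R := by exact_mod_cast hz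
      simpa [enorm_eq_nnnorm] using this)
    rw [zero_add] at h5
    refine h5.congr_fun fun n => ?_
    rw [← h4 n, FormalMultilinearSeries.apply_eq_pow_smul_coeff, smul_eq_mul]
  · have h5 := norm_cauchyPowerSeries_le G 0 R n
    have h6 : ‖c n‖ ≤ ‖cauchyPowerSeries G 0 R n‖ := by
      rw [← h4 n]
      unfold FormalMultilinearSeries.coeff
      refine ((cauchyPowerSeries G 0 R n).le_opNorm _).trans ?_
      simp
    refine h6.trans (h5.trans ?_)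
    rw [abs_of_pos hR]
    refine mul_le_mul_of_nonneg_right ?_ (by positivity)
    have h7 : ∫ θ : ℝ in 0..2 * π, ‖G (circleMap 0 R θ)‖ ≤ ∫ _ : ℝ in 0..2 * π, M := by
      refine intervalIntegral.integral_mono_on (by positivity) ?_ (by simp) fun θ _ => ?_
      · refine ContinuousOn.intervalIntegrable ?_
        refine (hG.continuousOn.comp (continuous_circleMap 0 R).continuousOn fun θ _ => ?_).norm
        exact circleMap_mem_closedBall 0 hR.le θ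
      · refine hM _ ?_
        simp [circleMap, abs_of_pos hR]
    rw [intervalIntegral.integral_const, sub_zero, smul_eq_mul] at h7
    have hpi := Real.pi_pos
    calc (2 * π)⁻¹ * ∫ θ : ℝ in 0..2 * π, ‖G (circleMap 0 R θ)‖ ≤ (2 * π)⁻¹ * (2 * π * M) :=
          mul_le_mul_of_nonneg_left h7 (by positivity)
      _ = M := by field_simp

/-- the homogeneous form of the Gegenbauer polynomials -/
noncomputable def Zf (d : ℕ) (u v : ℂ) : ℕ → ℂ
  | 0 => 1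
  | 1 => ((d : ℂ) - 1) * u
  | (l + 2) => ((2 * (l : ℂ) + ((d : ℂ) + 1)) * u * Zf d u v (l + 1) -
      ((l : ℂ) + ((d : ℂ) - 1)) * v * Zf d u v l) / ((l : ℂ) + 2)

theorem Zf_rec (d : ℕ) (u v : ℂ) (l : ℕ) : ((l : ℂ) + 2) * Zf d u v (l + 2) =
    (2 * (l : ℂ) + ((d : ℂ) + 1)) * u * Zf d u v (l + 1) -
      ((l : ℂ) + ((d : ℂ) - 1)) * v * Zf d u v l := by
  have h : (l : ℂ) + 2 ≠ 0 := by exact_mod_cast (by positivity : (0 : ℝ) < l + 2).ne'
  rw [Zf]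
  field_simp

theorem Zf_smul (d : ℕ) (u v β : ℂ) (l : ℕ) : Zf d (β * u) (β ^ 2 * v) l = β ^ l * Zf d u v l := by
  induction l using Nat.twoStepInduction with
  | zero => simp [Zf]
  | one => simp [Zf]; ring
  | more l h1 h2 =>
    rw [Zf, Zf, h1, h2]
    ring

theorem Zf_cont (d : ℕ) (l : ℕ) : Continuous fun p : ℂ × ℂ => Zf d p.1 p.2 l := by
  induction l using Nat.twoStepInduction with
  | zero => simp only [Zf]; exact continuous_const
  | one => simp only [Zf]; fun_prop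
  | more l h1 h2 =>
    simp only [Zf]
    fun_prop

/-- `1 - β ζ` for `|ζ| = 1`, `|β| < 1` -/
theorem S_re_pos {β ζ : ℂ} (hβ : ‖β‖ < 1) (hζ : ‖ζ‖ = 1) : 0 < (1 - β * ζ).re := by
  have h : ‖β * ζ‖ < 1 := by rw [norm_mul, hζ, mul_one]; exact hβ
  have h2 := (Complex.abs_re_le_norm (β * ζ))
  have h3 := (abs_le.1 h2).2
  rw [Complex.sub_re, Complex.one_re]
  linarith

theorem S_slit {a b : ℂ} (ha : 0 < a.re) (hb : 0 < b.re) : a * b ∈ slitPlane := by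
  rw [Complex.mem_slitPlane_iff_arg]
  have ha0 : a ≠ 0 := fun h => by rw [h] at ha; simp at ha
  have hb0 : b ≠ 0 := fun h => by rw [h] at hb; simp at hb
  refine ⟨?_, mul_ne_zero ha0 hb0⟩
  have h1 := (Complex.abs_arg_lt_pi_div_two_iff).2 (Or.inl ha)
  have h2 := (Complex.abs_arg_lt_pi_div_two_iff).2 (Or.inl hb)
  have h3 := abs_lt.1 h1
  have h4 := abs_lt.1 h2
  rw [Complex.arg_mul ha0 hb0 ⟨by linarith, by linarith⟩]
  linarith

theorem S_fac (β ζ₁ ζ₂ : ℂ) : 1 - 2 * (β * ((ζ₁ + ζ₂) / 2)) + β ^ 2 * (ζ₁ * ζ₂) =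
    (1 - β * ζ₁) * (1 - β * ζ₂) := by ring

theorem S_q_slit {β ζ₁ ζ₂ : ℂ} (hβ : ‖β‖ < 1) (h1 : ‖ζ₁‖ = 1) (h2 : ‖ζ₂‖ = 1) :
    1 - 2 * (β * ((ζ₁ + ζ₂) / 2)) + β ^ 2 * (ζ₁ * ζ₂) ∈ slitPlane := by
  rw [S_fac]
  exact S_slit (S_re_pos hβ h1) (S_re_pos hβ h2)

/-- the generating function -/
theorem S_gen (d : ℕ) [Fact (2 ≤ d)] {ζ₁ ζ₂ : ℂ} (h1 : ‖ζ₁‖ = 1) (h2 : ‖ζ₂‖ = 1) (R : ℝ)
    (hR : 0 < R) (hR1 : R < 1) :
    (∀ β : ℂ, ‖β‖ < R → HasSum (fun l => β ^ l * Zf d ((ζ₁ + ζ₂) / 2) (ζ₁ * ζ₂) l)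
      ((1 - 2 * (β * ((ζ₁ + ζ₂) / 2)) + β ^ 2 * (ζ₁ * ζ₂)) ^ (-(nu d : ℂ)))) ∧
    ∀ l, ‖Zf d ((ζ₁ + ζ₂) / 2) (ζ₁ * ζ₂) l‖ ≤ ((1 - R) ^ 2) ^ (-(nu d)) * R⁻¹ ^ l := by
  refine S_disc (fun β => (1 - 2 * (β * ((ζ₁ + ζ₂) / 2)) + β ^ 2 * (ζ₁ * ζ₂)) ^ (-(nu d : ℂ))) _ R
    hR _ ?_ ?_ ?_
  · intro β hβ
    have hβ' : ‖β‖ < 1 := by
      rw [mem_closedBall, dist_zero_right] at hβ
      linarith
    have hs := S_q_slit hβ' h1 h2
    refine DifferentiableAt.differentiableWithinAt ?_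
    exact DifferentiableAt.cpow (by fun_prop) (differentiableAt_const _) hs
  · intro β hβ
    have hβ' : ‖β‖ < 1 := by linarith
    have e : (-(nu d : ℂ)) = ((-(nu d) : ℝ) : ℂ) := by push_cast; rfl
    have hq := slitPlane_ne_zero (S_q_slit hβ' h1 h2)
    show ‖(1 - 2 * (β * ((ζ₁ + ζ₂) / 2)) + β ^ 2 * (ζ₁ * ζ₂)) ^ (-(nu d : ℂ))‖ ≤ _
    rw [e, Complex.norm_cpow_real]
    have hn : 0 < (1 - R) ^ 2 := by
      have : 0 < 1 - R := by linarith
      positivity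
    refine Real.rpow_le_rpow_of_nonpos hn ?_ (by linarith [nu_pos d])
    rw [S_fac, norm_mul]
    have h3 : ∀ ζ : ℂ, ‖ζ‖ = 1 → 1 - R ≤ ‖1 - β * ζ‖ := fun ζ hζ => by
      have := norm_sub_norm_le (1 : ℂ) (β * ζ)
      rw [norm_one, norm_mul, hζ, mul_one, hβ] at this
      exact this
    rw [sq]
    exact mul_le_mul (h3 ζ₁ h1) (h3 ζ₂ h2) (by linarith) (norm_nonneg _)
  · have h3 : ∀ᶠ β : ℂ in 𝓝 0, ‖β‖ < 1 / 4 := by
      have := ball_mem_nhds (0 : ℂ) (show (0 : ℝ) < 1 / 4 by norm_num)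
      filter_upwards [this] with β hβ
      rwa [mem_ball, dist_zero_right] at hβ
    filter_upwards [h3] with β hβ
    have h4 := A_hasSum d (Zf d (β * ((ζ₁ + ζ₂) / 2)) (β ^ 2 * (ζ₁ * ζ₂)))
      (β * ((ζ₁ + ζ₂) / 2)) (β ^ 2 * (ζ₁ * ζ₂)) ?_ ?_ rfl rfl
      (fun l => Zf_rec d _ _ l)
    · have e : Zf d (β * ((ζ₁ + ζ₂) / 2)) (β ^ 2 * (ζ₁ * ζ₂)) =
          fun l => β ^ l * Zf d ((ζ₁ + ζ₂) / 2) (ζ₁ * ζ₂) l := funext fun l => Zf_smul d _ _ _ l
      rw [e] at h4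
      exact h4
    · rw [norm_mul, norm_div, Complex.norm_ofNat]
      have h5 : ‖ζ₁ + ζ₂‖ ≤ 2 := by
        have := norm_add_le ζ₁ ζ₂
        linarith
      calc ‖β‖ * (‖ζ₁ + ζ₂‖ / 2) ≤ 1 / 4 * (2 / 2) := by gcongr
        _ = 1 / 4 := by norm_num
    · rw [norm_mul, norm_mul, norm_pow, h1, h2, mul_one, mul_one]
      calc ‖β‖ ^ 2 ≤ (1 / 4) ^ 2 := by gcongr
        _ = 1 / 16 := by norm_num

theorem cf_pos {ν : ℝ} (hν : 0 < ν) (l : ℕ) : 0 < cf ν l :=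
  Finset.prod_pos fun k _ => by positivity

theorem cf_succ (ν : ℝ) (l : ℕ) : cf ν (l + 1) = cf ν l * ((2 * ν + l) / (l + 1)) := by
  unfold cf
  rw [Finset.prod_range_succ]

/-- the Gegenbauer polynomials on the cylinder -/
theorem Zf_eq (d : ℕ) [Fact (2 ≤ d)] (T g : ℝ) (l : ℕ) :
    Zf d (cexp (-(T * I)) * (Real.cos g : ℂ)) (cexp (-(T * I)) ^ 2) l =
      (cf (nu d) l : ℂ) * (Ch (nu d) l (Real.cos g) : ℂ) * cexp (-((l : ℂ) * (T : ℂ) * I)) := by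
  have hν := nu_pos d
  have e2 : ((d : ℝ) - 1) = 2 * nu d := by unfold nu; ring
  have e2' : ((d : ℂ) - 1) = 2 * (nu d : ℂ) := by
    have := congrArg (fun x : ℝ => (x : ℂ)) e2
    push_cast at this
    exact this
  have e3' : ((d : ℂ) + 1) = 2 * (nu d : ℂ) + 2 := by linear_combination e2'
  induction l using Nat.twoStepInduction with
  | zero => simp [Zf, cf, Ch]
  | one =>
    simp only [Zf, Ch]
    rw [cf_succ]
    have : cf (nu d) 0 = 1 := by simp [cf]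
    rw [this, e2']
    push_cast
    ring_nf
  | more l h1 h2 =>
    have hl2 : (l : ℂ) + 2 ≠ 0 := by exact_mod_cast (by positivity : (0 : ℝ) < l + 2).ne'
    have hl1 : (l : ℂ) + 1 ≠ 0 := by exact_mod_cast (by positivity : (0 : ℝ) < l + 1).ne'
    have hc1 : ((l : ℂ) + 1 + 2 * (nu d : ℂ)) ≠ 0 := by
      have h : ((l : ℝ) + 1 + 2 * nu d) ≠ 0 := by positivity
      have h' := Complex.ofReal_ne_zero.2 h
      push_cast at h'
      exact h'
    rw [Zf, h1, h2]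
    have k1 : (cf (nu d) (l + 1 + 1) : ℂ) = (cf (nu d) (l + 1) : ℂ) *
        ((2 * (nu d : ℂ) + (l + 1)) / (l + 2)) := by
      rw [cf_succ]
      push_cast
      ring_nf
    have k2 : (cf (nu d) (l + 1) : ℂ) * ((l : ℂ) + 1) = (cf (nu d) l : ℂ) *
        (2 * (nu d : ℂ) + l) := by
      rw [cf_succ]
      push_cast
      field_simp
    have k3 : (Ch (nu d) (l + 2) (Real.cos g) : ℂ) = (2 * ((l : ℂ) + 1 + (nu d : ℂ)) *
        (Real.cos g : ℂ) * (Ch (nu d) (l + 1) (Real.cos g) : ℂ) -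
        ((l : ℂ) + 1) * (Ch (nu d) l (Real.cos g) : ℂ)) / ((l : ℂ) + 1 + 2 * (nu d : ℂ)) := by
      rw [Ch]
      push_cast
      ring
    have k4 : cexp (-((((l + 1 : ℕ) : ℂ)) * (T : ℂ) * I)) =
        cexp (-(T * I)) * cexp (-((l : ℂ) * (T : ℂ) * I)) := by
      rw [← Complex.exp_add]
      congr 1
      push_cast
      ring
    have k5 : cexp (-((((l + 2 : ℕ) : ℂ)) * (T : ℂ) * I)) =
        cexp (-(T * I)) ^ 2 * cexp (-((l : ℂ) * (T : ℂ) * I)) := by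
      rw [← Complex.exp_nat_mul, ← Complex.exp_add]
      congr 1
      push_cast
      ring
    rw [k5, k4, k3]
    rw [show l + 2 = l + 1 + 1 from rfl, k1, e2', e3']
    have k6 : (2 * (nu d : ℂ) + (l + 1)) = ((l : ℂ) + 1 + 2 * (nu d : ℂ)) := by ring
    rw [k6]
    field_simp
    linear_combination (Ch (nu d) l (Real.cos g) : ℂ) * k2

end Pool.Agent.ConeG.Rad
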