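import Pool.Agent.Work.MP_b0b133_an.R.Shell

/-!
# The radial inequality for sums of radial exponentials
-/

set_option autoImplicit false
open MeasureTheory Complex Filter Metric
open scoped ENNReal NNReal ComplexConjugate Topology Real

namespace Pool.Agent.ConeG.Rad

variable {d : ℕ} [Fact (2 ≤ d)]

local instance : IsProbabilityMeasure (mM d) := mM_prob

/-- the sharp inequality for one function -/
def Good (d : ℕ) (f : Rd d → ℂ) : Prop := ∫ a, ‖coneExt f a‖ ^ pe d ≤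
    (mM0 d Set.univ).toReal * (kap d * 4 ^ nu d * ∫ ξ, ‖f ξ‖ ^ 2 ∂(sig d)) ^ (pe d / 2)

theorem good_smul (c : ℂ) (hc : c ≠ 0) (f : Rd d → ℂ) (h : Good d (c • f)) : Good d f := by
  unfold Good at h ⊢
  have hp := pe_pos (d := d)
  have hcn : 0 < ‖c‖ := norm_pos_iff.2 hc
  have e1 : ∀ a, ‖coneExt (c • f) a‖ ^ pe d = ‖c‖ ^ pe d * ‖coneExt f a‖ ^ pe d := fun a => by
    rw [U_ext_smul, Pi.smul_apply, norm_smul, Real.mul_rpow (norm_nonneg _) (norm_nonneg _)]
  have e2 : ∀ ξ, ‖(c • f) ξ‖ ^ 2 = ‖c‖ ^ 2 * ‖f ξ‖ ^ 2 := fun ξ => by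
    rw [Pi.smul_apply, norm_smul, mul_pow]
  simp only [e1, e2] at h
  rw [integral_const_mul, integral_const_mul] at h
  have hI : 0 ≤ ∫ ξ, ‖f ξ‖ ^ 2 ∂(sig d) := integral_nonneg fun ξ => by positivity
  have hk := kap_pos d
  have e3 : (kap d * 4 ^ nu d * (‖c‖ ^ 2 * ∫ ξ, ‖f ξ‖ ^ 2 ∂(sig d))) ^ (pe d / 2) =
      ‖c‖ ^ pe d * (kap d * 4 ^ nu d * ∫ ξ, ‖f ξ‖ ^ 2 ∂(sig d)) ^ (pe d / 2) := by
    have : kap d * 4 ^ nu d * (‖c‖ ^ 2 * ∫ ξ, ‖f ξ‖ ^ 2 ∂(sig d)) =
        ‖c‖ ^ 2 * (kap d * 4 ^ nu d * ∫ ξ, ‖f ξ‖ ^ 2 ∂(sig d)) := by ring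
    rw [this, Real.mul_rpow (by positivity) (by positivity), ← Real.rpow_natCast ‖c‖ 2,
      ← Real.rpow_mul hcn.le]
    congr 2
    push_cast
    ring
  rw [e3] at h
  have h2 : ‖c‖ ^ pe d * ∫ a, ‖coneExt f a‖ ^ pe d ≤ ‖c‖ ^ pe d * ((mM0 d Set.univ).toReal *
      (kap d * 4 ^ nu d * ∫ ξ, ‖f ξ‖ ^ 2 ∂(sig d)) ^ (pe d / 2)) := by
    calc _ ≤ _ := h
      _ = _ := by ring
  exact le_of_mul_le_mul_left h2 (Real.rpow_pos_of_pos hcn _)

/-- the sharp inequality in the frame -/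
theorem Dat.good_frame (hA : RadCoreA (nu d)) (hB : RadCoreB (nu d)) (D : Dat) (h0 : D.aa d 0 = 1)
    (hmax : ∀ w : ℂ, 0 < w.re → ‖D.ov d w‖ ^ 2 * w.re ^ (d - 1) ≤ ‖D.ov d 1‖ ^ 2) :
    Good d (D.fn d) := by
  have h := D.core hA hB h0 hmax
  have hk := kap_pos d
  have hp := pe_pos (d := d)
  have hM := U3_mass_pos (d := d)
  unfold Good
  have hmeas : AEStronglyMeasurable (coneExt (D.fn d)) volume :=
    (U_ext_cont _ (U_exp_int _ D.fn_mem).1).aestronglyMeasurable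
  rw [integral_toM _ hmeas]
  refine mul_le_mul_of_nonneg_left ?_ hM.le
  have e1 : ∀ a, ‖(kap d : ℂ)⁻¹ * toM (coneExt (D.fn d)) a‖ ^ pe d =
      (kap d)⁻¹ ^ pe d * ‖toM (coneExt (D.fn d)) a‖ ^ pe d := fun a => by
    rw [norm_mul, norm_inv, Complex.norm_real, Real.norm_eq_abs, abs_of_pos hk,
      Real.mul_rpow (by positivity) (norm_nonneg _)]
  simp only [e1] at h
  rw [integral_const_mul] at h
  set J : ℝ := ∫ a, ‖toM (coneExt (D.fn d)) a‖ ^ pe d ∂(mM d)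
  set S : ℝ := ∫ ξ, ‖D.fn d ξ‖ ^ 2 ∂(sig d) with hS
  have hS0 : 0 ≤ S := integral_nonneg fun ξ => by positivity
  have e2 : 1 + 1 / nu d = pe d / 2 := by rw [pe_nu]; ring
  rw [e2] at h
  have e3 : J = kap d ^ pe d * ((kap d)⁻¹ ^ pe d * J) := by
    rw [← mul_assoc, ← Real.mul_rpow hk.le (by positivity), mul_inv_cancel₀ hk.ne', Real.one_rpow,
      one_mul]
  have e4 : kap d ^ pe d * ((kap d)⁻¹ * 4 ^ nu d * S) ^ (pe d / 2) =
      (kap d * 4 ^ nu d * S) ^ (pe d / 2) := by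
    have : kap d ^ pe d = (kap d ^ 2) ^ (pe d / 2) := by
      rw [← Real.rpow_natCast, ← Real.rpow_mul hk.le]
      congr 1
      push_cast
      ring
    rw [this, ← Real.mul_rpow (by positivity) (by positivity)]
    congr 1
    field_simp
  rw [e3, ← e4]
  exact mul_le_mul_of_nonneg_left h (by positivity)

theorem Dat.good (hA : RadCoreA (nu d)) (hB : RadCoreB (nu d)) (D : Dat) : Good d (D.fn d) := by
  have h2d : (2 : ℕ) ≤ d := two_le d
  have hp := pe_pos (d := d)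
  have hk := kap_pos d
  by_cases hz : ∀ i, D.ov d (conj (D.z i)) = 0
  · -- the function is zero
    have h1 := D.norm_sq (d := d)
    have h2 : ∑ i, ∑ j, D.κ i * conj (D.κ j) * ((kap d : ℂ) *
        ((D.z i + conj (D.z j)) ^ (d - 1))⁻¹) = ∑ j, conj (D.κ j) * (kap d : ℂ) *
        D.ov d (conj (D.z j)) := by
      rw [Finset.sum_comm]
      refine Finset.sum_congr rfl fun j _ => ?_
      unfold Dat.ov
      rw [Finset.mul_sum]
      exact Finset.sum_congr rfl fun i _ => by ring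
    rw [h2] at h1
    simp only [hz, mul_zero, Finset.sum_const_zero] at h1
    have h3 : ∫ ξ, D.fn d ξ * conj (D.fn d ξ) ∂(sig d) =
        ((∫ ξ, ‖D.fn d ξ‖ ^ 2 ∂(sig d) : ℝ) : ℂ) := by
      rw [← integral_complex_ofReal]
      refine integral_congr_ae (Eventually.of_forall fun ξ => ?_)
      simp only
      rw [Complex.mul_conj']
      push_cast
      rfl
    rw [h3] at h1
    have h4 : ∫ ξ, ‖D.fn d ξ‖ ^ 2 ∂(sig d) = 0 := by exact_mod_cast h1
    have h5 : ∫ a, ‖coneExt (D.fn d) a‖ ^ pe d = 0 := by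
      obtain ⟨C, hC⟩ := stri d
      have h6 := (hC (D.fn d) (U_exp_int _ D.fn_mem).1 (U_exp_int _ D.fn_mem).2).2
      rw [h4, mul_zero] at h6
      have h7 : 0 ≤ ∫ a, ‖coneExt (D.fn d) a‖ ^ pe d :=
        integral_nonneg fun a => Real.rpow_nonneg (norm_nonneg _) _
      by_contra hne
      exact absurd h6 (not_le.2 (Real.rpow_pos_of_pos (lt_of_le_of_ne h7 (Ne.symm hne)) _))
    unfold Good
    rw [h5]
    exact mul_nonneg ENNReal.toReal_nonneg (Real.rpow_nonneg (by rw [h4]; simp) _)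
  · rw [not_forall] at hz
    obtain ⟨i, hi⟩ := hz
    obtain ⟨w₀, hw₀, hne, hmax⟩ := D.ov_max d (conj (D.z i)) (by
      rw [Complex.conj_re]; exact D.hz i) hi
    set lam : ℝ := 1 / w₀.re with hlam
    have hl : 0 < lam := by positivity
    set mu : ℝ := w₀.im / w₀.re with hmu
    set D₁ := D.tr d lam mu hl with hD₁
    have hw : ((1 : ℂ) + mu * I) / lam = w₀ := by
      have hre : (w₀.re : ℂ) ≠ 0 := by exact_mod_cast hw₀.ne'
      rw [hlam, hmu]
      push_cast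
      rw [div_div_eq_mul_div, div_one]
      field_simp
      exact Complex.re_add_im w₀
    have hov1 : ‖D₁.ov d 1‖ ^ 2 = ‖D.ov d w₀‖ ^ 2 * w₀.re ^ (d - 1) := by
      have := D.ov_tr (d := d) lam mu hl 1
      rw [hw] at this
      simpa using this
    have hmax₁ : ∀ w : ℂ, 0 < w.re → ‖D₁.ov d w‖ ^ 2 * w.re ^ (d - 1) ≤ ‖D₁.ov d 1‖ ^ 2 := by
      intro w hw'
      rw [hov1, hD₁, D.ov_tr]
      refine hmax _ ?_
      rw [Complex.div_ofReal_re]
      simp only [Complex.add_re, Complex.mul_re, Complex.ofReal_re, Complex.I_re, mul_zero,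
        Complex.ofReal_im, Complex.I_im, mul_one, sub_self, add_zero]
      positivity
    have hov1' : D₁.ov d 1 ≠ 0 := by
      intro h
      rw [h, norm_zero] at hov1
      have : 0 < ‖D.ov d w₀‖ ^ 2 * w₀.re ^ (d - 1) := by
        have := norm_pos_iff.2 hne
        positivity
      rw [← hov1] at this
      simp at this
    set c : ℂ := (D₁.aa d 0)⁻¹ with hc
    have ha0 : D₁.aa d 0 ≠ 0 := by
      rw [D₁.ov_one]
      exact mul_ne_zero (pow_ne_zero _ two_ne_zero) hov1'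
    have hc0 : c ≠ 0 := inv_ne_zero ha0
    have h1 : Good d ((D₁.smul c).fn d) := by
      refine (D₁.smul c).good_frame hA hB ?_ fun w hw' => ?_
      · rw [(D₁.smul c).ov_one, Dat.ov_smul, mul_left_comm, ← D₁.ov_one, hc, inv_mul_cancel₀ ha0]
      · rw [Dat.ov_smul, Dat.ov_smul, norm_mul, norm_mul, mul_pow, mul_pow, mul_assoc]
        exact mul_le_mul_of_nonneg_left (hmax₁ w hw') (by positivity)
    rw [Dat.fn_smul] at h1
    have h2 := good_smul c hc0 _ h1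
    unfold Good at h2 ⊢
    rw [hD₁, D.int_tr, D.norm_tr] at h2
    exact h2

end Pool.Agent.ConeG.Rad
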