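import Pool.Agent.Work.MP_b0b133_an.R.Frame

/-!
# Reduction of the radial inequality to the core
-/

set_option autoImplicit false
open MeasureTheory Complex Filter Metric
open scoped ENNReal NNReal ComplexConjugate Topology Real

namespace Pool.Agent.ConeG.Rad

variable {d : ℕ} [Fact (2 ≤ d)]

local instance : IsProbabilityMeasure (mM d) := mM_prob

/-! ### the affine group -/

/-- multiplication by a constant -/
noncomputable def Dat.smul (c : ℂ) (D : Dat) : Dat := ⟨D.ι, fun i => c * D.κ i, D.z, D.hz⟩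

/-- dilation and translation in time -/
noncomputable def Dat.tr (d : ℕ) (D : Dat) (lam mu : ℝ) (hl : 0 < lam) : Dat :=
  ⟨D.ι, fun i => ((lam ^ nu d : ℝ) : ℂ) * D.κ i, fun i => (lam : ℂ) * D.z i + (mu : ℂ) * I, fun i => by
    have := D.hz i
    simp only [Complex.add_re, Complex.mul_re, Complex.ofReal_re, Complex.ofReal_im, zero_mul,
      sub_zero, Complex.I_re, Complex.I_im, mul_zero, sub_self, add_zero]
    positivity⟩

omit [Fact (2 ≤ d)] in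
theorem Dat.fn_smul (c : ℂ) (D : Dat) : (D.smul c).fn d = c • D.fn d := by
  funext ξ
  show ∑ i, c * D.κ i * rex d (D.z i) ξ = c • ∑ i, D.κ i * rex d (D.z i) ξ
  rw [smul_eq_mul, Finset.mul_sum]
  exact Finset.sum_congr rfl fun i _ => by ring

omit [Fact (2 ≤ d)] in
theorem Dat.ov_smul (c : ℂ) (D : Dat) (w : ℂ) : (D.smul c).ov d w = c * D.ov d w := by
  show ∑ i, c * D.κ i * ((D.z i + w) ^ (d - 1))⁻¹ = c * ∑ i, D.κ i * ((D.z i + w) ^ (d - 1))⁻¹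
  rw [Finset.mul_sum]
  exact Finset.sum_congr rfl fun i _ => by ring

theorem lam_pow (lam : ℝ) (hl : 0 < lam) : (lam ^ nu d) ^ 2 = lam ^ (d - 1) := by
  have h2 : (2 : ℕ) ≤ d := two_le d
  rw [← Real.rpow_natCast, ← Real.rpow_mul hl.le]
  have : nu d * ((2 : ℕ) : ℝ) = ((d - 1 : ℕ) : ℝ) := by
    rw [Nat.cast_sub (by omega)]
    push_cast
    unfold nu
    ring
  rw [this, Real.rpow_natCast]

theorem Dat.ov_tr (D : Dat) (lam mu : ℝ) (hl : 0 < lam) (w : ℂ) :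
    ‖(D.tr d lam mu hl).ov d w‖ ^ 2 * w.re ^ (d - 1) =
      ‖D.ov d ((w + mu * I) / lam)‖ ^ 2 * ((w + mu * I) / lam).re ^ (d - 1) := by
  have hl' : (lam : ℂ) ≠ 0 := by exact_mod_cast hl.ne'
  have h1 : (D.tr d lam mu hl).ov d w = ((lam ^ nu d : ℝ) : ℂ) * ((lam : ℂ) ^ (d - 1))⁻¹ *
      D.ov d ((w + mu * I) / lam) := by
    show ∑ i, ((lam ^ nu d : ℝ) : ℂ) * D.κ i * (((lam : ℂ) * D.z i + (mu : ℂ) * I + w) ^ (d - 1))⁻¹ =
      ((lam ^ nu d : ℝ) : ℂ) * ((lam : ℂ) ^ (d - 1))⁻¹ *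
        ∑ i, D.κ i * ((D.z i + (w + mu * I) / lam) ^ (d - 1))⁻¹
    rw [Finset.mul_sum]
    refine Finset.sum_congr rfl fun i _ => ?_
    have : (lam : ℂ) * D.z i + (mu : ℂ) * I + w = lam * (D.z i + (w + mu * I) / lam) := by
      field_simp
      ring
    rw [this, mul_pow, mul_inv]
    ring
  have h2 : ((w + mu * I) / lam).re = w.re / lam := by
    rw [Complex.div_ofReal_re]
    simp
  rw [h1, h2, norm_mul, norm_mul, mul_pow, mul_pow, Complex.norm_real, norm_inv, norm_pow,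
    Complex.norm_real, Real.norm_eq_abs, Real.norm_eq_abs, abs_of_pos hl,
    abs_of_pos (Real.rpow_pos_of_pos hl _), lam_pow lam hl, div_pow]
  field_simp

theorem Dat.norm_tr (D : Dat) (lam mu : ℝ) (hl : 0 < lam) :
    ∫ ξ, ‖(D.tr d lam mu hl).fn d ξ‖ ^ 2 ∂(sig d) = ∫ ξ, ‖D.fn d ξ‖ ^ 2 ∂(sig d) := by
  have hl' : (lam : ℂ) ≠ 0 := by exact_mod_cast hl.ne'
  have h3 : ∀ D : Dat, ∫ ξ, D.fn d ξ * conj (D.fn d ξ) ∂(sig d) =
      ((∫ ξ, ‖D.fn d ξ‖ ^ 2 ∂(sig d) : ℝ) : ℂ) := by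
    intro D
    rw [← integral_complex_ofReal]
    refine integral_congr_ae (Eventually.of_forall fun ξ => ?_)
    simp only
    rw [Complex.mul_conj']
    push_cast
    rfl
  have h1 := (D.tr d lam mu hl).norm_sq (d := d)
  have h2 := D.norm_sq (d := d)
  rw [h3] at h1 h2
  refine Complex.ofReal_injective ?_
  rw [h1, h2]
  show ∑ i, ∑ j, (((lam ^ nu d : ℝ) : ℂ) * D.κ i) * conj (((lam ^ nu d : ℝ) : ℂ) * D.κ j) *
    ((kap d : ℂ) * (((lam : ℂ) * D.z i + (mu : ℂ) * I +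
      conj ((lam : ℂ) * D.z j + (mu : ℂ) * I)) ^ (d - 1))⁻¹) = _
  refine Finset.sum_congr rfl fun i _ => Finset.sum_congr rfl fun j _ => ?_
  have e : (lam : ℂ) * D.z i + (mu : ℂ) * I + conj ((lam : ℂ) * D.z j + (mu : ℂ) * I) =
      lam * (D.z i + conj (D.z j)) := by
    simp only [map_add, map_mul, Complex.conj_ofReal, Complex.conj_I]
    ring
  have e2 : (((lam ^ nu d : ℝ) : ℂ)) ^ 2 = (lam : ℂ) ^ (d - 1) := by
    have := lam_pow (d := d) lam hl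
    exact_mod_cast this
  rw [e, mul_pow, mul_inv, map_mul, Complex.conj_ofReal]
  have hp : ((lam : ℂ) ^ (d - 1)) ≠ 0 := pow_ne_zero _ hl'
  calc _ = (((lam ^ nu d : ℝ) : ℂ)) ^ 2 * ((lam : ℂ) ^ (d - 1))⁻¹ * (D.κ i * conj (D.κ j) *
        ((kap d : ℂ) * ((D.z i + conj (D.z j)) ^ (d - 1))⁻¹)) := by ring
    _ = _ := by rw [e2, mul_inv_cancel₀ hp, one_mul]

theorem Dat.ext_fn (D : Dat) (a : Rs d) : coneExt (D.fn d) a =
    ∑ i, D.κ i * ((kap d : ℂ) * (qz a (D.z i)) ^ (-(nu d : ℂ))) := by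
  have h := Fb_ext_sum (d := d) D.κ (fun i => (-(D.z i).im, 0)) (fun i => ((D.z i).re, 0))
    (fun i => rex_fwd (D.hz i)) a
  simp only [← rex_eq, ← qz_eq] at h
  exact h

theorem Dat.ext_tr (D : Dat) (lam mu : ℝ) (hl : 0 < lam) (a : Rs d) :
    coneExt ((D.tr d lam mu hl).fn d) a = ((lam ^ (-(nu d)) : ℝ) : ℂ) *
      coneExt (D.fn d) (lam⁻¹ • (a + (mu, 0))) := by
  rw [Dat.ext_fn, Dat.ext_fn, Finset.mul_sum]
  refine Finset.sum_congr rfl fun i _ => ?_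
  show ((lam ^ nu d : ℝ) : ℂ) * D.κ i * ((kap d : ℂ) *
    qz a ((lam : ℂ) * D.z i + (mu : ℂ) * I) ^ (-(nu d : ℂ))) = _
  have hl' : (lam : ℂ) ≠ 0 := by exact_mod_cast hl.ne'
  have e : qz a ((lam : ℂ) * D.z i + (mu : ℂ) * I) =
      ((lam ^ 2 : ℝ) : ℂ) * qz (lam⁻¹ • (a + (mu, 0))) (D.z i) := by
    unfold qz
    simp only [Prod.smul_fst, Prod.smul_snd, Prod.fst_add, Prod.snd_add, add_zero, smul_eq_mul,
      norm_smul, Real.norm_eq_abs, abs_of_pos (inv_pos.2 hl)]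
    push_cast
    field_simp
    ring
  rw [e, Fb_cpow _ (by positivity) _ _ (slitPlane_ne_zero (qz_slit (D.hz i) _))]
  have e3 : (((lam ^ 2 : ℝ) : ℂ)) ^ (-(nu d : ℂ)) = ((lam ^ (-(2 * nu d)) : ℝ) : ℂ) := by
    have e4 : (-(nu d : ℂ)) = ((-(nu d) : ℝ) : ℂ) := by push_cast; rfl
    rw [e4, ← Complex.ofReal_cpow (by positivity)]
    congr 1
    rw [← Real.rpow_natCast lam 2, ← Real.rpow_mul hl.le]
    congr 1
    push_cast
    ring
  have e5 : (lam ^ nu d : ℝ) * (lam ^ (-(2 * nu d)) : ℝ) = lam ^ (-(nu d)) := by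
    rw [← Real.rpow_add hl]
    congr 1
    ring
  have e6 : ((lam ^ nu d : ℝ) : ℂ) * ((lam ^ (-(2 * nu d)) : ℝ) : ℂ) = ((lam ^ (-(nu d)) : ℝ) : ℂ) := by
    exact_mod_cast e5
  rw [e3, ← e6]
  ring

theorem Dat.int_tr (D : Dat) (lam mu : ℝ) (hl : 0 < lam) :
    ∫ a, ‖coneExt ((D.tr d lam mu hl).fn d) a‖ ^ pe d = ∫ a, ‖coneExt (D.fn d) a‖ ^ pe d := by
  have h1 : ∀ a : Rs d, ‖coneExt ((D.tr d lam mu hl).fn d) a‖ ^ pe d =
      (lam ^ (d + 1))⁻¹ * ‖coneExt (D.fn d) (lam⁻¹ • (a + (mu, 0)))‖ ^ pe d := by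
    intro a
    rw [D.ext_tr, norm_mul, Complex.norm_real, Real.norm_eq_abs,
      abs_of_pos (Real.rpow_pos_of_pos hl _), Real.mul_rpow (by positivity) (norm_nonneg _),
      ← Real.rpow_mul hl.le]
    congr 1
    have : -nu d * pe d = -((d + 1 : ℕ) : ℝ) := by
      have := nu_mul_pe (d := d)
      push_cast
      linarith
    rw [this, Real.rpow_neg hl.le, Real.rpow_natCast]
  simp only [h1]
  rw [integral_const_mul]
  have h2 := integral_add_right_eq_self (μ := (volume : Measure (Rs d)))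
    (fun a => ‖coneExt (D.fn d) (lam⁻¹ • a)‖ ^ pe d) (mu, 0)
  rw [h2]
  have h3 := Measure.integral_comp_smul (volume : Measure (Rs d))
    (fun a => ‖coneExt (D.fn d) a‖ ^ pe d) lam⁻¹
  rw [h3]
  have h4 : Module.finrank ℝ (Rs d) = d + 1 := by
    rw [Module.finrank_prod]
    simp [add_comm]
  rw [h4, smul_eq_mul, inv_pow, inv_inv, abs_of_pos (by positivity), ← mul_assoc,
    inv_mul_cancel₀ (by positivity), one_mul]

/-! ### the core -/

theorem E_eq (D : Dat) (N : ℕ) : E (nu d) N (D.aa d) =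
    ∑ l ∈ Finset.range N, wt (nu d) l * ‖D.aa d l‖ ^ 2 := rfl

theorem wt_pos (l : ℕ) : 0 < wt (nu d) l := inv_pos.2 (cf_pos (nu_pos d) l)

/-- the core inequality for all sums with maximal overlap at `1` -/
theorem Dat.core (hA : RadCoreA (nu d)) (hB : RadCoreB (nu d)) (D : Dat) (h0 : D.aa d 0 = 1)
    (hmax : ∀ w : ℂ, 0 < w.re → ‖D.ov d w‖ ^ 2 * w.re ^ (d - 1) ≤ ‖D.ov d 1‖ ^ 2) :
    ∫ a, ‖(kap d : ℂ)⁻¹ * toM (coneExt (D.fn d)) a‖ ^ pe d ∂(mM d) ≤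
      ((kap d)⁻¹ * 4 ^ nu d * ∫ ξ, ‖D.fn d ξ‖ ^ 2 ∂(sig d)) ^ (1 + 1 / nu d) := by
  set e : ℝ := (kap d)⁻¹ * 4 ^ nu d * ∫ ξ, ‖D.fn d ξ‖ ^ 2 ∂(sig d) with he
  have hν := nu_pos d
  have h2d : (2 : ℕ) ≤ d := two_le d
  have hen := D.energy (d := d)
  rw [← he] at hen
  have hEle : ∀ N, E (nu d) N (D.aa d) ≤ e := fun N => by
    rw [E_eq]
    exact sum_le_hasSum _ (fun l _ => mul_nonneg (wt_pos l).le (sq_nonneg _)) hen
  have hE0 : ∀ N, 0 ≤ E (nu d) N (D.aa d) := fun N =>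
    Finset.sum_nonneg fun l _ => mul_nonneg (wt_pos l).le (sq_nonneg _)
  have hElim : Tendsto (fun N => E (nu d) N (D.aa d)) atTop (𝓝 e) := hen.tendsto_sum_nat
  set f : ℂ → ℂ := fun η => ∑ i, D.κ i * (1 + be (D.z i)) ^ (d - 1) *
      ((1 - be (D.z i) * η) ^ (d - 1))⁻¹ with hf
  have hfs : ∀ η : ℂ, ‖η‖ < 1 → HasSum (fun l => D.aa d l * η ^ l) (f η) := fun η hη =>
    D.hasSum_aa hη
  have hov1 : (2 ^ (d - 1)) ^ 2 * ‖D.ov d 1‖ ^ 2 = 1 := by
    have h1 := congrArg (fun x : ℂ => ‖x‖ ^ 2) (D.ov_one (d := d))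
    rw [h0] at h1
    simp only [norm_mul, norm_pow, Complex.norm_ofNat, norm_one, one_pow, mul_pow] at h1
    exact h1.symm
  have hfm : ∀ η : ℂ, ‖η‖ < 1 → ‖f η‖ ^ 2 * (1 - ‖η‖ ^ 2) ^ (d - 1) ≤ 1 := by
    intro η hη
    have h1 := D.ov_norm (d := d) hη
    rw [hf]
    simp only
    rw [h1, ← hov1]
    exact mul_le_mul_of_nonneg_left (hmax _ (be_re hη)) (by positivity)
  have hsum := D.summable_aa (d := d)
  obtain ⟨h1, h2⟩ := loc_cond (d - 1) (D.aa d) (∑' l, ‖D.aa d l‖)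
    (fun l => hsum.le_tsum l fun j _ => norm_nonneg _) f hfs h0 hfm
  have h2' : ‖D.aa d 2‖ ≤ nu d := by
    have : ((d - 1 : ℕ) : ℝ) = 2 * nu d := by
      rw [two_nu, Nat.cast_sub (by omega)]
      simp
    rw [this] at h2
    linarith
  refine le_of_tendsto (D.lim_V (d := d)) ?_
  have hs0 : 0 ≤ 1 + 1 / nu d := by positivity
  have hfin : ∀ N, V (nu d) N (D.aa d) ≤ E (nu d) N (D.aa d) ^ (1 + 1 / nu d) →
      V (nu d) N (D.aa d) ≤ e ^ (1 + 1 / nu d) := fun N h =>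
    h.trans (Real.rpow_le_rpow (hE0 N) (hEle N) hs0)
  rcases le_or_gt e (7 / 2) with hcase | hcase
  · filter_upwards [eventually_ge_atTop 1] with N hN
    exact hfin N (hA N _ hN h0 h1 h2' ((hEle N).trans hcase))
  · have ev1 : ∀ᶠ N in atTop, 3 < E (nu d) N (D.aa d) :=
      hElim.eventually_const_lt (by linarith)
    have ev2 : ∀ᶠ N in atTop, ∑' l, ‖D.aa d (l + N)‖ < 1 / 100 := by
      have := tendsto_sum_nat_add fun l => ‖D.aa d l‖
      exact this.eventually_lt_const (by norm_num)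
    filter_upwards [ev1, ev2] with N hN1 hN2
    refine hfin N (hB N _ (fun z hz => ?_) hN1.le)
    have h3 := (hasSum_nat_add_iff' (f := fun l => D.aa d l * z ^ l) N).2 (hfs z hz)
    have h4 : ‖f z - ∑ l ∈ Finset.range N, D.aa d l * z ^ l‖ ≤ 1 / 100 := by
      refine le_trans ?_ hN2.le
      rw [← h3.tsum_eq]
      refine tsum_of_norm_bounded ((summable_nat_add_iff N).2 hsum).hasSum fun l => ?_
      rw [norm_mul, norm_pow]
      refine mul_le_of_le_one_right (norm_nonneg _) ?_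
      exact pow_le_one₀ (norm_nonneg _) hz.le
    have h5 : 0 ≤ 1 - ‖z‖ ^ 2 := by nlinarith [norm_nonneg z]
    have h6 : (1 - ‖z‖ ^ 2) ^ (2 * nu d) = (1 - ‖z‖ ^ 2) ^ (d - 1) := by
      have : 2 * nu d = ((d - 1 : ℕ) : ℝ) := by
        rw [two_nu, Nat.cast_sub (by omega)]
        simp
      rw [this, Real.rpow_natCast]
    rw [h6]
    set u : ℝ := (1 - ‖z‖ ^ 2) ^ (d - 1) with hu
    have hu0 : 0 ≤ u := pow_nonneg h5 _
    have hu1 : u ≤ 1 := pow_le_one₀ h5 (by nlinarith [norm_nonneg z])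
    set S : ℂ := ∑ l ∈ Finset.range N, D.aa d l * z ^ l with hS
    have h7 : ‖S‖ ≤ ‖f z‖ + 1 / 100 := by
      have := norm_sub_le (f z) (f z - S)
      rw [sub_sub_cancel] at this
      linarith
    have h8 := hfm z hz
    rw [← hu] at h8
    have h9 : ‖S‖ ^ 2 ≤ (‖f z‖ + 1 / 100) ^ 2 := pow_le_pow_left₀ (norm_nonneg _) h7 2
    have h10 : (‖f z‖ * u) ^ 2 ≤ 1 := by
      calc (‖f z‖ * u) ^ 2 = (‖f z‖ ^ 2 * u) * u := by ring
        _ ≤ 1 * 1 := mul_le_mul h8 hu1 hu0 zero_le_one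
        _ = 1 := one_mul _
    have h11 : ‖f z‖ * u ≤ 1 := by
      have := abs_le_of_sq_le_sq' (a := ‖f z‖ * u) (b := 1) (by rw [one_pow]; exact h10) zero_le_one
      exact this.2
    calc ‖S‖ ^ 2 * u ≤ (‖f z‖ + 1 / 100) ^ 2 * u := mul_le_mul_of_nonneg_right h9 hu0
      _ = ‖f z‖ ^ 2 * u + 2 / 100 * (‖f z‖ * u) + 1 / 10000 * u := by ring
      _ ≤ 1 + 2 / 100 * 1 + 1 / 10000 * 1 := by gcongr
      _ ≤ 21 / 20 := by norm_num

end Pool.Agent.ConeG.Rad
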