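import Pool.Agent.Work.MP_b0b133_an.R.StarLe
import Pool.Agent.Work.MP_b0b133_an.R.Near

/-!
# The pointwise inequality in the form needed by `R/Near.lean`
-/

set_option autoImplicit false
open Real Set

namespace Pool.Agent.ConeG.Rad.S0

open Pool.Agent.ConeRadial (kapN)

/-- `κ_ε` -/
noncomputable def kapE (ε w : ℝ) : ℝ := (w ^ (2 * ε) - 1) / ε - w ^ (2 * ε) - 1 +
  w ^ (2 * ε) * (49 / 20 / w - 2 / 5 / w ^ 2)

/-- the pointwise inequality -/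
def StarAt (ε w u : ℝ) : Prop := u * (u ^ ε - 1) / ε ≤
  (1 + kapE ε w) * (u - 1) + w ^ (2 * ε) / w ^ 2 * (u - 1) ^ 2 - kapE ε w * log u

theorem kapE_nonneg (ε w : ℝ) (hε : 0 < ε) (hε2 : ε ≤ 2 / 5) (hw : 1 ≤ w) : 0 ≤ kapE ε w := by
  have hw0 : 0 < w := by linarith
  have ha : w ^ (2 * ε) = exp (ε * (2 * log w)) := by
    rw [Real.rpow_def_of_pos hw0]
    ring_nf
  have hk0 : 0 ≤ 49 / 20 / w - 2 / 5 / w ^ 2 := by
    have h1 : 49 / 20 / w - 2 / 5 / w ^ 2 = (49 / 20 * w - 2 / 5) / w ^ 2 := by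
      field_simp
    rw [h1]
    apply div_nonneg _ (by positivity)
    linarith
  have hM0 : 0 ≤ 2 * log w := by
    have := Real.log_nonneg hw
    linarith
  have hkap := kap_ge ε (2 * log w) _ hε (by linarith) hM0 hk0
  rw [← ha] at hkap
  have h1 : 0 ≤ 2 * log w + (49 / 20 / w - 2 / 5 / w ^ 2) - 2 := by
    have h2 := kp_nonneg w hw
    unfold kp at h2
    linarith
  have h2 : 0 ≤ (2 * log w) ^ 2 / 2 + (49 / 20 / w - 2 / 5 / w ^ 2 - 1) * (2 * log w) +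
      ε * ((49 / 20 / w - 2 / 5 / w ^ 2 - 1) * (2 * log w) ^ 2 / 2) := by
    rcases le_total w (11 / 5) with h | h
    · have h3 : 0 ≤ 49 / 20 / w - 2 / 5 / w ^ 2 - 1 := by
        have := k_ge_one w hw h
        linarith
      positivity
    · have := Q_ge ε w hε hε2 h
      linarith
  have h3 := mul_nonneg hε.le h2
  unfold kapE
  linarith

/-- the substitution `w = (m / s²)^{ν/2}` -/
theorem subst_w {ν m s : ℝ} (hν : 5 / 2 ≤ ν) (hm : 1 ≤ m) (hs : 0 < s) (hs1 : s ≤ 1) :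
    ∃ w : ℝ, 1 ≤ w ∧ w ^ (2 * (1 / ν)) = m / s ^ 2 ∧
      m ^ (1 - ν / 2) * s ^ ν / s ^ 2 = m / s ^ 2 / w ∧
      m ^ (-(ν - 1)) * s ^ (2 * ν - 2) = m / s ^ 2 / w ^ 2 := by
  have hm0 : 0 < m := by linarith
  have hν0 : 0 < ν := by linarith
  have ha0 : 0 < m / s ^ 2 := by positivity
  have ha1 : 1 ≤ m / s ^ 2 := by
    rw [one_le_div (by positivity)]
    nlinarith
  have e1 : (m / s ^ 2) ^ (ν / 2) = m ^ (ν / 2) / s ^ ν := by
    rw [Real.div_rpow hm0.le (by positivity), ← Real.rpow_natCast s 2, ← Real.rpow_mul hs.le]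
    congr 2
    push_cast
    ring
  have hmν := Real.rpow_pos_of_pos hm0 (ν / 2)
  have hsν := Real.rpow_pos_of_pos hs ν
  refine ⟨(m / s ^ 2) ^ (ν / 2), Real.one_le_rpow ha1 (by positivity), ?_, ?_, ?_⟩
  · rw [← Real.rpow_mul ha0.le]
    have : ν / 2 * (2 * (1 / ν)) = 1 := by
      field_simp
    rw [this, Real.rpow_one]
  · rw [e1, Real.rpow_sub hm0, Real.rpow_one]
    field_simp
  · have e2 : m ^ (-(ν - 1)) = m / (m ^ (ν / 2)) ^ 2 := by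
      rw [← Real.rpow_natCast, ← Real.rpow_mul hm0.le]
      have : -(ν - 1) = 1 - ν / 2 * ((2 : ℕ) : ℝ) := by
        push_cast
        ring
      rw [this, Real.rpow_sub hm0, Real.rpow_one]
    have e3 : s ^ (2 * ν - 2) = (s ^ ν) ^ 2 / s ^ 2 := by
      have h1 : (s ^ ν) ^ 2 = s ^ (2 * ν) := by
        rw [← Real.rpow_natCast (s ^ ν) 2, ← Real.rpow_mul hs.le]
        congr 1
        push_cast
        ring
      rw [h1, Real.rpow_sub hs, Real.rpow_two]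
    rw [e1, e2, e3]
    field_simp

theorem kapN_eq {ν m s w : ℝ} (hν : 5 / 2 ≤ ν) (hs : 0 < s) (hw : 1 ≤ w)
    (h1 : w ^ (2 * (1 / ν)) = m / s ^ 2)
    (h2 : m ^ (1 - ν / 2) * s ^ ν / s ^ 2 = m / s ^ 2 / w)
    (h3 : m ^ (-(ν - 1)) * s ^ (2 * ν - 2) = m / s ^ 2 / w ^ 2) :
    kapN ν ((ν - 1) * m) (49 / 20 * m ^ (1 - ν / 2)) (2 / 5) (m ^ (-(ν - 1))) s =
      kapE (1 / ν) w := by
  have hν0 : ν ≠ 0 := by linarith
  have hw0 : w ≠ 0 := by linarith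
  have hs0 := hs.ne'
  unfold kapN kapE
  rw [h1]
  have e1 : ((ν - 1) * m + 49 / 20 * m ^ (1 - ν / 2) * s ^ ν) / s ^ 2 =
      (ν - 1) * (m / s ^ 2) + 49 / 20 * (m ^ (1 - ν / 2) * s ^ ν / s ^ 2) := by
    ring
  rw [e1, h2, mul_assoc (2 / 5 : ℝ) _ _, h3]
  generalize m / s ^ 2 = a
  field_simp
  ring

/-- **the coefficient is nonnegative** -/
theorem star_hk {ν m s : ℝ} (hν : 5 / 2 ≤ ν) (hm : 1 ≤ m) (hs : 0 < s) (hs1 : s ≤ 1) :
    0 ≤ kapN ν ((ν - 1) * m) (49 / 20 * m ^ (1 - ν / 2)) (2 / 5) (m ^ (-(ν - 1))) s := by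
  obtain ⟨w, hw, h1, h2, h3⟩ := subst_w hν hm hs hs1
  rw [kapN_eq hν hs hw h1 h2 h3]
  apply kapE_nonneg _ _ (by positivity) _ hw
  rw [div_le_div_iff₀ (by linarith) (by norm_num)]
  linarith

/-- the pointwise inequality from the one for `w, ε, u` -/
theorem star_hin_of
    (hge : ∀ ε w u : ℝ, 0 < ε → ε ≤ 2 / 5 → 1 ≤ w → 1 ≤ u → StarAt ε w u)
    {ν m s u : ℝ} (hν : 5 / 2 ≤ ν) (hm : 1 ≤ m) (hs : 0 < s) (hs1 : s ≤ 1) (hu : 0 < u) :
    ν * (u * (u ^ (1 / ν) - 1)) ≤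
      (1 + kapN ν ((ν - 1) * m) (49 / 20 * m ^ (1 - ν / 2)) (2 / 5) (m ^ (-(ν - 1))) s) * (u - 1) +
        m ^ (-(ν - 1)) * s ^ (2 * ν - 2) * (u - 1) ^ 2 -
        kapN ν ((ν - 1) * m) (49 / 20 * m ^ (1 - ν / 2)) (2 / 5) (m ^ (-(ν - 1))) s * log u := by
  obtain ⟨w, hw, h1, h2, h3⟩ := subst_w hν hm hs hs1
  have hν0 : 0 < ν := by linarith
  have hε : 0 < 1 / ν := by positivity
  have hε2 : 1 / ν ≤ 2 / 5 := by
    rw [div_le_div_iff₀ (by linarith) (by norm_num)]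
    linarith
  have h : StarAt (1 / ν) w u := by
    rcases le_total u 1 with h | h
    · exact star_le (1 / ν) w u hε hε2 hw hu h
    · exact hge (1 / ν) w u hε hε2 hw h
  rw [kapN_eq hν hs hw h1 h2 h3, h3]
  unfold StarAt at h
  rw [h1] at h
  refine le_trans (le_of_eq ?_) h
  field_simp

end Pool.Agent.ConeG.Rad.S0
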