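import Pool.Agent.Work.MP_b0b133_an.R.StarZero

/-!
# The pointwise inequality for `ε > 0`, `u ≤ 1`
-/

set_option autoImplicit false
open Real Set

namespace Pool.Agent.ConeG.Rad.S0

/-- `exp (-y) ≤ 1 - y + y² / 2` -/
theorem exp_neg_le (y : ℝ) (hy : 0 ≤ y) : exp (-y) ≤ 1 - y + y ^ 2 / 2 := by
  have h1 := Real.quadratic_le_exp_of_nonneg hy
  have h2 : exp (-y) * exp y = 1 := by
    rw [← Real.exp_add]
    simp
  have h3 : 0 < 1 + y + y ^ 2 / 2 := by positivity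
  have h4 : exp (-y) * (1 + y + y ^ 2 / 2) ≤ 1 := by
    have := mul_le_mul_of_nonneg_left h1 (Real.exp_pos (-y)).le
    linarith
  have h5 : 1 ≤ (1 - y + y ^ 2 / 2) * (1 + y + y ^ 2 / 2) := by
    nlinarith [sq_nonneg (y ^ 2)]
  by_contra hcon
  push Not at hcon
  nlinarith [mul_lt_mul_of_pos_right hcon h3]

/-- a function with nonpositive derivative on `(0, 1)` which vanishes at `1` is nonnegative -/
theorem nonneg_of_deriv {f f' : ℝ → ℝ} (hf : ∀ x : ℝ, 0 < x → HasDerivAt f (f' x) x)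
    (hf' : ∀ x : ℝ, 0 < x → x < 1 → f' x ≤ 0) (h1 : f 1 = 0) (v : ℝ) (hv : 0 < v) (hv1 : v ≤ 1) :
    0 ≤ f v := by
  have hanti : AntitoneOn f (Ioc 0 1) := by
    apply antitoneOn_of_deriv_nonpos (convex_Ioc 0 1)
    · exact fun x hx => (hf x hx.1).continuousAt.continuousWithinAt
    · intro x hx
      rw [interior_Ioc] at hx
      exact (hf x hx.1).differentiableAt.differentiableWithinAt
    · intro x hx
      rw [interior_Ioc] at hx
      rw [(hf x hx.1).deriv]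
      exact hf' x hx.1 hx.2
  have h := hanti ⟨hv, hv1⟩ ⟨one_pos, le_refl 1⟩ hv1
  rwa [h1] at h

/-- `√u (log u)² / 2 ≤ u - 1 - log u` on `(0, 1]`, with `u = v²` -/
theorem sq_log_le (v : ℝ) (hv : 0 < v) (hv1 : v ≤ 1) :
    2 * v * (log v) ^ 2 ≤ v ^ 2 - 1 - 2 * log v := by
  -- the derivative
  have hg : ∀ x : ℝ, 0 < x → x ≤ 1 → x - 1 / x - (log x) ^ 2 - 2 * log x ≤ 0 := by
    intro x hx hx1
    have h := nonneg_of_deriv (f := fun x => -(x - x⁻¹ - (log x) ^ 2 - 2 * log x))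
      (f' := fun x => -(1 - -(x ^ 2)⁻¹ - 2 * log x * x⁻¹ - 2 * x⁻¹)) ?_ ?_ ?_ x hx hx1
    · rw [one_div]
      linarith
    · intro x hx
      have h1 := Real.hasDerivAt_log hx.ne'
      have h2 := (((hasDerivAt_id x).sub (hasDerivAt_inv hx.ne')).sub (h1.pow 2)).sub
        (h1.const_mul 2)
      refine h2.neg.congr_deriv ?_
      norm_num
    · intro x hx hx1
      have h1 : log x ≤ 0 := Real.log_nonpos hx.le hx1.le
      have h2 : 0 < x⁻¹ := inv_pos.2 hx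
      have h3 : (x ^ 2)⁻¹ = x⁻¹ ^ 2 := by rw [inv_pow]
      rw [h3]
      nlinarith [sq_nonneg (1 - x⁻¹), mul_nonneg (neg_nonneg.2 h1) h2.le]
    · simp
  have h := nonneg_of_deriv (f := fun x => x ^ 2 - 1 - 2 * log x - 2 * x * (log x) ^ 2)
    (f' := fun x => 2 * (x - 1 / x - (log x) ^ 2 - 2 * log x)) ?_ ?_ ?_ v hv hv1
  · linarith
  · intro x hx
    have h1 := Real.hasDerivAt_log hx.ne'
    have h2 := (((hasDerivAt_pow 2 x).sub_const 1).sub (h1.const_mul 2)).sub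
      (((hasDerivAt_id x).const_mul 2).mul (h1.pow 2))
    refine h2.congr_deriv ?_
    have := hx.ne'
    simp only [id, Pi.pow_apply]
    norm_num
    field_simp
    ring
  · intro x hx hx1
    have := hg x hx hx1.le
    linarith
  · simp

/-- `log u ≤ (u - 1)(u + 5)/(4u + 2)` for `u ≤ 1` -/
theorem log_le_pade (u : ℝ) (hu : 0 < u) (hu1 : u ≤ 1) :
    (4 * u + 2) * log u ≤ (u - 1) * (u + 5) := by
  have h := nonneg_of_deriv (f := fun u => (u - 1) * (u + 5) / (4 * u + 2) - log u)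
    (f' := fun u => 4 * (u - 1) ^ 3 / (u * (4 * u + 2) ^ 2)) ?_ ?_ ?_ u hu hu1
  · have h2 : 0 < 4 * u + 2 := by positivity
    have h3 := mul_nonneg h2.le h
    have h4 : (4 * u + 2) * ((u - 1) * (u + 5) / (4 * u + 2) - log u) =
        (u - 1) * (u + 5) - (4 * u + 2) * log u := by
      field_simp
    linarith
  · intro x hx
    have hk : 4 * x + 2 ≠ 0 := by positivity
    have h1 := (((hasDerivAt_id x).sub_const 1).mul ((hasDerivAt_id x).add_const 5)).div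
      (((hasDerivAt_id x).const_mul 4).add_const 2) hk
    refine (h1.sub (Real.hasDerivAt_log hx.ne')).congr_deriv ?_
    have := hx.ne'
    simp only [id, Pi.mul_apply]
    norm_num
    field_simp
    ring
  · intro x hx hx1
    apply div_nonpos_of_nonpos_of_nonneg
    · have : 0 ≤ (1 - x) ^ 3 := pow_nonneg (by linarith) 3
      nlinarith
    · positivity
  · simp

/-- `B ≤ (u + 2) / 3 * A` for `u ≤ 1` -/
theorem B_le (u : ℝ) (hu : 0 < u) (hu1 : u ≤ 1) :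
    u * log u - u + 1 ≤ (u + 2) / 3 * (u - 1 - log u) := by
  have h := log_le_pade u hu hu1
  nlinarith

theorem A_nonneg (u : ℝ) (hu : 0 < u) : 0 ≤ u - 1 - log u := by
  have := Real.log_le_sub_one_of_pos hu
  linarith

/-- lower bound of `κ_ε` -/
theorem kap_ge (ε M k : ℝ) (hε : 0 < ε) (hε1 : ε ≤ 1) (hM : 0 ≤ M) (hk : 0 ≤ k) :
    M + k - 2 + ε * (M ^ 2 / 2 + (k - 1) * M) + ε ^ 2 * ((k - 1) * M ^ 2 / 2) ≤
      (exp (ε * M) - 1) / ε - exp (ε * M) - 1 + exp (ε * M) * k := by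
  have hx : 0 ≤ ε * M := by positivity
  have h1 := Real.quadratic_le_exp_of_nonneg hx
  have h2 : (exp (ε * M) - 1) / ε - exp (ε * M) - 1 + exp (ε * M) * k -
      (M + k - 2 + ε * (M ^ 2 / 2 + (k - 1) * M) + ε ^ 2 * ((k - 1) * M ^ 2 / 2)) =
      (exp (ε * M) - (1 + ε * M + (ε * M) ^ 2 / 2)) * ((1 - ε) / ε + k) := by
    have := hε.ne'
    generalize exp (ε * M) = E
    field_simp
    ring
  have h3 : 0 ≤ (1 - ε) / ε := div_nonneg (by linarith) hε.le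
  have h4 : 0 ≤ (exp (ε * M) - (1 + ε * M + (ε * M) ^ 2 / 2)) * ((1 - ε) / ε + k) := by
    apply mul_nonneg <;> linarith
  linarith

/-- `M = 2 log w ≥ 4 (w - 1)/(w + 1)` -/
theorem M_ge (w : ℝ) (hw : 1 ≤ w) : 4 * (w - 1) / (w + 1) ≤ 2 * log w := by
  have h := log_ge_from 1 w one_pos hw
  rw [Real.log_one] at h
  have : 4 * (w - 1) / (w + 1) = 2 * (0 + 2 * (w - 1) / (w + 1)) := by ring
  rw [this]
  linarith

theorem P7 (w : ℝ) (h1 : 1 ≤ w) (h2 : w ≤ 11 / 5) :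
    0 ≤ 16/125 + 73/375 * w - 6947/1125 * w ^ 2 + 26363/1500 * w ^ 3 - 98593/4500 * w ^ 4 +
      1907/180 * w ^ 5 + 69/100 * w ^ 6 - 229/225 * w ^ 7 := by
  have key : ∀ t s : ℝ, 0 ≤ t → 0 ≤ s →
      0 ≤ 3125/139968 * s ^ 7 + 79375/69984 * (t * s ^ 6) + 60425/5832 * (t ^ 2 * s ^ 5) +
        2964065/69984 * (t ^ 3 * s ^ 4) + 12745171/139968 * (t ^ 4 * s ^ 3) +
        73999/729 * (t ^ 5 * s ^ 2) + 532948/10935 * (t ^ 6 * s) + 227768/54675 * t ^ 7 := by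
    intro t s ht hs
    positivity
  have h := key (w - 1) (11 / 5 - w) (by linarith) (by linarith)
  refine h.trans (le_of_eq ?_)
  ring

theorem P4 (w : ℝ) (h1 : 11 / 5 ≤ w) (h2 : w ≤ 10) :
    0 ≤ 8/25 + 3/5 * w - 269/25 * w ^ 2 + 151/25 * w ^ 3 - 1/5 * w ^ 4 := by
  have key : ∀ t s : ℝ, 0 ≤ t → 0 ≤ s →
      0 ≤ 5744/2313441 * s ^ 4 + 905566/11567205 * (t * s ^ 3) + 464902/771147 * (t ^ 2 * s ^ 2) +
        3538475/2313441 * (t ^ 3 * s) + 1856450/2313441 * t ^ 4 := by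
    intro t s ht hs
    positivity
  have h := key (w - 11 / 5) (10 - w) (by linarith) (by linarith)
  refine h.trans (le_of_eq ?_)
  ring

/-- the linear coefficient for `w ≥ 11/5` -/
theorem Q_ge (ε w : ℝ) (hε : 0 < ε) (hε2 : ε ≤ 2 / 5) (hw : 11 / 5 ≤ w) :
    1 ≤ (2 * log w) ^ 2 / 2 + (49 / 20 / w - 2 / 5 / w ^ 2 - 1) * (2 * log w) +
      ε * ((49 / 20 / w - 2 / 5 / w ^ 2 - 1) * (2 * log w) ^ 2 / 2) := by
  have hw0 : 0 < w := by linarith
  set M := 2 * log w with hM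
  set κ := 1 - (49 / 20 / w - 2 / 5 / w ^ 2) with hκ
  have hM0 : 0 ≤ M := by
    rw [hM]
    have := Real.log_nonneg (show 1 ≤ w by linarith)
    linarith
  have h0 : (49 / 20 / w - 2 / 5 / w ^ 2 - 1) = -κ := by
    rw [hκ]
    ring
  rw [h0]
  have hκ1 : κ ≤ 1 := by
    rw [hκ]
    have h1 : 49 / 20 / w - 2 / 5 / w ^ 2 = (49 / 20 * w - 2 / 5) / w ^ 2 := by
      field_simp
    rw [h1]
    have : 0 ≤ (49 / 20 * w - 2 / 5) / w ^ 2 := by
      apply div_nonneg _ (by positivity)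
      linarith
    linarith
  have hm : 3 / 2 ≤ 4 * (w - 1) / (w + 1) := by
    rw [div_le_div_iff₀ (by norm_num) (by linarith)]
    linarith
  have hMm := M_ge w (by linarith)
  rw [← hM] at hMm
  -- reduce to `ε = 2/5`
  suffices hq : 1 ≤ M ^ 2 / 2 ∧ 1 ≤ M ^ 2 / 2 - κ * (M + M ^ 2 / 5) by
    rcases le_total κ 0 with hk | hk
    · have : 0 ≤ -κ * M + ε * (-κ * M ^ 2 / 2) := by
        have h1 : 0 ≤ -κ * M := mul_nonneg (by linarith) hM0
        have h2 : 0 ≤ -κ * M ^ 2 / 2 := by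
          have := mul_nonneg (neg_nonneg.2 hk) (sq_nonneg M)
          linarith
        positivity
      linarith [hq.1]
    · have h1 : ε * (κ * M ^ 2 / 2) ≤ 2 / 5 * (κ * M ^ 2 / 2) := by
        apply mul_le_mul_of_nonneg_right hε2
        positivity
      nlinarith [hq.2]
  constructor
  · nlinarith
  rcases le_total w 10 with h | h
  · set m := 4 * (w - 1) / (w + 1) with hm'
    have h1 : κ ≤ 15 / 16 := by
      rw [hκ]
      have h1 : 49 / 20 / w - 2 / 5 / w ^ 2 - 1 / 16 = ((49 / 20 * w - 2 / 5) - w ^ 2 / 16) / w ^ 2 := by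
        field_simp
      have : 0 ≤ ((49 / 20 * w - 2 / 5) - w ^ 2 / 16) / w ^ 2 := by
        apply div_nonneg _ (by positivity)
        nlinarith
      linarith
    have h2 : 0 ≤ (M - m) * (3 / 2 - 8 / 5 * κ) := mul_nonneg (by linarith) (by linarith)
    have h3 : 0 ≤ (M - m) * ((M + m - 3) * (1 / 2 - κ / 5)) := by
      apply mul_nonneg (by linarith)
      apply mul_nonneg <;> linarith
    have h4 : m ^ 2 / 2 - κ * (m + m ^ 2 / 5) - 1 =
        (8/25 + 3/5 * w - 269/25 * w ^ 2 + 151/25 * w ^ 3 - 1/5 * w ^ 4) /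
          (w ^ 2 * (w + 1) ^ 2) := by
      rw [hκ, hm']
      have : w + 1 ≠ 0 := by positivity
      field_simp
      ring
    have h5 : 0 ≤ m ^ 2 / 2 - κ * (m + m ^ 2 / 5) - 1 := by
      rw [h4]
      have := P4 w hw h
      positivity
    nlinarith
  · have h1 : 21 / 10 ≤ log w := by
      have h2 : log 10 ≤ log w := Real.log_le_log (by norm_num) h
      have h3 : log (10 : ℝ) = 3 * log 2 + log (5 / 4) := by
        have : (10 : ℝ) = 2 ^ 3 * (5 / 4) := by norm_num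
        rw [this, Real.log_mul (by norm_num) (by norm_num), Real.log_pow]
        norm_num
      have h4 := Real.log_two_gt_d9
      have h5 := Real.le_log_one_add_of_nonneg (x := 1 / 4) (by norm_num)
      norm_num at h5
      linarith
    have h2 : 42 / 10 ≤ M := by
      rw [hM]
      linarith
    have h3 : κ * (M + M ^ 2 / 5) ≤ 1 * (M + M ^ 2 / 5) := by
      apply mul_le_mul_of_nonneg_right hκ1
      positivity
    nlinarith

/-- the rational bounds of the two coefficients -/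
theorem c_bounds (w : ℝ) (hw : 1 ≤ w) (hw2 : w ≤ 11 / 5) (m be k : ℝ)
    (hm : m = 4 * (w - 1) / (w + 1)) (hbe : be = 1 / w ^ 2)
    (hk : k = 49 / 20 / w - 2 / 5 / w ^ 2) :
    0 < m + k - 2 + 2 / 5 * (m ^ 2 / 2 + (k - 1) * m) - 2 / 3 * (1 - be * (1 + 2 / 5 * m)) ∧
    0 < 4 / 3 * (be * (1 + 2 / 5 * m)) - 1 / 3 ∧
    1 / 25 ≤ (m + k - 2 + 2 / 5 * (m ^ 2 / 2 + (k - 1) * m) -
      2 / 3 * (1 - be * (1 + 2 / 5 * m))) * (4 / 3 * (be * (1 + 2 / 5 * m)) - 1 / 3) := by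
  obtain ⟨t, rfl⟩ : ∃ t : ℝ, w = 1 + t := ⟨w - 1, by ring⟩
  have ht0 : 0 ≤ t := by linarith
  have hne : 1 + t + 1 ≠ 0 := by positivity
  have e1 : m + k - 2 + 2 / 5 * (m ^ 2 / 2 + (k - 1) * m) -
      2 / 3 * (1 - be * (1 + 2 / 5 * m)) =
      (1/5 + 54/25 * t + 1571/300 * t ^ 2 + 637/100 * t ^ 3 + 44/15 * t ^ 4) /
        ((1 + t) ^ 2 * (1 + t + 1) ^ 2) := by
    rw [hm, hbe, hk]
    field_simp
    ring
  have e2 : 4 / 3 * (be * (1 + 2 / 5 * m)) - 1 / 3 = (2 + 9/5 * t - 4/3 * t ^ 2 - 1/3 * t ^ 3) /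
        ((1 + t) ^ 2 * (1 + t + 1)) := by
    rw [hm, hbe]
    field_simp
    ring
  rw [e1, e2]
  refine ⟨by positivity, ?_, ?_⟩
  · have h2 : 0 < 2 + 9/5 * t - 4/3 * t ^ 2 - 1/3 * t ^ 3 := by
      have h3 : t ≤ 6 / 5 := by linarith
      nlinarith [mul_nonneg ht0 (sub_nonneg.2 h3), mul_nonneg (mul_nonneg ht0 ht0) (sub_nonneg.2 h3)]
    positivity
  · have h1 : (1/5 + 54/25 * t + 1571/300 * t ^ 2 + 637/100 * t ^ 3 + 44/15 * t ^ 4) /
        ((1 + t) ^ 2 * (1 + t + 1) ^ 2) * ((2 + 9/5 * t - 4/3 * t ^ 2 - 1/3 * t ^ 3) /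
        ((1 + t) ^ 2 * (1 + t + 1))) - 1 / 25 = (16/125 + 73/375 * (1 + t) -
        6947/1125 * (1 + t) ^ 2 + 26363/1500 * (1 + t) ^ 3 - 98593/4500 * (1 + t) ^ 4 +
        1907/180 * (1 + t) ^ 5 + 69/100 * (1 + t) ^ 6 - 229/225 * (1 + t) ^ 7) /
        ((1 + t) ^ 4 * (1 + t + 1) ^ 3) := by
      field_simp
      ring
    have h2 := P7 (1 + t) hw hw2
    rw [← sub_nonneg, h1]
    positivity

/-- `k ≥ 1` for `w ≤ 11/5` -/
theorem k_ge_one (w : ℝ) (hw : 1 ≤ w) (hw2 : w ≤ 11 / 5) :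
    1 ≤ 49 / 20 / w - 2 / 5 / w ^ 2 := by
  have h1 : 49 / 20 / w - 2 / 5 / w ^ 2 - 1 = ((49 / 20 * w - 2 / 5) - w ^ 2) / w ^ 2 := by
    have : w ≠ 0 := by linarith
    field_simp
  have : 0 ≤ ((49 / 20 * w - 2 / 5) - w ^ 2) / w ^ 2 := by
    apply div_nonneg _ (by positivity)
    nlinarith
  linarith

/-- the quadratic in `v` -/
theorem quad_nonneg (w v : ℝ) (hw : 1 ≤ w) (hw2 : w ≤ 11 / 5) (M be k : ℝ)
    (hM : M = 2 * log w) (hbe : be = 1 / w ^ 2)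
    (hk : k = 49 / 20 / w - 2 / 5 / w ^ 2) :
    0 ≤ M + k - 2 + 2 / 5 * (M ^ 2 / 2 + (k - 1) * M) - 2 / 3 * (1 - be * (1 + 2 / 5 * M)) +
      (4 / 3 * (be * (1 + 2 / 5 * M)) - 1 / 3) * v ^ 2 - 2 / 5 * v ∧
      be * (1 + 2 / 5 * M) ≤ 1 := by
  have hw0 : 0 < w := by linarith
  have hMm := M_ge w hw
  rw [← hM] at hMm
  have hM0 : 0 ≤ M := by
    have := Real.log_nonneg hw
    rw [hM]
    linarith
  have hk1 : 1 ≤ k := by
    rw [hk]
    exact k_ge_one w hw hw2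
  have hbe0 : 0 < be := by
    rw [hbe]
    positivity
  have hb' : be * (1 + 2 / 5 * M) ≤ 1 := by
    have h1 := Real.log_le_sub_one_of_pos hw0
    have h2 : be * (1 + 2 / 5 * M) = (1 + 2 / 5 * M) / w ^ 2 := by
      rw [hbe]
      ring
    rw [h2, div_le_one (by positivity), hM]
    nlinarith
  refine ⟨?_, hb'⟩
  have hm0 : 0 ≤ 4 * (w - 1) / (w + 1) := by
    apply div_nonneg <;> linarith
  obtain ⟨hc0pos, hc2pos, hprod⟩ := c_bounds w hw hw2 (4 * (w - 1) / (w + 1)) be k rfl hbe hk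
  generalize 4 * (w - 1) / (w + 1) = m at *
  have h1 : m ^ 2 ≤ M ^ 2 := pow_le_pow_left₀ hm0 hMm 2
  have h2 : (k - 1) * m ≤ (k - 1) * M := mul_le_mul_of_nonneg_left hMm (by linarith)
  have h3 : be * (1 + 2 / 5 * m) ≤ be * (1 + 2 / 5 * M) :=
    mul_le_mul_of_nonneg_left (by linarith) hbe0.le
  have hc0C0 : m + k - 2 + 2 / 5 * (m ^ 2 / 2 + (k - 1) * m) -
      2 / 3 * (1 - be * (1 + 2 / 5 * m)) ≤ M + k - 2 + 2 / 5 * (M ^ 2 / 2 + (k - 1) * M) -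
      2 / 3 * (1 - be * (1 + 2 / 5 * M)) := by linarith
  have hc2C2 : 4 / 3 * (be * (1 + 2 / 5 * m)) - 1 / 3 ≤
      4 / 3 * (be * (1 + 2 / 5 * M)) - 1 / 3 := by linarith
  generalize m + k - 2 + 2 / 5 * (m ^ 2 / 2 + (k - 1) * m) -
      2 / 3 * (1 - be * (1 + 2 / 5 * m)) = c0 at *
  generalize M + k - 2 + 2 / 5 * (M ^ 2 / 2 + (k - 1) * M) -
      2 / 3 * (1 - be * (1 + 2 / 5 * M)) = C0 at *
  generalize 4 / 3 * (be * (1 + 2 / 5 * m)) - 1 / 3 = c2 at *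
  generalize 4 / 3 * (be * (1 + 2 / 5 * M)) - 1 / 3 = C2 at *
  have hprod2 : 1 / 25 ≤ C0 * C2 :=
    hprod.trans (mul_le_mul hc0C0 hc2C2 hc2pos.le (by linarith))
  have hC0pos : 0 < C0 := by linarith
  have h1 : 0 ≤ C0 * (C0 + C2 * v ^ 2 - 2 / 5 * v) := by
    nlinarith [sq_nonneg (C0 - v / 5), mul_le_mul_of_nonneg_right hprod2 (sq_nonneg v)]
  exact nonneg_of_mul_nonneg_right h1 hC0pos

/-- the endpoint `ε = 2/5` for `w ≤ 11/5` -/
theorem G_nonneg (w u v : ℝ) (hw : 1 ≤ w) (hw2 : w ≤ 11 / 5) (hv : 0 < v) (hv1 : v ≤ 1)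
    (hu : u = v ^ 2) (M be k : ℝ) (hM : M = 2 * log w) (hbe : be = 1 / w ^ 2)
    (hk : k = 49 / 20 / w - 2 / 5 / w ^ 2) :
    0 ≤ (M + k - 2) * (u - 1 - log u) + be * (u - 1) ^ 2 -
      (u * log u - u + 1) + 2 / 5 * ((M ^ 2 / 2 + (k - 1) * M) * (u - 1 - log u) +
        M * (be * (u - 1) ^ 2) - v * (u - 1 - log u)) := by
  have hw0 : 0 < w := by linarith
  have hu0 : 0 < u := by rw [hu]; positivity
  have hu1 : u ≤ 1 := by
    rw [hu]
    nlinarith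
  have hB := B_le u hu0 hu1
  have hA := A_nonneg u hu0
  have hS : (u - 1) ^ 2 = (u * log u - u + 1) + u * (u - 1 - log u) := by ring
  rw [hS]
  obtain ⟨hquad, hb'⟩ := quad_nonneg w v hw hw2 M be k hM hbe hk
  generalize u - 1 - log u = A at *
  generalize u * log u - u + 1 = B at *
  have hA2 := mul_nonneg hA hquad
  have hB2 : (1 - be * (1 + 2 / 5 * M)) * B ≤
      (1 - be * (1 + 2 / 5 * M)) * ((u + 2) / 3 * A) :=
    mul_le_mul_of_nonneg_left hB (by linarith)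
  rw [← hu] at hA2
  linarith

/-- the assembly for `w ≤ 11/5` -/
theorem asm1 (ε M k A B S a κ X v U : ℝ) (hε : 0 < ε) (hε2 : ε ≤ 2 / 5) (hk1 : 1 ≤ k)
    (hA : 0 ≤ A) (h0 : 0 ≤ (M + k - 2) * A + S - B)
    (hG : 0 ≤ (M + k - 2) * A + S - B + 2 / 5 * ((M ^ 2 / 2 + (k - 1) * M) * A + M * S - v * A))
    (hkA : (M + k - 2 + ε * (M ^ 2 / 2 + (k - 1) * M) + ε ^ 2 * ((k - 1) * M ^ 2 / 2)) * A ≤
      κ * A)
    (hS1 : (1 + ε * M) * S ≤ a * S)
    (hleft : X ≤ U + B + ε * (v * A)) :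
    X ≤ U + κ * A + a * S := by
  have h2 : 0 ≤ ε ^ 2 * ((k - 1) * M ^ 2 / 2) * A := by
    have : 0 ≤ k - 1 := by linarith
    positivity
  have h3 := mul_nonneg (show (0 : ℝ) ≤ 1 - 5 / 2 * ε by linarith) h0
  have h4 := mul_nonneg (mul_nonneg (show (0 : ℝ) ≤ 5 / 2 by norm_num) hε.le) hG
  linarith

/-- the assembly for `w ≥ 11/5` -/
theorem asm2 (ε M k A B S a κ X v U : ℝ) (hε : 0 < ε) (hM : 0 ≤ M) (hS : 0 ≤ S)
    (hQ : 1 ≤ M ^ 2 / 2 + (k - 1) * M + ε * ((k - 1) * M ^ 2 / 2)) (hv1 : v ≤ 1)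
    (hA : 0 ≤ A) (h0 : 0 ≤ (M + k - 2) * A + S - B)
    (hkA : (M + k - 2 + ε * (M ^ 2 / 2 + (k - 1) * M) + ε ^ 2 * ((k - 1) * M ^ 2 / 2)) * A ≤
      κ * A)
    (hS1 : (1 + ε * M) * S ≤ a * S)
    (hleft : X ≤ U + B + ε * (v * A)) :
    X ≤ U + κ * A + a * S := by
  have h1 := mul_le_mul_of_nonneg_right hQ (mul_nonneg hε.le hA)
  have h2 : 0 ≤ ε * (M * S) := by positivity
  have h3 : ε * (v * A) ≤ ε * (1 * A) :=
    mul_le_mul_of_nonneg_left (mul_le_mul_of_nonneg_right hv1 hA) hε.le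
  linarith

/-- the pointwise inequality for `u ≤ 1` -/
theorem star_le (ε w u : ℝ) (hε : 0 < ε) (hε2 : ε ≤ 2 / 5) (hw : 1 ≤ w) (hu : 0 < u)
    (hu1 : u ≤ 1) :
    u * (u ^ ε - 1) / ε ≤
      (1 + ((w ^ (2 * ε) - 1) / ε - w ^ (2 * ε) - 1 +
        w ^ (2 * ε) * (49 / 20 / w - 2 / 5 / w ^ 2))) * (u - 1) +
      w ^ (2 * ε) / w ^ 2 * (u - 1) ^ 2 -
      ((w ^ (2 * ε) - 1) / ε - w ^ (2 * ε) - 1 +
        w ^ (2 * ε) * (49 / 20 / w - 2 / 5 / w ^ 2)) * log u := by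
  have hw0 : 0 < w := by linarith
  have ha : w ^ (2 * ε) = exp (ε * (2 * log w)) := by
    rw [Real.rpow_def_of_pos hw0]
    ring_nf
  have hue : u ^ ε = exp (-(ε * -log u)) := by
    rw [Real.rpow_def_of_pos hu]
    ring_nf
  have hL : log u ≤ 0 := Real.log_nonpos hu.le hu1
  have hk0 : 0 ≤ 49 / 20 / w - 2 / 5 / w ^ 2 := by
    have h1 : 49 / 20 / w - 2 / 5 / w ^ 2 = (49 / 20 * w - 2 / 5) / w ^ 2 := by
      field_simp
    rw [h1]
    apply div_nonneg _ (by positivity)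
    linarith
  have hM0 : 0 ≤ 2 * log w := by
    have := Real.log_nonneg hw
    linarith
  have hkap := kap_ge ε (2 * log w) _ hε (by linarith) hM0 hk0
  have hex := Real.add_one_le_exp (ε * (2 * log w))
  rw [← ha] at hkap hex
  have hu2 := exp_neg_le (ε * -log u) (mul_nonneg hε.le (by linarith))
  rw [← hue] at hu2
  have h0 := star0 w u hw hu
  have hA := A_nonneg u hu
  -- the square root
  obtain ⟨v, hv0, hv⟩ : ∃ v : ℝ, 0 < v ∧ u = v ^ 2 :=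
    ⟨√u, Real.sqrt_pos.2 hu, (Real.sq_sqrt hu.le).symm⟩
  have hv1 : v ≤ 1 := by
    by_contra hcon
    push Not at hcon
    nlinarith
  have hlogv : log u = 2 * log v := by
    rw [hv, Real.log_pow]
    norm_num
  have hsq : u * (log u) ^ 2 / 2 ≤ v * (u - 1 - log u) := by
    have h1 := sq_log_le v hv0 hv1
    have h2 : u * (log u) ^ 2 / 2 = v * (2 * v * (log v) ^ 2) := by
      rw [hlogv, hv]
      ring
    rw [h2]
    apply mul_le_mul_of_nonneg_left _ hv0.le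
    rw [hlogv, hv]
    linarith
  -- the left-hand side
  have hleft : u * (u ^ ε - 1) / ε ≤ u * log u + ε * (v * (u - 1 - log u)) := by
    have h1 : u * (u ^ ε - 1) / ε ≤ u * log u + ε * (u * (log u) ^ 2 / 2) := by
      rw [div_le_iff₀ hε]
      nlinarith [mul_le_mul_of_nonneg_left hu2 hu.le]
    have h2 := mul_le_mul_of_nonneg_left hsq hε.le
    linarith
  have hS0 : 0 ≤ (u - 1) ^ 2 / w ^ 2 := by positivity
  have hS1 : (1 + ε * (2 * log w)) * ((u - 1) ^ 2 / w ^ 2) ≤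
      w ^ (2 * ε) * ((u - 1) ^ 2 / w ^ 2) :=
    mul_le_mul_of_nonneg_right (by linarith) hS0
  have hkA := mul_le_mul_of_nonneg_right hkap hA
  have hsplit : w ^ (2 * ε) / w ^ 2 * (u - 1) ^ 2 = w ^ (2 * ε) * ((u - 1) ^ 2 / w ^ 2) := by
    ring
  rw [hsplit]
  have hleft' : u * (u ^ ε - 1) / ε ≤ (u - 1) + (u * log u - u + 1) +
      ε * (v * (u - 1 - log u)) := by
    linarith
  have h0' : 0 ≤ (2 * log w + (49 / 20 / w - 2 / 5 / w ^ 2) - 2) * (u - 1 - log u) +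
      (u - 1) ^ 2 / w ^ 2 - (u * log u - u + 1) := by
    have : 2 * log w + (49 / 20 / w - 2 / 5 / w ^ 2) - 2 =
      2 * log w - 2 + 49 / 20 / w - 2 / 5 / w ^ 2 := by ring
    rw [this]
    exact h0
  have hfin : u * (u ^ ε - 1) / ε ≤ (u - 1) + ((w ^ (2 * ε) - 1) / ε - w ^ (2 * ε) - 1 +
        w ^ (2 * ε) * (49 / 20 / w - 2 / 5 / w ^ 2)) * (u - 1 - log u) +
      w ^ (2 * ε) * ((u - 1) ^ 2 / w ^ 2) := by
    rcases le_total w (11 / 5) with h | h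
    · have hG := G_nonneg w u v hw h hv0 hv1 hv _ _ _ rfl rfl rfl
      have h5 : 1 / w ^ 2 * (u - 1) ^ 2 = (u - 1) ^ 2 / w ^ 2 := by ring
      rw [h5] at hG
      exact asm1 ε _ _ _ _ _ _ _ _ v _ hε hε2 (k_ge_one w hw h) hA h0' hG hkA hS1 hleft'
    · exact asm2 ε _ _ _ _ _ _ _ _ v _ hε hM0 hS0 (Q_ge ε w hε hε2 h) hv1 hA h0' hkA hS1 hleft'
  linarith

end Pool.Agent.ConeG.Rad.S0
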