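import Mathlib

/-!
# The pointwise inequality at `ε = 0`
-/

set_option autoImplicit false
open Real Set

namespace Pool.Agent.ConeG.Rad.S0

/-- `ψ` -/
noncomputable def psi (κ β u : ℝ) : ℝ :=
  ((1 + κ) * (u - 1) + β * (u - 1) ^ 2) / (u + κ) - log u

theorem hasDerivAt_psi (κ β u : ℝ) (hu : 0 < u) (hκ : 0 ≤ κ) :
    HasDerivAt (psi κ β)
      ((u - 1) * (β * u ^ 2 - (1 - β * (2 * κ + 1)) * u + κ ^ 2) / (u * (u + κ) ^ 2)) u := by
  have hk : u + κ ≠ 0 := by positivity
  have h0 : HasDerivAt (fun u : ℝ => u - 1) 1 u := (hasDerivAt_id u).sub_const 1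
  have h1 : HasDerivAt (fun u : ℝ => (1 + κ) * (u - 1) + β * (u - 1) ^ 2)
      ((1 + κ) * 1 + β * (2 * (u - 1) * 1)) u := by
    have h2 := (h0.pow 2).const_mul β
    have h3 := (h0.const_mul (1 + κ)).add h2
    refine h3.congr_deriv ?_
    norm_num
  have h4 : HasDerivAt (fun u : ℝ => u + κ) 1 u := (hasDerivAt_id u).add_const κ
  have h5 := (h1.div h4 hk).sub (Real.hasDerivAt_log hu.ne')
  refine h5.congr_deriv ?_
  have := hu.ne'
  field_simp
  ring

theorem psi_one (κ β : ℝ) : psi κ β 1 = 0 := by simp [psi]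

theorem continuousOn_psi (κ β : ℝ) (hκ : 0 ≤ κ) : ContinuousOn (psi κ β) (Ioi 0) := fun u hu =>
  (hasDerivAt_psi κ β u hu hκ).continuousAt.continuousWithinAt

/-- if the quadratic is nonnegative on `[u, 1]`, then `ψ ≥ 0` there -/
theorem psi_nonneg_of_le (κ β : ℝ) (hκ : 0 ≤ κ)
    (hq : ∀ u : ℝ, 0 < u → u ≤ 1 → 0 ≤ β * u ^ 2 - (1 - β * (2 * κ + 1)) * u + κ ^ 2)
    (u : ℝ) (hu : 0 < u) (hu1 : u ≤ 1) : 0 ≤ psi κ β u := by
  have hanti : AntitoneOn (psi κ β) (Ioc 0 1) := by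
    apply antitoneOn_of_deriv_nonpos (convex_Ioc 0 1)
    · exact (continuousOn_psi κ β hκ).mono fun x hx => hx.1
    · intro x hx
      rw [interior_Ioc] at hx
      exact (hasDerivAt_psi κ β x hx.1 hκ).differentiableAt.differentiableWithinAt
    · intro x hx
      rw [interior_Ioc] at hx
      rw [(hasDerivAt_psi κ β x hx.1 hκ).deriv]
      have h := hq x hx.1 hx.2.le
      have hx1 : x - 1 ≤ 0 := by linarith [hx.2]
      have hx0 := hx.1
      apply div_nonpos_of_nonpos_of_nonneg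
      · exact mul_nonpos_of_nonpos_of_nonneg hx1 h
      · positivity
  have h := hanti ⟨hu, hu1⟩ ⟨one_pos, le_refl 1⟩ hu1
  rwa [psi_one] at h

/-- if the quadratic is nonnegative on `[1, u]`, then `ψ ≥ 0` there -/
theorem psi_nonneg_of_ge (κ β : ℝ) (hκ : 0 ≤ κ)
    (hq : ∀ u : ℝ, 1 ≤ u → 0 ≤ β * u ^ 2 - (1 - β * (2 * κ + 1)) * u + κ ^ 2)
    (u : ℝ) (hu1 : 1 ≤ u) : 0 ≤ psi κ β u := by
  have hmono : MonotoneOn (psi κ β) (Ici 1) := by
    apply monotoneOn_of_deriv_nonneg (convex_Ici 1)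
    · exact (continuousOn_psi κ β hκ).mono fun x hx => show (0 : ℝ) < x from lt_of_lt_of_le one_pos hx
    · intro x hx
      rw [interior_Ici] at hx
      exact (hasDerivAt_psi κ β x (lt_trans one_pos hx) hκ).differentiableAt.differentiableWithinAt
    · intro x hx
      rw [interior_Ici] at hx
      have hx0 : (0 : ℝ) < x := lt_trans one_pos hx
      rw [(hasDerivAt_psi κ β x hx0 hκ).deriv]
      have h := hq x (le_of_lt hx)
      have hx1 : 0 ≤ x - 1 := by
        have : (1 : ℝ) < x := hx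
        linarith
      apply div_nonneg
      · exact mul_nonneg hx1 h
      · positivity
  have h := hmono (le_refl (1 : ℝ)) hu1 hu1
  rwa [psi_one] at h

/-- the relation of `ψ` with the inequality -/
theorem psi_mul (κ β u : ℝ) (hu : 0 < u) (hκ : 0 ≤ κ) : (u + κ) * psi κ β u =
    κ * (u - 1 - log u) + β * (u - 1) ^ 2 - (u * log u - u + 1) := by
  have hk : u + κ ≠ 0 := by positivity
  unfold psi
  field_simp
  ring

/-- `κ ≥ (w - 1) / 2` is enough -/
theorem psi_nonneg_of_half (κ w : ℝ) (hw : 1 ≤ w) (hκ : (w - 1) / 2 ≤ κ) (u : ℝ) (hu : 0 < u) :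
    0 ≤ psi κ (1 / w ^ 2) u := by
  have hκ0 : 0 ≤ κ := by linarith
  have hw0 : 0 < w := by linarith
  have key : ∀ u : ℝ, 0 < u →
      0 ≤ 1 / w ^ 2 * u ^ 2 - (1 - 1 / w ^ 2 * (2 * κ + 1)) * u + κ ^ 2 := by
    intro u hu
    have h1 : 1 / w ^ 2 * u ^ 2 - (1 - 1 / w ^ 2 * (2 * κ + 1)) * u + κ ^ 2 =
        ((u - κ * w) ^ 2 + u * ((w + 1) * (2 * κ + 1 - w))) / w ^ 2 := by
      field_simp
      ring
    rw [h1]
    have h2 : 0 ≤ 2 * κ + 1 - w := by linarith
    positivity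
  rcases le_total u 1 with h | h
  · exact psi_nonneg_of_le κ _ hκ0 (fun u hu _ => key u hu) u hu h
  · exact psi_nonneg_of_ge κ _ hκ0 (fun u hu => key u (by linarith)) u h

/-! ## The function `κ` -/

/-- `κ` -/
noncomputable def kp (w : ℝ) : ℝ := 2 * log w - 2 + 49 / 20 / w - 2 / 5 / w ^ 2

theorem hasDerivAt_kp (w : ℝ) (hw : 0 < w) :
    HasDerivAt kp (2 / w - 49 / 20 / w ^ 2 + 4 / 5 / w ^ 3) w := by
  have h1 := (Real.hasDerivAt_log hw.ne').const_mul 2
  have h2 : HasDerivAt (fun w : ℝ => 49 / 20 / w) (-(49 / 20) / w ^ 2) w := by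
    have := (hasDerivAt_inv hw.ne').const_mul (49 / 20 : ℝ)
    refine (this.congr_deriv ?_)
    field_simp
  have h3 : HasDerivAt (fun w : ℝ => 2 / 5 / w ^ 2) (-(4 / 5) / w ^ 3) w := by
    have := ((hasDerivAt_pow 2 w).inv (by positivity)).const_mul (2 / 5 : ℝ)
    refine (this.congr_deriv ?_)
    field_simp
    norm_num
    ring
  have h4 := ((h1.sub_const 2).add h2).sub h3
  refine h4.congr_deriv ?_
  field_simp
  ring

theorem log_12_5 : (874965 / 1000000 : ℝ) ≤ log (12 / 5) := by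
  have h1 : log (12 / 5 : ℝ) = log 2 + log (6 / 5) := by
    rw [← Real.log_mul (by norm_num) (by norm_num)]
    norm_num
  have h2 := Real.log_two_gt_d9
  have h3 := Real.le_log_one_add_of_nonneg (x := 1 / 5) (by norm_num)
  norm_num at h3
  rw [h1]
  linarith

theorem log_12_5_le : log (12 / 5) ≤ (894 / 1000 : ℝ) := by
  have h1 : log (12 / 5 : ℝ) = log 2 + log (6 / 5) := by
    rw [← Real.log_mul (by norm_num) (by norm_num)]
    norm_num
  have h2 := Real.log_two_lt_d9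
  have h3 := Real.log_le_sub_one_of_pos (x := 6 / 5) (by norm_num)
  rw [h1]
  linarith

/-- `κ ≥ (w - 1)/2` for `w ≤ 12/5`, and `κ` is not much larger afterwards -/
theorem kp_half_antitone : AntitoneOn (fun w => kp w - (w - 1) / 2) (Ici 1) := by
  apply antitoneOn_of_deriv_nonpos (convex_Ici 1)
  · intro x hx
    have hx0 : (0 : ℝ) < x := lt_of_lt_of_le one_pos hx
    exact ((hasDerivAt_kp x hx0).continuousAt.sub (by fun_prop)).continuousWithinAt
  · intro x hx
    rw [interior_Ici] at hx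
    have hx0 : (0 : ℝ) < x := lt_trans one_pos hx
    have h := (hasDerivAt_kp x hx0).sub (((hasDerivAt_id x).sub_const 1).div_const 2)
    exact h.differentiableAt.differentiableWithinAt
  · intro x hx
    rw [interior_Ici] at hx
    have hx0 : (0 : ℝ) < x := lt_trans one_pos hx
    have hx1 : (1 : ℝ) < x := hx
    have h := (hasDerivAt_kp x hx0).sub (((hasDerivAt_id x).sub_const 1).div_const 2)
    have h2 : deriv (fun w => kp w - (w - 1) / 2) x =
        2 / x - 49 / 20 / x ^ 2 + 4 / 5 / x ^ 3 - 1 / 2 := h.deriv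
    rw [h2]
    have h3 : 2 / x - 49 / 20 / x ^ 2 + 4 / 5 / x ^ 3 - 1 / 2 =
        -((x ^ 3 / 2 - 2 * x ^ 2 + 49 / 20 * x - 4 / 5) / x ^ 3) := by
      field_simp
      ring
    rw [h3]
    have h4 : 0 ≤ x ^ 3 / 2 - 2 * x ^ 2 + 49 / 20 * x - 4 / 5 := by
      nlinarith [mul_nonneg (sub_nonneg.2 hx1.le) (sq_nonneg (x - 17 / 10)),
        sq_nonneg (x - 17 / 10), sq_nonneg (x - 7 / 4)]
    have : 0 ≤ (x ^ 3 / 2 - 2 * x ^ 2 + 49 / 20 * x - 4 / 5) / x ^ 3 := by positivity
    linarith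

theorem kp_ge_half (w : ℝ) (hw : 1 ≤ w) (hw2 : w ≤ 12 / 5) : (w - 1) / 2 ≤ kp w := by
  have h := kp_half_antitone (show (1 : ℝ) ≤ w from hw) (show (1 : ℝ) ≤ 12 / 5 by norm_num) hw2
  have h1 : (0 : ℝ) ≤ kp (12 / 5) - (12 / 5 - 1) / 2 := by
    unfold kp
    have := log_12_5
    norm_num
    linarith
  simp only at h
  linarith

theorem kp_le_half (w : ℝ) (hw : 12 / 5 ≤ w) : kp w ≤ (w - 1) / 2 + 1 / 20 := by
  have h := kp_half_antitone (show (1 : ℝ) ≤ 12 / 5 by norm_num) (show (1 : ℝ) ≤ w by linarith) hw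
  have h1 : kp (12 / 5) - (12 / 5 - 1) / 2 ≤ (1 / 20 : ℝ) := by
    unfold kp
    have := log_12_5_le
    norm_num
    linarith
  simp only at h
  linarith


theorem kp_mono : MonotoneOn kp (Ici (12 / 5)) := by
  have hpos : ∀ x ∈ Ici (12 / 5 : ℝ), (0 : ℝ) < x := fun x hx =>
    lt_of_lt_of_le (by norm_num) (show (12 / 5 : ℝ) ≤ x from hx)
  apply monotoneOn_of_deriv_nonneg (convex_Ici _)
  · intro x hx
    exact (hasDerivAt_kp x (hpos x hx)).continuousAt.continuousWithinAt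
  · intro x hx
    exact (hasDerivAt_kp x (hpos x (interior_subset hx))).differentiableAt.differentiableWithinAt
  · intro x hx
    have hx0 := hpos x (interior_subset hx)
    have hx1 : (12 / 5 : ℝ) ≤ x := interior_subset hx
    rw [(hasDerivAt_kp x hx0).deriv]
    have h3 : 2 / x - 49 / 20 / x ^ 2 + 4 / 5 / x ^ 3 =
        ((2 * x - 49 / 20) * x + 4 / 5) / x ^ 3 := by
      field_simp
    rw [h3]
    have : 0 ≤ 2 * x - 49 / 20 := by linarith
    positivity

theorem kp_ge (w : ℝ) (hw : 12 / 5 ≤ w) : 7 / 10 ≤ kp w := by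
  have h := kp_mono (show (12 / 5 : ℝ) ≤ 12 / 5 from le_refl _) (show (12 / 5 : ℝ) ≤ w from hw) hw
  have h1 : (7 / 10 : ℝ) ≤ kp (12 / 5) := by
    unfold kp
    have := log_12_5
    norm_num
    linarith
  linarith

theorem kp_nonneg (w : ℝ) (hw : 1 ≤ w) : 0 ≤ kp w := by
  rcases le_total w (12 / 5) with h | h
  · have := kp_ge_half w hw h
    linarith
  · have := kp_ge w h
    linarith

/-- `κ ≥ 1 - 2 / w²` for `w ≥ 12/5` -/
theorem kp_ge' (w : ℝ) (hw : 12 / 5 ≤ w) : 1 - 2 / w ^ 2 ≤ kp w := by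
  have hpos : ∀ x ∈ Ici (12 / 5 : ℝ), (0 : ℝ) < x := fun x hx =>
    lt_of_lt_of_le (by norm_num) (show (12 / 5 : ℝ) ≤ x from hx)
  have hd : ∀ x : ℝ, 0 < x → HasDerivAt (fun w => kp w + 2 / w ^ 2)
      (2 / x - 49 / 20 / x ^ 2 + 4 / 5 / x ^ 3 + (-4) / x ^ 3) x := by
    intro x hx
    have := ((hasDerivAt_pow 2 x).inv (by positivity)).const_mul (2 : ℝ)
    refine (hasDerivAt_kp x hx).add (this.congr_deriv ?_)
    field_simp
    norm_num
    ring
  have hm : MonotoneOn (fun w => kp w + 2 / w ^ 2) (Ici (12 / 5)) := by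
    apply monotoneOn_of_deriv_nonneg (convex_Ici _)
    · intro x hx
      exact (hd x (hpos x hx)).continuousAt.continuousWithinAt
    · intro x hx
      exact (hd x (hpos x (interior_subset hx))).differentiableAt.differentiableWithinAt
    · intro x hx
      have hx0 := hpos x (interior_subset hx)
      have hx1 : (12 / 5 : ℝ) ≤ x := interior_subset hx
      rw [(hd x hx0).deriv]
      have h3 : 2 / x - 49 / 20 / x ^ 2 + 4 / 5 / x ^ 3 + (-4) / x ^ 3 =
          ((2 * x - 49 / 20) * x - 16 / 5) / x ^ 3 := by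
        field_simp
        ring
      rw [h3]
      have : 0 ≤ (2 * x - 49 / 20) * x - 16 / 5 := by nlinarith
      positivity
  have h := hm (show (12 / 5 : ℝ) ≤ 12 / 5 from le_refl _) (show (12 / 5 : ℝ) ≤ w from hw) hw
  have h1 : (1 : ℝ) ≤ kp (12 / 5) + 2 / (12 / 5) ^ 2 := by
    unfold kp
    have := log_12_5
    norm_num
    linarith
  simp only at h
  linarith

/-! ## The two-variable function for `w ≥ 12/5` -/

/-- `h` -/
noncomputable def hh (w : ℝ) : ℝ := 1 - 49 / 40 / w + 2 / 5 / w ^ 2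

/-- `S = (w² - 1) h` -/
noncomputable def Sf (w : ℝ) : ℝ := (w ^ 2 - 1) * hh w

/-- the point where `∂_w ψ = 0` -/
noncomputable def ub (w : ℝ) : ℝ := w ^ 2 - 49 / 40 * w + 7 / 5 - 2 * log w - 49 / 40 / w

theorem ub_eq (w : ℝ) (hw : 0 < w) : ub w = Sf w - kp w := by
  unfold ub Sf kp hh
  field_simp
  ring

theorem kp_deriv_eq (w : ℝ) (hw : 0 < w) : 2 / w - 49 / 20 / w ^ 2 + 4 / 5 / w ^ 3 = 2 * hh w / w := by
  unfold hh
  field_simp
  ring

theorem hasDerivAt_ub (w : ℝ) (hw : 0 < w) :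
    HasDerivAt ub (2 * w - 49 / 40 - 2 / w + 49 / 40 / w ^ 2) w := by
  have h1 := (Real.hasDerivAt_log hw.ne').const_mul 2
  have h2 : HasDerivAt (fun w : ℝ => 49 / 40 / w) (-(49 / 40) / w ^ 2) w := by
    have := (hasDerivAt_inv hw.ne').const_mul (49 / 40 : ℝ)
    refine (this.congr_deriv ?_)
    field_simp
  have h3 := (((hasDerivAt_pow 2 w).sub ((hasDerivAt_id w).const_mul (49 / 40))).add_const
    (7 / 5)).sub h1
  have h4 := h3.sub h2
  refine h4.congr_deriv ?_
  norm_num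
  field_simp
  ring

theorem ub_mono : MonotoneOn ub (Ici (12 / 5)) := by
  have hpos : ∀ x ∈ Ici (12 / 5 : ℝ), (0 : ℝ) < x := fun x hx =>
    lt_of_lt_of_le (by norm_num) (show (12 / 5 : ℝ) ≤ x from hx)
  apply monotoneOn_of_deriv_nonneg (convex_Ici _)
  · intro x hx
    exact (hasDerivAt_ub x (hpos x hx)).continuousAt.continuousWithinAt
  · intro x hx
    exact (hasDerivAt_ub x (hpos x (interior_subset hx))).differentiableAt.differentiableWithinAt
  · intro x hx
    have hx0 := hpos x (interior_subset hx)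
    have hx1 : (12 / 5 : ℝ) ≤ x := interior_subset hx
    rw [(hasDerivAt_ub x hx0).deriv]
    have h3 : 2 / x ≤ 1 := by
      rw [div_le_one hx0]
      linarith
    have h4 : 0 ≤ 49 / 40 / x ^ 2 := by positivity
    linarith

theorem ub_ge (w : ℝ) (hw : 12 / 5 ≤ w) : 19 / 10 ≤ ub w := by
  have h := ub_mono (show (12 / 5 : ℝ) ≤ 12 / 5 from le_refl _) (show (12 / 5 : ℝ) ≤ w from hw) hw
  have h1 : (19 / 10 : ℝ) ≤ ub (12 / 5) := by
    unfold ub
    have := log_12_5_le
    norm_num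
    linarith
  linarith

/-- the derivative of `ψ` along a curve -/
theorem hasDerivAt_curve {k b v : ℝ → ℝ} {k' b' v' w : ℝ} (hk : HasDerivAt k k' w)
    (hb : HasDerivAt b b' w) (hv : HasDerivAt v v' w) (hv0 : 0 < v w) (hk0 : 0 ≤ k w) :
    HasDerivAt (fun w => psi (k w) (b w) (v w))
      ((v w - 1) ^ 2 * (k' * (1 - b w) + b' * (v w + k w)) / (v w + k w) ^ 2 +
        v' * ((v w - 1) * (b w * v w ^ 2 - (1 - b w * (2 * k w + 1)) * v w + k w ^ 2) /
          (v w * (v w + k w) ^ 2))) w := by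
  have hne : v w + k w ≠ 0 := by positivity
  have hne' := hv0.ne'
  have h1 := hv.sub_const 1
  have h2 := ((hk.const_add 1).mul h1).add (hb.mul (h1.pow 2))
  have h3 := (h2.div (hv.add hk) hne).sub (hv.log hne')
  refine h3.congr_deriv ?_
  simp only [Pi.add_apply, Pi.mul_apply, Pi.pow_apply]
  field_simp
  ring

theorem hasDerivAt_inv_sq (w : ℝ) (hw : 0 < w) :
    HasDerivAt (fun w : ℝ => 1 / w ^ 2) (-2 / w ^ 3) w := by
  have := (hasDerivAt_pow 2 w).inv (by positivity)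
  have h2 : (fun w : ℝ => 1 / w ^ 2) = (fun x : ℝ => x ^ 2)⁻¹ := by
    funext x
    simp
  rw [h2]
  refine this.congr_deriv ?_
  norm_num
  field_simp

/-- the `w`-derivative of `ψ` for fixed `u` -/
theorem hasDerivAt_g (u w : ℝ) (hu : 0 < u) (hw : 1 ≤ w) :
    HasDerivAt (fun w => psi (kp w) (1 / w ^ 2) u)
      ((u - 1) ^ 2 / (u + kp w) ^ 2 * (2 / w ^ 3) * (ub w - u)) w := by
  have hw0 : 0 < w := by linarith
  have h := hasDerivAt_curve (hasDerivAt_kp w hw0) (hasDerivAt_inv_sq w hw0)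
    (hasDerivAt_const w u) hu (kp_nonneg w hw)
  refine h.congr_deriv ?_
  have hk := kp_nonneg w hw
  have hne : u + kp w ≠ 0 := by positivity
  rw [kp_deriv_eq w hw0, ub_eq w hw0, Sf]
  generalize kp w = κ at *
  generalize hh w = h
  field_simp
  ring

/-- the derivative of `ψ` along `u = ub w` -/
theorem hasDerivAt_H (w : ℝ) (hw : 12 / 5 ≤ w) :
    HasDerivAt (fun w => psi (kp w) (1 / w ^ 2) (ub w))
      ((2 * w - 49 / 40 - 2 / w + 49 / 40 / w ^ 2) * ((ub w - 1) *
        ((w ^ 2 - 1) / w ^ 2 * (kp w ^ 2 + kp w - Sf w * (1 - hh w))) /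
          (ub w * Sf w ^ 2))) w := by
  have hw0 : 0 < w := by linarith
  have hu := ub_ge w hw
  have hk := kp_ge w hw
  have h := hasDerivAt_curve (hasDerivAt_kp w hw0) (hasDerivAt_inv_sq w hw0)
    (hasDerivAt_ub w hw0) (by linarith) (by linarith)
  refine h.congr_deriv ?_
  have hS : Sf w = ub w + kp w := by
    rw [ub_eq w hw0]
    ring
  have hSne : ub w + kp w ≠ 0 := by positivity
  have h1 : (2 / w - 49 / 20 / w ^ 2 + 4 / 5 / w ^ 3) * (1 - 1 / w ^ 2) +
      -2 / w ^ 3 * (ub w + kp w) = 0 := by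
    rw [kp_deriv_eq w hw0, ← hS, Sf]
    field_simp
    ring
  rw [h1]
  have h2 : 1 / w ^ 2 * ub w ^ 2 - (1 - 1 / w ^ 2 * (2 * kp w + 1)) * ub w + kp w ^ 2 =
      (w ^ 2 - 1) / w ^ 2 * (kp w ^ 2 + kp w - Sf w * (1 - hh w)) := by
    have h3 : ub w = Sf w - kp w := ub_eq w hw0
    rw [h3, Sf]
    field_simp
    ring
  rw [h2, ← hS]
  ring

theorem Z1 (w : ℝ) (h1 : 12/5 ≤ w) (h2 : w ≤ 5) :
    0 ≤ (-3528/625) * w + (58007379/1562500) * w ^ 2 + (-268479709/3125000) * w ^ 3 + (384480111829/3906250000) * w ^ 4 + (-341021943603/6250000000) * w ^ 5 + (138325300049/10000000000) * w ^ 6 + (-49/40) * w ^ 7 := by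
  have key : ∀ t s : ℝ, 0 ≤ t → 0 ≤ s →
      0 ≤ 2303901121536/122555697265625 * (s ^ 7) + 35581765284072/122555697265625 * (t ^ 1 * s ^ 6) + 56310574432839/24511139453125 * (t ^ 2 * s ^ 5) + 10170272028370747/980445578125000 * (t ^ 3 * s ^ 4) + 8248311260680617/313742585000000 * (t ^ 4 * s ^ 3) + 220369432196637/6274851700000 * (t ^ 5 * s ^ 2) + 163766071152913/8031810176000 * (t ^ 6 * s ^ 1) + 638683248681/321272407040 * (t ^ 7) := by
    intro t s ht hs
    positivity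
  have h := key (w - 12/5) (5 - w) (by linarith) (by linarith)
  refine h.trans (le_of_eq ?_)
  ring

theorem Z2 (w : ℝ) (h1 : 5 ≤ w) (h2 : w ≤ 10) :
    0 ≤ (-49/2) * w + (227851/1600) * w ^ 2 + (-982559/4000) * w ^ 3 + (2062713/8000) * w ^ 4 + (-2909489/25000) * w ^ 5 + (11042357/500000) * w ^ 6 + (-49/40) * w ^ 7 := by
  have key : ∀ t s : ℝ, 0 ≤ t → 0 ≤ s →
      0 ≤ 62613/250000 * (s ^ 7) + 2228289/625000 * (t ^ 1 * s ^ 6) + 106760889/5000000 * (t ^ 2 * s ^ 5) + 344088167/5000000 * (t ^ 3 * s ^ 4) + 632270633/5000000 * (t ^ 4 * s ^ 3) + 639401939/5000000 * (t ^ 5 * s ^ 2) + 18871373/312500 * (t ^ 6 * s ^ 1) + 8696083/1250000 * (t ^ 7) := by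
    intro t s ht hs
    positivity
  have h := key (w - 5) (10 - w) (by linarith) (by linarith)
  refine h.trans (le_of_eq ?_)
  ring


theorem log5 : (16085 / 10000 : ℝ) ≤ log 5 := by
  have h1 : log (5 : ℝ) = 2 * log 2 + log (5 / 4) := by
    have : (5 : ℝ) = 2 ^ 2 * (5 / 4) := by norm_num
    rw [this, Real.log_mul (by norm_num) (by norm_num), Real.log_pow]
    norm_num
  have h2 := Real.log_two_gt_d9
  have h3 := Real.le_log_one_add_of_nonneg (x := 1 / 4) (by norm_num)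
  norm_num at h3
  rw [h1]
  linarith

/-- lower bound for the logarithm from a point on the left -/
theorem log_ge_from (a w : ℝ) (ha : 0 < a) (h : a ≤ w) :
    log a + 2 * (w - a) / (w + a) ≤ log w := by
  have h1 := Real.le_log_one_add_of_nonneg (x := (w - a) / a)
    (div_nonneg (by linarith) ha.le)
  have h2 : 1 + (w - a) / a = w / a := by
    field_simp
    ring
  rw [h2, Real.log_div (by linarith) ha.ne'] at h1
  have h3 : 2 * ((w - a) / a) / ((w - a) / a + 2) = 2 * (w - a) / (w + a) := by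
    have h4 : w + a ≠ 0 := by linarith
    have h5 : (w - a) / a + 2 = (w + a) / a := by
      field_simp
      ring
    rw [h5]
    field_simp
  rw [h3] at h1
  linarith

/-- a lower bound of `κ` from a lower bound of the logarithm -/
theorem Z_of (w c a : ℝ) (hw : 12 / 5 ≤ w) (ha : 0 < a) (hl : c + 2 * (w - a) / (w + a) ≤ log w)
    (h0 : 0 ≤ 2 * (c + 2 * (w - a) / (w + a)) - 2 + 49 / 20 / w - 2 / 5 / w ^ 2)
    (hP : 0 ≤ (2 * (c * (w + a) + 2 * (w - a)) * w ^ 2 - 2 * w ^ 2 * (w + a) +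
      49 / 20 * w * (w + a) - 2 / 5 * (w + a)) ^ 2 + (2 * (c * (w + a) + 2 * (w - a)) * w ^ 2 -
      2 * w ^ 2 * (w + a) + 49 / 20 * w * (w + a) - 2 / 5 * (w + a)) * (w ^ 2 * (w + a)) -
      (49 / 40 * w ^ 5 - 1900625 / 1000000 * w ^ 4 - 245 / 1000 * w ^ 3 +
        1740625 / 1000000 * w ^ 2 - 98 / 100 * w + 16 / 100) * (w + a) ^ 2) :
    0 ≤ kp w ^ 2 + kp w - Sf w * (1 - hh w) := by
  have hw0 : 0 < w := by linarith
  set κ0 := 2 * (c + 2 * (w - a) / (w + a)) - 2 + 49 / 20 / w - 2 / 5 / w ^ 2 with hκ0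
  have h1 : κ0 ≤ kp w := by
    unfold kp
    rw [hκ0]
    linarith
  have h2 : κ0 ^ 2 + κ0 ≤ kp w ^ 2 + kp w := by nlinarith
  have h3 : κ0 ^ 2 + κ0 - Sf w * (1 - hh w) = ((2 * (c * (w + a) + 2 * (w - a)) * w ^ 2 -
      2 * w ^ 2 * (w + a) + 49 / 20 * w * (w + a) - 2 / 5 * (w + a)) ^ 2 +
      (2 * (c * (w + a) + 2 * (w - a)) * w ^ 2 -
      2 * w ^ 2 * (w + a) + 49 / 20 * w * (w + a) - 2 / 5 * (w + a)) * (w ^ 2 * (w + a)) -
      (49 / 40 * w ^ 5 - 1900625 / 1000000 * w ^ 4 - 245 / 1000 * w ^ 3 +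
        1740625 / 1000000 * w ^ 2 - 98 / 100 * w + 16 / 100) * (w + a) ^ 2) /
      (w ^ 4 * (w + a) ^ 2) := by
    rw [hκ0]
    unfold Sf hh
    have : w + a ≠ 0 := by positivity
    field_simp
    ring
  have h4 : 0 ≤ κ0 ^ 2 + κ0 - Sf w * (1 - hh w) := by
    rw [h3]
    positivity
  linarith

theorem Z_nonneg (w : ℝ) (hw : 12 / 5 ≤ w) (hw2 : w ≤ 10) :
    0 ≤ kp w ^ 2 + kp w - Sf w * (1 - hh w) := by
  have hw0 : 0 < w := by linarith
  have hv : 1 / w ≤ 5 / 12 := by
    rw [div_le_div_iff₀ hw0 (by norm_num)]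
    linarith
  have hv0 : 0 < 1 / w := by positivity
  rcases le_total w 5 with h | h
  · apply Z_of w (874965 / 1000000) (12 / 5) hw (by norm_num)
    · have h1 := log_ge_from (12 / 5) w (by norm_num) hw
      linarith [log_12_5]
    · have h2 : 0 ≤ 2 * (w - 12 / 5) / (w + 12 / 5) := by
        apply div_nonneg <;> linarith
      have h3 : 49 / 20 / w - 2 / 5 / w ^ 2 = (1 / w) * (49 / 20 - 2 / 5 * (1 / w)) := by
        field_simp
      have h4 : 0 ≤ 2 * (w - 12 / 5) / (w + 12 / 5) - (w - 12 / 5) / (2 * w) := by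
        rw [div_sub_div _ _ (by positivity) (by positivity)]
        apply div_nonneg _ (by positivity)
        nlinarith [mul_nonneg (sub_nonneg.2 hw) hw0.le]
      have h5 : (w - 12 / 5) / (2 * w) = 1 / 2 - 6 / 5 * (1 / w) := by
        field_simp
        ring
      nlinarith [mul_nonneg hv0.le (sub_nonneg.2 hv)]
    · refine (Z1 w hw h).trans (le_of_eq ?_)
      ring
  · apply Z_of w (16085 / 10000) 5 hw (by norm_num)
    · have h1 := log_ge_from 5 w (by norm_num) h
      linarith [log5]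
    · have h2 : 0 ≤ 2 * (w - 5) / (w + 5) := by
        apply div_nonneg <;> linarith
      have h3 : 49 / 20 / w - 2 / 5 / w ^ 2 = (1 / w) * (49 / 20 - 2 / 5 * (1 / w)) := by
        field_simp
      have h4 : 0 ≤ (1 / w) * (49 / 20 - 2 / 5 * (1 / w)) := by
        apply mul_nonneg hv0.le
        linarith
      linarith
    · refine (Z2 w h hw2).trans (le_of_eq ?_)
      ring


/-- `ψ ≥ 0` at `u = ub w`, `w ≤ 10` -/
theorem H_nonneg_left (w : ℝ) (hw : 12 / 5 ≤ w) (hw2 : w ≤ 10) :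
    0 ≤ psi (kp w) (1 / w ^ 2) (ub w) := by
  have hsub : ∀ x ∈ Icc (12 / 5 : ℝ) 10, 12 / 5 ≤ x ∧ x ≤ 10 := fun x hx => hx
  have hm : MonotoneOn (fun w => psi (kp w) (1 / w ^ 2) (ub w)) (Icc (12 / 5) 10) := by
    apply monotoneOn_of_deriv_nonneg (convex_Icc _ _)
    · intro x hx
      exact (hasDerivAt_H x hx.1).continuousAt.continuousWithinAt
    · intro x hx
      exact (hasDerivAt_H x (interior_subset hx).1).differentiableAt.differentiableWithinAt
    · intro x hx
      obtain ⟨hx1, hx2⟩ := hsub x (interior_subset hx)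
      have hx0 : 0 < x := by linarith
      rw [(hasDerivAt_H x hx1).deriv]
      have hZ := Z_nonneg x hx1 hx2
      have hu := ub_ge x hx1
      have h3 : 2 / x ≤ 1 := by
        rw [div_le_one hx0]
        linarith
      have h4 : 0 ≤ 49 / 40 / x ^ 2 := by positivity
      have h5 : 0 ≤ 2 * x - 49 / 40 - 2 / x + 49 / 40 / x ^ 2 := by linarith
      have h6 : 0 ≤ (x ^ 2 - 1) / x ^ 2 := by
        apply div_nonneg _ (by positivity)
        nlinarith
      apply mul_nonneg h5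
      apply div_nonneg
      · exact mul_nonneg (by linarith) (mul_nonneg h6 hZ)
      · have : 0 ≤ ub x := by linarith
        positivity
  have h := hm (show (12 / 5 : ℝ) ∈ Icc (12 / 5 : ℝ) 10 by constructor <;> norm_num)
    (show w ∈ Icc (12 / 5 : ℝ) 10 from ⟨hw, hw2⟩) hw
  have h0 := psi_nonneg_of_half (kp (12 / 5)) (12 / 5) (by norm_num)
    (kp_ge_half (12 / 5) (by norm_num) le_rfl) (ub (12 / 5))
    (by linarith [ub_ge (12 / 5) le_rfl])
  simp only at h
  linarith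

/-- `ψ ≥ 0` at `u = ub w`, `w ≥ 10` -/
theorem H_nonneg_right (w : ℝ) (hw : 10 ≤ w) : 0 ≤ psi (kp w) (1 / w ^ 2) (ub w) := by
  have hw0 : 0 < w := by linarith
  have hu := ub_ge w (by linarith)
  have hk := kp_ge w (by linarith)
  have hS : Sf w = ub w + kp w := by
    rw [ub_eq w hw0]
    ring
  have hSpos : 0 < Sf w := by
    rw [hS]
    linarith
  have hv : 1 / w ≤ 1 / 10 := by
    rw [div_le_div_iff₀ hw0 (by norm_num)]
    linarith
  have hv0 : 0 < 1 / w := by positivity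
  -- the logarithm of `ub w`
  have hlog : log (ub w) ≤ 2 * log w + ub w / w ^ 2 - 1 := by
    have h1 := Real.log_le_sub_one_of_pos (x := ub w / w ^ 2) (by positivity)
    rw [Real.log_div (by positivity) (by positivity), Real.log_pow] at h1
    push_cast at h1
    linarith
  -- the bound of `κ`
  obtain ⟨r, hr0, hr⟩ : ∃ r : ℝ, 0 < r ∧ r ^ 2 = w := ⟨√w, Real.sqrt_pos.2 hw0, Real.sq_sqrt hw0.le⟩
  have hr1 : 316 / 100 ≤ r := by
    by_contra hcon
    push Not at hcon
    nlinarith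
  have hlw : 2 * log w ≤ r + 15453 / 10000 := by
    have h1 := Real.log_le_sub_one_of_pos (x := r / 4) (by positivity)
    rw [Real.log_div hr0.ne' (by norm_num)] at h1
    have h2 : log (4 : ℝ) = 2 * log 2 := by
      have : (4 : ℝ) = 2 ^ 2 := by norm_num
      rw [this, Real.log_pow]
      norm_num
    have h3 := Real.log_two_lt_d9
    have h4 : log w = 2 * log r := by
      rw [← hr, Real.log_pow]
      norm_num
    rw [h4]
    linarith
  have hk2 : kp w ≤ r - 2 / 10 := by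
    unfold kp
    have h1 : 49 / 20 / w = 49 / 20 * (1 / w) := by ring
    have h2 : 0 ≤ 2 / 5 / w ^ 2 := by positivity
    rw [h1]
    linarith
  have hh1 : 8775 / 10000 ≤ hh w := by
    unfold hh
    have h1 : 49 / 40 / w = 49 / 40 * (1 / w) := by ring
    have h2 : 0 ≤ 2 / 5 / w ^ 2 := by positivity
    rw [h1]
    linarith
  have hmain : (1 + kp w) ^ 2 ≤ (49 / 20 * w - 2 / 5 - kp w - 2) * hh w := by
    have h1 : (1 + kp w) ^ 2 ≤ (r + 8 / 10) ^ 2 := by
      apply pow_le_pow_left₀ <;> linarith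
    have h2 : 49 / 20 * r ^ 2 - 2 / 5 - (r - 2 / 10) - 2 ≤ 49 / 20 * w - 2 / 5 - kp w - 2 := by
      rw [hr]
      linarith
    have h3 : 0 ≤ 49 / 20 * r ^ 2 - 2 / 5 - (r - 2 / 10) - 2 := by nlinarith
    have h4 : (49 / 20 * r ^ 2 - 2 / 5 - (r - 2 / 10) - 2) * (8775 / 10000) ≤
        (49 / 20 * w - 2 / 5 - kp w - 2) * hh w := by
      apply mul_le_mul h2 hh1 (by norm_num)
      linarith
    nlinarith
  -- the identity
  have hid : psi (kp w) (1 / w ^ 2) (ub w) = (((w ^ 2 - 1) / w ^ 2) *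
      ((49 / 20 * w - 2 / 5 - kp w - 2) * hh w - (1 + kp w) ^ 2)) / Sf w +
      (2 * log w + ub w / w ^ 2 - 1 - log (ub w)) := by
    unfold psi
    rw [← hS]
    have h2 : 2 * log w = kp w + 2 - 49 / 20 / w + 2 / 5 / w ^ 2 := by
      unfold kp
      ring
    rw [h2]
    have h3 : ub w = Sf w - kp w := ub_eq w hw0
    rw [h3]
    have hSne := hSpos.ne'
    have h5 : Sf w = (w ^ 2 - 1) * hh w := rfl
    have hhne : hh w ≠ 0 := by linarith
    have hwne : w ^ 2 - 1 ≠ 0 := by nlinarith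
    generalize log (Sf w - kp w) = lg
    rw [h5]
    generalize kp w = κ
    generalize hh w = h at *
    field_simp
    ring
  rw [hid]
  have h6 : 0 ≤ (w ^ 2 - 1) / w ^ 2 := by
    apply div_nonneg _ (by positivity)
    nlinarith
  have h7 : 0 ≤ ((w ^ 2 - 1) / w ^ 2) *
      ((49 / 20 * w - 2 / 5 - kp w - 2) * hh w - (1 + kp w) ^ 2) / Sf w :=
    div_nonneg (mul_nonneg h6 (by linarith)) hSpos.le
  linarith

theorem H_nonneg (w : ℝ) (hw : 12 / 5 ≤ w) : 0 ≤ psi (kp w) (1 / w ^ 2) (ub w) := by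
  rcases le_total w 10 with h | h
  · exact H_nonneg_left w hw h
  · exact H_nonneg_right w h

theorem continuousOn_ub : ContinuousOn ub (Ici (12 / 5)) := fun x hx =>
  (hasDerivAt_ub x (lt_of_lt_of_le (by norm_num)
    (show (12 / 5 : ℝ) ≤ x from hx))).continuousAt.continuousWithinAt

/-- `ψ ≥ 0` for `u ≥ 1`, `w ≥ 12/5` -/
theorem psi_nonneg_large (w u : ℝ) (hw : 12 / 5 ≤ w) (hu : 1 ≤ u) :
    0 ≤ psi (kp w) (1 / w ^ 2) u := by
  have hu0 : 0 < u := by linarith
  have hd : ∀ x : ℝ, 12 / 5 ≤ x → HasDerivAt (fun w => psi (kp w) (1 / w ^ 2) u)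
      ((u - 1) ^ 2 / (u + kp x) ^ 2 * (2 / x ^ 3) * (ub x - u)) x := fun x hx =>
    hasDerivAt_g u x hu0 (by linarith)
  -- monotone where `u ≤ ub`
  have hup : ∀ a : ℝ, 12 / 5 ≤ a → u ≤ ub a → ∀ b : ℝ, a ≤ b →
      psi (kp a) (1 / a ^ 2) u ≤ psi (kp b) (1 / b ^ 2) u := by
    intro a ha hua b hab
    have hm : MonotoneOn (fun w => psi (kp w) (1 / w ^ 2) u) (Ici a) := by
      apply monotoneOn_of_deriv_nonneg (convex_Ici _)
      · intro x hx
        exact (hd x (le_trans ha hx)).continuousAt.continuousWithinAt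
      · intro x hx
        exact (hd x (le_trans ha (interior_subset hx))).differentiableAt.differentiableWithinAt
      · intro x hx
        have hx1 : a ≤ x := interior_subset hx
        have hx0 : 0 < x := by linarith
        rw [(hd x (le_trans ha hx1)).deriv]
        have h1 := ub_mono (show (12 / 5 : ℝ) ≤ a from ha)
          (show (12 / 5 : ℝ) ≤ x from le_trans ha hx1) hx1
        have h2 : 0 ≤ ub x - u := by linarith
        positivity
    exact hm (le_refl a) hab hab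
  -- antitone where `ub ≤ u`
  have hdown : ∀ a b : ℝ, 12 / 5 ≤ a → a ≤ b → ub b ≤ u →
      psi (kp b) (1 / b ^ 2) u ≤ psi (kp a) (1 / a ^ 2) u := by
    intro a b ha hab hub
    have hm : AntitoneOn (fun w => psi (kp w) (1 / w ^ 2) u) (Icc a b) := by
      apply antitoneOn_of_deriv_nonpos (convex_Icc _ _)
      · intro x hx
        exact (hd x (le_trans ha hx.1)).continuousAt.continuousWithinAt
      · intro x hx
        exact (hd x (le_trans ha (interior_subset hx).1)).differentiableAt.differentiableWithinAt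
      · intro x hx
        have hx1 := interior_subset hx
        have hx0 : 0 < x := by linarith [hx1.1]
        rw [(hd x (le_trans ha hx1.1)).deriv]
        have h1 := ub_mono (show (12 / 5 : ℝ) ≤ x from le_trans ha hx1.1)
          (show (12 / 5 : ℝ) ≤ b from le_trans ha hab) hx1.2
        apply mul_nonpos_of_nonneg_of_nonpos
        · positivity
        · linarith
    exact hm ⟨le_refl a, hab⟩ ⟨hab, le_refl b⟩ hab
  rcases le_total u (ub (12 / 5)) with h | h
  · have h1 := hup (12 / 5) le_rfl h w hw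
    have h2 := psi_nonneg_of_half (kp (12 / 5)) (12 / 5) (by norm_num)
      (kp_ge_half (12 / 5) (by norm_num) le_rfl) u hu0
    linarith
  · -- the stationary point
    obtain ⟨x, hx1, hx2⟩ : ∃ x : ℝ, 12 / 5 ≤ x ∧ ub x = u := by
      have hB : u ≤ ub (u + 5) := by
        unfold ub
        have h1 := Real.log_le_sub_one_of_pos (x := u + 5) (by linarith)
        have h2 : 49 / 40 / (u + 5) ≤ 1 := by
          rw [div_le_one (by linarith)]
          linarith
        nlinarith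
      have hI := intermediate_value_Icc (show (12 / 5 : ℝ) ≤ u + 5 by linarith)
        (continuousOn_ub.mono Icc_subset_Ici_self) (show u ∈ Icc (ub (12 / 5)) (ub (u + 5)) from
          ⟨h, hB⟩)
      obtain ⟨x, hx, hxu⟩ := hI
      exact ⟨x, hx.1, hxu⟩
    have h0 : 0 ≤ psi (kp x) (1 / x ^ 2) u := by
      have := H_nonneg x hx1
      rwa [hx2] at this
    rcases le_total x w with hxw | hxw
    · exact h0.trans (hup x hx1 hx2.ge w hxw)
    · exact h0.trans (hdown w x hw hxw hx2.le)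

/-- `ψ ≥ 0` for `u ≤ 1`, `w ≥ 12/5` -/
theorem psi_nonneg_small (w u : ℝ) (hw : 12 / 5 ≤ w) (hu : 0 < u) (hu1 : u ≤ 1) :
    0 ≤ psi (kp w) (1 / w ^ 2) u := by
  have hk := kp_ge w hw
  have hw0 : 0 < w := by linarith
  apply psi_nonneg_of_le (kp w) _ (by linarith) _ u hu hu1
  intro u hu hu1
  have h1 : 1 / w ^ 2 * u ^ 2 - (1 - 1 / w ^ 2 * (2 * kp w + 1)) * u + kp w ^ 2 =
      (u ^ 2 - (w ^ 2 - 1 - 2 * kp w) * u + kp w ^ 2 * w ^ 2) / w ^ 2 := by
    field_simp
    ring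
  rw [h1]
  apply div_nonneg _ (by positivity)
  have h2 := kp_le_half w hw
  have h3 := kp_ge' w hw
  have h4 : 2 ≤ w ^ 2 - 1 - 2 * kp w := by nlinarith
  have h5 : w ^ 2 * (1 - kp w) ≤ 2 := by
    have h6 : 2 / w ^ 2 * w ^ 2 = 2 := by field_simp
    have h7 : (1 - kp w) ≤ 2 / w ^ 2 := by linarith
    nlinarith [mul_le_mul_of_nonneg_right h7 (sq_nonneg w)]
  have h8 : 0 ≤ (1 - u) * (w ^ 2 - 1 - 2 * kp w - 1 - u) := by
    apply mul_nonneg <;> linarith
  have h9 : 0 ≤ (1 + kp w) * (2 - w ^ 2 * (1 - kp w)) := by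
    apply mul_nonneg <;> linarith
  nlinarith

/-- the pointwise inequality at `ε = 0`, with the constants `(49/20, 2/5)` -/
theorem star0 (w u : ℝ) (hw : 1 ≤ w) (hu : 0 < u) :
    0 ≤ (2 * log w - 2 + 49 / 20 / w - 2 / 5 / w ^ 2) * (u - 1 - log u) + (u - 1) ^ 2 / w ^ 2 -
      (u * log u - u + 1) := by
  have hk := kp_nonneg w hw
  have h : 0 ≤ psi (kp w) (1 / w ^ 2) u := by
    rcases le_total w (12 / 5) with h | h
    · exact psi_nonneg_of_half _ w hw (kp_ge_half w hw h) u hu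
    · rcases le_total u 1 with h1 | h1
      · exact psi_nonneg_small w u h hu h1
      · exact psi_nonneg_large w u h h1
  have h2 := psi_mul (kp w) (1 / w ^ 2) u hu hk
  have h3 : 0 ≤ (u + kp w) * psi (kp w) (1 / w ^ 2) u := by positivity
  rw [h2] at h3
  unfold kp at h3
  have h4 : 1 / w ^ 2 * (u - 1) ^ 2 = (u - 1) ^ 2 / w ^ 2 := by ring
  rw [h4] at h3
  linarith

end Pool.Agent.ConeG.Rad.S0
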